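import Pool.Agent.Zk91.KB.Two

/-!
# The boundary conditions on the mirrors
-/

set_option autoImplicit false

open Filter Topology Real MeasureTheory Set
open scoped ContDiff

namespace Pool.Agent.Zk91.KB

variable {n : ℕ}

/-! ### the square kaleidoscope -/

section four

variable (s : ℝ) (hs : 0 < s) (d : Num (K4 s hs).D ((K4 s hs).B + (K4 s hs).B) n) (R : ℕ)

theorem al4_0 (i : Fin (n + 1)) : (K4 s hs).al d R i 0 = π / s * R * d.l i := by
  simp [Kal.al, K4]

theorem al4_1 (i : Fin (n + 1)) : (K4 s hs).al d R i 1 = -(π / s * R * d.m i) := by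
  simp [Kal.al, K4]

theorem be4_0 (i : Fin (n + 1)) : (K4 s hs).be d R i 0 = π / s * R * d.m i := by
  simp [Kal.be, K4]

theorem be4_1 (i : Fin (n + 1)) : (K4 s hs).be d R i 1 = π / s * R * d.l i := by
  simp [Kal.be, K4]

theorem rot4 (φ : ℝ) (hφ : sin (2 * φ) = 0) (z : ℂ) :
    (K4 s hs).u d R φ (Complex.exp (Complex.I * ((2 * π / (4 : ℕ) : ℝ) : ℂ)) * z) =
      (K4 s hs).u d R φ z := by
  have e : (2 * π / (4 : ℕ) : ℝ) = π / 2 := by push_cast; ring
  rw [e, Kal.u_eq_sum, Kal.u_eq_sum]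
  congr 1
  refine Finset.sum_congr rfl fun i _ => ?_
  rw [exp_mul_re, exp_mul_im, cos_pi_div_two, sin_pi_div_two, Fin.sum_univ_two, Fin.sum_univ_two,
    al4_0, al4_1, be4_0, be4_1]
  set A := π / s * R * d.l i
  set B := π / s * R * d.m i
  simp only [mode_eq φ hφ]
  have e1 : A * (0 * z.re - 1 * z.im) - B * (1 * z.re + 0 * z.im) = -B * z.re - A * z.im := by ring
  have e2 : A * (0 * z.re - 1 * z.im) + B * (1 * z.re + 0 * z.im) = -(-B * z.re + A * z.im) := by
    ring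
  have e3 : -B * (0 * z.re - 1 * z.im) - A * (1 * z.re + 0 * z.im) = -(A * z.re - B * z.im) := by
    ring
  have e4 : -B * (0 * z.re - 1 * z.im) + A * (1 * z.re + 0 * z.im) = A * z.re + B * z.im := by
    ring
  rw [e1, e2, e3, e4, cos_neg, cos_neg]
  ring

/-- on a diagonal mirror -/
theorem diag4 (i : Fin (n + 1)) (x y : ℝ) (j : ℤ) (h : x = y + 2 * j * s) :
    (cos (π / s * R * d.l i * x) = cos (π / s * R * d.l i * y) ∧
      sin (π / s * R * d.l i * x) = sin (π / s * R * d.l i * y)) ∧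
    (cos (π / s * R * d.m i * x) = cos (π / s * R * d.m i * y) ∧
      sin (π / s * R * d.m i * x) = sin (π / s * R * d.m i * y)) := by
  have key : ∀ l : ℤ, π / s * R * l * x = π / s * R * l * y + ((R * l * j : ℤ) : ℝ) * (2 * π) := by
    intro l
    rw [h]
    push_cast
    field_simp
  rw [key, key]
  exact ⟨⟨Real.cos_add_int_mul_two_pi _ _, Real.sin_add_int_mul_two_pi _ _⟩,
    ⟨Real.cos_add_int_mul_two_pi _ _, Real.sin_add_int_mul_two_pi _ _⟩⟩

theorem diag4_eq (z : ℂ) (j : ℤ) (hj : (Complex.exp (Complex.I * ((π / (4 : ℕ) : ℝ) : ℂ)) * z).re =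
      j * (2 * cos (π / (4 : ℕ)) * s)) : z.re = z.im + 2 * j * s := by
  rw [exp_mul_re] at hj
  push_cast at hj
  rw [cos_pi_div_four, sin_pi_div_four] at hj
  have h2 : 0 < √(2 : ℝ) := Real.sqrt_pos.2 (by norm_num)
  have h3 : √(2 : ℝ) / 2 * (z.re - (z.im + 2 * j * s)) = 0 := by linear_combination hj
  rcases mul_eq_zero.1 h3 with h4 | h4
  · have : 0 < √(2 : ℝ) / 2 := by positivity
    linarith
  · linarith

theorem dir4 (k : ℕ) (z : ℂ) (hz : z ∈ Mirror 4 s k) : (K4 s hs).u d R 0 z = 0 := by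
  refine dirichlet_of (r := 4) (rot4 s hs d R 0 (by simp)) (fun z hz => ?_) (fun z hz => ?_) k z hz
  · refine (K4 s hs).dir_re d s ?_ R z hz
    show π / s * s = π
    field_simp
  · obtain ⟨j, hj⟩ := hz
    have h := diag4_eq s z j hj
    rw [Kal.u_eq_sum, mul_eq_zero]
    right
    refine Finset.sum_eq_zero fun i _ => ?_
    obtain ⟨⟨c1, s1⟩, ⟨c2, s2⟩⟩ := diag4 s hs d R i z.re z.im j h
    rw [Fin.sum_univ_two, al4_0, al4_1, be4_0, be4_1]
    simp only [add_zero]
    rw [s1, neg_mul, sin_neg, s2]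
    ring

theorem neu4 (k : ℕ) (z : ℂ) (hz : z ∈ Mirror 4 s k) : fderiv ℝ ((K4 s hs).u d R (π / 2)) z
    (Complex.exp (-(Complex.I * ((π * k / (4 : ℕ) : ℝ) : ℂ)))) = 0 := by
  have hd : Differentiable ℝ ((K4 s hs).u d R (π / 2)) :=
    ((K4 s hs).contDiff d R (π / 2)).differentiable (by simp)
  refine neumann_of (r := 4) hd (rot4 s hs d R (π / 2) (by
    rw [mul_div_cancel₀ π (two_ne_zero)]; exact sin_pi)) (fun z hz => ?_) (fun z hz => ?_) k z hz
  · refine (K4 s hs).neu_re d s ?_ R z hz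
    show π / s * s = π
    field_simp
  · obtain ⟨j, hj⟩ := hz
    have h := diag4_eq s z j hj
    have e : Complex.exp (-(Complex.I * ((π / (4 : ℕ) : ℝ) : ℂ))) =
        (√2 / 2 : ℝ) • (1 : ℂ) - (√2 / 2 : ℝ) • Complex.I := by
      have h1 : -(Complex.I * ((π / (4 : ℕ) : ℝ) : ℂ)) = ((-(π / 4) : ℝ) : ℂ) * Complex.I := by
        push_cast; ring
      rw [h1]
      apply Complex.ext
      · rw [Complex.exp_ofReal_mul_I_re, cos_neg, cos_pi_div_four]
        simp
      · rw [Complex.exp_ofReal_mul_I_im, sin_neg, sin_pi_div_four]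
        simp
    rw [e, map_sub, map_smul, map_smul, (K4 s hs).dx_u, (K4 s hs).dy_u, ← smul_sub, ← mul_sub,
      ← Finset.sum_sub_distrib, Fintype.sum_prod_type]
    have h0 : ∑ i : Fin (n + 1), ∑ ρ : Fin 2, ((K4 s hs).al d R i ρ *
        cos ((K4 s hs).al d R i ρ * z.re + π / 2) * sin ((K4 s hs).be d R i ρ * z.im + π / 2) -
        sin ((K4 s hs).al d R i ρ * z.re + π / 2) * ((K4 s hs).be d R i ρ *
        cos ((K4 s hs).be d R i ρ * z.im + π / 2))) = 0 := by
      refine Finset.sum_eq_zero fun i _ => ?_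
      obtain ⟨⟨c1, s1⟩, ⟨c2, s2⟩⟩ := diag4 s hs d R i z.re z.im j h
      rw [Fin.sum_univ_two, al4_0, al4_1, be4_0, be4_1]
      simp only [cos_add_pi_div_two, sin_add_pi_div_two, neg_mul, sin_neg, cos_neg]
      rw [s1, s2, c1, c2]
      ring
    rw [h0, mul_zero, smul_zero]

end four

/-! ### the triangular kaleidoscope -/

section six

variable (s : ℝ) (hs : 0 < s) (d : Num (K6 s hs).D ((K6 s hs).B + (K6 s hs).B) n) (R : ℕ)

theorem b6 : π / (√3 * s) = π / s * (√3 / 3) := by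
  have h3 : √(3 : ℝ) ^ 2 = 3 := Real.sq_sqrt (by norm_num)
  have h30 : 0 < √(3 : ℝ) := Real.sqrt_pos.2 (by norm_num)
  by_cases hs : s = 0
  · simp [hs]
  · field_simp
    exact h3.symm

theorem al6_0 (i : Fin (n + 1)) : (K6 s hs).al d R i 0 = 2 * (π / s * R * d.l i) := by
  simp [Kal.al, K6]
  ring

theorem al6_1 (i : Fin (n + 1)) :
    (K6 s hs).al d R i 1 = π / s * R * d.l i - π / s * R * d.m i := by
  simp [Kal.al, K6]
  ring

theorem al6_2 (i : Fin (n + 1)) :
    (K6 s hs).al d R i 2 = -(π / s * R * d.l i) - π / s * R * d.m i := by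
  simp [Kal.al, K6]
  ring

theorem be6_0 (i : Fin (n + 1)) :
    (K6 s hs).be d R i 0 = 2 * (π / s * R * d.m i) * √3 / 3 := by
  have := b6 s
  simp [Kal.be, K6]
  rw [this]
  ring

theorem be6_1 (i : Fin (n + 1)) :
    (K6 s hs).be d R i 1 = (3 * (π / s * R * d.l i) + π / s * R * d.m i) * √3 / 3 := by
  have := b6 s
  simp [Kal.be, K6]
  rw [this]
  ring

theorem be6_2 (i : Fin (n + 1)) :
    (K6 s hs).be d R i 2 = (3 * (π / s * R * d.l i) - π / s * R * d.m i) * √3 / 3 := by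
  have := b6 s
  simp [Kal.be, K6]
  rw [this]
  ring

theorem rot6 (φ : ℝ) (hφ : sin (2 * φ) = 0) (z : ℂ) :
    (K6 s hs).u d R φ (Complex.exp (Complex.I * ((2 * π / (6 : ℕ) : ℝ) : ℂ)) * z) =
      (K6 s hs).u d R φ z := by
  have e : (2 * π / (6 : ℕ) : ℝ) = π / 3 := by push_cast; ring
  rw [e, Kal.u_eq_sum, Kal.u_eq_sum]
  congr 1
  refine Finset.sum_congr rfl fun i _ => ?_
  rw [exp_mul_re, exp_mul_im, cos_pi_div_three, sin_pi_div_three, Fin.sum_univ_three,
    Fin.sum_univ_three, al6_0, al6_1, al6_2, be6_0, be6_1, be6_2]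
  set A := π / s * R * d.l i
  set B := π / s * R * d.m i
  have h3 : √(3 : ℝ) ^ 2 = 3 := Real.sq_sqrt (by norm_num)
  set S := √(3 : ℝ)
  set x := z.re
  set y := z.im
  simp only [mode_eq φ hφ]
  have p0 : 2 * A * (1 / 2 * x - S / 2 * y) - 2 * B * S / 3 * (S / 2 * x + 1 / 2 * y) =
      (A - B) * x - (3 * A + B) * S / 3 * y := by
    linear_combination (-B * x / 3) * h3
  have q0 : 2 * A * (1 / 2 * x - S / 2 * y) + 2 * B * S / 3 * (S / 2 * x + 1 / 2 * y) =
      -((-A - B) * x + (3 * A - B) * S / 3 * y) := by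
    linear_combination (B * x / 3) * h3
  have p1 : (A - B) * (1 / 2 * x - S / 2 * y) - (3 * A + B) * S / 3 * (S / 2 * x + 1 / 2 * y) =
      (-A - B) * x - (3 * A - B) * S / 3 * y := by
    linear_combination (-(3 * A + B) * x / 6) * h3
  have q1 : (A - B) * (1 / 2 * x - S / 2 * y) + (3 * A + B) * S / 3 * (S / 2 * x + 1 / 2 * y) =
      2 * A * x + 2 * B * S / 3 * y := by
    linear_combination ((3 * A + B) * x / 6) * h3
  have p2 : (-A - B) * (1 / 2 * x - S / 2 * y) - (3 * A - B) * S / 3 * (S / 2 * x + 1 / 2 * y) =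
      -(2 * A * x - 2 * B * S / 3 * y) := by
    linear_combination (-(3 * A - B) * x / 6) * h3
  have q2 : (-A - B) * (1 / 2 * x - S / 2 * y) + (3 * A - B) * S / 3 * (S / 2 * x + 1 / 2 * y) =
      (A - B) * x + (3 * A + B) * S / 3 * y := by
    linear_combination ((3 * A - B) * x / 6) * h3
  rw [p0, q0, p1, q1, p2, q2, cos_neg, cos_neg]
  ring

theorem diag6_eq (z : ℂ) (j : ℤ) (hj : (Complex.exp (Complex.I * ((π / (6 : ℕ) : ℝ) : ℂ)) * z).re =
      j * (2 * cos (π / (6 : ℕ)) * s)) :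
    (Complex.exp (Complex.I * ((-(π / 3) : ℝ) : ℂ)) * z).im = (-j : ℤ) * (√3 * s) := by
  rw [exp_mul_re] at hj
  rw [exp_mul_im]
  push_cast at hj ⊢
  rw [cos_pi_div_six, sin_pi_div_six] at hj
  rw [cos_neg, sin_neg, cos_pi_div_three, sin_pi_div_three]
  linear_combination -hj

theorem back6 (z : ℂ) : Complex.exp (Complex.I * ((2 * π / (6 : ℕ) : ℝ) : ℂ)) *
    (Complex.exp (Complex.I * ((-(π / 3) : ℝ) : ℂ)) * z) = z := by
  rw [← mul_assoc, ← Complex.exp_add]
  have : Complex.I * ((2 * π / (6 : ℕ) : ℝ) : ℂ) + Complex.I * ((-(π / 3) : ℝ) : ℂ) = 0 := by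
    push_cast
    ring
  rw [this, Complex.exp_zero, one_mul]

theorem dir6 (k : ℕ) (z : ℂ) (hz : z ∈ Mirror 6 s k) : (K6 s hs).u d R 0 z = 0 := by
  refine dirichlet_of (r := 6) (rot6 s hs d R 0 (by simp)) (fun z hz => ?_) (fun z hz => ?_) k z hz
  · refine (K6 s hs).dir_re d s ?_ R z hz
    show π / s * s = π
    field_simp
  · obtain ⟨j, hj⟩ := hz
    have h := diag6_eq s z j hj
    rw [← back6 z, rot6 s hs d R 0 (by simp)]
    refine (K6 s hs).dir_im d (√3 * s) ?_ R _ ⟨-j, h⟩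
    show π / (√3 * s) * (√3 * s) = π
    field_simp

theorem neu6 (k : ℕ) (z : ℂ) (hz : z ∈ Mirror 6 s k) : fderiv ℝ ((K6 s hs).u d R (π / 2)) z
    (Complex.exp (-(Complex.I * ((π * k / (6 : ℕ) : ℝ) : ℂ)))) = 0 := by
  have hd : Differentiable ℝ ((K6 s hs).u d R (π / 2)) :=
    ((K6 s hs).contDiff d R (π / 2)).differentiable (by simp)
  have hrot := rot6 s hs d R (π / 2) (by rw [mul_div_cancel₀ π (two_ne_zero)]; exact sin_pi)
  refine neumann_of (r := 6) hd hrot (fun z hz => ?_) (fun z hz => ?_) k z hz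
  · refine (K6 s hs).neu_re d s ?_ R z hz
    show π / s * s = π
    field_simp
  · obtain ⟨j, hj⟩ := hz
    have h := diag6_eq s z j hj
    set z' := Complex.exp (Complex.I * ((-(π / 3) : ℝ) : ℂ)) * z with hz'
    have h1 := (K6 s hs).neu_im d (√3 * s) (by
      show π / (√3 * s) * (√3 * s) = π
      field_simp) R z' ⟨-j, h⟩
    have h2 := fderiv_rot hd hrot z' (-Complex.I)
    rw [map_neg, h1, neg_zero, hz', back6] at h2
    have h3 : Complex.exp (Complex.I * ((2 * π / (6 : ℕ) : ℝ) : ℂ)) * -Complex.I =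
        Complex.exp (-(Complex.I * ((π / (6 : ℕ) : ℝ) : ℂ))) := by
      have h4 : -Complex.I = Complex.exp (((-(π / 2) : ℝ) : ℂ) * Complex.I) := by
        apply Complex.ext
        · rw [Complex.exp_ofReal_mul_I_re, cos_neg, cos_pi_div_two]
          simp
        · rw [Complex.exp_ofReal_mul_I_im, sin_neg, sin_pi_div_two]
          simp
      rw [h4, ← Complex.exp_add]
      congr 1
      push_cast
      ring
    rw [h3] at h2
    exact h2.symm

end six

end Pool.Agent.Zk91.KB
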