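import Pool.Agent.Zk60.BW.Tay

/-!
# Normalized sums of independent bounded functions
-/

set_option autoImplicit false

open Filter Topology Real MeasureTheory Set ProbabilityTheory

namespace Pool.Agent.Zk91.KB

open Pool.Agent.Zk60.BW (tay rem_bound norm_prod_sub_le pow_div_fact_le)

variable {X : Type*} [MeasurableSpace X]

/-- assumptions on the summands -/
structure Ind (P : Measure X) {n : ℕ} (G : Fin n → X → ℝ) (V : Fin n → ℝ) (T : ℝ) : Prop where
  meas : ∀ i, Measurable (G i)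
  bdd : ∀ i x, |G i x| ≤ T
  mean : ∀ i, ∫ x, G i x ∂P = 0
  var : ∀ i, ∫ x, G i x ^ 2 ∂P = V i

section one

variable (P : Measure X) [IsProbabilityMeasure P]

theorem int_pow (G : X → ℝ) (hG : Measurable G) (T : ℝ) (hT : ∀ x, |G x| ≤ T) (r : ℕ) :
    Integrable (fun x => G x ^ r) P :=
  Integrable.of_bound (hG.pow_const r).aestronglyMeasurable (T ^ r) (ae_of_all _ fun x => by
    rw [norm_pow, Real.norm_eq_abs]; exact pow_le_pow_left₀ (abs_nonneg _) (hT x) r)

theorem exp_one (G : X → ℝ) (hG : Measurable G) (T : ℝ) (hT : ∀ x, |G x| ≤ T)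
    (h0 : ∫ x, G x ∂P = 0) (ρ : ℝ) (hρ : |ρ| * T ≤ 1) :
    ∫ x, Real.exp (ρ * G x) ∂P ≤ Real.exp (ρ ^ 2 * T ^ 2) := by
  have h1 : ∀ p, Real.exp (ρ * G p) ≤ 1 + ρ * G p + ρ ^ 2 * T ^ 2 := by
    intro p
    have hF := hT p
    have h2 : |ρ * G p| ≤ 1 := by
      rw [abs_mul]
      exact (mul_le_mul_of_nonneg_left hF (abs_nonneg _)).trans hρ
    have h3 := abs_le.1 (Real.abs_exp_sub_one_sub_id_le h2)
    have h4 : (ρ * G p) ^ 2 ≤ ρ ^ 2 * T ^ 2 := by
      rw [mul_pow]
      refine mul_le_mul_of_nonneg_left ?_ (sq_nonneg _)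
      rw [← sq_abs]
      exact pow_le_pow_left₀ (abs_nonneg _) hF 2
    linarith [h3.2]
  have hi1 : Integrable (fun p => G p) P := by
    simpa using int_pow P G hG T hT 1
  have hi2 : Integrable (fun p => Real.exp (ρ * G p)) P := by
    refine Integrable.of_bound
      (Real.measurable_exp.comp (measurable_const.mul hG)).aestronglyMeasurable
      (Real.exp 1) (ae_of_all _ fun p => ?_)
    rw [Real.norm_eq_abs, abs_of_pos (Real.exp_pos _)]
    refine Real.exp_le_exp.2 ?_
    refine (le_abs_self _).trans ?_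
    rw [abs_mul]
    exact (mul_le_mul_of_nonneg_left (hT p) (abs_nonneg _)).trans hρ
  have hA : Integrable (fun p => (1 : ℝ) + ρ * G p) P := (integrable_const 1).add (hi1.const_mul ρ)
  have hB : Integrable (fun p => (1 : ℝ) + ρ * G p + ρ ^ 2 * T ^ 2) P := hA.add (integrable_const _)
  calc ∫ p, Real.exp (ρ * G p) ∂P
      ≤ ∫ p, (1 + ρ * G p + ρ ^ 2 * T ^ 2) ∂P := integral_mono hi2 hB h1
    _ = 1 + ρ ^ 2 * T ^ 2 := by
        rw [integral_add hA (integrable_const _),
          integral_add (integrable_const _) (hi1.const_mul ρ), integral_const_mul, h0]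
        simp
    _ ≤ Real.exp (ρ ^ 2 * T ^ 2) := by
        have := Real.add_one_le_exp (ρ ^ 2 * T ^ 2)
        linarith

theorem char_one (G : X → ℝ) (hG : Measurable G) (T : ℝ) (hT : ∀ x, |G x| ≤ T)
    (h0 : ∫ x, G x ∂P = 0) (V : ℝ) (hV : ∫ x, G x ^ 2 ∂P = V) (s : ℝ) :
    ‖∫ p, Complex.exp ((s * G p : ℝ) * Complex.I) ∂P -
      ((1 - s ^ 2 * V / 2 : ℝ) : ℂ)‖ ≤ |s| ^ 3 * T ^ 3 / 6 := by
  have hi1 : Integrable (fun p => ((G p : ℝ) : ℂ)) P := by
    have := (int_pow P G hG T hT 1).ofReal (𝕜 := ℂ)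
    simpa using this
  have hi2 : Integrable (fun p => ((G p ^ 2 : ℝ) : ℂ)) P := (int_pow P G hG T hT 2).ofReal
  have hi3 : Integrable (fun p => Complex.exp ((s * G p : ℝ) * Complex.I)) P := by
    refine Integrable.of_bound ?_ 1 (ae_of_all _ fun p => ?_)
    · exact (Complex.measurable_exp.comp ((Complex.measurable_ofReal.comp
        (measurable_const.mul hG)).mul measurable_const)).aestronglyMeasurable
    · rw [Complex.norm_exp_ofReal_mul_I]
  have hA : Integrable (fun p => (1 : ℂ) + (s * Complex.I) * ((G p : ℝ) : ℂ)) P :=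
    (integrable_const 1).add (hi1.const_mul _)
  have hB : Integrable (fun p => (1 : ℂ) + (s * Complex.I) * ((G p : ℝ) : ℂ) -
      ((s ^ 2 / 2 : ℝ) : ℂ) * ((G p ^ 2 : ℝ) : ℂ)) P := hA.sub (hi2.const_mul _)
  have e1 : ((1 - s ^ 2 * V / 2 : ℝ) : ℂ) =
      ∫ p, (1 + (s * Complex.I) * (G p : ℝ) - (s ^ 2 / 2 : ℝ) * ((G p ^ 2 : ℝ) : ℂ)) ∂P := by
    rw [integral_sub hA (hi2.const_mul _),
      integral_add (integrable_const _) (hi1.const_mul _), integral_const_mul, integral_const_mul,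
      integral_complex_ofReal, integral_complex_ofReal, h0, hV]
    simp
    ring
  rw [e1, ← integral_sub hi3 hB]
  have h1 : ∀ p, ‖Complex.exp ((s * G p : ℝ) * Complex.I) -
      (1 + (s * Complex.I) * (G p : ℝ) - (s ^ 2 / 2 : ℝ) * ((G p ^ 2 : ℝ) : ℂ))‖ ≤
      |s| ^ 3 * T ^ 3 / 6 := by
    intro p
    have h2 := rem_bound 3 (s * G p)
    have e2 : tay 3 (s * G p) = 1 + (s * Complex.I) * (G p : ℝ) -
        (s ^ 2 / 2 : ℝ) * ((G p ^ 2 : ℝ) : ℂ) := by
      unfold tay
      rw [Finset.sum_range_succ, Finset.sum_range_succ, Finset.sum_range_succ]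
      simp only [Finset.range_zero, Finset.sum_empty, Nat.factorial]
      have hI := Complex.I_sq
      push_cast
      linear_combination ((s : ℂ) ^ 2 * (G p : ℂ) ^ 2 / 2) * hI
    rw [e2] at h2
    refine h2.trans ?_
    have h3 : |s * G p| ^ 3 ≤ |s| ^ 3 * T ^ 3 := by
      rw [abs_mul, mul_pow]
      exact mul_le_mul_of_nonneg_left (pow_le_pow_left₀ (abs_nonneg _) (hT p) 3) (by positivity)
    have h4 : ((3 : ℕ).factorial : ℝ) = 6 := by norm_num [Nat.factorial]
    rw [h4]
    exact div_le_div_of_nonneg_right h3 (by norm_num)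
  refine (norm_integral_le_of_norm_le_const (ae_of_all _ h1)).trans ?_
  simp

end one

/-- the normalized sum -/
noncomputable def SS {n : ℕ} (G : Fin n → X → ℝ) (x : Fin n → X) : ℝ := (1 / √n) * ∑ i, G i (x i)

/-- the product measure -/
noncomputable def Pn (P : Measure X) (n : ℕ) : Measure (Fin n → X) := Measure.pi fun _ => P

instance (P : Measure X) [IsProbabilityMeasure P] (n : ℕ) : IsProbabilityMeasure (Pn P n) := by
  unfold Pn; infer_instance

variable (P : Measure X) [IsProbabilityMeasure P] {n : ℕ} {G : Fin n → X → ℝ} {V : Fin n → ℝ} {T : ℝ}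

theorem Ind.measSS {P : Measure X} (h : Ind P G V T) : Measurable (SS G) := by
  unfold SS
  exact (Finset.measurable_fun_sum _ fun i _ => (h.meas i).comp (measurable_pi_apply i)).const_mul _

theorem Ind.absSS {P : Measure X} (h : Ind P G V T) (x : Fin n → X) :
    |SS G x| ≤ (1 / √n) * (n * T) := by
  unfold SS
  rw [abs_mul, abs_of_nonneg (by positivity : 0 ≤ 1 / √(n : ℝ))]
  refine mul_le_mul_of_nonneg_left ?_ (by positivity)
  refine (Finset.abs_sum_le_sum_abs _ _).trans ?_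
  calc ∑ i : Fin n, |G i (x i)| ≤ ∑ _i : Fin n, T := Finset.sum_le_sum fun i _ => h.bdd i (x i)
    _ = n * T := by simp

variable {P}

theorem Ind.exp_sum (h : Ind P G V T) (c : ℝ) (hn : 0 < n) (hc : |c| = 2)
    (hTn : 4 * T ^ 2 ≤ n) :
    ∫ x, Real.exp (c * SS G x) ∂(Pn P n) ≤ Real.exp (4 * T ^ 2) := by
  have hn0 : (0 : ℝ) < n := by exact_mod_cast hn
  have hs : 0 < √(n : ℝ) := Real.sqrt_pos.2 hn0
  have hs2 : √(n : ℝ) ^ 2 = n := Real.sq_sqrt hn0.le
  have e : ∀ x, Real.exp (c * SS G x) = ∏ i, Real.exp ((c * (1 / √n)) * G i (x i)) := by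
    intro x
    rw [← Real.exp_sum, ← Finset.mul_sum]
    unfold SS
    rw [mul_assoc]
  simp only [e]
  unfold Pn
  rw [integral_fintype_prod_eq_prod (μ := fun _ : Fin n => P)
    (fun (i : Fin n) (p : X) => Real.exp ((c * (1 / √n)) * G i p))]
  have hρ : |c * (1 / √n)| = 2 / √n := by
    rw [abs_mul, hc, abs_of_pos (by positivity)]
    ring
  have hρT : |c * (1 / √n)| * T ≤ 1 := by
    rw [hρ, div_mul_eq_mul_div, div_le_one hs]
    refine Real.le_sqrt_of_sq_le ?_
    linarith [mul_pow 2 T 2]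
  have hρ2 : (c * (1 / √n)) ^ 2 = 4 / n := by
    rw [← sq_abs, hρ, div_pow, hs2]
    norm_num
  calc ∏ i, ∫ p, Real.exp ((c * (1 / √n)) * G i p) ∂P
      ≤ ∏ _i : Fin n, Real.exp (4 / n * T ^ 2) := by
        refine Finset.prod_le_prod (fun i _ => integral_nonneg fun p => (Real.exp_pos _).le)
          fun i _ => ?_
        have := exp_one P (G i) (h.meas i) T (h.bdd i) (h.mean i) (c * (1 / √n)) hρT
        rwa [hρ2] at this
    _ = Real.exp (4 * T ^ 2) := by
        rw [Finset.prod_const, ← Real.exp_nat_mul, Finset.card_univ, Fintype.card_fin]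
        congr 1
        field_simp

theorem Ind.pow_sum (h : Ind P G V T) (hn : 0 < n) (hTn : 4 * T ^ 2 ≤ n) :
    ∫ x, SS G x ^ (2 * n) / ((2 * n).factorial : ℝ) ∂(Pn P n) ≤
      (1 / 4) ^ n * (2 * Real.exp (4 * T ^ 2)) := by
  have hm := h.measSS
  have hint : ∀ c : ℝ, Integrable (fun x => Real.exp (c * SS G x)) (Pn P n) := by
    intro c
    refine Integrable.of_bound
      (Real.measurable_exp.comp (measurable_const.mul hm)).aestronglyMeasurable
      (Real.exp (|c| * ((1 / √n) * (n * T)))) (ae_of_all _ fun x => ?_)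
    rw [Real.norm_eq_abs, abs_of_pos (Real.exp_pos _)]
    refine Real.exp_le_exp.2 ((le_abs_self _).trans ?_)
    rw [abs_mul]
    exact mul_le_mul_of_nonneg_left (h.absSS x) (abs_nonneg _)
  have hpt : ∀ x, SS G x ^ (2 * n) / ((2 * n).factorial : ℝ) ≤
      (1 / 4) ^ n * (Real.exp (2 * SS G x) + Real.exp (-2 * SS G x)) := by
    intro x
    set y := SS G x
    have h1 := pow_div_fact_le (2 * |y|) (by positivity) (2 * n)
    have h2 : Real.exp (2 * |y|) ≤ Real.exp (2 * y) + Real.exp (-2 * y) := by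
      rcases abs_choice y with h | h <;> rw [h]
      · have := Real.exp_pos (-2 * y); linarith
      · have := Real.exp_pos (2 * y)
        have e : 2 * -y = -2 * y := by ring
        rw [e]; linarith
    have h3 : (2 * |y|) ^ (2 * n) = 4 ^ n * y ^ (2 * n) := by
      rw [pow_mul, pow_mul, mul_pow, sq_abs, mul_pow]
      norm_num
    rw [h3] at h1
    have h4 : (4 : ℝ) ^ n * (1 / 4) ^ n = 1 := by
      rw [← mul_pow]; norm_num
    calc y ^ (2 * n) / ((2 * n).factorial : ℝ)
        = (1 / 4) ^ n * (4 ^ n * y ^ (2 * n) / ((2 * n).factorial : ℝ)) := by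
          rw [mul_div_assoc, ← mul_assoc, mul_comm ((1 / 4 : ℝ) ^ n), h4, one_mul]
      _ ≤ _ := mul_le_mul_of_nonneg_left (h1.trans h2) (by positivity)
  have hint2 : Integrable (fun x => SS G x ^ (2 * n) / ((2 * n).factorial : ℝ)) (Pn P n) :=
    (int_pow (Pn P n) (SS G) hm _ h.absSS (2 * n)).div_const _
  calc ∫ x, SS G x ^ (2 * n) / ((2 * n).factorial : ℝ) ∂(Pn P n)
      ≤ ∫ x, (1 / 4) ^ n * (Real.exp (2 * SS G x) + Real.exp (-2 * SS G x)) ∂(Pn P n) :=
        integral_mono hint2 (((hint 2).add (hint (-2))).const_mul _) hpt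
    _ = (1 / 4) ^ n * (∫ x, Real.exp (2 * SS G x) ∂(Pn P n) +
          ∫ x, Real.exp (-2 * SS G x) ∂(Pn P n)) := by
        rw [integral_const_mul, integral_add (hint 2) (hint (-2))]
    _ ≤ (1 / 4) ^ n * (2 * Real.exp (4 * T ^ 2)) := by
        refine mul_le_mul_of_nonneg_left ?_ (by positivity)
        have h1 := h.exp_sum 2 hn (by norm_num) hTn
        have h2 := h.exp_sum (-2) hn (by norm_num) hTn
        linarith

theorem Ind.char_sum (h : Ind P G V T) (hT : 0 ≤ T) (hn : 0 < n) (hTn : 4 * T ^ 2 ≤ n) :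
    ‖∫ x, Complex.exp ((SS G x : ℝ) * Complex.I) ∂(Pn P n) -
      ((Real.exp (-((1 / n) * ∑ i, V i) / 2) : ℝ) : ℂ)‖ ≤ T ^ 3 / √n + T ^ 4 / n := by
  have hn0 : (0 : ℝ) < n := by exact_mod_cast hn
  have hs : 0 < √(n : ℝ) := Real.sqrt_pos.2 hn0
  have hs2 : √(n : ℝ) ^ 2 = n := Real.sq_sqrt hn0.le
  have hV0 : ∀ i, 0 ≤ V i := fun i => by
    rw [← h.var i]; exact integral_nonneg fun p => sq_nonneg _
  have hV1 : ∀ i, V i ≤ T ^ 2 := fun i => by
    rw [← h.var i]
    have h1 : ∫ p, G i p ^ 2 ∂P ≤ ∫ _p, T ^ 2 ∂P := by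
      refine integral_mono (int_pow P (G i) (h.meas i) T (h.bdd i) 2) (integrable_const _) fun p => ?_
      have h3 := pow_le_pow_left₀ (abs_nonneg _) (h.bdd i p) 2
      rwa [sq_abs] at h3
    rwa [integral_const, probReal_univ, one_smul] at h1
  have e : ∀ x, Complex.exp ((SS G x : ℝ) * Complex.I) =
      ∏ i, Complex.exp (((1 / √n) * G i (x i) : ℝ) * Complex.I) := by
    intro x
    rw [← Complex.exp_sum, ← Finset.sum_mul]
    congr 2
    unfold SS
    rw [Finset.mul_sum]
    push_cast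
    rfl
  simp only [e]
  unfold Pn
  rw [integral_fintype_prod_eq_prod (μ := fun _ : Fin n => P)
    (fun (i : Fin n) (p : X) => Complex.exp (((1 / √n) * G i p : ℝ) * Complex.I))]
  have e2 : ((Real.exp (-((1 / n) * ∑ i, V i) / 2) : ℝ) : ℂ) =
      ∏ i, ((Real.exp (-(V i / (2 * n))) : ℝ) : ℂ) := by
    rw [← Complex.ofReal_prod, ← Real.exp_sum]
    congr 2
    rw [Finset.mul_sum, Finset.sum_neg_distrib, neg_div, Finset.sum_div]
    congr 1
    refine Finset.sum_congr rfl fun i _ => ?_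
    field_simp
  rw [e2]
  refine (norm_prod_sub_le _ _ _ (fun i => ?_) (fun i => ?_)).trans ?_
  · refine (norm_integral_le_of_norm_le_const (C := 1) (ae_of_all _ fun p => ?_)).trans (by simp)
    rw [Complex.norm_exp_ofReal_mul_I]
  · rw [Complex.norm_real, Real.norm_eq_abs, abs_of_pos (Real.exp_pos _)]
    refine Real.exp_le_one_iff.2 ?_
    have := hV0 i
    have : 0 ≤ V i / (2 * n) := by positivity
    linarith
  have hterm : ∀ i : Fin n, ‖∫ p, Complex.exp (((1 / √n) * G i p : ℝ) * Complex.I)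
      ∂P - ((Real.exp (-(V i / (2 * n))) : ℝ) : ℂ)‖ ≤
      T ^ 3 / (n * √n) + T ^ 4 / n ^ 2 := by
    intro i
    have h1 := char_one P (G i) (h.meas i) T (h.bdd i) (h.mean i) (V i) (h.var i) (1 / √n)
    have h2 : (1 / √(n : ℝ)) ^ 2 * V i / 2 = V i / (2 * n) := by
      rw [div_pow, hs2]
      field_simp
    rw [h2] at h1
    have h3 : |1 / √(n : ℝ)| ^ 3 * T ^ 3 / 6 ≤ T ^ 3 / (n * √n) := by
      rw [abs_of_pos (by positivity), div_pow]
      have : √(n : ℝ) ^ 3 = n * √n := by rw [pow_succ, hs2]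
      rw [this, one_pow, one_div, inv_mul_eq_div]
      exact div_le_self (by positivity) (by norm_num)
    set y := V i / (2 * n) with hy
    have hy0 : 0 ≤ y := by rw [hy]; exact div_nonneg (hV0 i) (by positivity)
    have hy1 : y ≤ T ^ 2 / n := by
      rw [hy, div_le_div_iff₀ (by positivity) hn0]
      nlinarith [hV1 i, sq_nonneg T]
    have hy2 : y ≤ 1 := hy1.trans (by
      rw [div_le_one hn0]
      nlinarith [sq_nonneg T])
    have h4 : ‖((1 - y : ℝ) : ℂ) - ((Real.exp (-y) : ℝ) : ℂ)‖ ≤ T ^ 4 / n ^ 2 := by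
      rw [← Complex.ofReal_sub, Complex.norm_real, Real.norm_eq_abs]
      have h5 := Real.abs_exp_sub_one_sub_id_le (x := -y) (by rw [abs_neg, abs_of_nonneg hy0]; exact hy2)
      have h6 : (1 - y) - Real.exp (-y) = -(Real.exp (-y) - 1 - -y) := by ring
      rw [h6, abs_neg]
      refine h5.trans ?_
      rw [neg_sq]
      calc y ^ 2 ≤ (T ^ 2 / n) ^ 2 := pow_le_pow_left₀ hy0 hy1 2
        _ = T ^ 4 / n ^ 2 := by ring
    calc ‖∫ p, Complex.exp (((1 / √n) * G i p : ℝ) * Complex.I) ∂P - ((Real.exp (-y) : ℝ) : ℂ)‖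
        = ‖(∫ p, Complex.exp (((1 / √n) * G i p : ℝ) * Complex.I) ∂P - ((1 - y : ℝ) : ℂ)) +
            (((1 - y : ℝ) : ℂ) - ((Real.exp (-y) : ℝ) : ℂ))‖ := by
          congr 1; ring
      _ ≤ _ := (norm_add_le _ _).trans (add_le_add (h1.trans h3) h4)
  refine (Finset.sum_le_sum fun i _ => hterm i).trans (le_of_eq ?_)
  rw [Finset.sum_const, Finset.card_univ, Fintype.card_fin, nsmul_eq_mul]
  field_simp

theorem Ind.sq_sum (h : Ind P G V T) (hn : 0 < n) :
    ∫ x, SS G x ^ 2 ∂(Pn P n) = (1 / (n : ℝ)) * ∑ i, V i := by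
  have hn0 : (0 : ℝ) < n := by exact_mod_cast hn
  have hmem : ∀ i : Fin n, MemLp (fun p => G i p) 2 P := fun i =>
    MemLp.of_bound (h.meas i).aestronglyMeasurable T
      (ae_of_all _ fun p => by rw [Real.norm_eq_abs]; exact h.bdd i p)
  have h1 := variance_sum_pi (μ := fun _ : Fin n => P)
    (X := fun (i : Fin n) (p : X) => G i p) hmem
  have hmeas : AEMeasurable (∑ i, fun x : Fin n → X => G i (x i))
      (Measure.pi fun _ : Fin n => P) := by
    have e : (∑ i, fun x : Fin n → X => G i (x i)) = fun x => ∑ i, G i (x i) := by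
      funext x
      rw [Finset.sum_apply]
    rw [e]
    exact (Finset.measurable_fun_sum _ fun i _ =>
      (h.meas i).comp (measurable_pi_apply i)).aemeasurable
  have h2 : ∫ x, (∑ i, fun x : Fin n → X => G i (x i)) x
      ∂(Measure.pi fun _ : Fin n => P) = 0 := by
    simp only [Finset.sum_apply]
    rw [integral_finsetSum]
    · refine Finset.sum_eq_zero fun i _ => ?_
      rw [integral_comp_eval (μ := fun _ : Fin n => P) (f := fun p => G i p)
        (h.meas i).aestronglyMeasurable, h.mean]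
    · intro i _
      refine Integrable.of_bound ?_ T (ae_of_all _ fun p => by
        rw [Real.norm_eq_abs]; exact h.bdd i _)
      exact ((h.meas i).comp (measurable_pi_apply i)).aestronglyMeasurable
  rw [variance_of_integral_eq_zero hmeas h2] at h1
  have h3 : ∀ i : Fin n, Var[fun p => G i p; P] = V i := by
    intro i
    rw [variance_of_integral_eq_zero (h.meas i).aemeasurable (h.mean i), h.var]
  simp only [h3, Finset.sum_apply] at h1
  unfold SS
  simp only [mul_pow]
  rw [integral_const_mul]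
  unfold Pn
  rw [h1, div_pow, Real.sq_sqrt hn0.le]
  simp

end Pool.Agent.Zk91.KB
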