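import Pool.Agent.Zk91.KB.MirLaw
import Pool.Agent.Zk91.KB.BC

/-!
# Coordinates adapted to a mirror
-/

set_option autoImplicit false

open Filter Topology Real MeasureTheory Set
open scoped ContDiff

namespace Pool.Agent.Zk91.KB

variable {ν n : ℕ}

/-- the kaleidoscope in the coordinates of the mirror point `p.1` with normal `p.2` -/
def Adapt (K : Kal ν) (p : ℂ × ℂ) : Prop :=
  ∃ K' : Kal ν, Vec' K'.g' ∧ K'.c / K'.a ≤ K.c / K.a + K.c / K.b ∧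
    K'.c / K'.b ≤ K.c / K.a + K.c / K.b ∧
    (∃ (s : ℝ) (j : ℤ) (y0 : ℝ), K'.a * s = π ∧
      p.1 = p.2 * (((j * s : ℝ) : ℂ) + (y0 : ℂ) * Complex.I)) ∧
    ∀ (n : ℕ) (d : Num K.D (K.B + K.B) n), ∃ d' : Num K'.D (K'.B + K'.B) n, d'.N = d.N ∧
      ∀ R : ℕ, K'.lam d' R = K.lam d R ∧
        ∀ φ, sin (2 * φ) = 0 → ∀ z, K.u d R φ (p.2 * z) = K'.u d' R φ z

/-- the quarter turn of a kaleidoscope -/
noncomputable def Kal.turn (K : Kal ν) (hv : Vec K.g' (fun ρ => -K.g ρ)) : Kal ν where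
  D := K.D
  B := K.B
  g := K.g'
  g' := fun ρ => -K.g ρ
  τ := fun ρ => K.τ ρ - π / 2
  a := K.b
  b := K.a
  c := K.c
  hν := K.hν
  hD := K.hD
  vec := hv
  bd := by
    intro ρ
    obtain ⟨a1, a2, a3, a4⟩ := K.bd ρ
    refine ⟨a3, a4, ?_, ?_⟩
    · simpa using a1
    · simpa using a2
  ha := K.hb
  hb := K.ha
  hc := K.hc
  rotX := by
    intro ρ l m
    rw [K.rotY ρ l m, cos_sub_pi_div_two, sin_sub_pi_div_two]
    ring
  rotY := by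
    intro ρ l m
    have := K.rotX ρ l m
    rw [sin_sub_pi_div_two, cos_sub_pi_div_two]
    simp only [Prod.fst_neg, Prod.snd_neg]
    push_cast
    linear_combination -this

theorem Kal.turn_u (K : Kal ν) (hv : Vec K.g' (fun ρ => -K.g ρ)) (d : Num K.D (K.B + K.B) n)
    (R : ℕ) (φ : ℝ) (z : ℂ) :
    K.u d R φ (Complex.I * z) = (K.turn hv).u (show Num (K.turn hv).D _ n from d) R φ z := by
  unfold Kal.u
  congr 1
  refine Finset.sum_congr rfl fun q _ => ?_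
  have e1 : (Complex.I * z).re = -z.im := by simp
  have e2 : (Complex.I * z).im = z.re := by simp
  have e3 : (K.turn hv).al (show Num (K.turn hv).D _ n from d) R q.1 q.2 = K.be d R q.1 q.2 := rfl
  have e4 : (K.turn hv).be (show Num (K.turn hv).D _ n from d) R q.1 q.2 = -K.al d R q.1 q.2 := by
    unfold Kal.be Kal.al Kal.turn
    simp only [Prod.fst_neg, Prod.snd_neg]
    push_cast
    ring
  rw [e1, e2, e3, e4, mul_comm (sin _)]
  congr 2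
  ring

theorem adapt_self (K : Kal ν) (hv : Vec' K.g') (p : ℂ × ℂ) (s : ℝ) (j : ℤ) (y0 : ℝ)
    (hs : K.a * s = π) (hp : p.1 = p.2 * (((j * s : ℝ) : ℂ) + (y0 : ℂ) * Complex.I))
    (hu : ∀ (n : ℕ) (d : Num K.D (K.B + K.B) n) (R : ℕ) (φ : ℝ), sin (2 * φ) = 0 → ∀ z,
      K.u d R φ (p.2 * z) = K.u d R φ z) : Adapt K p := by
  have ha := K.ha
  have hb := K.hb
  have hc := K.hc
  have h1 : 0 ≤ K.c / K.a := by positivity
  have h2 : 0 ≤ K.c / K.b := by positivity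
  exact ⟨K, hv, by linarith, by linarith, ⟨s, j, y0, hs, hp⟩,
    fun n d => ⟨d, rfl, fun R => ⟨rfl, fun φ hφ z => hu n d R φ hφ z⟩⟩⟩

theorem adapt_turn (K : Kal ν) (hv : Vec K.g' (fun ρ => -K.g ρ)) (hv' : Vec' (fun ρ => -K.g ρ))
    (p : ℂ × ℂ) (s : ℝ) (j : ℤ) (y0 : ℝ)
    (hs : K.b * s = π) (hp : p.1 = p.2 * (((j * s : ℝ) : ℂ) + (y0 : ℂ) * Complex.I))
    (hu : ∀ (n : ℕ) (d : Num K.D (K.B + K.B) n) (R : ℕ) (φ : ℝ), sin (2 * φ) = 0 → ∀ z,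
      K.u d R φ (p.2 * z) = K.u d R φ (Complex.I * z)) : Adapt K p := by
  have ha := K.ha
  have hb := K.hb
  have hc := K.hc
  have h1 : 0 ≤ K.c / K.a := by positivity
  have h2 : 0 ≤ K.c / K.b := by positivity
  refine ⟨K.turn hv, hv', ?_, ?_, ⟨s, j, y0, hs, hp⟩,
    fun n d => ⟨d, rfl, fun R => ⟨rfl, fun φ hφ z => ?_⟩⟩⟩
  · show K.c / K.b ≤ _
    linarith
  · show K.c / K.a ≤ _
    linarith
  · rw [hu n d R φ hφ z]
    exact K.turn_u hv d R φ z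

/-! ### the rectangular grid -/

section two

variable (a b : ℝ) (ha : 0 < a) (hb : 0 < b) (p q : ℕ) (hp : 0 < p) (hq : 0 < q)
  (hab : (q : ℝ) * a ^ 2 = p * b ^ 2)

theorem adapt2_re (z : ℂ) (h : ∃ j : ℤ, z.re = j * a) :
    Adapt (K2 a b ha hb p q hp hq hab) (z, 1) := by
  obtain ⟨j, hj⟩ := h
  refine adapt_self _ ⟨?_, fun ρ σ _ => Subsingleton.elim _ _, ?_⟩ _ a j z.im ?_ ?_
    fun n d R φ _ z => by rw [one_mul]
  · show ∀ ρ : Fin 1, (![((0 : ℤ), (1 : ℤ))] : Fin 1 → ℤ × ℤ) ρ ≠ 0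
    decide
  · show ∀ ρ σ : Fin 1, (![((0 : ℤ), (1 : ℤ))] : Fin 1 → ℤ × ℤ) ρ ≠
      -(![((0 : ℤ), (1 : ℤ))] : Fin 1 → ℤ × ℤ) σ
    decide
  · show π / a * a = π
    field_simp
  · rw [← hj, one_mul]
    exact (Complex.re_add_im z).symm

theorem adapt2_im (z : ℂ) (h : ∃ j : ℤ, z.im = j * b) :
    Adapt (K2 a b ha hb p q hp hq hab) (z, Complex.I) := by
  obtain ⟨j, hj⟩ := h
  have hp0 : (p : ℤ) ≠ 0 := by exact_mod_cast hp.ne'
  have key : ∀ ρ σ : Fin 1, ¬ (-((![((p : ℤ), (0 : ℤ))] : Fin 1 → ℤ × ℤ) ρ) =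
      -(-((![((p : ℤ), (0 : ℤ))] : Fin 1 → ℤ × ℤ) σ))) := by
    intro ρ σ h
    fin_cases ρ
    fin_cases σ
    simp at h
    omega
  have key2 : ∀ ρ : Fin 1, -((![((p : ℤ), (0 : ℤ))] : Fin 1 → ℤ × ℤ) ρ) ≠ 0 := by
    intro ρ h
    fin_cases ρ
    simp at h
    omega
  refine adapt_turn _ ⟨?_, fun ρ σ _ => Subsingleton.elim _ _, ?_, ?_⟩
    ⟨key2, fun ρ σ _ => Subsingleton.elim _ _, key⟩ _ b j (-z.re) ?_ ?_
    fun n d R φ _ z => rfl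
  · show ∀ ρ : Fin 1, (![((0 : ℤ), (1 : ℤ))] : Fin 1 → ℤ × ℤ) ρ ≠ 0
    decide
  · show ∀ ρ σ : Fin 1, (![((0 : ℤ), (1 : ℤ))] : Fin 1 → ℤ × ℤ) ρ ≠
      -(![((0 : ℤ), (1 : ℤ))] : Fin 1 → ℤ × ℤ) σ
    decide
  · exact fun ρ => key ρ ρ
  · show π / b * b = π
    field_simp
  · rw [← hj]
    apply Complex.ext <;> simp

end two

/-! ### rotations -/

theorem exp_even' (r i : ℕ) : Complex.exp (Complex.I * ((2 * π / r : ℝ) : ℂ)) ^ i *
    Complex.exp (-(Complex.I * ((π * (2 * i : ℕ) / r : ℝ) : ℂ))) = 1 := by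
  rw [← exp_even, ← Complex.exp_add, add_neg_cancel, Complex.exp_zero]

theorem exp_odd' (r i : ℕ) : Complex.exp (Complex.I * ((2 * π / r : ℝ) : ℂ)) ^ i *
    Complex.exp (-(Complex.I * ((π * (2 * i + 1 : ℕ) / r : ℝ) : ℂ))) =
    Complex.exp (-(Complex.I * ((π / r : ℝ) : ℂ))) := by
  rw [← Complex.exp_nat_mul, ← Complex.exp_add]
  congr 1
  push_cast
  ring

theorem rot_even {r : ℕ} {u : ℂ → ℝ}
    (hrot : ∀ z, u (Complex.exp (Complex.I * ((2 * π / r : ℝ) : ℂ)) * z) = u z) (i : ℕ) (z : ℂ) :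
    u (Complex.exp (-(Complex.I * ((π * (2 * i : ℕ) / r : ℝ) : ℂ))) * z) = u z := by
  rw [← rot_pow hrot i, ← mul_assoc, exp_even', one_mul]

theorem rot_odd {r : ℕ} {u : ℂ → ℝ}
    (hrot : ∀ z, u (Complex.exp (Complex.I * ((2 * π / r : ℝ) : ℂ)) * z) = u z) (i : ℕ) (z : ℂ) :
    u (Complex.exp (-(Complex.I * ((π * (2 * i + 1 : ℕ) / r : ℝ) : ℂ))) * z) =
      u (Complex.exp (-(Complex.I * ((π / r : ℝ) : ℂ))) * z) := by
  rw [← rot_pow hrot i, ← mul_assoc, exp_odd']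

theorem point_eq (A : ℝ) (z : ℂ) (x : ℝ) (hx : (Complex.exp (Complex.I * (A : ℂ)) * z).re = x) :
    z = Complex.exp (-(Complex.I * (A : ℂ))) * ((x : ℂ) +
      (((Complex.exp (Complex.I * (A : ℂ)) * z).im : ℝ) : ℂ) * Complex.I) := by
  rw [← hx, Complex.re_add_im, ← mul_assoc, ← Complex.exp_add, neg_add_cancel, Complex.exp_zero,
    one_mul]

end Pool.Agent.Zk91.KB
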