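import Pool.Agent.Zk91.KB.Adapt

/-!
# The adapted coordinates for the square and the triangular kaleidoscope
-/

set_option autoImplicit false

open Filter Topology Real MeasureTheory Set
open scoped ContDiff

namespace Pool.Agent.Zk91.KB

variable {n : ℕ}

theorem vec4d : Vec (![(1, -1), (-1, -1)] : Fin 2 → ℤ × ℤ) ![(1, 1), (1, -1)] where
  ne := by decide
  inj := by decide
  neg := by decide
  neg' := by decide

/-- the square kaleidoscope in the coordinates of the diagonals -/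
noncomputable def K4d (s : ℝ) (hs : 0 < s) : Kal 2 where
  D := 1
  B := 3
  g := ![(1, -1), (-1, -1)]
  g' := ![(1, 1), (1, -1)]
  τ := ![π / 4, π - π / 4]
  a := π / (√2 * s)
  b := π / (√2 * s)
  c := π / s
  hν := by norm_num
  hD := le_rfl
  vec := vec4d
  bd := by
    intro ρ
    fin_cases ρ <;> simp [Bd]
  ha := by positivity
  hb := by positivity
  hc := by positivity
  rotX := by
    intro ρ l m
    have h2 : √(2 : ℝ) ^ 2 = 2 := Real.sq_sqrt (by norm_num)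
    have h20 : 0 < √(2 : ℝ) := Real.sqrt_pos.2 (by norm_num)
    have hp := pi_pos
    fin_cases ρ
    · simp
      field_simp
      linear_combination (m - l) * h2
    · simp
      field_simp
      linear_combination (m + l) * h2
  rotY := by
    intro ρ l m
    have h2 : √(2 : ℝ) ^ 2 = 2 := Real.sq_sqrt (by norm_num)
    have h20 : 0 < √(2 : ℝ) := Real.sqrt_pos.2 (by norm_num)
    have hp := pi_pos
    fin_cases ρ
    · simp
      field_simp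
      linear_combination -(m + l) * h2
    · simp
      field_simp
      linear_combination (m - l) * h2

theorem K4d_u (s : ℝ) (hs : 0 < s) (d : Num (K4 s hs).D ((K4 s hs).B + (K4 s hs).B) n) (R : ℕ)
    (φ : ℝ) (hφ : sin (2 * φ) = 0) (z : ℂ) :
    (K4 s hs).u d R φ (Complex.exp (-(Complex.I * ((π / (4 : ℕ) : ℝ) : ℂ))) * z) =
      (K4d s hs).u (show Num (K4d s hs).D ((K4d s hs).B + (K4d s hs).B) n from d) R φ z := by
  have h0 : -(Complex.I * ((π / (4 : ℕ) : ℝ) : ℂ)) = Complex.I * ((-(π / 4) : ℝ) : ℂ) := by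
    push_cast
    ring
  rw [h0, Kal.u_eq_sum, Kal.u_eq_sum]
  congr 1
  refine Finset.sum_congr rfl fun i _ => ?_
  have h2 : √(2 : ℝ) ^ 2 = 2 := Real.sq_sqrt (by norm_num)
  have h20 : 0 < √(2 : ℝ) := Real.sqrt_pos.2 (by norm_num)
  have ha : π / (√2 * s) = √2 / 2 * (π / s) := by
    field_simp
    exact h2.symm
  rw [exp_mul_re, exp_mul_im, cos_neg, sin_neg, cos_pi_div_four, sin_pi_div_four,
    Fin.sum_univ_two, Fin.sum_univ_two, al4_0, al4_1, be4_0, be4_1]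
  have e0 : (K4d s hs).al (show Num (K4d s hs).D ((K4d s hs).B + (K4d s hs).B) n from d) R i 0 =
      √2 / 2 * (π / s * R * d.l i - π / s * R * d.m i) := by
    simp [Kal.al, K4d, ha]
    ring
  have e1 : (K4d s hs).al (show Num (K4d s hs).D ((K4d s hs).B + (K4d s hs).B) n from d) R i 1 =
      -(√2 / 2 * (π / s * R * d.l i + π / s * R * d.m i)) := by
    simp [Kal.al, K4d, ha]
    ring
  have e2 : (K4d s hs).be (show Num (K4d s hs).D ((K4d s hs).B + (K4d s hs).B) n from d) R i 0 =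
      √2 / 2 * (π / s * R * d.l i + π / s * R * d.m i) := by
    simp [Kal.be, K4d, ha]
    ring
  have e3 : (K4d s hs).be (show Num (K4d s hs).D ((K4d s hs).B + (K4d s hs).B) n from d) R i 1 =
      √2 / 2 * (π / s * R * d.l i - π / s * R * d.m i) := by
    simp [Kal.be, K4d, ha]
    ring
  rw [e0, e1, e2, e3]
  set A := π / s * R * d.l i
  set B := π / s * R * d.m i
  set S := √(2 : ℝ) / 2
  set x := z.re
  set y := z.im
  simp only [mode_eq φ hφ]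
  have p0 : A * (S * x - -S * y) - B * (-S * x + S * y) =
      -(-(S * (A + B)) * x - S * (A - B) * y) := by ring
  have q0 : A * (S * x - -S * y) + B * (-S * x + S * y) =
      S * (A - B) * x + S * (A + B) * y := by ring
  have p1 : -B * (S * x - -S * y) - A * (-S * x + S * y) =
      S * (A - B) * x - S * (A + B) * y := by ring
  have q1 : -B * (S * x - -S * y) + A * (-S * x + S * y) =
      -(S * (A + B)) * x + S * (A - B) * y := by ring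
  rw [p0, q0, p1, q1, cos_neg]
  ring

theorem adapt4 (s : ℝ) (hs : 0 < s) (k : ℕ) (z : ℂ) (hz : z ∈ Mirror 4 s k) :
    Adapt (K4 s hs) (z, Complex.exp (-(Complex.I * ((π * k / (4 : ℕ) : ℝ) : ℂ)))) := by
  obtain ⟨j, hj⟩ := hz
  obtain ⟨i, hi | hi⟩ := Nat.even_or_odd' k
  · subst hi
    rw [if_pos ⟨i, by ring⟩] at hj
    refine adapt_self _ ⟨?_, ?_, ?_⟩ _ s j _ ?_ (point_eq _ z _ hj)
      fun n d R φ hφ z => rot_even (r := 4) (rot4 s hs d R φ hφ) i z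
    · show ∀ ρ : Fin 2, (![((0 : ℤ), (1 : ℤ)), (1, 0)] : Fin 2 → ℤ × ℤ) ρ ≠ 0
      decide
    · show ∀ ρ σ : Fin 2, (![((0 : ℤ), (1 : ℤ)), (1, 0)] : Fin 2 → ℤ × ℤ) ρ =
        (![((0 : ℤ), (1 : ℤ)), (1, 0)] : Fin 2 → ℤ × ℤ) σ → ρ = σ
      decide
    · show ∀ ρ σ : Fin 2, (![((0 : ℤ), (1 : ℤ)), (1, 0)] : Fin 2 → ℤ × ℤ) ρ ≠
        -(![((0 : ℤ), (1 : ℤ)), (1, 0)] : Fin 2 → ℤ × ℤ) σ
      decide
    · show π / s * s = π
      field_simp
  · subst hi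
    rw [if_neg (Nat.not_even_iff_odd.2 ⟨i, rfl⟩)] at hj
    have h2 : √(2 : ℝ) ^ 2 = 2 := Real.sq_sqrt (by norm_num)
    have h20 : 0 < √(2 : ℝ) := Real.sqrt_pos.2 (by norm_num)
    have hp := pi_pos
    have hcos : 2 * cos (π / (4 : ℕ)) * s = √2 * s := by
      push_cast
      rw [cos_pi_div_four]
      ring
    rw [hcos] at hj
    have hle : √(2 : ℝ) ≤ 2 := by nlinarith
    have hca : π / s / (π / (√2 * s)) ≤ π / s / (π / s) + π / s / (π / s) := by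
      have e1 : π / s / (π / (√2 * s)) = √2 := by field_simp
      have e2 : π / s / (π / s) = 1 := by field_simp
      rw [e1, e2]
      linarith
    refine ⟨K4d s hs, ⟨?_, ?_, ?_⟩, hca, hca, ⟨√2 * s, j, _, ?_, point_eq _ z _ hj⟩,
      fun n d => ⟨d, rfl, fun R => ⟨rfl, fun φ hφ z => ?_⟩⟩⟩
    · show ∀ ρ : Fin 2, (![((1 : ℤ), (1 : ℤ)), (1, -1)] : Fin 2 → ℤ × ℤ) ρ ≠ 0
      decide
    · show ∀ ρ σ : Fin 2, (![((1 : ℤ), (1 : ℤ)), (1, -1)] : Fin 2 → ℤ × ℤ) ρ =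
        (![((1 : ℤ), (1 : ℤ)), (1, -1)] : Fin 2 → ℤ × ℤ) σ → ρ = σ
      decide
    · show ∀ ρ σ : Fin 2, (![((1 : ℤ), (1 : ℤ)), (1, -1)] : Fin 2 → ℤ × ℤ) ρ ≠
        -(![((1 : ℤ), (1 : ℤ)), (1, -1)] : Fin 2 → ℤ × ℤ) σ
      decide
    · show π / (√2 * s) * (√2 * s) = π
      field_simp
    · show (K4 s hs).u d R φ (_ * z) = _
      rw [rot_odd (r := 4) (rot4 s hs d R φ hφ) i z]
      exact K4d_u s hs d R φ hφ z

theorem adapt6 (s : ℝ) (hs : 0 < s) (k : ℕ) (z : ℂ) (hz : z ∈ Mirror 6 s k) :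
    Adapt (K6 s hs) (z, Complex.exp (-(Complex.I * ((π * k / (6 : ℕ) : ℝ) : ℂ)))) := by
  obtain ⟨j, hj⟩ := hz
  obtain ⟨i, hi | hi⟩ := Nat.even_or_odd' k
  · subst hi
    rw [if_pos ⟨i, by ring⟩] at hj
    refine adapt_self _ ⟨?_, ?_, ?_⟩ _ s j _ ?_ (point_eq _ z _ hj)
      fun n d R φ hφ z => rot_even (r := 6) (rot6 s hs d R φ hφ) i z
    · show ∀ ρ : Fin 3, (![((0 : ℤ), (2 : ℤ)), (3, 1), (3, -1)] : Fin 3 → ℤ × ℤ) ρ ≠ 0
      decide
    · show ∀ ρ σ : Fin 3, (![((0 : ℤ), (2 : ℤ)), (3, 1), (3, -1)] : Fin 3 → ℤ × ℤ) ρ =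
        (![((0 : ℤ), (2 : ℤ)), (3, 1), (3, -1)] : Fin 3 → ℤ × ℤ) σ → ρ = σ
      decide
    · show ∀ ρ σ : Fin 3, (![((0 : ℤ), (2 : ℤ)), (3, 1), (3, -1)] : Fin 3 → ℤ × ℤ) ρ ≠
        -(![((0 : ℤ), (2 : ℤ)), (3, 1), (3, -1)] : Fin 3 → ℤ × ℤ) σ
      decide
    · show π / s * s = π
      field_simp
  · subst hi
    rw [if_neg (Nat.not_even_iff_odd.2 ⟨i, rfl⟩)] at hj
    have h30 : 0 < √(3 : ℝ) := Real.sqrt_pos.2 (by norm_num)
    have hcos : 2 * cos (π / (6 : ℕ)) * s = √3 * s := by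
      push_cast
      rw [cos_pi_div_six]
      ring
    rw [hcos] at hj
    refine adapt_turn _ ⟨?_, ?_, ?_, ?_⟩ ⟨?_, ?_, ?_⟩ _ (√3 * s) j _ ?_ (point_eq _ z _ hj)
      fun n d R φ hφ z => ?_
    · show ∀ ρ : Fin 3, (![((0 : ℤ), (2 : ℤ)), (3, 1), (3, -1)] : Fin 3 → ℤ × ℤ) ρ ≠ 0
      decide
    · show ∀ ρ σ : Fin 3, (![((0 : ℤ), (2 : ℤ)), (3, 1), (3, -1)] : Fin 3 → ℤ × ℤ) ρ =
        (![((0 : ℤ), (2 : ℤ)), (3, 1), (3, -1)] : Fin 3 → ℤ × ℤ) σ → ρ = σ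
      decide
    · show ∀ ρ σ : Fin 3, (![((0 : ℤ), (2 : ℤ)), (3, 1), (3, -1)] : Fin 3 → ℤ × ℤ) ρ ≠
        -(![((0 : ℤ), (2 : ℤ)), (3, 1), (3, -1)] : Fin 3 → ℤ × ℤ) σ
      decide
    · show ∀ ρ : Fin 3, -((![((2 : ℤ), (0 : ℤ)), (1, -1), (-1, -1)] : Fin 3 → ℤ × ℤ) ρ) ≠
        -(-((![((2 : ℤ), (0 : ℤ)), (1, -1), (-1, -1)] : Fin 3 → ℤ × ℤ) ρ))
      decide
    · show ∀ ρ : Fin 3, -((![((2 : ℤ), (0 : ℤ)), (1, -1), (-1, -1)] : Fin 3 → ℤ × ℤ) ρ) ≠ 0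
      decide
    · show ∀ ρ σ : Fin 3, -((![((2 : ℤ), (0 : ℤ)), (1, -1), (-1, -1)] : Fin 3 → ℤ × ℤ) ρ) =
        -((![((2 : ℤ), (0 : ℤ)), (1, -1), (-1, -1)] : Fin 3 → ℤ × ℤ) σ) → ρ = σ
      decide
    · show ∀ ρ σ : Fin 3, -((![((2 : ℤ), (0 : ℤ)), (1, -1), (-1, -1)] : Fin 3 → ℤ × ℤ) ρ) ≠
        -(-((![((2 : ℤ), (0 : ℤ)), (1, -1), (-1, -1)] : Fin 3 → ℤ × ℤ) σ))
      decide
    · show π / (√3 * s) * (√3 * s) = π
      field_simp
    · show (K6 s hs).u d R φ (_ * z) = _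
      rw [rot_odd (r := 6) (rot6 s hs d R φ hφ) i z,
        ← rot_pow (rot6 s hs d R φ hφ) 2 (Complex.exp (-(Complex.I * ((π / (6 : ℕ) : ℝ) : ℂ))) * z),
        ← mul_assoc]
      have e : Complex.exp (Complex.I * ((2 * π / (6 : ℕ) : ℝ) : ℂ)) ^ 2 *
          Complex.exp (-(Complex.I * ((π / (6 : ℕ) : ℝ) : ℂ))) = Complex.I := by
        rw [← Complex.exp_nat_mul, ← Complex.exp_add]
        have h1 : ((2 : ℕ) : ℂ) * (Complex.I * ((2 * π / (6 : ℕ) : ℝ) : ℂ)) +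
            -(Complex.I * ((π / (6 : ℕ) : ℝ) : ℂ)) = ((π / 2 : ℝ) : ℂ) * Complex.I := by
          push_cast
          ring
        rw [h1]
        apply Complex.ext
        · rw [Complex.exp_ofReal_mul_I_re, cos_pi_div_two, Complex.I_re]
        · rw [Complex.exp_ofReal_mul_I_im, sin_pi_div_two, Complex.I_im]
      rw [e]

end Pool.Agent.Zk91.KB
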