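import Pool.Agent.Zk60.BW.Ave

/-!
# The average over the rotated directions
-/

set_option autoImplicit false

open Filter Topology Real MeasureTheory Set

namespace Pool.Agent.Zk91.KB

open Pool.Agent.N661.BR (J0)
open Pool.Agent.Zk60.BW (GG GG_sub half riemann VV abs_cos_sub_le)

theorem shift_GG (z : ℂ) (τ : ℝ) :
    1 / π * ∫ α in (0 : ℝ)..π, GG z (sin (α - τ)) (cos (α - τ)) = J0 ‖z‖ := by
  rw [half z]
  congr 1
  have h1 : ∀ α : ℝ, GG z (sin (α - τ)) (cos (α - τ)) =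
      GG z (cos (α - (τ + π / 2))) (sin (α - (τ + π / 2))) := by
    intro α
    have e : α - (τ + π / 2) = (α - τ) - π / 2 := by ring
    rw [e, cos_sub_pi_div_two, sin_sub_pi_div_two]
    unfold GG
    rw [neg_mul, cos_neg]
  simp only [h1]
  rw [intervalIntegral.integral_comp_sub_right (fun α => GG z (cos α) (sin α)) (τ + π / 2)]
  have hper : Function.Periodic (fun α : ℝ => GG z (cos α) (sin α)) π := by
    intro α
    show GG z (cos (α + π)) (sin (α + π)) = GG z (cos α) (sin α)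
    rw [cos_add_pi, sin_add_pi]
    unfold GG
    rw [neg_mul, neg_mul, cos_neg, cos_neg]
  have h2 := hper.intervalIntegral_add_eq (0 - (τ + π / 2)) 0
  rw [zero_add] at h2
  have h3 : (0 : ℝ) - (τ + π / 2) + π = π - (τ + π / 2) := by ring
  rw [h3] at h2
  exact h2

/-- the constant of the error -/
noncomputable def aveC {k : ℕ} (w : Fin k → ℂ) (t : Fin k → ℝ) : ℝ :=
  ∑ i, ∑ j, |t i * t j| * ((|(w i - w j).re| + |(w i - w j).im|) * (2 + π))

theorem aveC_le {k : ℕ} (w : Fin k → ℂ) (t : Fin k → ℝ) (ρ : ℝ) (hw : ∀ j, ‖w j‖ ≤ ρ)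
    (ht : ∀ j, |t j| ≤ ρ) : aveC w t ≤ (k : ℝ) ^ 2 * (ρ ^ 2 * (4 * ρ * (2 + π))) := by
  have hπ := pi_pos
  unfold aveC
  calc ∑ i, ∑ j, |t i * t j| * ((|(w i - w j).re| + |(w i - w j).im|) * (2 + π))
      ≤ ∑ _i : Fin k, ∑ _j : Fin k, ρ ^ 2 * (4 * ρ * (2 + π)) := by
        refine Finset.sum_le_sum fun i _ => Finset.sum_le_sum fun j _ => ?_
        have hρ : 0 ≤ ρ := (norm_nonneg _).trans (hw i)
        have h1 : |t i * t j| ≤ ρ ^ 2 := by
          rw [abs_mul, sq]
          exact mul_le_mul (ht i) (ht j) (abs_nonneg _) hρ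
        have h2 : ‖w i - w j‖ ≤ ρ + ρ := (norm_sub_le _ _).trans (add_le_add (hw i) (hw j))
        have h3 := (Complex.abs_re_le_norm (w i - w j)).trans h2
        have h4 := (Complex.abs_im_le_norm (w i - w j)).trans h2
        have h5 : (|(w i - w j).re| + |(w i - w j).im|) * (2 + π) ≤ 4 * ρ * (2 + π) :=
          mul_le_mul_of_nonneg_right (by linarith) (by positivity)
        exact mul_le_mul h1 h5 (by positivity) (by positivity)
    _ = (k : ℝ) ^ 2 * (ρ ^ 2 * (4 * ρ * (2 + π))) := by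
        simp only [Finset.sum_const, Finset.card_univ, Fintype.card_fin, nsmul_eq_mul]
        ring

/-- the average of one product of cosines -/
theorem ave_GG : ∀ z : ℂ, ∀ (n : ℕ) (_ : 0 < n) (τ : ℝ) (X Y : Fin n → ℝ),
      (∀ i : Fin n, |X i - sin (π * i / n - τ)| ≤ 2 / n) →
      (∀ i : Fin n, |Y i - cos (π * i / n - τ)| ≤ 2 / n) →
      |(1 / (n : ℝ)) * ∑ i, GG z (X i) (Y i) - J0 ‖z‖| ≤ (|z.re| + |z.im|) * (2 + π) / n := by
    intro z n hn τ X Y hX hY
    have hn0 : (0 : ℝ) < n := by exact_mod_cast hn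
    have hcont : Continuous fun α : ℝ => GG z (sin (α - τ)) (cos (α - τ)) := by
      unfold GG
      fun_prop
    have hLip : ∀ x y : ℝ, |GG z (sin (x - τ)) (cos (x - τ)) - GG z (sin (y - τ)) (cos (y - τ))| ≤
        (|z.re| + |z.im|) * |x - y| := by
      intro x y
      refine (GG_sub z _ _ _ _).trans ?_
      have h1 : |sin (x - τ) - sin (y - τ)| ≤ |(x - τ) - (y - τ)| := Real.abs_sin_sub_sin_le _ _
      have h2 := abs_cos_sub_le (x - τ) (y - τ)
      have e : (x - τ) - (y - τ) = x - y := by ring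
      rw [e] at h1 h2
      nlinarith [abs_nonneg z.re, abs_nonneg z.im,
        mul_le_mul_of_nonneg_left h1 (abs_nonneg z.re),
        mul_le_mul_of_nonneg_left h2 (abs_nonneg z.im)]
    have h1 := riemann (fun α => GG z (sin (α - τ)) (cos (α - τ))) hcont _ hLip n hn
    rw [shift_GG z τ] at h1
    have h2 : |(1 / (n : ℝ)) * ∑ i, GG z (X i) (Y i) -
        (1 / (n : ℝ)) * ∑ i : Fin n, GG z (sin (π * i / n - τ)) (cos (π * i / n - τ))| ≤
        (|z.re| + |z.im|) * 2 / n := by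
      rw [← mul_sub, ← Finset.sum_sub_distrib, abs_mul, abs_of_pos (by positivity)]
      calc 1 / (n : ℝ) * |∑ i : Fin n, (GG z (X i) (Y i) -
            GG z (sin (π * i / n - τ)) (cos (π * i / n - τ)))|
          ≤ 1 / (n : ℝ) * ∑ _i : Fin n, (|z.re| + |z.im|) * (2 / n) := by
            refine mul_le_mul_of_nonneg_left ?_ (by positivity)
            refine (Finset.abs_sum_le_sum_abs _ _).trans (Finset.sum_le_sum fun i _ => ?_)
            refine (GG_sub z _ _ _ _).trans ?_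
            rw [add_mul]
            exact add_le_add (mul_le_mul_of_nonneg_left (hX i) (abs_nonneg _))
              (mul_le_mul_of_nonneg_left (hY i) (abs_nonneg _))
        _ = (|z.re| + |z.im|) * 2 / n := by
            rw [Finset.sum_const, Finset.card_univ, Fintype.card_fin, nsmul_eq_mul]
            field_simp
    have h3 := abs_sub_le ((1 / (n : ℝ)) * ∑ i, GG z (X i) (Y i))
      ((1 / (n : ℝ)) * ∑ i : Fin n, GG z (sin (π * i / n - τ)) (cos (π * i / n - τ))) (J0 ‖z‖)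
    calc _ ≤ _ := h3
      _ ≤ (|z.re| + |z.im|) * 2 / n + (|z.re| + |z.im|) * π / n := add_le_add h2 h1
      _ = _ := by ring

/-- the average of `VV` over nearly equidistributed directions -/
theorem ave_shift' {k : ℕ} (w : Fin k → ℂ) (t : Fin k → ℝ) :
    ∀ (n : ℕ) (_ : 0 < n) (τ : ℝ) (X Y : Fin n → ℝ),
      (∀ i : Fin n, |X i - sin (π * i / n - τ)| ≤ 2 / n) →
      (∀ i : Fin n, |Y i - cos (π * i / n - τ)| ≤ 2 / n) →
      |(1 / (n : ℝ)) * ∑ i, VV w t (X i) (Y i) - ∑ i, ∑ j, t i * t j * J0 ‖w i - w j‖| ≤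
        aveC w t / n := by
  intro n hn τ X Y hX hY
  unfold aveC
  have e : (1 / (n : ℝ)) * ∑ i, VV w t (X i) (Y i) - ∑ i, ∑ j, t i * t j * J0 ‖w i - w j‖ =
      ∑ i, ∑ j, (t i * t j) * ((1 / (n : ℝ)) * ∑ r, GG (w i - w j) (X r) (Y r) -
        J0 ‖w i - w j‖) := by
    have h1 : ∑ r, VV w t (X r) (Y r) =
        ∑ i, ∑ j, (t i * t j) * ∑ r, GG (w i - w j) (X r) (Y r) := by
      unfold VV
      rw [Finset.sum_comm]
      refine Finset.sum_congr rfl fun i _ => ?_
      rw [Finset.sum_comm]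
      refine Finset.sum_congr rfl fun j _ => ?_
      rw [Finset.mul_sum]
      rfl
    rw [h1, Finset.mul_sum, ← Finset.sum_sub_distrib]
    refine Finset.sum_congr rfl fun i _ => ?_
    rw [Finset.mul_sum, ← Finset.sum_sub_distrib]
    refine Finset.sum_congr rfl fun j _ => ?_
    ring
  rw [e, Finset.sum_div]
  refine (Finset.abs_sum_le_sum_abs _ _).trans (Finset.sum_le_sum fun i _ => ?_)
  rw [Finset.sum_div]
  refine (Finset.abs_sum_le_sum_abs _ _).trans (Finset.sum_le_sum fun j _ => ?_)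
  rw [abs_mul, mul_div_assoc]
  exact mul_le_mul_of_nonneg_left (ave_GG (w i - w j) n hn τ X Y hX hY) (abs_nonneg _)

/-- the average of `VV` over nearly equidistributed directions -/
theorem ave_shift {k : ℕ} (w : Fin k → ℂ) (t : Fin k → ℝ) :
    ∃ C : ℝ, ∀ (n : ℕ) (_ : 0 < n) (τ : ℝ) (X Y : Fin n → ℝ),
      (∀ i : Fin n, |X i - sin (π * i / n - τ)| ≤ 2 / n) →
      (∀ i : Fin n, |Y i - cos (π * i / n - τ)| ≤ 2 / n) →
      |(1 / (n : ℝ)) * ∑ i, VV w t (X i) (Y i) - ∑ i, ∑ j, t i * t j * J0 ‖w i - w j‖| ≤ C / n :=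
  ⟨_, ave_shift' w t⟩

end Pool.Agent.Zk91.KB
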