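import Pool.Agent.Zk91.KB.Tri

/-!
# Trigonometric polynomials with bounded degree and bounded coefficient sum
-/

set_option autoImplicit false

open Filter Topology Real MeasureTheory Set ProbabilityTheory

namespace Pool.Agent.Zk91.KB

open Pool.Agent.Zk60.BW (TT TT_nonneg)

/-- four integers -/
abbrev Z4 : Type := (ℤ × ℤ) × (ℤ × ℤ)

/-- all four integers are at most `K` in absolute value -/
def Bd (K : ℕ) (g : Z4) : Prop := |g.1.1| ≤ K ∧ |g.1.2| ≤ K ∧ |g.2.1| ≤ K ∧ |g.2.2| ≤ K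

theorem Bd.add {K L : ℕ} {g h : Z4} (hg : Bd K g) (hh : Bd L h) : Bd (K + L) (g + h) := by
  obtain ⟨a1, a2, a3, a4⟩ := hg
  obtain ⟨b1, b2, b3, b4⟩ := hh
  refine ⟨?_, ?_, ?_, ?_⟩
  · exact (abs_add_le _ _).trans (by push_cast; exact add_le_add a1 b1)
  · exact (abs_add_le _ _).trans (by push_cast; exact add_le_add a2 b2)
  · exact (abs_add_le _ _).trans (by push_cast; exact add_le_add a3 b3)
  · exact (abs_add_le _ _).trans (by push_cast; exact add_le_add a4 b4)

theorem Bd.mono {K L : ℕ} (h : K ≤ L) {g : Z4} (hg : Bd K g) : Bd L g := by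
  have h' : (K : ℤ) ≤ L := by exact_mod_cast h
  exact ⟨hg.1.trans h', hg.2.1.trans h', hg.2.2.1.trans h', hg.2.2.2.trans h'⟩

variable {n : ℕ}

/-- the exponent -/
noncomputable def ex (G : Fin n → Z4) (x : Fin n → X4) : ℝ :=
  ∑ i, (ln (G i).1 (x i).1 + ln (G i).2 (x i).2)

theorem ex_add (G H : Fin n → Z4) (x : Fin n → X4) : ex (G + H) x = ex G x + ex H x := by
  unfold ex
  rw [← Finset.sum_add_distrib]
  refine Finset.sum_congr rfl fun i _ => ?_
  simp only [Pi.add_apply, Prod.fst_add, Prod.snd_add, ln_add]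
  ring

theorem ex_zero (x : Fin n → X4) : ex 0 x = 0 := by
  unfold ex ln
  simp

theorem continuous_ex (G : Fin n → Z4) : Continuous (ex G) := by
  unfold ex
  refine continuous_finsetSum _ fun i _ => ?_
  have h1 := continuous_ln (G i).1
  have h2 := continuous_ln (G i).2
  fun_prop

/-- the characters -/
noncomputable def ch (G : Fin n → Z4) (x : Fin n → X4) : ℂ := Complex.exp ((ex G x : ℝ) * Complex.I)

theorem ch_add (G H : Fin n → Z4) (x : Fin n → X4) : ch (G + H) x = ch G x * ch H x := by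
  unfold ch
  rw [← Complex.exp_add, ex_add]
  congr 1
  push_cast
  ring

theorem continuous_ch (G : Fin n → Z4) : Continuous (ch G) := by
  unfold ch
  have := continuous_ex G
  fun_prop

theorem norm_ch (G : Fin n → Z4) (x : Fin n → X4) : ‖ch G x‖ = 1 := by
  unfold ch
  rw [Complex.norm_exp_ofReal_mul_I]

theorem int_ch (G : Fin n → Z4) (hG : G ≠ 0) : ∫ x, ch G x ∂(Pn P4 n) = 0 := by
  have e : ∀ x : Fin n → X4, ch G x = ∏ i, (e2 (G i).1 (x i).1 * e2 (G i).2 (x i).2) := by
    intro x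
    unfold ch ex e2
    simp only [← Complex.exp_add]
    rw [← Complex.exp_sum]
    congr 1
    push_cast
    rw [Finset.sum_mul]
    exact Finset.sum_congr rfl fun i _ => by ring
  simp only [e]
  unfold Pn
  rw [integral_fintype_prod_eq_prod (μ := fun _ : Fin n => P4)
    (fun (i : Fin n) (x : X4) => e2 (G i).1 x.1 * e2 (G i).2 x.2)]
  obtain ⟨i, hi⟩ := Function.ne_iff.1 hG
  refine Finset.prod_eq_zero (Finset.mem_univ i) ?_
  unfold P4
  rw [integral_prod_mul (μ := P2) (ν := P2) (e2 (G i).1) (e2 (G i).2), int_e2, int_e2]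
  by_cases h1 : (G i).1 = 0
  · have h2 : (G i).2 ≠ 0 := fun h2 => hi (Prod.ext h1 h2)
    rw [if_neg h2, mul_zero]
  · rw [if_neg h1, zero_mul]

/-- trigonometric polynomials of degree at most `K` with coefficient sum at most `κ` -/
def TB (n K : ℕ) (κ : ℝ) (f : (Fin n → X4) → ℂ) : Prop :=
  ∃ (ι : Type) (_ : Fintype ι) (c : ι → ℂ) (G : ι → Fin n → Z4),
    (∀ a i, Bd K (G a i)) ∧ ∑ a, ‖c a‖ ≤ κ ∧ ∀ x, f x = ∑ a, c a * ch (G a) x

theorem TB.mono {K L : ℕ} {κ κ' : ℝ} {f : (Fin n → X4) → ℂ} (h : TB n K κ f) (hK : K ≤ L)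
    (hκ : κ ≤ κ') : TB n L κ' f := by
  obtain ⟨ι, _, c, G, h1, h2, h3⟩ := h
  exact ⟨ι, inferInstance, c, G, fun a i => (h1 a i).mono hK, h2.trans hκ, h3⟩

theorem TB.const (K : ℕ) (c : ℂ) : TB n K ‖c‖ fun _ => c := by
  refine ⟨Unit, inferInstance, fun _ => c, fun _ => 0, fun _ _ => ⟨by simp, by simp, by simp, by simp⟩,
    by simp, fun x => ?_⟩
  simp [ch, ex_zero]

theorem TB.add {K : ℕ} {κ κ' : ℝ} {f f' : (Fin n → X4) → ℂ} (h : TB n K κ f) (h' : TB n K κ' f') :
    TB n K (κ + κ') fun x => f x + f' x := by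
  obtain ⟨ι, _, c, G, h1, h2, h3⟩ := h
  obtain ⟨ι', _, c', G', h1', h2', h3'⟩ := h'
  refine ⟨ι ⊕ ι', inferInstance, Sum.elim c c', Sum.elim G G', ?_, ?_, fun x => ?_⟩
  · rintro (a | a) i
    · exact h1 a i
    · exact h1' a i
  · rw [Fintype.sum_sum_type]
    simp only [Sum.elim_inl, Sum.elim_inr]
    linarith
  · show f x + f' x = _
    rw [Fintype.sum_sum_type, h3, h3']
    simp

theorem TB.mul {K K' : ℕ} {κ κ' : ℝ} {f f' : (Fin n → X4) → ℂ} (h : TB n K κ f)
    (h' : TB n K' κ' f') : TB n (K + K') (κ * κ') fun x => f x * f' x := by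
  obtain ⟨ι, _, c, G, h1, h2, h3⟩ := h
  obtain ⟨ι', _, c', G', h1', h2', h3'⟩ := h'
  refine ⟨ι × ι', inferInstance, fun a => c a.1 * c' a.2, fun a => G a.1 + G' a.2,
    fun a i => (h1 _ i).add (h1' _ i), ?_, fun x => ?_⟩
  · have e : ∑ a : ι × ι', ‖c a.1 * c' a.2‖ = (∑ a, ‖c a‖) * ∑ a, ‖c' a‖ := by
      rw [Finset.sum_mul_sum, Fintype.sum_prod_type]
      simp only [norm_mul]
    rw [e]
    exact mul_le_mul h2 h2' (Finset.sum_nonneg fun _ _ => norm_nonneg _)
      ((Finset.sum_nonneg fun _ _ => norm_nonneg _).trans h2)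
  · show f x * f' x = _
    rw [h3, h3', Finset.sum_mul_sum, Fintype.sum_prod_type]
    refine Finset.sum_congr rfl fun a _ => Finset.sum_congr rfl fun b _ => ?_
    rw [ch_add]
    ring

theorem TB.nonneg {K : ℕ} {κ : ℝ} {f : (Fin n → X4) → ℂ} (h : TB n K κ f) : 0 ≤ κ := by
  obtain ⟨ι, _, c, G, h1, h2, h3⟩ := h
  exact (Finset.sum_nonneg fun _ _ => norm_nonneg _).trans h2

theorem TB.smul {K : ℕ} {κ : ℝ} {f : (Fin n → X4) → ℂ} (h : TB n K κ f) (r : ℂ) :
    TB n K (‖r‖ * κ) fun x => r * f x := by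
  have := (TB.const (n := n) 0 r).mul h
  rwa [zero_add] at this

theorem TB.pow {K : ℕ} {κ : ℝ} {f : (Fin n → X4) → ℂ} (h : TB n K κ f) (r : ℕ) :
    TB n (r * K) (κ ^ r) fun x => f x ^ r := by
  induction r with
  | zero =>
    have := TB.const (n := n) 0 1
    simpa using this
  | succ r ih =>
    have := ih.mul h
    simp only [pow_succ]
    rw [add_mul, one_mul]
    exact this

theorem TB.sum {K : ℕ} {Q : Type*} (s : Finset Q) (κ : Q → ℝ) (f : Q → (Fin n → X4) → ℂ)
    (h : ∀ q ∈ s, TB n K (κ q) (f q)) : TB n K (∑ q ∈ s, κ q) fun x => ∑ q ∈ s, f q x := by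
  classical
  induction s using Finset.induction_on with
  | empty => simpa using TB.const (n := n) K 0
  | insert q s hq ih =>
    simp only [Finset.sum_insert hq]
    exact (h q (Finset.mem_insert_self _ _)).add (ih fun r hr => h r (Finset.mem_insert_of_mem hr))

theorem ex_single1 (i : Fin n) (g : ℤ × ℤ) (x : Fin n → X4) :
    ex (Pi.single i (g, 0)) x = ln g (x i).1 := by
  unfold ex
  rw [Finset.sum_eq_single i]
  · simp [ln]
  · intro j _ hj
    simp [hj, ln]
  · intro h; exact absurd (Finset.mem_univ i) h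

theorem ex_single2 (i : Fin n) (g : ℤ × ℤ) (x : Fin n → X4) :
    ex (Pi.single i (0, g)) x = ln g (x i).2 := by
  unfold ex
  rw [Finset.sum_eq_single i]
  · simp [ln]
  · intro j _ hj
    simp [hj, ln]
  · intro h; exact absurd (Finset.mem_univ i) h

theorem Bd_single (i : Fin n) (g : Z4) (K : ℕ) (hg : Bd K g) (j : Fin n) :
    Bd K ((Pi.single i g : Fin n → Z4) j) := by
  by_cases h : j = i
  · subst h; simpa using hg
  · rw [Pi.single_eq_of_ne h]
    exact ⟨by simp, by simp, by simp, by simp⟩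

theorem sin_exp (y A : ℝ) : ((sin (y + A) : ℝ) : ℂ) =
    (Complex.exp (A * Complex.I) / (2 * Complex.I)) * Complex.exp (y * Complex.I) +
      (-Complex.exp (-(A * Complex.I)) / (2 * Complex.I)) * Complex.exp (-(y * Complex.I)) := by
  rw [Complex.ofReal_sin, Complex.sin]
  have h1 : Complex.exp (-((y + A : ℝ) : ℂ) * Complex.I) =
      Complex.exp (-(A * Complex.I)) * Complex.exp (-(y * Complex.I)) := by
    rw [← Complex.exp_add]
    congr 1
    push_cast
    ring
  have h2 : Complex.exp (((y + A : ℝ) : ℂ) * Complex.I) =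
      Complex.exp (A * Complex.I) * Complex.exp (y * Complex.I) := by
    rw [← Complex.exp_add]
    congr 1
    push_cast
    ring
  rw [h1, h2]
  have h3 : (Complex.I : ℂ) ≠ 0 := Complex.I_ne_zero
  have h4 : Complex.I ^ 2 = -1 := Complex.I_sq
  generalize Complex.exp (-(y * Complex.I)) = E1
  generalize Complex.exp (y * Complex.I) = E2
  generalize Complex.exp (-(A * Complex.I)) = E3
  generalize Complex.exp (A * Complex.I) = E4
  field_simp
  linear_combination (E3 * E1 - E4 * E2) * h4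

theorem TB.sin (G : Fin n → Z4) (K : ℕ) (hG : ∀ i, Bd K (G i)) (hG' : ∀ i, Bd K (-G i)) (A : ℝ) :
    TB n K 1 fun x => ((Real.sin (ex G x + A) : ℝ) : ℂ) := by
  refine ⟨Bool, inferInstance, fun b => if b then Complex.exp (A * Complex.I) / (2 * Complex.I)
    else -Complex.exp (-(A * Complex.I)) / (2 * Complex.I), fun b => if b then G else -G, ?_, ?_,
    fun x => ?_⟩
  · rintro (_ | _) i
    · exact hG' i
    · exact hG i
  · have h1 : ‖Complex.exp (A * Complex.I)‖ = 1 := Complex.norm_exp_ofReal_mul_I A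
    have h2 : ‖Complex.exp (-(A * Complex.I))‖ = 1 := by
      have := Complex.norm_exp_ofReal_mul_I (-A)
      rwa [Complex.ofReal_neg, neg_mul] at this
    simp only [Fintype.sum_bool, if_true, Bool.false_eq_true, if_false, norm_div, norm_neg, norm_mul,
      h1, h2, Complex.norm_I]
    norm_num
  · show ((Real.sin (ex G x + A) : ℝ) : ℂ) = _
    rw [sin_exp]
    simp only [Fintype.sum_bool, if_true, Bool.false_eq_true, if_false]
    have h3 : ch (-G) x = Complex.exp (-((ex G x : ℝ) * Complex.I)) := by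
      unfold ch
      have := ex_add G (-G) x
      rw [add_neg_cancel, ex_zero] at this
      have h4 : ex (-G) x = -ex G x := by linarith
      rw [h4]
      push_cast
      rw [neg_mul]
    rw [h3]
    rfl

/-- the combination of the values of one mode is a trigonometric polynomial -/
theorem TB_KF {ν k : ℕ} (g g' : Fin ν → ℤ × ℤ) (B : ℕ) (hg : ∀ ρ, Bd B (g ρ, g' ρ)) (w : Fin k → ℂ)
    (t : Fin k → ℝ) (φ : ℝ) (X Y : Fin ν → ℝ) (i : Fin n) :
    TB n (B + B) (ν * TT t) fun x => ((KF g g' w t φ X Y (x i) : ℝ) : ℂ) := by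
  have h1 : ∑ q : Fin ν × Fin k, |t q.2| = ν * TT t := by
    rw [Fintype.sum_prod_type]
    simp [TT]
  rw [← h1]
  have h2 : ∀ q ∈ (Finset.univ : Finset (Fin ν × Fin k)), TB n (B + B) (|t q.2|) fun x =>
      ((t q.2 : ℝ) : ℂ) * (((Real.sin (ex (Pi.single i (g q.1, 0)) x +
        (X q.1 * (w q.2).re + φ)) : ℝ) : ℂ) *
      ((Real.sin (ex (Pi.single i (0, g' q.1)) x + (Y q.1 * (w q.2).im + φ)) : ℝ) : ℂ)) := by
    intro q _
    obtain ⟨a1, a2, a3, a4⟩ := hg q.1
    have b1 : Bd B (g q.1, 0) := ⟨a1, a2, by simp, by simp⟩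
    have b2 : Bd B (0, g' q.1) := ⟨by simp, by simp, a3, a4⟩
    have b1' : Bd B (-(g q.1, (0 : ℤ × ℤ))) := by
      refine ⟨?_, ?_, by simp, by simp⟩
      · simpa using a1
      · simpa using a2
    have b2' : Bd B (-((0 : ℤ × ℤ), g' q.1)) := by
      refine ⟨by simp, by simp, ?_, ?_⟩
      · simpa using a3
      · simpa using a4
    have c1 := TB.sin (n := n) (Pi.single i (g q.1, 0)) B (Bd_single i _ B b1)
      (fun j => by
        have := Bd_single i _ B b1' j
        rw [Pi.single_neg] at this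
        exact this) (X q.1 * (w q.2).re + φ)
    have c2 := TB.sin (n := n) (Pi.single i (0, g' q.1)) B (Bd_single i _ B b2)
      (fun j => by
        have := Bd_single i _ B b2' j
        rw [Pi.single_neg] at this
        exact this) (Y q.1 * (w q.2).im + φ)
    have c3 := (c1.mul c2).smul ((t q.2 : ℝ) : ℂ)
    rw [Complex.norm_real, Real.norm_eq_abs, one_mul, mul_one] at c3
    exact c3
  have h3 := TB.sum (n := n) (K := B + B) Finset.univ _ _ h2
  have e : (fun x : Fin n → X4 => ((KF g g' w t φ X Y (x i) : ℝ) : ℂ)) = fun x =>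
      ∑ q : Fin ν × Fin k, ((t q.2 : ℝ) : ℂ) * (((Real.sin (ex (Pi.single i (g q.1, 0)) x +
        (X q.1 * (w q.2).re + φ)) : ℝ) : ℂ) *
      ((Real.sin (ex (Pi.single i (0, g' q.1)) x + (Y q.1 * (w q.2).im + φ)) : ℝ) : ℂ)) := by
    funext x
    unfold KF
    rw [Complex.ofReal_sum]
    refine Finset.sum_congr rfl fun q _ => ?_
    rw [ex_single1, ex_single2, Complex.ofReal_mul, Complex.ofReal_mul]
  rw [e]
  exact h3

/-- the phases at a point of the plane -/
noncomputable def Ph (a b : ℝ) (l m : Fin n → ℤ) (z : ℂ) : Fin n → X4 :=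
  fun i => ((a * l i * z.re, a * m i * z.re), (b * l i * z.im, b * m i * z.im))

theorem continuous_Ph (a b : ℝ) (l m : Fin n → ℤ) : Continuous (Ph a b l m) := by
  unfold Ph
  refine continuous_pi fun i => ?_
  have h1 := Complex.continuous_re
  have h2 := Complex.continuous_im
  fun_prop

theorem ch_Ph (a b : ℝ) (l m : Fin n → ℤ) (G : Fin n → Z4) (z : ℂ) :
    ch G (Ph a b l m z) = Complex.exp (((a * (∑ i, ((G i).1.1 * l i + (G i).1.2 * m i) : ℤ) * z.re +
      b * (∑ i, ((G i).2.1 * l i + (G i).2.2 * m i) : ℤ) * z.im : ℝ) : ℂ) * Complex.I) := by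
  unfold ch ex Ph ln
  congr 3
  push_cast
  rw [Finset.mul_sum, Finset.mul_sum, Finset.sum_mul, Finset.sum_mul, ← Finset.sum_add_distrib]
  exact Finset.sum_congr rfl fun i _ => by ring

/-- **Approximate transfer.** -/
theorem transfer (M : Measure ℂ) [IsFiniteMeasure M] (a b δ : ℝ) (l m : Fin n → ℤ) (K : ℕ)
    (hlm : ∀ g h : Fin n → ℤ, (∀ i, |g i| ≤ K) → (∀ i, |h i| ≤ K) →
      ∑ i, (g i * l i + h i * m i) = 0 → ∀ i, g i = 0 ∧ h i = 0)
    (hδ : ∀ A B : ℤ, ¬ (A = 0 ∧ B = 0) →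
      ‖∫ z, Complex.exp (((a * A * z.re + b * B * z.im : ℝ) : ℂ) * Complex.I) ∂M‖ ≤ δ)
    (hδ0 : 0 ≤ δ) {κ : ℝ} {f : (Fin n → X4) → ℂ} (hf : TB n K κ f) :
    Continuous f ∧ (∀ x, ‖f x‖ ≤ κ) ∧
    ‖∫ z, f (Ph a b l m z) ∂M - (M.real univ : ℂ) * ∫ x, f x ∂(Pn P4 n)‖ ≤ κ * δ := by
  classical
  obtain ⟨ι, _, c, G, h1, h2, h3⟩ := hf
  have hfe : f = fun x => ∑ a, c a * ch (G a) x := funext h3
  have hcont : Continuous f := by
    rw [hfe]
    exact continuous_finsetSum _ fun a _ => continuous_const.mul (continuous_ch _)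
  refine ⟨hcont, fun x => ?_, ?_⟩
  · rw [h3]
    refine (norm_sum_le _ _).trans (le_trans (Finset.sum_le_sum fun a _ => ?_) h2)
    rw [norm_mul, norm_ch, mul_one]
  · have i1 : ∀ c', Integrable (fun z => c c' * ch (G c') (Ph a b l m z)) M := fun c' =>
      (Integrable.of_bound ((continuous_ch _).comp (continuous_Ph a b l m)).aestronglyMeasurable 1
        (ae_of_all _ fun z => (norm_ch _ _).le)).const_mul _
    have i2 : ∀ c', Integrable (fun x => c c' * ch (G c') x) (Pn P4 n) := fun c' =>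
      (Integrable.of_bound (continuous_ch _).aestronglyMeasurable 1
        (ae_of_all _ fun z => (norm_ch _ _).le)).const_mul _
    simp only [h3]
    rw [integral_finsetSum _ fun c' _ => i1 c', integral_finsetSum _ fun c' _ => i2 c',
      Finset.mul_sum, ← Finset.sum_sub_distrib]
    refine (norm_sum_le _ _).trans ?_
    have hterm : ∀ c' ∈ (Finset.univ : Finset ι), ‖∫ z, c c' * ch (G c') (Ph a b l m z) ∂M -
        (M.real univ : ℂ) * ∫ x, c c' * ch (G c') x ∂(Pn P4 n)‖ ≤ ‖c c'‖ * δ := by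
      intro c' _
      rw [integral_const_mul, integral_const_mul]
      have e : ∀ A B : ℂ, c c' * A - (M.real univ : ℂ) * (c c' * B) =
          c c' * (A - (M.real univ : ℂ) * B) := fun A B => by ring
      rw [e, norm_mul]
      refine mul_le_mul_of_nonneg_left ?_ (norm_nonneg _)
      by_cases h0 : G c' = 0
      · have e1 : ∀ x : Fin n → X4, ch (G c') x = 1 := by
          intro x
          rw [h0]
          simp [ch, ex_zero]
        simp only [e1]
        rw [integral_const (μ := M), integral_const (μ := Pn P4 n), probReal_univ (μ := Pn P4 n)]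
        simp [hδ0]
      · rw [int_ch _ h0, mul_zero, sub_zero]
        simp only [ch_Ph]
        refine hδ _ _ ?_
        rintro ⟨z1, z2⟩
        have y1 := hlm (fun i => (G c' i).1.1) (fun i => (G c' i).1.2) (fun i => (h1 c' i).1)
          (fun i => (h1 c' i).2.1) z1
        have y2 := hlm (fun i => (G c' i).2.1) (fun i => (G c' i).2.2) (fun i => (h1 c' i).2.2.1)
          (fun i => (h1 c' i).2.2.2) z2
        refine h0 (funext fun i => ?_)
        exact Prod.ext (Prod.ext (y1 i).1 (y1 i).2) (Prod.ext (y2 i).1 (y2 i).2)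
    refine (Finset.sum_le_sum hterm).trans ?_
    rw [← Finset.sum_mul]
    exact mul_le_mul_of_nonneg_right h2 hδ0

end Pool.Agent.Zk91.KB
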