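import Pool.Agent.Zk91.KB.Tri
import Pool.Agent.Zk91.KB.Pol
import Pool.Agent.Zk91.KB.Ave

/-!
# The modes on a mirror: functions of two phases
-/

set_option autoImplicit false

open Filter Topology Real MeasureTheory Set ProbabilityTheory

namespace Pool.Agent.Zk91.KB

open Pool.Agent.Zk60.BW (TT TT_nonneg GG)

variable {ν k n : ℕ}

/-- the covariance at the mirror `Re z = const`; `w'` are the reflected points -/
noncomputable def VB (w : Fin k → ℂ) (t : Fin k → ℝ) (e : ℝ) (X Y : ℝ) : ℝ :=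
  ∑ i, ∑ j, t i * t j * (GG (w i - w j) X Y - e * GG (w i + (starRingEnd ℂ) (w j)) X Y)

/-- freezing the first components -/
theorem TB.freeze {q : ℕ} {κ : ℝ} {f : (Fin n → X4) → ℂ} (h : TB n q κ f) (y : Fin n → ℝ × ℝ) :
    TB n q κ fun x => f fun i => (y i, (x i).2) := by
  obtain ⟨ι, _, c, G, h1, h2, h3⟩ := h
  set s : ι → ℝ := fun a => ∑ i, ln (G a i).1 (y i) with hs
  refine ⟨ι, inferInstance, fun a => c a * Complex.exp ((s a : ℝ) * Complex.I),
    fun a i => (0, (G a i).2), fun a i => ?_, ?_, fun x => ?_⟩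
  · obtain ⟨a1, a2, a3, a4⟩ := h1 a i
    exact ⟨by simp, by simp, a3, a4⟩
  · refine le_trans (le_of_eq ?_) h2
    refine Finset.sum_congr rfl fun a _ => ?_
    rw [norm_mul, Complex.norm_exp_ofReal_mul_I, mul_one]
  · show f (fun i => (y i, (x i).2)) = _
    rw [h3]
    refine Finset.sum_congr rfl fun a _ => ?_
    rw [mul_assoc]
    congr 1
    unfold ch
    rw [← Complex.exp_add, ← add_mul, ← Complex.ofReal_add]
    congr 3
    unfold ex
    rw [hs]
    simp only
    rw [← Finset.sum_add_distrib]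
    refine Finset.sum_congr rfl fun i _ => ?_
    simp [ln]

/-- the combination of the values of one mode on the mirror -/
noncomputable def KM (g' : Fin ν → ℤ × ℤ) (w : Fin k → ℂ) (t : Fin k → ℝ) (φ : ℝ)
    (X Y : Fin ν → ℝ) (c : Fin ν → ℝ) (x : X4) : ℝ :=
  ∑ q : Fin ν × Fin k, t q.2 * (sin (c q.1 + (X q.1 * (w q.2).re + φ)) *
    sin (ln (g' q.1) x.2 + (Y q.1 * (w q.2).im + φ)))

theorem KM_eq (g g' : Fin ν → ℤ × ℤ) (w : Fin k → ℂ) (t : Fin k → ℝ) (φ : ℝ)
    (X Y : Fin ν → ℝ) (y : ℝ × ℝ) (x : X4) :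
    KF g g' w t φ X Y (y, x.2) = KM g' w t φ X Y (fun ρ => ln (g ρ) y) x := rfl

theorem int_KM {g' : Fin ν → ℤ × ℤ} (hne : ∀ ρ, g' ρ ≠ 0) (w : Fin k → ℂ) (t : Fin k → ℝ) (φ : ℝ)
    (X Y : Fin ν → ℝ) (c : Fin ν → ℝ) : ∫ x, KM g' w t φ X Y c x ∂P4 = 0 := by
  unfold KM
  rw [integral_finsetSum]
  · refine Finset.sum_eq_zero fun q _ => ?_
    rw [integral_const_mul]
    unfold P4
    rw [integral_prod_mul (μ := P2) (ν := P2)
      (fun _ => sin (c q.1 + (X q.1 * (w q.2).re + φ)))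
      (fun x => sin (ln (g' q.1) x + (Y q.1 * (w q.2).im + φ))),
      int_sin2 _ (hne q.1), mul_zero, mul_zero]
  · intro q _
    have h2 := continuous_ln (g' q.1)
    refine Integrable.of_bound (by fun_prop) (|t q.2|) (ae_of_all _ fun p => ?_)
    rw [Real.norm_eq_abs, abs_mul, abs_mul]
    exact mul_le_of_le_one_right (abs_nonneg _)
      (mul_le_one₀ (abs_sin_le_one _) (abs_nonneg _) (abs_sin_le_one _))

theorem sin_mul_shift (c A B : ℝ) (hc : ∃ N : ℤ, c = N * π) :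
    sin (c + A) * sin (c + B) = sin A * sin B := by
  obtain ⟨N, rfl⟩ := hc
  have h1 : ∀ A : ℝ, sin (N * π + A) = (-1) ^ N * sin A := by
    intro A
    rw [add_comm, Real.sin_add_int_mul_pi]
  rw [h1, h1]
  have h2 : ((-1 : ℝ) ^ N) * ((-1 : ℝ) ^ N) = 1 := by
    rw [← mul_zpow]
    norm_num
  linear_combination (sin A * sin B) * h2

theorem int_KM_sq {g' : Fin ν → ℤ × ℤ} (hinj : ∀ ρ σ, g' ρ = g' σ → ρ = σ)
    (hneg : ∀ ρ σ, g' ρ ≠ -g' σ) (w : Fin k → ℂ) (t : Fin k → ℝ) (φ : ℝ) (hφ : sin (2 * φ) = 0)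
    (X Y : Fin ν → ℝ) (c : Fin ν → ℝ) (hc : ∀ ρ, ∃ N : ℤ, c ρ = N * π) :
    ∫ x, KM g' w t φ X Y c x ^ 2 ∂P4 = (∑ ρ, VB w t (cos (2 * φ)) (X ρ) (Y ρ)) / 4 := by
  unfold KM
  rw [int_sq_sum (fun q : Fin ν × Fin k => t q.2)
    (fun q _ => sin (c q.1 + (X q.1 * (w q.2).re + φ)))
    (fun q x => sin (ln (g' q.1) x + (Y q.1 * (w q.2).im + φ)))
    (fun q => continuous_const)
    (fun q => by have := continuous_ln (g' q.1); fun_prop)
    (fun q x => abs_sin_le_one _) (fun q x => abs_sin_le_one _)]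
  have key : ∀ q r : Fin ν × Fin k, (t q.2 * t r.2) *
      ((∫ _x, sin (c q.1 + (X q.1 * (w q.2).re + φ)) *
        sin (c r.1 + (X r.1 * (w r.2).re + φ)) ∂P2) *
      (∫ x, sin (ln (g' q.1) x + (Y q.1 * (w q.2).im + φ)) *
        sin (ln (g' r.1) x + (Y r.1 * (w r.2).im + φ)) ∂P2)) =
      if q.1 = r.1 then (t q.2 * t r.2) * (GG (w q.2 - w r.2) (X q.1) (Y q.1) -
        cos (2 * φ) * GG (w q.2 + (starRingEnd ℂ) (w r.2)) (X q.1) (Y q.1)) / 4 else 0 := by
    intro q r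
    rw [integral_const, probReal_univ, one_smul, int_sin_sin2]
    by_cases h : q.1 = r.1
    · have h2 : Y q.1 * (w q.2).im + φ - (Y q.1 * (w r.2).im + φ) = Y q.1 * (w q.2 - w r.2).im := by
        rw [Complex.sub_im]; ring
      rw [← h, if_pos rfl, if_pos rfl, if_neg (hneg _ _), h2, sin_mul_shift _ _ _ (hc q.1)]
      have h3 : sin (X q.1 * (w q.2).re + φ) * sin (X q.1 * (w r.2).re + φ) =
          (cos (X q.1 * (w q.2 - w r.2).re) - cos (2 * φ) *
            cos (X q.1 * (w q.2 + (starRingEnd ℂ) (w r.2)).re)) / 2 := by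
        have e1 : X q.1 * (w q.2 - w r.2).re =
            (X q.1 * (w q.2).re + φ) - (X q.1 * (w r.2).re + φ) := by
          rw [Complex.sub_re]; ring
        have e2 : X q.1 * (w q.2 + (starRingEnd ℂ) (w r.2)).re =
            X q.1 * (w q.2).re + X q.1 * (w r.2).re := by
          rw [Complex.add_re, Complex.conj_re]; ring
        have e3 : cos ((X q.1 * (w q.2).re + φ) + (X q.1 * (w r.2).re + φ)) =
            cos (2 * φ) * cos (X q.1 * (w q.2).re + X q.1 * (w r.2).re) := by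
          have : (X q.1 * (w q.2).re + φ) + (X q.1 * (w r.2).re + φ) =
              (X q.1 * (w q.2).re + X q.1 * (w r.2).re) + 2 * φ := by ring
          rw [this, cos_add, hφ]
          ring
        rw [e1, e2, ← e3, cos_sub (X q.1 * (w q.2).re + φ), cos_add (X q.1 * (w q.2).re + φ)]
        ring
      rw [h3]
      have e4 : (w q.2 + (starRingEnd ℂ) (w r.2)).im = (w q.2 - w r.2).im := by
        rw [Complex.add_im, Complex.conj_im, Complex.sub_im]; ring
      unfold GG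
      rw [e4]
      ring
    · rw [if_neg (fun h0 => h (hinj _ _ h0)), if_neg (hneg _ _), if_neg h]
      ring
  simp only [key]
  simp only [Fintype.sum_prod_type]
  unfold VB
  rw [Finset.sum_div]
  refine Finset.sum_congr rfl fun ρ _ => ?_
  rw [Finset.sum_div]
  refine Finset.sum_congr rfl fun i _ => ?_
  rw [Finset.sum_div, Finset.sum_comm]
  refine Finset.sum_congr rfl fun j _ => ?_
  simp

end Pool.Agent.Zk91.KB
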