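import Pool.Agent.Zk91.KB.Scale
import Pool.Agent.Zk91.KB.Adapt46

/-!
# The law on all mirrors
-/

set_option autoImplicit false

open Filter Topology Real MeasureTheory Set
open scoped ContDiff

namespace Pool.Agent.Zk91.KB

open Pool.Agent.N661.BR (J0)

variable {ν : ℕ}

theorem tendsto_min_sqrt {ψ : ℝ → ℝ} (hψ : Tendsto ψ atTop atTop) :
    Tendsto (fun x => min (ψ x) (√(√x)) / 4) atTop atTop := by
  have h1 : Tendsto (fun x : ℝ => √(√x)) atTop atTop :=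
    Real.tendsto_sqrt_atTop.comp Real.tendsto_sqrt_atTop
  have h2 : Tendsto (fun x => min (ψ x) (√(√x))) atTop atTop := by
    rw [tendsto_atTop]
    intro b
    filter_upwards [hψ.eventually_ge_atTop b, h1.eventually_ge_atTop b] with x hx hx'
    exact le_min hx hx'
  exact h2.atTop_div_const (by norm_num)

theorem bdy_main (K : Kal ν) (ψ : ℝ → ℝ) (hψ : Tendsto ψ atTop atTop) :
    ∃ (d : ∀ n, Num K.D (K.B + K.B) n) (R : ℕ → ℕ), (∀ n, 0 < R n) ∧
      Tendsto (fun n => K.lam (d n) (R n)) atTop atTop ∧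
      ∀ φ, sin (2 * φ) = 0 →
        (∀ C : Set ℂ, Convex ℝ C → Bornology.IsBounded C → 0 < volume.real C →
          Tendsto (fun n => 1 / volume.real C * ∫ z in C, K.u (d n) (R n) φ z ^ 2) atTop (𝓝 1)) ∧
        ∀ (k : ℕ) (ρ ε : ℝ), 0 < ε → ∀ᶠ n in atTop, ∀ p, Adapt K p → ∀ h, 0 < h →
          ψ (K.lam (d n) (R n)) ≤ √(K.lam (d n) (R n)) * h →
          ∀ (w : Fin k → ℂ) (t : Fin k → ℝ), (∀ i, ‖w i‖ ≤ ρ) → (∀ i, |t i| ≤ ρ) →
            |1 / h * (∫ y in (0 : ℝ)..h, (∑ i, t i * K.u (d n) (R n) φ (p.1 +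
              (y : ℂ) * Complex.I * p.2 + p.2 * w i / ((√(K.lam (d n) (R n)) : ℝ) : ℂ))) ^ 2) -
              QB w t (cos (2 * φ))| ≤ ε ∧
            ‖((1 / h : ℝ) : ℂ) * (∫ y in (0 : ℝ)..h, Complex.exp (Complex.I * ((∑ i, t i *
              K.u (d n) (R n) φ (p.1 + (y : ℂ) * Complex.I * p.2 +
              p.2 * w i / ((√(K.lam (d n) (R n)) : ℝ) : ℂ)) : ℝ) : ℂ))) -
              ((Real.exp (-(QB w t (cos (2 * φ))) / 2) : ℝ) : ℂ)‖ ≤ ε := by
  obtain ⟨s⟩ := exists_sc K (fun x => min (ψ x) (√(√x)) / 4) (tendsto_min_sqrt hψ)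
  have hlam := tendsto_lam' s.d s.R s.pos
  refine ⟨s.d, s.R, s.pos, hlam, fun φ hφ => ⟨fun C c1 c2 c3 => ?_, fun k ρ ε hε => ?_⟩⟩
  · rw [Metric.tendsto_atTop]
    intro ε hε
    have h1 : Tendsto (fun n => √(√(K.lam (s.d n) (s.R n)))) atTop atTop :=
      (Real.tendsto_sqrt_atTop.comp Real.tendsto_sqrt_atTop).comp hlam
    have h2 := (s.sq φ (ε / 2) (by positivity)).and
      (h1.eventually_ge_atTop (Metric.diam C / volume.real C))
    obtain ⟨N, hN⟩ := eventually_atTop.1 h2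
    refine ⟨N, fun n hn => ?_⟩
    obtain ⟨h3, h4⟩ := hN n hn
    rw [Real.dist_eq]
    refine lt_of_le_of_lt (h3 C ⟨c1, c2, c3, ?_⟩) (by linarith)
    set L := K.lam (s.d n) (s.R n)
    have h5 : √(√L) * √(√L) = √L := Real.mul_self_sqrt (Real.sqrt_nonneg _)
    have h6 : 0 ≤ √(√L) := Real.sqrt_nonneg _
    have hd : 0 ≤ Metric.diam C := Metric.diam_nonneg
    rw [div_le_iff₀ c3] at h4
    have h7 : min (ψ L) (√(√L)) / 4 ≤ √(√L) := by
      have := min_le_right (ψ L) (√(√L))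
      linarith
    calc min (ψ L) (√(√L)) / 4 * Metric.diam C ≤ √(√L) * Metric.diam C :=
          mul_le_mul_of_nonneg_right h7 hd
      _ ≤ √(√L) * (√(√L) * volume.real C) := mul_le_mul_of_nonneg_left h4 h6
      _ = √L * volume.real C := by rw [← mul_assoc, h5]
  · filter_upwards [bnd ν k ρ ε hε] with n hn
    rintro p ⟨K', hv, hca, hcb, ⟨s0, j, y0, hs0, hp⟩, hK'⟩ h hh hψh w t hw ht
    obtain ⟨d', hdN, hd'⟩ := hK' n (s.d n)
    obtain ⟨hl, hu⟩ := hd' (s.R n)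
    have hN := (s.d n).N_pos
    have ha := K.ha
    have hb := K.hb
    have hc := K.hc
    set L := K.lam (s.d n) (s.R n) with hL
    set E := Real.exp ((n + 1 : ℕ) : ℝ) with hE
    have hE0 : 0 < E := Real.exp_pos _
    have b1 : 4 * (K.c * (s.d n).N / K.a) * E ≤ min (ψ L) (√(√L)) / 4 := s.biga n
    have b2 : 4 * (K.c * (s.d n).N / K.b) * E ≤ min (ψ L) (√(√L)) / 4 := s.bigb n
    have b3 := min_le_left (ψ L) (√(√L))
    have big : ∀ x : ℝ, x ≤ K.c / K.a + K.c / K.b → 8 * (x * (d'.N : ℝ)) * E ≤ ψ L := by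
      intro x hx
      rw [hdN]
      have e1 : 4 * (K.c * (s.d n).N / K.a) * E = 4 * (K.c / K.a * ((s.d n).N * E)) := by ring
      have e2 : 4 * (K.c * (s.d n).N / K.b) * E = 4 * (K.c / K.b * ((s.d n).N * E)) := by ring
      rw [e1] at b1
      rw [e2] at b2
      have h1 : x * ((s.d n).N * E) ≤ (K.c / K.a + K.c / K.b) * ((s.d n).N * E) :=
        mul_le_mul_of_nonneg_right hx (by positivity)
      have e3 : 8 * (x * ((s.d n).N : ℝ)) * E = 8 * (x * ((s.d n).N * E)) := by ring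
      rw [e3]
      linarith
    have key := hn K' hv d' (s.R n) (s.pos n) (ψ L)
      (by
        have e : K'.c * (d'.N : ℝ) / K'.a = K'.c / K'.a * (d'.N : ℝ) := by ring
        rw [e]
        exact big _ hca)
      (by
        have e : K'.c * (d'.N : ℝ) / K'.b = K'.c / K'.b * (d'.N : ℝ) := by ring
        rw [e]
        exact big _ hcb) φ hφ s0 hs0 j y0 h hh (by rw [hl]; exact hψh) w t hw ht
    rw [hl] at key
    have hpt : ∀ (y : ℝ) (i : Fin k), K.u (s.d n) (s.R n) φ (p.1 + (y : ℂ) * Complex.I * p.2 +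
        p.2 * w i / ((√L : ℝ) : ℂ)) = K'.u d' (s.R n) φ (((j * s0 : ℝ) : ℂ) +
        ((y0 + y : ℝ) : ℂ) * Complex.I + w i / ((√L : ℝ) : ℂ)) := by
      intro y i
      rw [← hu φ hφ]
      congr 1
      rw [hp]
      push_cast
      ring
    simp only [hpt]
    have i1 := intervalIntegral.integral_comp_add_left (a := (0 : ℝ)) (b := h)
      (fun y : ℝ => (∑ i, t i * K'.u d' (s.R n) φ (((j * s0 : ℝ) : ℂ) +
        (y : ℂ) * Complex.I + w i / ((√L : ℝ) : ℂ))) ^ 2) y0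
    have i2 := intervalIntegral.integral_comp_add_left (a := (0 : ℝ)) (b := h)
      (fun y : ℝ => Complex.exp (Complex.I * ((∑ i, t i *
        K'.u d' (s.R n) φ (((j * s0 : ℝ) : ℂ) + (y : ℂ) * Complex.I +
        w i / ((√L : ℝ) : ℂ)) : ℝ) : ℂ))) y0
    rw [add_zero] at i1 i2
    rw [i1, i2]
    simp only [mul_comm Complex.I (((∑ i, t i * K'.u d' (s.R n) φ (((j * s0 : ℝ) : ℂ) + _ +
      w i / ((√L : ℝ) : ℂ)) : ℝ) : ℂ))]
    exact key

end Pool.Agent.Zk91.KB
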