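import Mathlib

/-!
# Blocks without short relations
-/

set_option autoImplicit false
set_option linter.unusedSectionVars false

open Finset

namespace Pool.Agent.Zk91.KB

section count

variable {K b : ℕ} [NeZero b] (ξ : Fin K → Fin b → ℤ × ℤ)

/-- every nonzero linear form takes every value at most twice -/
def Two (ξ : Fin K → Fin b → ℤ × ℤ) : Prop := ∀ (i : Fin K) (g : ℤ × ℤ) (v : ℤ), g ≠ 0 →
  (univ.filter fun x : Fin b => g.1 * (ξ i x).1 + g.2 * (ξ i x).2 = v).card ≤ 2

theorem count_one (h2 : Two ξ) (i : Fin K) (g : ℤ × ℤ) (hg : g ≠ 0) (A : ℤ) (T : ℕ) :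
    (univ.filter fun x : Fin b => |A + (g.1 * (ξ i x).1 + g.2 * (ξ i x).2)| ≤ (T : ℤ)).card ≤
      2 * (2 * T + 1) := by
  classical
  set F := univ.filter fun x : Fin b => |A + (g.1 * (ξ i x).1 + g.2 * (ξ i x).2)| ≤ (T : ℤ)
    with hF
  have h1 := card_le_mul_card_image (f := fun x : Fin b => g.1 * (ξ i x).1 + g.2 * (ξ i x).2) F 2
    (fun v _ => by
      refine le_trans (card_le_card ?_) (h2 i g v hg)
      intro x hx
      rw [mem_filter] at hx
      exact mem_filter.2 ⟨mem_univ _, hx.2⟩)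
  refine h1.trans (Nat.mul_le_mul_left 2 ?_)
  have h3 : F.image (fun x : Fin b => g.1 * (ξ i x).1 + g.2 * (ξ i x).2) ⊆
      Icc (-(T : ℤ) - A) ((T : ℤ) - A) := by
    intro v hv
    obtain ⟨x, hx, rfl⟩ := mem_image.1 hv
    rw [hF, mem_filter] at hx
    have := abs_le.1 hx.2
    rw [mem_Icc]
    constructor <;> linarith [this.1, this.2]
  refine (card_le_card h3).trans ?_
  rw [Int.card_Icc]
  omega

/-- the value of the relation `p` at the block `j` after the shifts `s` -/
def form (p : Fin K → ℤ × ℤ) (s : Fin K → Fin b) (j : Fin b) : ℤ :=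
  ∑ i, ((p i).1 * (ξ i (j + s i)).1 + (p i).2 * (ξ i (j + s i)).2)

theorem count_two (h2 : Two ξ) (p : Fin K → ℤ × ℤ) (hp : p ≠ 0) (j : Fin b) (T : ℕ) :
    (univ.filter fun s : Fin K → Fin b => |form ξ p s j| ≤ (T : ℤ)).card ≤
      2 * (2 * T + 1) * b ^ (K - 1) := by
  classical
  obtain ⟨i0, hi0⟩ := Function.ne_iff.1 hp
  set F := univ.filter fun s : Fin K → Fin b => |form ξ p s j| ≤ (T : ℤ) with hF
  set f : (Fin K → Fin b) → ({i : Fin K // i ≠ i0} → Fin b) := fun s i => s i with hf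
  have hcard : (F.image f).card ≤ b ^ (K - 1) := by
    refine (card_le_univ _).trans (le_of_eq ?_)
    rw [Fintype.card_fun, Fintype.card_fin]
    congr 1
    rw [Fintype.card_subtype_compl, Fintype.card_fin]
    simp
  have h1 := card_le_mul_card_image (f := f) F (2 * (2 * T + 1)) (fun a ha => by
    obtain ⟨s0, -, hs0⟩ := mem_image.1 ha
    refine le_trans ?_ (count_one ξ h2 i0 (p i0) hi0 (∑ i ∈ univ.erase i0,
      ((p i).1 * (ξ i (j + s0 i)).1 + (p i).2 * (ξ i (j + s0 i)).2)) T)
    refine card_le_card_of_injOn (fun s => j + s i0) ?_ ?_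
    · intro s hs
      rw [mem_coe, mem_filter] at hs
      obtain ⟨hs1, hs2⟩ := hs
      rw [hF, mem_filter] at hs1
      rw [mem_coe, mem_filter]
      refine ⟨mem_univ _, ?_⟩
      have e : form ξ p s j = ∑ i ∈ univ.erase i0,
          ((p i).1 * (ξ i (j + s0 i)).1 + (p i).2 * (ξ i (j + s0 i)).2) +
          ((p i0).1 * (ξ i0 (j + s i0)).1 + (p i0).2 * (ξ i0 (j + s i0)).2) := by
        unfold form
        rw [← sum_erase_add _ _ (mem_univ i0)]
        congr 1
        refine sum_congr rfl fun i hi => ?_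
        have hne : i ≠ i0 := (mem_erase.1 hi).1
        have h3 : s i = s0 i := by
          have := congrFun (hs2.trans hs0.symm) ⟨i, hne⟩
          exact this
        rw [h3]
      rw [← e]
      exact hs1.2
    · intro s hs s' hs' hss
      rw [mem_coe, mem_filter] at hs hs'
      funext i
      by_cases hi : i = i0
      · subst hi
        exact add_left_cancel hss
      · have := congrFun (hs.2.trans hs'.2.symm) ⟨i, hi⟩
        exact this)
  exact h1.trans (Nat.mul_le_mul_left _ hcard)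

/-- the relations with coefficients at most `Q` -/
noncomputable def Pat (K Q : ℕ) : Finset (Fin K → ℤ × ℤ) :=
  Fintype.piFinset fun _ => Icc (-(Q : ℤ)) Q ×ˢ Icc (-(Q : ℤ)) Q

/-- the bad blocks -/
noncomputable def bad (ξ : Fin K → Fin b → ℤ × ℤ) (Q T : ℕ) (s : Fin K → Fin b) : Finset (Fin b) :=
  univ.filter fun j => ∃ p ∈ Pat K Q, p ≠ 0 ∧ |form ξ p s j| ≤ (T : ℤ)

theorem exists_shift (h2 : Two ξ) (hK : 0 < K) (Q T : ℕ) :
    ∃ s : Fin K → Fin b, (bad ξ Q T s).card ≤ (Pat K Q).card * (2 * (2 * T + 1)) := by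
  classical
  set C := (Pat K Q).card * (2 * (2 * T + 1)) with hC
  have key : ∑ s : Fin K → Fin b, (bad ξ Q T s).card ≤ ∑ _s : Fin K → Fin b, C := by
    have h1 : ∀ s : Fin K → Fin b, (bad ξ Q T s).card ≤
        ∑ p ∈ (Pat K Q).filter (fun p => p ≠ 0),
          (univ.filter fun j : Fin b => |form ξ p s j| ≤ (T : ℤ)).card := by
      intro s
      refine le_trans (card_le_card ?_) card_biUnion_le
      intro j hj
      obtain ⟨p, hp, hp0, hf⟩ := (mem_filter.1 hj).2
      exact mem_biUnion.2 ⟨p, mem_filter.2 ⟨hp, hp0⟩, mem_filter.2 ⟨mem_univ _, hf⟩⟩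
    calc ∑ s : Fin K → Fin b, (bad ξ Q T s).card
        ≤ ∑ s : Fin K → Fin b, ∑ p ∈ (Pat K Q).filter (fun p => p ≠ 0),
          (univ.filter fun j : Fin b => |form ξ p s j| ≤ (T : ℤ)).card :=
          sum_le_sum fun s _ => h1 s
      _ = ∑ p ∈ (Pat K Q).filter (fun p => p ≠ 0), ∑ j : Fin b,
          (univ.filter fun s : Fin K → Fin b => |form ξ p s j| ≤ (T : ℤ)).card := by
          rw [sum_comm]
          refine sum_congr rfl fun p _ => ?_
          simp only [card_filter]
          rw [sum_comm]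
      _ ≤ ∑ p ∈ (Pat K Q).filter (fun p => p ≠ 0), ∑ _j : Fin b,
          2 * (2 * T + 1) * b ^ (K - 1) :=
          sum_le_sum fun p hp => sum_le_sum fun j _ => count_two ξ h2 p (mem_filter.1 hp).2 j T
      _ ≤ ∑ _p ∈ Pat K Q, ∑ _j : Fin b, 2 * (2 * T + 1) * b ^ (K - 1) :=
          sum_le_sum_of_subset (filter_subset _ _)
      _ = ∑ _s : Fin K → Fin b, C := by
          simp only [sum_const, card_univ, Fintype.card_fin, Fintype.card_fun, smul_eq_mul]
          have : b ^ K = b * b ^ (K - 1) := by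
            rw [← pow_succ']
            congr 1
            omega
          rw [this, hC]
          ring
  obtain ⟨s, -, hs⟩ := exists_le_of_sum_le univ_nonempty key
  exact ⟨s, hs⟩

end count

end Pool.Agent.Zk91.KB
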