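import Pool.Agent.Zk91.KB.Win
import Pool.Agent.Zk91.KB.Bdy

/-!
# The law of the eigenfunctions at the mirrors
-/

set_option autoImplicit false

open Filter Topology Real MeasureTheory Set ProbabilityTheory
open scoped ContDiff

namespace Pool.Agent.Zk91.KB

open Pool.Agent.Zk60.BW (TT TT_nonneg GG)
open Pool.Agent.N661.BR (J0)

variable {ν k n : ℕ}

/-! ### averages over the directions -/

theorem Kal.X_near (K : Kal ν) (d : Num K.D (K.B + K.B) n) (i : Fin (n + 1)) (ρ : Fin ν) :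
    |K.X d i ρ - sin (π * i / (n + 1 : ℕ) - K.τ ρ)| ≤ 2 / (n + 1 : ℕ) := by
  have a1 := d.dirX i
  have a2 := d.dirY i
  rw [sin_sub]
  unfold Kal.X
  have e : cos (K.τ ρ) * (√K.D * d.l i / d.N) - sin (K.τ ρ) * (d.m i / d.N) -
      (sin (π * i / ((n + 1 : ℕ) : ℝ)) * cos (K.τ ρ) -
        cos (π * i / ((n + 1 : ℕ) : ℝ)) * sin (K.τ ρ)) =
      cos (K.τ ρ) * (√K.D * d.l i / d.N - sin (π * i / ((n + 1 : ℕ) : ℝ))) -
      sin (K.τ ρ) * (d.m i / d.N - cos (π * i / ((n + 1 : ℕ) : ℝ))) := by ring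
  rw [e]
  refine (abs_sub _ _).trans ?_
  rw [abs_mul, abs_mul]
  have b1 := mul_le_mul (abs_cos_le_one (K.τ ρ)) a1 (abs_nonneg _) zero_le_one
  have b2 := mul_le_mul (abs_sin_le_one (K.τ ρ)) a2 (abs_nonneg _) zero_le_one
  refine (add_le_add b1 b2).trans (le_of_eq ?_)
  ring

theorem Kal.Y_near (K : Kal ν) (d : Num K.D (K.B + K.B) n) (i : Fin (n + 1)) (ρ : Fin ν) :
    |K.Y d i ρ - cos (π * i / (n + 1 : ℕ) - K.τ ρ)| ≤ 2 / (n + 1 : ℕ) := by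
  have a1 := d.dirX i
  have a2 := d.dirY i
  rw [cos_sub]
  unfold Kal.Y
  have e : sin (K.τ ρ) * (√K.D * d.l i / d.N) + cos (K.τ ρ) * (d.m i / d.N) -
      (cos (π * i / ((n + 1 : ℕ) : ℝ)) * cos (K.τ ρ) +
        sin (π * i / ((n + 1 : ℕ) : ℝ)) * sin (K.τ ρ)) =
      sin (K.τ ρ) * (√K.D * d.l i / d.N - sin (π * i / ((n + 1 : ℕ) : ℝ))) +
      cos (K.τ ρ) * (d.m i / d.N - cos (π * i / ((n + 1 : ℕ) : ℝ))) := by ring
  rw [e]
  refine (abs_add_le _ _).trans ?_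
  rw [abs_mul, abs_mul]
  have b1 := mul_le_mul (abs_sin_le_one (K.τ ρ)) a1 (abs_nonneg _) zero_le_one
  have b2 := mul_le_mul (abs_cos_le_one (K.τ ρ)) a2 (abs_nonneg _) zero_le_one
  refine (add_le_add b1 b2).trans (le_of_eq ?_)
  ring

theorem Kal.ave_GG (K : Kal ν) (d : Num K.D (K.B + K.B) n) (z : ℂ) :
    |(1 / ((n + 1 : ℕ) : ℝ)) * ∑ i, (1 / (ν : ℝ)) * ∑ ρ, GG z (K.X d i ρ) (K.Y d i ρ) -
      J0 ‖z‖| ≤ (|z.re| + |z.im|) * (2 + π) / (n + 1 : ℕ) := by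
  have hn : (0 : ℝ) < ((n + 1 : ℕ) : ℝ) := by positivity
  have hν : (0 : ℝ) < ν := by exact_mod_cast K.hν
  have h1 : ∀ ρ, |(1 / ((n + 1 : ℕ) : ℝ)) * ∑ i, GG z (K.X d i ρ) (K.Y d i ρ) - J0 ‖z‖| ≤
      (|z.re| + |z.im|) * (2 + π) / (n + 1 : ℕ) := fun ρ =>
    Pool.Agent.Zk91.KB.ave_GG z (n + 1) (Nat.succ_pos n) (K.τ ρ) (fun i => K.X d i ρ)
      (fun i => K.Y d i ρ) (fun i => K.X_near d i ρ) fun i => K.Y_near d i ρ
  have e : (1 / ((n + 1 : ℕ) : ℝ)) * ∑ i, (1 / (ν : ℝ)) * ∑ ρ, GG z (K.X d i ρ) (K.Y d i ρ) -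
      J0 ‖z‖ =
      (1 / (ν : ℝ)) * ∑ ρ, ((1 / ((n + 1 : ℕ) : ℝ)) * ∑ i, GG z (K.X d i ρ) (K.Y d i ρ) -
        J0 ‖z‖) := by
    rw [Finset.sum_sub_distrib, Finset.sum_const, Finset.card_univ, Fintype.card_fin, nsmul_eq_mul,
      ← Finset.mul_sum, ← Finset.mul_sum, Finset.sum_comm]
    field_simp
  rw [e, abs_mul, abs_of_pos (by positivity)]
  calc 1 / (ν : ℝ) * |∑ ρ, ((1 / ((n + 1 : ℕ) : ℝ)) * ∑ i, GG z (K.X d i ρ) (K.Y d i ρ) - J0 ‖z‖)|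
      ≤ 1 / (ν : ℝ) * ∑ _ρ : Fin ν, (|z.re| + |z.im|) * (2 + π) / (n + 1 : ℕ) := by
        refine mul_le_mul_of_nonneg_left ?_ (by positivity)
        exact (Finset.abs_sum_le_sum_abs _ _).trans (Finset.sum_le_sum fun ρ _ => h1 ρ)
    _ = _ := by
        rw [Finset.sum_const, Finset.card_univ, Fintype.card_fin, nsmul_eq_mul]
        field_simp

/-- the limit covariance -/
noncomputable def QB (w : Fin k → ℂ) (t : Fin k → ℝ) (e : ℝ) : ℝ :=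
  ∑ i, ∑ j, t i * t j * (J0 ‖w i - w j‖ - e * J0 ‖w i + (starRingEnd ℂ) (w j)‖)

theorem Kal.ave_VB (K : Kal ν) (d : Num K.D (K.B + K.B) n) (w : Fin k → ℂ) (t : Fin k → ℝ) (e : ℝ)
    (he : |e| ≤ 1) (ρ : ℝ) (hw : ∀ j, ‖w j‖ ≤ ρ) (ht : ∀ j, |t j| ≤ ρ) :
    |(1 / ((n + 1 : ℕ) : ℝ)) * ∑ i, (1 / (ν : ℝ)) * ∑ σ, VB w t e (K.X d i σ) (K.Y d i σ) -
      QB w t e| ≤ (k : ℝ) ^ 2 * (ρ ^ 2 * (8 * ρ * (2 + π))) / (n + 1 : ℕ) := by
  have hn : (0 : ℝ) < ((n + 1 : ℕ) : ℝ) := by positivity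
  set A : ℂ → ℝ := fun z => (1 / ((n + 1 : ℕ) : ℝ)) * ∑ i, (1 / (ν : ℝ)) *
    ∑ σ, GG z (K.X d i σ) (K.Y d i σ) with hA
  have e1 : (1 / ((n + 1 : ℕ) : ℝ)) * ∑ i, (1 / (ν : ℝ)) * ∑ σ, VB w t e (K.X d i σ) (K.Y d i σ) =
      ∑ i, ∑ j, t i * t j * (A (w i - w j) - e * A (w i + (starRingEnd ℂ) (w j))) := by
    unfold VB
    simp only [hA]
    have e2 : ∀ r : Fin (n + 1), (1 / (ν : ℝ)) * ∑ σ, ∑ i, ∑ j, t i * t j *
        (GG (w i - w j) (K.X d r σ) (K.Y d r σ) -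
          e * GG (w i + (starRingEnd ℂ) (w j)) (K.X d r σ) (K.Y d r σ)) =
        ∑ i, ∑ j, t i * t j * ((1 / (ν : ℝ)) * ∑ σ, GG (w i - w j) (K.X d r σ) (K.Y d r σ) -
          e * ((1 / (ν : ℝ)) * ∑ σ, GG (w i + (starRingEnd ℂ) (w j)) (K.X d r σ) (K.Y d r σ))) := by
      intro r
      rw [Finset.sum_comm, Finset.mul_sum]
      refine Finset.sum_congr rfl fun i _ => ?_
      rw [Finset.sum_comm, Finset.mul_sum]
      refine Finset.sum_congr rfl fun j _ => ?_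
      rw [← Finset.mul_sum, Finset.sum_sub_distrib, ← Finset.mul_sum]
      ring
    simp only [e2]
    have e5 : ∀ f : Fin (n + 1) → ℝ, ∑ x, e * f x = e * ∑ x, f x :=
      fun f => (Finset.mul_sum _ _ _).symm
    rw [Finset.sum_comm, Finset.mul_sum]
    refine Finset.sum_congr rfl fun i _ => ?_
    rw [Finset.sum_comm, Finset.mul_sum]
    refine Finset.sum_congr rfl fun j _ => ?_
    rw [← Finset.mul_sum, Finset.sum_sub_distrib, e5]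
    ring
  rw [e1]
  unfold QB
  rw [← Finset.sum_sub_distrib]
  have e3 : (k : ℝ) ^ 2 * (ρ ^ 2 * (8 * ρ * (2 + π))) / (n + 1 : ℕ) =
      ∑ _i : Fin k, ∑ _j : Fin k, ρ ^ 2 * (8 * ρ * (2 + π)) / (n + 1 : ℕ) := by
    simp only [Finset.sum_const, Finset.card_univ, Fintype.card_fin, nsmul_eq_mul]
    ring
  rw [e3]
  refine (Finset.abs_sum_le_sum_abs _ _).trans (Finset.sum_le_sum fun i _ => ?_)
  rw [← Finset.sum_sub_distrib]
  refine (Finset.abs_sum_le_sum_abs _ _).trans (Finset.sum_le_sum fun j _ => ?_)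
  have hρ : 0 ≤ ρ := (norm_nonneg _).trans (hw i)
  have hπ := pi_pos
  have hbound : ∀ z : ℂ, ‖z‖ ≤ ρ + ρ → |A z - J0 ‖z‖| ≤ 4 * ρ * (2 + π) / (n + 1 : ℕ) := by
    intro z hz
    refine (K.ave_GG d z).trans ?_
    refine div_le_div_of_nonneg_right (mul_le_mul_of_nonneg_right ?_ (by positivity)) hn.le
    have h3 := (Complex.abs_re_le_norm z).trans hz
    have h4 := (Complex.abs_im_le_norm z).trans hz
    linarith
  have b1 := hbound (w i - w j) ((norm_sub_le _ _).trans (add_le_add (hw i) (hw j)))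
  have b2 := hbound (w i + (starRingEnd ℂ) (w j)) ((norm_add_le _ _).trans
    (add_le_add (hw i) (by rw [Complex.norm_conj]; exact hw j)))
  have e4 : t i * t j * (A (w i - w j) - e * A (w i + (starRingEnd ℂ) (w j))) -
      t i * t j * (J0 ‖w i - w j‖ - e * J0 ‖w i + (starRingEnd ℂ) (w j)‖) =
      (t i * t j) * ((A (w i - w j) - J0 ‖w i - w j‖) -
        e * (A (w i + (starRingEnd ℂ) (w j)) - J0 ‖w i + (starRingEnd ℂ) (w j)‖)) := by ring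
  rw [e4, abs_mul]
  have b3 : |t i * t j| ≤ ρ ^ 2 := by
    rw [abs_mul, sq]
    exact mul_le_mul (ht i) (ht j) (abs_nonneg _) hρ
  have b4 : |(A (w i - w j) - J0 ‖w i - w j‖) -
      e * (A (w i + (starRingEnd ℂ) (w j)) - J0 ‖w i + (starRingEnd ℂ) (w j)‖)| ≤
      8 * ρ * (2 + π) / (n + 1 : ℕ) := by
    refine (abs_sub _ _).trans ?_
    rw [abs_mul]
    have b5 : |e| * |A (w i + (starRingEnd ℂ) (w j)) - J0 ‖w i + (starRingEnd ℂ) (w j)‖| ≤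
        4 * ρ * (2 + π) / (n + 1 : ℕ) :=
      (mul_le_of_le_one_left (abs_nonneg _) he).trans b2
    refine (add_le_add b1 b5).trans (le_of_eq ?_)
    ring
  calc |t i * t j| * _ ≤ ρ ^ 2 * (8 * ρ * (2 + π) / (n + 1 : ℕ)) :=
        mul_le_mul b3 b4 (abs_nonneg _) (by positivity)
    _ = _ := by ring

/-! ### the model on the mirror -/

/-- conditions on the integer vectors for the mirrors `Re z = const` -/
structure Vec' (g' : Fin ν → ℤ × ℤ) : Prop where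
  ne : ∀ ρ, g' ρ ≠ 0
  inj : ∀ ρ σ, g' ρ = g' σ → ρ = σ
  neg : ∀ ρ σ, g' ρ ≠ -g' σ

/-- the summands with frozen first phases -/
noncomputable def Kal.GM (K : Kal ν) (d : Num K.D (K.B + K.B) n) (w : Fin k → ℂ) (t : Fin k → ℝ)
    (φ : ℝ) (y : Fin (n + 1) → ℝ × ℝ) (i : Fin (n + 1)) (x : X4) : ℝ := K.G d w t φ i (y i, x.2)

theorem Kal.indM (K : Kal ν) (hv : Vec' K.g') (d : Num K.D (K.B + K.B) n) (w : Fin k → ℂ)
    (t : Fin k → ℝ) (φ : ℝ) (hφ : sin (2 * φ) = 0) (y : Fin (n + 1) → ℝ × ℝ)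
    (hy : ∀ i ρ, ∃ N : ℤ, ln (K.g ρ) (y i) = N * π) :
    Ind P4 (K.GM d w t φ y)
      (fun i => (1 / (ν : ℝ)) * ∑ ρ, VB w t (cos (2 * φ)) (K.X d i ρ) (K.Y d i ρ))
      (2 * √ν * TT t) where
  meas i := ((K.ind d w t φ).meas i).comp (measurable_const.prodMk measurable_snd)
  bdd i x := (K.ind d w t φ).bdd i (y i, x.2)
  mean i := by
    unfold Kal.GM Kal.G
    simp only [KM_eq]
    rw [integral_const_mul, int_KM hv.ne, mul_zero]
  var i := by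
    unfold Kal.GM Kal.G
    simp only [KM_eq, mul_pow]
    rw [integral_const_mul, int_KM_sq hv.inj hv.neg w t φ hφ _ _ _ (hy i), div_pow,
      Real.sq_sqrt (by positivity)]
    ring

theorem Kal.tbM (K : Kal ν) (d : Num K.D (K.B + K.B) n) (w : Fin k → ℂ) (t : Fin k → ℝ) (φ : ℝ)
    (y : Fin (n + 1) → ℝ × ℝ) (i : Fin (n + 1)) :
    TB (n + 1) (K.B + K.B) (2 * √ν * TT t) fun x => ((K.GM d w t φ y i (x i) : ℝ) : ℂ) :=
  (K.tb d w t φ i).freeze y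

theorem Kal.VB_nonneg (K : Kal ν) (hv : Vec' K.g') (d : Num K.D (K.B + K.B) n) (w : Fin k → ℂ)
    (t : Fin k → ℝ) (φ : ℝ) (hφ : sin (2 * φ) = 0) :
    0 ≤ (1 / ((n + 1 : ℕ) : ℝ)) * ∑ i, (1 / (ν : ℝ)) *
      ∑ σ, VB w t (cos (2 * φ)) (K.X d i σ) (K.Y d i σ) := by
  have h := K.indM hv d w t φ hφ (fun _ => (0, 0)) (fun i ρ => ⟨0, by simp [ln]⟩)
  refine mul_nonneg (by positivity) (Finset.sum_nonneg fun i _ => ?_)
  rw [← h.var i]
  exact integral_nonneg fun x => sq_nonneg _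

theorem abs_cos_two_le (φ : ℝ) : |cos (2 * φ)| ≤ 1 := abs_cos_le_one _

theorem Kal.QB_nonneg (K : Kal ν) (hv : Vec' K.g') (w : Fin k → ℂ) (t : Fin k → ℝ) (φ : ℝ)
    (hφ : sin (2 * φ) = 0) : 0 ≤ QB w t (cos (2 * φ)) := by
  obtain ⟨ρ, hρ⟩ : ∃ ρ : ℝ, (∀ j, ‖w j‖ ≤ ρ) ∧ ∀ j, |t j| ≤ ρ := by
    refine ⟨∑ j, (‖w j‖ + |t j|), fun j => ?_, fun j => ?_⟩
    · have := Finset.single_le_sum (f := fun j => ‖w j‖ + |t j|)
        (fun i _ => add_nonneg (norm_nonneg _) (abs_nonneg _)) (Finset.mem_univ j)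
      have h2 := abs_nonneg (t j)
      linarith
    · have := Finset.single_le_sum (f := fun j => ‖w j‖ + |t j|)
        (fun i _ => add_nonneg (norm_nonneg _) (abs_nonneg _)) (Finset.mem_univ j)
      have h2 := norm_nonneg (w j)
      linarith
  have h1 : ∀ n : ℕ, -((k : ℝ) ^ 2 * (ρ ^ 2 * (8 * ρ * (2 + π))) * (1 / ((n + 1 : ℕ) : ℝ))) ≤
      QB w t (cos (2 * φ)) := by
    intro n
    obtain ⟨d⟩ := exists_num K.D K.hD (K.B + K.B) n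
    have h2 := K.ave_VB d w t (cos (2 * φ)) (abs_cos_two_le φ) ρ hρ.1 hρ.2
    have h3 := K.VB_nonneg hv d w t φ hφ
    have h4 := (abs_le.1 h2).2
    rw [mul_one_div]
    linarith
  have h2 : Tendsto (fun n : ℕ => -((k : ℝ) ^ 2 * (ρ ^ 2 * (8 * ρ * (2 + π))) *
      (1 / ((n + 1 : ℕ) : ℝ)))) atTop (𝓝 0) := by
    simpa using (tendsto_inv_succ.const_mul ((k : ℝ) ^ 2 * (ρ ^ 2 * (8 * ρ * (2 + π))))).neg
  exact le_of_tendsto' h2 h1

end Pool.Agent.Zk91.KB
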