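import Pool.Agent.Zk60.BW.Sum
import Pool.Agent.Zk91.KB.Pol

/-!
# Comparison of the values on the domain with the independent model
-/

set_option autoImplicit false

open Filter Topology Real MeasureTheory Set ProbabilityTheory

namespace Pool.Agent.Zk91.KB

open Pool.Agent.Zk60.BW (tay rem_bound tri)

variable {n q₀ : ℕ}

theorem TB_SS {G : Fin n → X4 → ℝ} {T : ℝ} (hn : 0 < n)
    (hG : ∀ i, TB n q₀ T fun x => ((G i (x i) : ℝ) : ℂ)) :
    TB n q₀ (√n * T) fun x => ((SS G x : ℝ) : ℂ) := by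
  have hn0 : (0 : ℝ) < n := by exact_mod_cast hn
  have hs : 0 < √(n : ℝ) := Real.sqrt_pos.2 hn0
  have h1 := (TB.sum (n := n) (K := q₀) (Finset.univ : Finset (Fin n)) (fun _ => T)
    (fun i x => ((G i (x i) : ℝ) : ℂ)) (fun i _ => hG i)).smul ((1 / √n : ℝ) : ℂ)
  have e1 : ‖((1 / √n : ℝ) : ℂ)‖ * ∑ _i : Fin n, T = √n * T := by
    rw [Complex.norm_real, Real.norm_eq_abs, abs_of_pos (by positivity), Finset.sum_const,
      Finset.card_univ, Fintype.card_fin, nsmul_eq_mul]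
    have hs2 : √(n : ℝ) ^ 2 = n := Real.sq_sqrt hn0.le
    field_simp
    rw [hs2]
  rw [e1] at h1
  have e2 : (fun x => ((SS G x : ℝ) : ℂ)) = fun x : Fin n → X4 =>
      ((1 / √n : ℝ) : ℂ) * ∑ i, ((G i (x i) : ℝ) : ℂ) := by
    funext x
    unfold SS
    push_cast
    rfl
  rw [e2]
  exact h1

theorem compare (M : Measure ℂ) [IsFiniteMeasure M] (a b δ : ℝ) (l m : Fin n → ℤ)
    (hlm : ∀ g h : Fin n → ℤ, (∀ i, |g i| ≤ (2 * n * q₀ : ℕ)) → (∀ i, |h i| ≤ (2 * n * q₀ : ℕ)) →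
      ∑ i, (g i * l i + h i * m i) = 0 → ∀ i, g i = 0 ∧ h i = 0)
    (hδ : ∀ A B : ℤ, ¬ (A = 0 ∧ B = 0) →
      ‖∫ z, Complex.exp (((a * A * z.re + b * B * z.im : ℝ) : ℂ) * Complex.I) ∂M‖ ≤ δ)
    (hδ0 : 0 ≤ δ) {G : Fin n → X4 → ℝ} {V : Fin n → ℝ} {T : ℝ} (h : Ind P4 G V T) (hT : 0 ≤ T)
    (hG : ∀ i, TB n q₀ T fun x => ((G i (x i) : ℝ) : ℂ)) (hn : 0 < n) (hTn : 4 * T ^ 2 ≤ n) :
    ‖(∫ z, Complex.exp ((SS G (Ph a b l m z) : ℝ) * Complex.I) ∂M) -
      (M.real univ : ℂ) * ∫ x, Complex.exp ((SS G x : ℝ) * Complex.I) ∂(Pn P4 n)‖ ≤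
      M.real univ * (4 * ((1 / 4) ^ n * Real.exp (4 * T ^ 2))) + 2 * (Real.exp (√n * T) * δ) := by
  have hcP := continuous_Ph a b l m
  have hmS := h.measSS
  have hS := TB_SS hn hG
  have hκ : 0 ≤ √n * T := by positivity
  -- the Taylor polynomial
  set q : (Fin n → X4) → ℂ := fun x => tay (2 * n) (SS G x) with hq
  have hqmem : TB n (2 * n * q₀) (Real.exp (√n * T)) q := by
    have e : q = fun x => ∑ j ∈ Finset.range (2 * n), (Complex.I ^ j / (j.factorial : ℂ)) *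
        ((SS G x : ℝ) : ℂ) ^ j := by
      funext x
      simp only [hq, tay]
      refine Finset.sum_congr rfl fun j _ => ?_
      rw [mul_pow]
      ring
    rw [e]
    have h1 : ∀ j ∈ Finset.range (2 * n), TB n (2 * n * q₀) ((√n * T) ^ j / j.factorial) fun x =>
        (Complex.I ^ j / (j.factorial : ℂ)) * ((SS G x : ℝ) : ℂ) ^ j := by
      intro j hj
      have h2 := (hS.pow j).smul (Complex.I ^ j / (j.factorial : ℂ))
      refine h2.mono ?_ (le_of_eq ?_)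
      · exact Nat.mul_le_mul_right _ (Finset.mem_range.1 hj).le
      · rw [norm_div, norm_pow, Complex.norm_I, one_pow, Complex.norm_natCast]
        ring
    exact (TB.sum _ _ _ h1).mono le_rfl (Real.sum_le_exp_of_nonneg hκ _)
  set r : (Fin n → X4) → ℂ := fun x =>
    (((SS G x ^ (2 * n) / ((2 * n).factorial : ℝ) : ℝ)) : ℂ) with hr
  have hrmem : TB n (2 * n * q₀) (Real.exp (√n * T)) r := by
    have e : r = fun x => ((1 / ((2 * n).factorial : ℝ) : ℝ) : ℂ) * ((SS G x : ℝ) : ℂ) ^ (2 * n) := by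
      funext x
      simp only [hr]
      push_cast
      ring
    rw [e]
    refine ((hS.pow (2 * n)).smul _).mono le_rfl ?_
    rw [Complex.norm_real, Real.norm_eq_abs, abs_of_pos (by positivity)]
    have := Real.pow_div_factorial_le_exp (√n * T) hκ (2 * n)
    refine le_trans (le_of_eq ?_) this
    ring
  obtain ⟨cq, bq, eq⟩ := transfer M a b δ l m (2 * n * q₀) hlm hδ hδ0 hqmem
  obtain ⟨cr, br, er⟩ := transfer M a b δ l m (2 * n * q₀) hlm hδ hδ0 hrmem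
  have mE : Measurable fun x => Complex.exp ((SS G x : ℝ) * Complex.I) :=
    Complex.measurable_exp.comp ((Complex.measurable_ofReal.comp hmS).mul measurable_const)
  have bE : ∀ x, ‖Complex.exp ((SS G x : ℝ) * Complex.I)‖ ≤ 1 := fun x => by
    rw [Complex.norm_exp_ofReal_mul_I]
  have iE1 : Integrable (fun z => Complex.exp ((SS G (Ph a b l m z) : ℝ) * Complex.I)) M :=
    Integrable.of_bound (mE.comp hcP.measurable).aestronglyMeasurable 1 (ae_of_all _ fun z => bE _)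
  have iE2 : Integrable (fun x => Complex.exp ((SS G x : ℝ) * Complex.I)) (Pn P4 n) :=
    Integrable.of_bound mE.aestronglyMeasurable 1 (ae_of_all _ bE)
  have iq1 : Integrable (fun z => q (Ph a b l m z)) M :=
    Integrable.of_bound (cq.comp hcP).aestronglyMeasurable _ (ae_of_all _ fun z => bq _)
  have iq2 : Integrable q (Pn P4 n) :=
    Integrable.of_bound cq.aestronglyMeasurable _ (ae_of_all _ bq)
  have hrr : ∀ x, ‖Complex.exp ((SS G x : ℝ) * Complex.I) - q x‖ ≤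
      SS G x ^ (2 * n) / ((2 * n).factorial : ℝ) := by
    intro x
    have := rem_bound (2 * n) (SS G x)
    rwa [pow_mul |SS G x|, sq_abs, ← pow_mul] at this
  have rR : ∀ x, r x = ((SS G x ^ (2 * n) / ((2 * n).factorial : ℝ) : ℝ) : ℂ) := fun x => rfl
  have mR : Measurable fun x => SS G x ^ (2 * n) / ((2 * n).factorial : ℝ) :=
    (hmS.pow_const _).div_const _
  have bR : ∀ x, ‖SS G x ^ (2 * n) / ((2 * n).factorial : ℝ)‖ ≤ Real.exp (√n * T) := by
    intro x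
    have := br x
    rw [rR, Complex.norm_real] at this
    exact this
  have iR1 : Integrable (fun z => SS G (Ph a b l m z) ^ (2 * n) / ((2 * n).factorial : ℝ)) M :=
    Integrable.of_bound (mR.comp hcP.measurable).aestronglyMeasurable _ (ae_of_all _ fun z => bR _)
  have hpow := h.pow_sum hn hTn
  have hMn : 0 ≤ M.real univ := measureReal_nonneg
  have eR : ∫ z, SS G (Ph a b l m z) ^ (2 * n) / ((2 * n).factorial : ℝ) ∂M ≤
      M.real univ * ((1 / 4) ^ n * (2 * Real.exp (4 * T ^ 2))) + Real.exp (√n * T) * δ := by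
    simp only [rR] at er
    rw [integral_complex_ofReal, integral_complex_ofReal, ← Complex.ofReal_mul,
      ← Complex.ofReal_sub, Complex.norm_real, Real.norm_eq_abs] at er
    have := (abs_le.1 er).2
    have h3 := mul_le_mul_of_nonneg_left hpow hMn
    linarith
  -- the remainders
  have h1 : ‖∫ z, (Complex.exp ((SS G (Ph a b l m z) : ℝ) * Complex.I) - q (Ph a b l m z)) ∂M‖ ≤
      M.real univ * ((1 / 4) ^ n * (2 * Real.exp (4 * T ^ 2))) + Real.exp (√n * T) * δ :=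
    (norm_integral_le_of_norm_le iR1 (ae_of_all _ fun z => hrr _)).trans eR
  have iR2 : Integrable (fun x => SS G x ^ (2 * n) / ((2 * n).factorial : ℝ)) (Pn P4 n) :=
    Integrable.of_bound mR.aestronglyMeasurable _ (ae_of_all _ bR)
  have h2 : ‖∫ x, (Complex.exp ((SS G x : ℝ) * Complex.I) - q x) ∂(Pn P4 n)‖ ≤
      (1 / 4) ^ n * (2 * Real.exp (4 * T ^ 2)) :=
    (norm_integral_le_of_norm_le iR2 (ae_of_all _ hrr)).trans hpow
  rw [integral_sub iE1 iq1] at h1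
  rw [integral_sub iE2 iq2] at h2
  set E1 := ∫ z, Complex.exp ((SS G (Ph a b l m z) : ℝ) * Complex.I) ∂M
  set E2 := ∫ x, Complex.exp ((SS G x : ℝ) * Complex.I) ∂(Pn P4 n)
  set Q1 := ∫ z, q (Ph a b l m z) ∂M
  set Q2 := ∫ x, q x ∂(Pn P4 n)
  have e3 : E1 - (M.real univ : ℂ) * E2 = (E1 - Q1) + (Q1 - (M.real univ : ℂ) * Q2) -
      (M.real univ : ℂ) * (E2 - Q2) := by ring
  rw [e3]
  have h4 : ‖(M.real univ : ℂ) * (E2 - Q2)‖ ≤ M.real univ * ((1 / 4) ^ n *
      (2 * Real.exp (4 * T ^ 2))) := by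
    rw [norm_mul, Complex.norm_real, Real.norm_eq_abs, abs_of_nonneg hMn]
    exact mul_le_mul_of_nonneg_left h2 hMn
  have h5 := (norm_sub_le ((E1 - Q1) + (Q1 - (M.real univ : ℂ) * Q2))
    ((M.real univ : ℂ) * (E2 - Q2)))
  have h6 := norm_add_le (E1 - Q1) (Q1 - (M.real univ : ℂ) * Q2)
  linarith

/-- the second moment -/
theorem compare_sq (M : Measure ℂ) [IsFiniteMeasure M] (a b δ : ℝ) (l m : Fin n → ℤ)
    (hlm : ∀ g h : Fin n → ℤ, (∀ i, |g i| ≤ (2 * n * q₀ : ℕ)) → (∀ i, |h i| ≤ (2 * n * q₀ : ℕ)) →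
      ∑ i, (g i * l i + h i * m i) = 0 → ∀ i, g i = 0 ∧ h i = 0)
    (hδ : ∀ A B : ℤ, ¬ (A = 0 ∧ B = 0) →
      ‖∫ z, Complex.exp (((a * A * z.re + b * B * z.im : ℝ) : ℂ) * Complex.I) ∂M‖ ≤ δ)
    (hδ0 : 0 ≤ δ) {G : Fin n → X4 → ℝ} {V : Fin n → ℝ} {T : ℝ} (h : Ind P4 G V T)
    (hG : ∀ i, TB n q₀ T fun x => ((G i (x i) : ℝ) : ℂ)) (hn : 0 < n) :
    |∫ z, SS G (Ph a b l m z) ^ 2 ∂M - M.real univ * ((1 / (n : ℝ)) * ∑ i, V i)| ≤
      (√n * T) ^ 2 * δ := by
  have hS := ((TB_SS hn hG).pow 2).mono (show 2 * q₀ ≤ 2 * n * q₀ from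
    Nat.mul_le_mul_right _ (by omega)) le_rfl
  obtain ⟨-, -, e⟩ := transfer M a b δ l m (2 * n * q₀) hlm hδ hδ0 hS
  have h4 : ∀ x, ((SS G x : ℝ) : ℂ) ^ 2 = ((SS G x ^ 2 : ℝ) : ℂ) := by
    intro x
    push_cast
    rfl
  simp only [h4] at e
  rw [integral_complex_ofReal, integral_complex_ofReal, h.sq_sum hn, ← Complex.ofReal_mul,
      ← Complex.ofReal_sub, Complex.norm_real, Real.norm_eq_abs] at e
  exact e

end Pool.Agent.Zk91.KB
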