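import Mathlib

/-!
# Oscillating integrals over convex sets
-/

set_option autoImplicit false

open Filter Topology Real MeasureTheory Set

namespace Pool.Agent.Zk91.KB

theorem osc_ord (x : ℝ) (hx : x ≠ 0) (S : Set ℝ) (hS : S.OrdConnected) (hb : Bornology.IsBounded S) :
    ‖∫ a in S, Complex.exp (((x * a : ℝ) : ℂ) * Complex.I)‖ ≤ 2 / |x| := by
  have hx0 : 0 < |x| := abs_pos.2 hx
  rcases S.eq_empty_or_nonempty with rfl | hne
  · rw [setIntegral_empty, norm_zero]
    positivity
  · set a := sInf S with ha
    set b := sSup S with hb'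
    have hbb := hb.bddBelow
    have hba := hb.bddAbove
    have hab : a ≤ b := by
      obtain ⟨s, hs⟩ := hne
      exact (csInf_le hbb hs).trans (le_csSup hba hs)
    have h1 : S ⊆ Icc a b := fun s hs => ⟨csInf_le hbb hs, le_csSup hba hs⟩
    have h2 : Ioo a b ⊆ S := by
      intro y hy
      obtain ⟨s, hs, hsy⟩ := exists_lt_of_csInf_lt hne hy.1
      obtain ⟨s', hs', hsy'⟩ := exists_lt_of_lt_csSup hne hy.2
      exact hS.out hs hs' ⟨hsy.le, hsy'.le⟩
    have h3 : S =ᵐ[volume] Ioc a b := by
      have e1 : S ≤ᵐ[volume] Icc a b := LE.le.eventuallyLE h1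
      have e2 : Ioo a b ≤ᵐ[volume] S := LE.le.eventuallyLE h2
      exact (e1.trans_eq Ioc_ae_eq_Icc.symm).antisymm (Ioo_ae_eq_Ioc.symm.trans_le e2)
    rw [setIntegral_congr_set h3, ← intervalIntegral.integral_of_le hab]
    have hc : ((x : ℝ) : ℂ) * Complex.I ≠ 0 := mul_ne_zero (by exact_mod_cast hx) Complex.I_ne_zero
    have h4 : ∀ y : ℝ, Complex.exp (((x * y : ℝ) : ℂ) * Complex.I) =
        Complex.exp (((x : ℝ) : ℂ) * Complex.I * y) := by
      intro y
      congr 1
      push_cast
      ring
    simp only [h4]
    rw [integral_exp_mul_complex hc, norm_div, norm_mul, Complex.norm_I, mul_one, Complex.norm_real,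
      Real.norm_eq_abs]
    refine div_le_div_of_nonneg_right ?_ hx0.le
    refine (norm_sub_le _ _).trans ?_
    rw [← h4, ← h4, Complex.norm_exp_ofReal_mul_I, Complex.norm_exp_ofReal_mul_I]
    norm_num

theorem osc_convex (C : Set ℂ) (hC : Convex ℝ C) (hm : MeasurableSet C)
    (hb : Bornology.IsBounded C) (x y : ℝ) :
    (x ≠ 0 → ‖∫ z in C, Complex.exp (((x * z.re + y * z.im : ℝ) : ℂ) * Complex.I)‖ ≤
      4 * Metric.diam C / |x|) ∧
    (y ≠ 0 → ‖∫ z in C, Complex.exp (((x * z.re + y * z.im : ℝ) : ℂ) * Complex.I)‖ ≤
      4 * Metric.diam C / |y|) := by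
  rcases C.eq_empty_or_nonempty with rfl | ⟨z0, hz0⟩
  · simp
  set d := Metric.diam C with hd
  have hd0 : 0 ≤ d := Metric.diam_nonneg
  set f : ℂ → ℂ := fun z => Complex.exp (((x * z.re + y * z.im : ℝ) : ℂ) * Complex.I) with hf
  have hfc : Continuous f := by
    have h1 := Complex.continuous_re
    have h2 := Complex.continuous_im
    simp only [hf]
    fun_prop
  have hfn : ∀ z, ‖f z‖ = 1 := fun z => by
    simp only [hf]
    rw [Complex.norm_exp_ofReal_mul_I]
  have hfin : IsFiniteMeasure (volume.restrict C) :=
    ⟨by rw [Measure.restrict_apply_univ]; exact hb.measure_lt_top⟩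
  have hint : IntegrableOn f C :=
    Integrable.of_bound hfc.aestronglyMeasurable 1 (ae_of_all _ fun z => (hfn z).le)
  have hI : Integrable (C.indicator f) := (integrable_indicator_iff hm).2 hint
  have mp := Complex.volume_preserving_equiv_real_prod.symm
  have emb := Complex.measurableEquivRealProd.symm.measurableEmbedding
  rw [← integral_indicator hm, ← mp.integral_comp emb]
  have hI2 : Integrable (fun p : ℝ × ℝ =>
      C.indicator f (Complex.measurableEquivRealProd.symm p)) :=
    (mp.integrable_comp_emb emb).2 hI
  have he : ∀ p : ℝ × ℝ, Complex.measurableEquivRealProd.symm p = ⟨p.1, p.2⟩ := fun p => by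
    simp
  simp only [he] at hI2 ⊢
  constructor
  · intro hx
    have hx0 : 0 < |x| := abs_pos.2 hx
    rw [Measure.volume_eq_prod, integral_prod_symm _ hI2]
    have hbound : ∀ b : ℝ, ‖∫ a : ℝ, C.indicator f ⟨a, b⟩‖ ≤
        (Icc (z0.im - d) (z0.im + d)).indicator (fun _ => 2 / |x|) b := by
      intro b
      set V : Set ℝ := {a | (⟨a, b⟩ : ℂ) ∈ C} with hV
      have e : (fun a : ℝ => C.indicator f ⟨a, b⟩) =
          V.indicator (fun a => Complex.exp (((x * a : ℝ) : ℂ) * Complex.I) *
            Complex.exp (((y * b : ℝ) : ℂ) * Complex.I)) := by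
        funext a
        by_cases ha : (⟨a, b⟩ : ℂ) ∈ C
        · rw [indicator_of_mem ha, indicator_of_mem (show a ∈ V from ha)]
          simp only [hf]
          rw [← Complex.exp_add]
          congr 1
          push_cast
          ring
        · rw [indicator_of_notMem ha, indicator_of_notMem (show a ∉ V from ha)]
      by_cases hb' : V.Nonempty
      · obtain ⟨a0, ha0⟩ := hb'
        have hVc : Convex ℝ V := by
          intro a1 h1 a2 h2 s t hs ht hst
          have h3 := hC h1 h2 hs ht hst
          have e3 : s • (⟨a1, b⟩ : ℂ) + t • (⟨a2, b⟩ : ℂ) = ⟨s • a1 + t • a2, b⟩ := by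
            apply Complex.ext
            · simp
            · simp only [Complex.add_im, Complex.smul_im, smul_eq_mul]
              rw [← add_mul, hst, one_mul]
          rw [e3] at h3
          exact h3
        have hVb : Bornology.IsBounded V := by
          refine (Metric.isBounded_Icc (a0 - d) (a0 + d)).subset fun a ha => ?_
          have h1 := Metric.dist_le_diam_of_mem hb (show (⟨a, b⟩ : ℂ) ∈ C from ha)
            (show (⟨a0, b⟩ : ℂ) ∈ C from ha0)
          rw [Complex.dist_eq] at h1
          have h2 := (Complex.abs_re_le_norm _).trans h1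
          simp only [Complex.sub_re] at h2
          have h3 := abs_le.1 h2
          exact ⟨by linarith [h3.1], by linarith [h3.2]⟩
        have hVm : MeasurableSet V := hVc.ordConnected.measurableSet
        have hbI : b ∈ Icc (z0.im - d) (z0.im + d) := by
          have h1 := Metric.dist_le_diam_of_mem hb (show (⟨a0, b⟩ : ℂ) ∈ C from ha0) hz0
          rw [Complex.dist_eq] at h1
          have h2 := (Complex.abs_im_le_norm _).trans h1
          simp only [Complex.sub_im] at h2
          have h3 := abs_le.1 h2
          exact ⟨by linarith [h3.1], by linarith [h3.2]⟩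
        rw [indicator_of_mem hbI, e, integral_indicator hVm, integral_mul_const, norm_mul,
          Complex.norm_exp_ofReal_mul_I, mul_one]
        exact osc_ord x hx V hVc.ordConnected hVb
      · rw [not_nonempty_iff_eq_empty.1 hb'] at e
        simp only [e, indicator_empty, integral_zero, norm_zero]
        exact indicator_nonneg (fun _ _ => by positivity) _
    have hgi : Integrable ((Icc (z0.im - d) (z0.im + d)).indicator (fun _ : ℝ => 2 / |x|)) :=
      (integrable_indicator_iff measurableSet_Icc).2 (integrableOn_const (by
        rw [Real.volume_Icc]; exact ENNReal.ofReal_ne_top))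
    refine (norm_integral_le_of_norm_le hgi (ae_of_all _ hbound)).trans (le_of_eq ?_)
    rw [integral_indicator measurableSet_Icc, setIntegral_const, measureReal_def, Real.volume_Icc,
      ENNReal.toReal_ofReal (by linarith), smul_eq_mul]
    ring
  · intro hx
    have hx0 : 0 < |y| := abs_pos.2 hx
    rw [Measure.volume_eq_prod, integral_prod _ hI2]
    have hbound : ∀ a : ℝ, ‖∫ b : ℝ, C.indicator f ⟨a, b⟩‖ ≤
        (Icc (z0.re - d) (z0.re + d)).indicator (fun _ => 2 / |y|) a := by
      intro a
      set V : Set ℝ := {b | (⟨a, b⟩ : ℂ) ∈ C} with hV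
      have e : (fun b : ℝ => C.indicator f ⟨a, b⟩) =
          V.indicator (fun b => Complex.exp (((y * b : ℝ) : ℂ) * Complex.I) *
            Complex.exp (((x * a : ℝ) : ℂ) * Complex.I)) := by
        funext b
        by_cases ha : (⟨a, b⟩ : ℂ) ∈ C
        · rw [indicator_of_mem ha, indicator_of_mem (show b ∈ V from ha)]
          simp only [hf]
          rw [← Complex.exp_add]
          congr 1
          push_cast
          ring
        · rw [indicator_of_notMem ha, indicator_of_notMem (show b ∉ V from ha)]
      by_cases hb' : V.Nonempty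
      · obtain ⟨b0, hb0⟩ := hb'
        have hVc : Convex ℝ V := by
          intro a1 h1 a2 h2 s t hs ht hst
          have h3 := hC h1 h2 hs ht hst
          have e3 : s • (⟨a, a1⟩ : ℂ) + t • (⟨a, a2⟩ : ℂ) = ⟨a, s • a1 + t • a2⟩ := by
            apply Complex.ext
            · simp only [Complex.add_re, Complex.smul_re, smul_eq_mul]
              rw [← add_mul, hst, one_mul]
            · simp
          rw [e3] at h3
          exact h3
        have hVb : Bornology.IsBounded V := by
          refine (Metric.isBounded_Icc (b0 - d) (b0 + d)).subset fun b ha => ?_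
          have h1 := Metric.dist_le_diam_of_mem hb (show (⟨a, b⟩ : ℂ) ∈ C from ha)
            (show (⟨a, b0⟩ : ℂ) ∈ C from hb0)
          rw [Complex.dist_eq] at h1
          have h2 := (Complex.abs_im_le_norm _).trans h1
          simp only [Complex.sub_im] at h2
          have h3 := abs_le.1 h2
          exact ⟨by linarith [h3.1], by linarith [h3.2]⟩
        have hVm : MeasurableSet V := hVc.ordConnected.measurableSet
        have hbI : a ∈ Icc (z0.re - d) (z0.re + d) := by
          have h1 := Metric.dist_le_diam_of_mem hb (show (⟨a, b0⟩ : ℂ) ∈ C from hb0) hz0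
          rw [Complex.dist_eq] at h1
          have h2 := (Complex.abs_re_le_norm _).trans h1
          simp only [Complex.sub_re] at h2
          have h3 := abs_le.1 h2
          exact ⟨by linarith [h3.1], by linarith [h3.2]⟩
        rw [indicator_of_mem hbI, e, integral_indicator hVm, integral_mul_const, norm_mul,
          Complex.norm_exp_ofReal_mul_I, mul_one]
        exact osc_ord y hx V hVc.ordConnected hVb
      · rw [not_nonempty_iff_eq_empty.1 hb'] at e
        simp only [e, indicator_empty, integral_zero, norm_zero]
        exact indicator_nonneg (fun _ _ => by positivity) _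
    have hgi : Integrable ((Icc (z0.re - d) (z0.re + d)).indicator (fun _ : ℝ => 2 / |y|)) :=
      (integrable_indicator_iff measurableSet_Icc).2 (integrableOn_const (by
        rw [Real.volume_Icc]; exact ENNReal.ofReal_ne_top))
    refine (norm_integral_le_of_norm_le hgi (ae_of_all _ hbound)).trans (le_of_eq ?_)
    rw [integral_indicator measurableSet_Icc, setIntegral_const, measureReal_def, Real.volume_Icc,
      ENNReal.toReal_ofReal (by linarith), smul_eq_mul]
    ring

end Pool.Agent.Zk91.KB
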