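import Pool.Agent.N661.BR.Base

/-!
# The cut-off does not change the limit
-/

set_option autoImplicit false

open Filter Topology Real MeasureTheory Set ProbabilityTheory
open scoped ContDiff

namespace Pool.Agent.Zk91.KB

open Pool.Agent.N661.BR (resc IsCutoff)

variable {k : ℕ}

theorem vol_pos {Ω : Set ℂ} (hΩ : IsOpen Ω) (hne : Ω.Nonempty) (hbd : Bornology.IsBounded Ω) :
    0 < volume.real Ω := by
  rw [measureReal_def]
  exact ENNReal.toReal_pos (hΩ.measure_pos volume hne).ne' hbd.measure_lt_top.ne

theorem cut_lim (lam : ℕ → ℝ) (hlam : Tendsto lam atTop atTop) (v : ℕ → ℂ → ℝ)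
    (hv : ∀ n, Continuous (v n)) (Ω : Set ℂ)
    (hΩ : IsOpen Ω) (hne : Ω.Nonempty) (hbd : Bornology.IsBounded Ω)
    (χ : ℝ → ℝ) (hχ : IsCutoff χ) (w : Fin k → ℂ) (t : Fin k → ℝ) (L : ℂ)
    (h1 : Tendsto (fun n => ∫ z in Ω, Complex.exp (((∑ j, t j * v n
      (z + w j / ((√(lam n) : ℝ) : ℂ)) : ℝ) : ℂ) * Complex.I)) atTop
      (𝓝 ((volume.real Ω : ℂ) * L))) :
    Tendsto (fun n => (1 / volume.real Ω : ℝ) * ∫ z in Ω,
      Complex.exp (Complex.I * ((∑ j, t j * resc χ Ω (lam n) (v n) z (w j) : ℝ) : ℂ)))
      atTop (𝓝 L) := by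
  have hfr : (frontier Ω).Nonempty := by
    rw [nonempty_frontier_iff]
    refine ⟨hne, ?_⟩
    rintro rfl
    exact NormedSpace.unbounded_univ ℝ ℂ hbd
  have hdist : ∀ z ∈ Ω, 0 < Metric.infDist z (frontier Ω) := by
    intro z hz
    refine (isClosed_frontier.notMem_iff_infDist_pos hfr).1 ?_
    rw [hΩ.frontier_eq]
    exact fun h => h.2 hz
  have hvol := vol_pos hΩ hne hbd
  have hvolC : (volume.real Ω : ℂ) ≠ 0 := by exact_mod_cast hvol.ne'
  have hχm : Measurable (fun x : ℝ => χ (max x 0)) := by
    refine Continuous.measurable ?_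
    exact hχ.smooth.continuousOn.comp_continuous (continuous_id.max continuous_const)
      (fun x => Set.mem_Ici.2 (le_max_right x 0))
  have hfin : IsFiniteMeasure (volume.restrict Ω) := ⟨by
    rw [Measure.restrict_apply_univ]; exact hbd.measure_lt_top⟩
  -- the two families
  set f : ℕ → ℂ → ℂ := fun n z =>
    Complex.exp (Complex.I * ((∑ j, t j * resc χ Ω (lam n) (v n) z (w j) : ℝ) : ℂ))
    with hfdef
  set g : ℕ → ℂ → ℂ := fun n z => Complex.exp (((∑ j, t j * v n
      (z + w j / ((√(lam n) : ℝ) : ℂ)) : ℝ) : ℂ) * Complex.I) with hgdef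
  have hgc : ∀ n, Continuous (g n) := by
    intro n
    have := hv n
    simp only [hgdef]
    refine Complex.continuous_exp.comp ((Complex.continuous_ofReal.comp ?_).mul continuous_const)
    refine continuous_finsetSum _ fun j _ => continuous_const.mul (this.comp ?_)
    exact continuous_id.add continuous_const
  have hrm : ∀ n (y : ℂ), Measurable (fun z => resc χ Ω (lam n) (v n) z y) := by
    intro n y
    have e : (fun z => resc χ Ω (lam n) (v n) z y) = fun z =>
        v n (z + y / (√(lam n) : ℝ)) *
          (fun x : ℝ => χ (max x 0)) (‖y‖ / (√(lam n) * Metric.infDist z (frontier Ω))) := by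
      funext z
      unfold resc
      have : 0 ≤ ‖y‖ / (√(lam n) * Metric.infDist z (frontier Ω)) :=
        div_nonneg (norm_nonneg _) (mul_nonneg (Real.sqrt_nonneg _) Metric.infDist_nonneg)
      simp only [max_eq_left this]
    rw [e]
    refine Measurable.mul ?_ (hχm.comp ?_)
    · exact ((hv n).comp (continuous_id.add continuous_const)).measurable
    · exact measurable_const.div (measurable_const.mul
        (Metric.continuous_infDist_pt (frontier Ω)).measurable)
  have hfm : ∀ n, Measurable (f n) := by
    intro n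
    simp only [hfdef]
    refine Complex.measurable_exp.comp (measurable_const.mul (Complex.measurable_ofReal.comp ?_))
    exact Finset.measurable_fun_sum _ fun j _ => (hrm n (w j)).const_mul (t j)
  have hfn : ∀ n z, ‖f n z‖ = 1 := by
    intro n z
    simp only [hfdef]
    rw [mul_comm]
    exact Complex.norm_exp_ofReal_mul_I _
  have hgn : ∀ n z, ‖g n z‖ = 1 := by
    intro n z
    simp only [hgdef]
    exact Complex.norm_exp_ofReal_mul_I _
  have hfi : ∀ n, IntegrableOn (f n) Ω := fun n =>
    Integrable.of_bound (hfm n).aestronglyMeasurable 1 (ae_of_all _ fun z => (hfn n z).le)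
  have hgi : ∀ n, IntegrableOn (g n) Ω := fun n =>
    Integrable.of_bound (hgc n).aestronglyMeasurable 1 (ae_of_all _ fun z => (hgn n z).le)
  have hd : Tendsto (fun n => ∫ z in Ω, (f n z - g n z)) atTop (𝓝 (∫ z in Ω, (0 : ℂ))) := by
    refine tendsto_integral_of_dominated_convergence (fun _ => 2)
      (fun n => ((hfm n).sub (hgc n).measurable).aestronglyMeasurable)
      (integrable_const _) (fun n => ae_of_all _ fun z => ?_) ?_
    · refine (norm_sub_le _ _).trans ?_
      rw [hfn, hgn]
      norm_num
    · rw [ae_restrict_iff' hΩ.measurableSet]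
      refine ae_of_all _ fun z hz => ?_
      obtain ⟨δ, hδ, hδ1⟩ := hχ.one
      have hev : ∀ᶠ n in atTop, ∀ j, χ (‖w j‖ / (√(lam n) *
          Metric.infDist z (frontier Ω))) = 1 := by
        rw [eventually_all]
        intro j
        have hs : Tendsto (fun n => √(lam n) * Metric.infDist z (frontier Ω)) atTop atTop :=
          (Real.tendsto_sqrt_atTop.comp hlam).atTop_mul_const (hdist z hz)
        have hq : Tendsto (fun n => ‖w j‖ / (√(lam n) * Metric.infDist z (frontier Ω))) atTop
            (𝓝 0) := hs.const_div_atTop _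
        filter_upwards [hq.eventually (ge_mem_nhds hδ)] with n hn
        exact hδ1 _ (div_nonneg (norm_nonneg _) (mul_nonneg (Real.sqrt_nonneg _)
          Metric.infDist_nonneg)) hn
      refine Tendsto.congr' ?_ tendsto_const_nhds
      filter_upwards [hev] with n hn
      have : f n z = g n z := by
        simp only [hfdef, hgdef, resc, hn, mul_one]
        rw [mul_comm]
      rw [this, sub_self]
  rw [integral_zero] at hd
  have h2 : Tendsto (fun n => ∫ z in Ω, f n z) atTop (𝓝 ((volume.real Ω : ℂ) * L)) := by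
    have := h1.add hd
    rw [add_zero] at this
    refine this.congr fun n => ?_
    rw [integral_sub (hfi n) (hgi n)]
    simp only [hgdef]
    ring
  have h3 := h2.const_mul (((1 / volume.real Ω : ℝ) : ℂ))
  have e : ((1 / volume.real Ω : ℝ) : ℂ) * ((volume.real Ω : ℂ) * L) = L := by
    push_cast
    field_simp
  rw [e] at h3
  exact h3

end Pool.Agent.Zk91.KB
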