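import Pool.Agent.Zk91.KB.Lev

/-!
# The enumeration of the lattice points in blocks
-/

set_option autoImplicit false

open Filter Topology Real MeasureTheory Set ProbabilityTheory

namespace Pool.Agent.Zk91.KB

open Pool.Agent.Zk60.BW (TT TT_nonneg VV VV_le GG GG_sub)

variable {k : ℕ} {α β lam : ℝ} {S : Finset (ℕ × ℕ)} {K b c : ℕ}

/-- the index set of the blocks -/
def EE (K b c : ℕ) : ((Fin K × Fin b) ⊕ Fin c) ≃ Fin (K * b + c) :=
  (Equiv.sumCongr finProdFinEquiv (Equiv.refl _)).trans finSumFinEquiv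

theorem EE_inl (i : Fin K) (x : Fin b) : ((EE K b c (Sum.inl (i, x)) : Fin (K * b + c)) : ℕ) =
    i * b + x := by
  simp [EE, finProdFinEquiv, finSumFinEquiv]
  ring

/-- the enumeration of the points -/
theorem exists_points (hS : OnE α β lam S) (hβ : 0 < β) (hcard : S.card = K * b + c) :
    ∃ (f : Fin (K * b + c) → ℕ × ℕ) (P : ((Fin K × Fin b) ⊕ Fin c) ≃ {p // p ∈ S}),
      (∀ i, f i ∈ S) ∧ (∀ i j, i < j → (f i).1 < (f j).1) ∧
      ∀ n, ((P n : {p // p ∈ S}) : ℕ × ℕ) = f (EE K b c n) := by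
  obtain ⟨f, hf, hmono⟩ := hS.enum hβ _ hcard
  have hinj : Function.Injective fun i : Fin (K * b + c) => (⟨f i, hf i⟩ : {p // p ∈ S}) := by
    intro i j hij
    have h : f i = f j := congrArg Subtype.val hij
    rcases lt_trichotomy i j with h' | h' | h'
    · exact absurd (congrArg Prod.fst h) (hmono i j h').ne
    · exact h'
    · exact absurd (congrArg Prod.fst h) (hmono j i h').ne'
  have hbij : Function.Bijective fun i : Fin (K * b + c) => (⟨f i, hf i⟩ : {p // p ∈ S}) := by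
    refine (Fintype.bijective_iff_injective_and_card _).2 ⟨hinj, ?_⟩
    rw [Fintype.card_fin, Fintype.card_coe, hcard]
  exact ⟨f, (EE K b c).trans (Equiv.ofBijective _ hbij), hf, hmono, fun n => rfl⟩

theorem OnE.le_one (hS : OnE α β lam S) (hα : 0 < α) (hβ : 0 < β) (hlam : 0 < lam) (p : ℕ × ℕ)
    (hp : p ∈ S) : (0 ≤ α * p.1 / √lam ∧ α * p.1 / √lam ≤ 1) ∧
      (0 ≤ β * p.2 / √lam ∧ β * p.2 / √lam ≤ 1) := by
  have h := ((hS p).1 hp).2.2
  have hs : 0 < √lam := Real.sqrt_pos.2 hlam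
  refine ⟨⟨by positivity, ?_⟩, by positivity, ?_⟩
  · rw [div_le_one hs]
    refine Real.le_sqrt_of_sq_le ?_
    nlinarith [sq_nonneg (β * (p.2 : ℝ))]
  · rw [div_le_one hs]
    refine Real.le_sqrt_of_sq_le ?_
    nlinarith [sq_nonneg (α * (p.1 : ℝ))]

theorem block_cov (hS : OnE α β lam S) (hα : 0 < α) (hβ : 0 < β) (hlam : 0 < lam)
    (hK : 0 < K) (hb : 0 < b) (hcard : S.card = K * b + c) (f : Fin (K * b + c) → ℕ × ℕ)
    (P : ((Fin K × Fin b) ⊕ Fin c) ≃ {p // p ∈ S}) (hf : ∀ i, f i ∈ S)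
    (hmono : ∀ i j, i < j → (f i).1 < (f j).1)
    (hP : ∀ n, ((P n : {p // p ∈ S}) : ℕ × ℕ) = f (EE K b c n)) (s : Fin K → Fin b)
    (w : Fin k → ℂ) (t : Fin k → ℝ) (L : ℕ) (hk : k ≤ L) (hw : ∀ j, ‖w j‖ ≤ L)
    (ht : ∀ j, |t j| ≤ L) (hbig : 2 * (4 * (L : ℝ) ^ 4) * c * K ≤ S.card) :
    |(1 / (K : ℝ)) * ∑ i, VV w t (α * (f (EE K b c (Sum.inl (i, s i)))).1 / √lam)
        (β * (f (EE K b c (Sum.inl (i, s i)))).2 / √lam) - cov α β lam S w t| ≤
      2 * (2 * (L : ℝ) ^ 5) / K + 1 / K := by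
  classical
  have hK0 : (0 : ℝ) < K := by exact_mod_cast hK
  have hKb : 0 < K * b := Nat.mul_pos hK hb
  have hs0 : 0 < √lam := Real.sqrt_pos.2 hlam
  -- the monotone extension
  have hlt : ∀ n : ℕ, min n (K * b + c - 1) < K * b + c := fun n => by
    have := min_le_right n (K * b + c - 1)
    omega
  set F : ℕ → ℕ × ℕ := fun n => f ⟨min n (K * b + c - 1), hlt n⟩ with hF
  have hFS : ∀ n, F n ∈ S := fun n => hf _
  have hF1 : ∀ m n : ℕ, m ≤ n → (F m).1 ≤ (F n).1 := by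
    intro m n hmn
    have h1 : min m (K * b + c - 1) ≤ min n (K * b + c - 1) := min_le_min_right _ hmn
    rcases h1.lt_or_eq with h | h
    · exact (hmono _ _ (Fin.mk_lt_mk.2 h)).le
    · have : F m = F n := by
        simp only [hF]
        congr 1
        exact Fin.ext h
      rw [this]
  set X : ℕ → ℝ := fun n => α * (F n).1 / √lam with hX
  set Y : ℕ → ℝ := fun n => β * (F n).2 / √lam with hY
  have hXm : Monotone X := by
    intro m n hmn
    simp only [hX]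
    have : ((F m).1 : ℝ) ≤ (F n).1 := by exact_mod_cast hF1 m n hmn
    gcongr
  have hYm : Antitone Y := by
    intro m n hmn
    simp only [hY]
    have : ((F n).2 : ℝ) ≤ (F m).2 := by
      exact_mod_cast hS.anti hα hβ _ (hFS m) _ (hFS n) (hF1 m n hmn)
    gcongr
  have hX1 : ∀ n, 0 ≤ X n ∧ X n ≤ 1 := fun n => (hS.le_one hα hβ hlam _ (hFS n)).1
  have hY1 : ∀ n, 0 ≤ Y n ∧ Y n ≤ 1 := fun n => (hS.le_one hα hβ hlam _ (hFS n)).2
  have hFE : ∀ (i : Fin K) (x : Fin b), F (i * b + x) = f (EE K b c (Sum.inl (i, x))) := by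
    intro i x
    simp only [hF]
    congr 1
    refine Fin.ext ?_
    have h1 := EE_inl (c := c) i x
    have h2 := (EE K b c (Sum.inl (i, x))).isLt
    simp only
    rw [h1] at h2 ⊢
    omega
  have hq := quant (VV w t) (2 * (L : ℝ) ^ 5) (by positivity) (VV_lip w t L hk hw ht) X Y hXm hYm
    hX1 hY1 K b hK hb s
  set A : ℝ := ∑ i : Fin K, ∑ x : Fin b, VV w t (X (i * b + x)) (Y (i * b + x)) with hA
  set B : ℝ := ∑ y : Fin c, VV w t (α * (f (EE K b c (Sum.inr y))).1 / √lam)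
    (β * (f (EE K b c (Sum.inr y))).2 / √lam) with hB
  have hAB : ∑ p ∈ S, VV w t (α * p.1 / √lam) (β * p.2 / √lam) = A + B := by
    rw [← Finset.sum_coe_sort, ← P.sum_comp, Fintype.sum_sum_type, Fintype.sum_prod_type]
    simp only [hP, hA, hB, hX, hY, hFE]
  have hAle : |A| ≤ 4 * (L : ℝ) ^ 4 * ((K * b : ℕ) : ℝ) := by
    refine (Finset.abs_sum_le_sum_abs _ _).trans ?_
    refine (Finset.sum_le_sum fun i _ => (Finset.abs_sum_le_sum_abs _ _).trans
      (Finset.sum_le_sum fun x _ => VV_bd w t L hk ht _ _)).trans (le_of_eq ?_)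
    simp only [Finset.sum_const, Finset.card_univ, Fintype.card_fin, nsmul_eq_mul]
    push_cast
    ring
  have hBle : |B| ≤ 4 * (L : ℝ) ^ 4 * c := by
    refine (Finset.abs_sum_le_sum_abs _ _).trans ?_
    refine (Finset.sum_le_sum fun x _ => VV_bd w t L hk ht _ _).trans (le_of_eq ?_)
    simp only [Finset.sum_const, Finset.card_univ, Fintype.card_fin, nsmul_eq_mul]
    ring
  have hl := leftover A B (4 * (L : ℝ) ^ 4) (K * b) c hKb hAle hBle
  have hcov : cov α β lam S w t = (1 / ((K * b + c : ℕ) : ℝ)) * (A + B) := by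
    unfold cov
    rw [hAB, hcard]
  have hle : 2 * (4 * (L : ℝ) ^ 4) * c / ((K * b + c : ℕ) : ℝ) ≤ 1 / K := by
    have h0 : (0 : ℝ) < ((K * b + c : ℕ) : ℝ) := by positivity
    rw [div_le_div_iff₀ h0 hK0, one_mul, ← hcard]
    exact hbig
  simp only [← hFE]
  rw [hcov]
  calc _ ≤ |(1 / (K : ℝ)) * ∑ i : Fin K, VV w t (X (i * b + s i)) (Y (i * b + s i)) -
        (1 / ((K * b : ℕ) : ℝ)) * A| +
        |(1 / ((K * b : ℕ) : ℝ)) * A - (1 / ((K * b + c : ℕ) : ℝ)) * (A + B)| :=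
        abs_sub_le _ _ _
    _ ≤ 2 * (2 * (L : ℝ) ^ 5) / K + 1 / K := add_le_add hq (hl.trans hle)

end Pool.Agent.Zk91.KB
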