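import Mathlib

/-!
# The lemma of Riemann and Lebesgue, a countable dense family of sets
-/

set_option autoImplicit false

open Filter Topology Real MeasureTheory Set
open scoped symmDiff RealInnerProductSpace FourierTransform

namespace Pool.Agent.Zk91.KB

theorem rl (E : Set ℂ) (hE : MeasurableSet E) (ε : ℝ) (hε : 0 < ε) :
    ∃ r : ℝ, ∀ x y : ℝ, (r < |x| ∨ r < |y|) →
      ‖∫ z in E, Complex.exp (((x * z.re + y * z.im : ℝ) : ℂ) * Complex.I)‖ ≤ ε := by
  have h := tendsto_integral_exp_inner_smul_cocompact (V := ℂ) (E := ℂ) (E.indicator fun _ => (1 : ℂ))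
  rw [← Metric.cobounded_eq_cocompact] at h
  have h1 := h.eventually (Metric.closedBall_mem_nhds (0 : ℂ) hε)
  rw [(Metric.hasBasis_cobounded_compl_closedBall (0 : ℂ)).eventually_iff] at h1
  obtain ⟨r, -, hr⟩ := h1
  refine ⟨2 * π * r, fun x y hxy => ?_⟩
  set w : ℂ := ⟨-(x / (2 * π)), -(y / (2 * π))⟩ with hw
  have hwn : r < ‖w‖ := by
    have h2 : |w.re| ≤ ‖w‖ := Complex.abs_re_le_norm w
    have h3 : |w.im| ≤ ‖w‖ := Complex.abs_im_le_norm w
    have hp : (0 : ℝ) < 2 * π := by positivity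
    have e1 : |w.re| = |x| / (2 * π) := by
      rw [hw, abs_neg, abs_div, abs_of_pos hp]
    have e2 : |w.im| = |y| / (2 * π) := by
      rw [hw, abs_neg, abs_div, abs_of_pos hp]
    rw [e1] at h2
    rw [e2] at h3
    rcases hxy with h4 | h4
    · refine lt_of_lt_of_le ?_ h2
      rw [lt_div_iff₀ hp]
      linarith
    · refine lt_of_lt_of_le ?_ h3
      rw [lt_div_iff₀ hp]
      linarith
  have h5 := hr (x := w) (by
    rw [Set.mem_compl_iff, mem_closedBall_zero_iff, not_le]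
    exact hwn)
  rw [dist_zero_right] at h5
  refine le_trans (le_of_eq ?_) h5
  congr 1
  rw [← integral_indicator hE]
  refine integral_congr_ae (ae_of_all _ fun z => ?_)
  show E.indicator (fun z : ℂ => Complex.exp (((x * z.re + y * z.im : ℝ) : ℂ) * Complex.I)) z =
    𝐞 (-⟪z, w⟫) • E.indicator (fun _ => (1 : ℂ)) z
  by_cases hz : z ∈ E
  · rw [Set.indicator_of_mem hz, Set.indicator_of_mem hz, Circle.smul_def, smul_eq_mul, mul_one,
      Real.fourierChar_apply, Complex.inner]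
    congr 3
    rw [Complex.mul_re, Complex.conj_re, Complex.conj_im, hw]
    have hp : (π : ℝ) ≠ 0 := pi_pos.ne'
    simp only
    field_simp
    ring
  · rw [Set.indicator_of_notMem hz, Set.indicator_of_notMem hz, smul_zero]

/-- the frequencies scaled by a large number -/
theorem rl_scale (E : Set ℂ) (hE : MeasurableSet E) (a b : ℝ) (ha : 0 < a) (hb : 0 < b) (ε : ℝ)
    (hε : 0 < ε) : ∃ R0 : ℕ, ∀ R : ℕ, R0 ≤ R → ∀ A B : ℤ, ¬ (A = 0 ∧ B = 0) →
      ‖∫ z in E, Complex.exp ((((a * R) * A * z.re + (b * R) * B * z.im : ℝ) : ℂ) * Complex.I)‖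
        ≤ ε := by
  obtain ⟨r, hr⟩ := rl E hE ε hε
  obtain ⟨R1, hR1⟩ := exists_nat_gt (r / a)
  obtain ⟨R2, hR2⟩ := exists_nat_gt (r / b)
  refine ⟨max R1 R2, fun R hR A B hAB => hr _ _ ?_⟩
  have g1 : r < a * R := by
    have h1 : (R1 : ℝ) ≤ R := by exact_mod_cast (le_max_left _ _).trans hR
    rw [div_lt_iff₀ ha] at hR1
    nlinarith
  have g2 : r < b * R := by
    have h1 : (R2 : ℝ) ≤ R := by exact_mod_cast (le_max_right _ _).trans hR
    rw [div_lt_iff₀ hb] at hR2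
    nlinarith
  by_cases hA : A = 0
  · right
    have hB : B ≠ 0 := fun h => hAB ⟨hA, h⟩
    have h1 : (1 : ℝ) ≤ |(B : ℝ)| := by exact_mod_cast Int.one_le_abs hB
    rw [abs_mul, abs_of_nonneg (by positivity : 0 ≤ b * R)]
    have : 0 ≤ b * R := by positivity
    nlinarith
  · left
    have h1 : (1 : ℝ) ≤ |(A : ℝ)| := by exact_mod_cast Int.one_le_abs hA
    rw [abs_mul, abs_of_nonneg (by positivity : 0 ≤ a * R)]
    have : 0 ≤ a * R := by positivity
    nlinarith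

/-- a countable family of sets which is dense in measure -/
theorem exists_family : ∃ F : ℕ → Set ℂ, (∀ j, MeasurableSet (F j)) ∧ (∀ j, volume (F j) ≠ ⊤) ∧
    (∀ s : Set ℂ, MeasurableSet s → volume s ≠ ⊤ → ∀ ε : ℝ, 0 < ε →
      ∃ j, volume (s ∆ F j) < ENNReal.ofReal ε) ∧
    ∀ s : Set ℂ, Bornology.IsBounded s → ∃ j, s ⊆ F j := by
  obtain ⟨𝒜, hc, hd⟩ := exists_countable_measureDense (volume : Measure ℂ)
  have hd' := hd.fin_meas
  set 𝒞 : Set (Set ℂ) := {s | s ∈ 𝒜 ∧ volume s ≠ ⊤} ∪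
    Set.range (fun n : ℕ => Metric.closedBall (0 : ℂ) n) with h𝒞
  have hcount : 𝒞.Countable :=
    (hc.mono fun s hs => hs.1).union (Set.countable_range _)
  have hne : 𝒞.Nonempty := ⟨Metric.closedBall (0 : ℂ) ((0 : ℕ) : ℝ), Or.inr ⟨0, rfl⟩⟩
  obtain ⟨F, hF⟩ := hcount.exists_eq_range hne
  have hmem : ∀ j, F j ∈ 𝒞 := fun j => by rw [hF]; exact ⟨j, rfl⟩
  refine ⟨F, fun j => ?_, fun j => ?_, fun s hs hs' ε hε => ?_, fun s hs => ?_⟩
  · rcases hmem j with h | ⟨n, h⟩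
    · exact hd.measurable _ h.1
    · rw [← h]; exact Metric.isClosed_closedBall.measurableSet
  · rcases hmem j with h | ⟨n, h⟩
    · exact h.2
    · rw [← h]; exact Metric.isBounded_closedBall.measure_lt_top.ne
  · obtain ⟨t, ht, h⟩ := hd'.approx s hs hs' ε hε
    have : t ∈ 𝒞 := Or.inl ht
    rw [hF] at this
    obtain ⟨j, rfl⟩ := this
    exact ⟨j, h⟩
  · obtain ⟨r, hr⟩ := hs.subset_closedBall (0 : ℂ)
    obtain ⟨n, hn⟩ := exists_nat_ge r
    have : Metric.closedBall (0 : ℂ) n ∈ 𝒞 := Or.inr ⟨n, rfl⟩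
    rw [hF] at this
    obtain ⟨j, hj⟩ := this
    exact ⟨j, by rw [hj]; exact hr.trans (Metric.closedBall_subset_closedBall hn)⟩

/-- the scales -/
theorem exists_scales (F : ℕ → Set ℂ) (hF : ∀ j, MeasurableSet (F j)) (a b : ℝ) (ha : 0 < a)
    (hb : 0 < b) (n : ℕ) (ε : ℝ) (hε : 0 < ε) : ∃ R : ℕ, 0 < R ∧ ∀ j ≤ n, ∀ A B : ℤ,
      ¬ (A = 0 ∧ B = 0) →
      ‖∫ z in F j, Complex.exp ((((a * R) * A * z.re + (b * R) * B * z.im : ℝ) : ℂ) *
        Complex.I)‖ ≤ ε := by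
  choose R0 hR0 using fun j => rl_scale (F j) (hF j) a b ha hb ε hε
  refine ⟨(Finset.range (n + 1)).sup R0 + 1, Nat.succ_pos _, fun j hj A B hAB => ?_⟩
  refine hR0 j _ ?_ A B hAB
  have : R0 j ≤ (Finset.range (n + 1)).sup R0 :=
    Finset.le_sup (f := R0) (Finset.mem_range.2 (Nat.lt_succ_of_le hj))
  omega

/-! ### passage from the family to all sets -/

theorem diff_int {E : Type*} [NormedAddCommGroup E] [NormedSpace ℝ E] (f : ℂ → E) (S F : Set ℂ)
    (hS : MeasurableSet S) (hF : MeasurableSet F) (hi : IntegrableOn f S) (hj : IntegrableOn f F) :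
    (∫ z in S, f z) - ∫ z in F, f z = (∫ z in S \ F, f z) - ∫ z in F \ S, f z := by
  rw [← integral_inter_add_sdiff hF hi, ← integral_inter_add_sdiff hS hj, Set.inter_comm F S]
  abel

theorem dense_lim {E : Type*} [NormedAddCommGroup E] [NormedSpace ℝ E] (F : ℕ → Set ℂ)
    (hF : ∀ j, MeasurableSet (F j)) (hFf : ∀ j, volume (F j) ≠ ⊤)
    (hdense : ∀ s : Set ℂ, MeasurableSet s → volume s ≠ ⊤ → ∀ ε : ℝ, 0 < ε →
      ∃ j, volume (s ∆ F j) < ENNReal.ofReal ε)
    (f : ℕ → ℂ → E) (L : E) (S : Set ℂ) (hS : MeasurableSet S) (hSf : volume S ≠ ⊤)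
    (h1 : ∀ j, Tendsto (fun n => ∫ z in F j, f n z) atTop (𝓝 (volume.real (F j) • L)))
    (h2 : ∀ ε : ℝ, 0 < ε → ∃ δ : ℝ, 0 < δ ∧ ∀ j, volume (S ∆ F j) < ENNReal.ofReal δ →
      ∀ᶠ n in atTop, ‖(∫ z in S, f n z) - ∫ z in F j, f n z‖ ≤ ε) :
    Tendsto (fun n => ∫ z in S, f n z) atTop (𝓝 (volume.real S • L)) := by
  rw [Metric.tendsto_atTop']
  intro ε hε
  obtain ⟨δ, hδ, hδ'⟩ := h2 (ε / 4) (by positivity)
  have hL : 0 < ‖L‖ + 1 := by positivity
  obtain ⟨j, hj⟩ := hdense S hS hSf (min δ (ε / (4 * (‖L‖ + 1)))) (lt_min hδ (by positivity))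
  have a1 := hδ' j (hj.trans_le (ENNReal.ofReal_le_ofReal (min_le_left _ _)))
  have a2 := Metric.tendsto_atTop'.1 (h1 j) (ε / 4) (by positivity)
  have a3 : |volume.real S - volume.real (F j)| ≤ ε / (4 * (‖L‖ + 1)) := by
    refine (abs_measureReal_sub_le_measureReal_symmDiff' hS.nullMeasurableSet
      (hF j).nullMeasurableSet hSf (hFf j)).trans ?_
    rw [measureReal_def]
    refine ENNReal.toReal_le_of_le_ofReal (by positivity) ?_
    exact hj.le.trans (ENNReal.ofReal_le_ofReal (min_le_right _ _))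
  obtain ⟨N1, hN1⟩ := eventually_atTop.1 a1
  obtain ⟨N2, hN2⟩ := a2
  refine ⟨max N1 N2, fun n hn => ?_⟩
  have b1 := hN1 n ((le_max_left _ _).trans hn.le)
  have b2 := hN2 n ((le_max_right _ _).trans_lt hn)
  rw [dist_eq_norm] at b2 ⊢
  have e : (∫ z in S, f n z) - volume.real S • L = ((∫ z in S, f n z) - ∫ z in F j, f n z) +
      ((∫ z in F j, f n z) - volume.real (F j) • L) -
      (volume.real S - volume.real (F j)) • L := by
    rw [sub_smul]
    abel
  rw [e]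
  have c1 : ‖(volume.real S - volume.real (F j)) • L‖ ≤ ε / 4 := by
    rw [norm_smul, Real.norm_eq_abs]
    calc |volume.real S - volume.real (F j)| * ‖L‖ ≤ ε / (4 * (‖L‖ + 1)) * (‖L‖ + 1) := by
          refine mul_le_mul a3 (by linarith) (norm_nonneg _) (by positivity)
      _ = ε / 4 := by field_simp
  have c2 := norm_sub_le (((∫ z in S, f n z) - ∫ z in F j, f n z) +
      ((∫ z in F j, f n z) - volume.real (F j) • L)) ((volume.real S - volume.real (F j)) • L)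
  have c3 := norm_add_le ((∫ z in S, f n z) - ∫ z in F j, f n z)
      ((∫ z in F j, f n z) - volume.real (F j) • L)
  linarith

end Pool.Agent.Zk91.KB
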