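import Pool.Agent.Zk91.KB.Mom
import Pool.Agent.Zk91.KB.BC

/-!
# The local measures of the kaleidoscopic eigenfunctions
-/

set_option autoImplicit false

open Filter Topology Real MeasureTheory Set ProbabilityTheory
open scoped ContDiff symmDiff

namespace Pool.Agent.Zk91.KB

open Pool.Agent.W745.RW (lap dx dy)
open Pool.Agent.Zk60.BW (QQ wave_iff)
open Pool.Agent.N661.BR (J0 MW lin IsRandomWave resc IsCutoff IsLocalLimit)

variable {ν : ℕ}

/-- the properties of the sequence on the bounded open set `Ω` -/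
def Good (lam : ℕ → ℝ) (u : ℕ → ℂ → ℝ) (Ω : Set ℂ) : Prop :=
  ∃ c : ℕ → ℝ, Tendsto c atTop (𝓝 1) ∧
    (∀ᶠ n in atTop, ∫ z in Ω, (c n * u n z) ^ 2 = volume.real Ω) ∧
    ∀ χ : ℝ → ℝ, IsCutoff χ →
      (∀ (k : ℕ) (w : Fin k → ℂ) (t : Fin k → ℝ),
        Tendsto (fun n => (1 / volume.real Ω : ℝ) * ∫ z in Ω, Complex.exp
          (Complex.I * ((∑ j, t j * resc χ Ω (lam n) (fun z => c n * u n z) z (w j) : ℝ) : ℂ))) atTop
          (𝓝 ((Real.exp (-(∑ i, ∑ j, t i * t j * J0 ‖w i - w j‖) / 2) : ℝ) : ℂ))) ∧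
      ∀ μ : Measure MW, IsProbabilityMeasure μ →
        (IsLocalLimit χ Ω lam (fun n z => c n * u n z) μ ↔ IsRandomWave μ)

theorem good (K : Kal ν) : ∃ (d : ∀ n, Num K.D (K.B + K.B) n) (R : ℕ → ℕ), (∀ n, 0 < R n) ∧
    Tendsto (fun n => K.lam (d n) (R n)) atTop atTop ∧
    ∀ (φ : ℝ) (Ω : Set ℂ), IsOpen Ω → Ω.Nonempty → Bornology.IsBounded Ω →
      Good (fun n => K.lam (d n) (R n)) (fun n => K.u (d n) (R n) φ) Ω := by
  obtain ⟨F, hF, hFf, hdense, hball⟩ := exists_family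
  obtain ⟨s⟩ := exists_sq K F hF
  refine ⟨s.d, s.R, s.pos, s.tendsto_lam, fun φ Ω hΩ hne hbd => ?_⟩
  have hvol := vol_pos hΩ hne hbd
  have hsq := s.sq_all φ hF hFf hdense hball Ω hΩ.measurableSet hbd
  set I : ℕ → ℝ := fun n => ∫ z in Ω, s.u φ n z ^ 2 with hI
  set c : ℕ → ℝ := fun n => √(volume.real Ω / I n) with hc
  have hc1 : Tendsto c atTop (𝓝 1) := by
    have h1 : Tendsto (fun n => volume.real Ω / I n) atTop (𝓝 (volume.real Ω / volume.real Ω)) :=
      tendsto_const_nhds.div hsq hvol.ne'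
    rw [div_self hvol.ne'] at h1
    have h2 := (Real.continuous_sqrt.tendsto _).comp h1
    rw [Real.sqrt_one] at h2
    exact h2
  refine ⟨c, hc1, ?_, fun χ hχ => ?_⟩
  · filter_upwards [hsq.eventually (lt_mem_nhds (show volume.real Ω / 2 < volume.real Ω by linarith))]
      with n hn
    have hIn : 0 < I n := lt_trans (by positivity) hn
    simp only [mul_pow]
    rw [integral_const_mul]
    show c n ^ 2 * I n = volume.real Ω
    rw [hc]
    show √(volume.real Ω / I n) ^ 2 * I n = volume.real Ω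
    rw [Real.sq_sqrt (by positivity)]
    field_simp
  · have h1 := fun (k : ℕ) (w : Fin k → ℂ) (t : Fin k → ℝ) =>
      cut_lim (fun n => K.lam (s.d n) (s.R n)) s.tendsto_lam (fun n z => c n * s.u φ n z)
        (fun n => continuous_const.mul (s.cont φ n)) Ω hΩ hne hbd χ hχ w t
        ((Real.exp (-(QQ w t) / 2) : ℝ) : ℂ) (by
          have := s.char_all φ hF hFf hdense Ω hΩ.measurableSet hbd.measure_lt_top.ne w t c hc1
          rw [Complex.real_smul] at this
          exact this)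
    refine ⟨h1, fun μ hμ => ?_⟩
    exact wave_iff (fun k w t n => (1 / volume.real Ω : ℝ) * ∫ z in Ω,
      Complex.exp (Complex.I * ((∑ j, t j * resc χ Ω (K.lam (s.d n) (s.R n))
        (fun z => c n * s.u φ n z) z (w j) : ℝ) : ℂ))) h1 μ

end Pool.Agent.Zk91.KB
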