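import Pool.Agent.Zk91.KB.Win

/-!
# Comparison with the model for frequencies without a common factor
-/

set_option autoImplicit false

open Filter Topology Real MeasureTheory Set ProbabilityTheory

namespace Pool.Agent.Zk91.KB

open Pool.Agent.Zk60.BW (tay rem_bound tri)

variable {n q₀ : ℕ}

/-- **Approximate transfer.** -/
theorem transfer' (M : Measure ℂ) [IsFiniteMeasure M] (a b δ : ℝ) (l m : Fin n → ℤ) (K : ℕ)
    (hδ : ∀ G : Fin n → Z4, (∀ i, Bd K (G i)) → G ≠ 0 → ‖∫ z, ch G (Ph a b l m z) ∂M‖ ≤ δ)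
    (hδ0 : 0 ≤ δ) {κ : ℝ} {f : (Fin n → X4) → ℂ} (hf : TB n K κ f) :
    Continuous f ∧ (∀ x, ‖f x‖ ≤ κ) ∧
    ‖∫ z, f (Ph a b l m z) ∂M - (M.real univ : ℂ) * ∫ x, f x ∂(Pn P4 n)‖ ≤ κ * δ := by
  classical
  obtain ⟨ι, _, c, G, h1, h2, h3⟩ := hf
  have hfe : f = fun x => ∑ a, c a * ch (G a) x := funext h3
  have hcont : Continuous f := by
    rw [hfe]
    exact continuous_finsetSum _ fun a _ => continuous_const.mul (continuous_ch _)
  refine ⟨hcont, fun x => ?_, ?_⟩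
  · rw [h3]
    refine (norm_sum_le _ _).trans (le_trans (Finset.sum_le_sum fun a _ => ?_) h2)
    rw [norm_mul, norm_ch, mul_one]
  · have i1 : ∀ c', Integrable (fun z => c c' * ch (G c') (Ph a b l m z)) M := fun c' =>
      (Integrable.of_bound ((continuous_ch _).comp (continuous_Ph a b l m)).aestronglyMeasurable 1
        (ae_of_all _ fun z => (norm_ch _ _).le)).const_mul _
    have i2 : ∀ c', Integrable (fun x => c c' * ch (G c') x) (Pn P4 n) := fun c' =>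
      (Integrable.of_bound (continuous_ch _).aestronglyMeasurable 1
        (ae_of_all _ fun z => (norm_ch _ _).le)).const_mul _
    simp only [h3]
    rw [integral_finsetSum _ fun c' _ => i1 c', integral_finsetSum _ fun c' _ => i2 c',
      Finset.mul_sum, ← Finset.sum_sub_distrib]
    refine (norm_sum_le _ _).trans ?_
    have hterm : ∀ c' ∈ (Finset.univ : Finset ι), ‖∫ z, c c' * ch (G c') (Ph a b l m z) ∂M -
        (M.real univ : ℂ) * ∫ x, c c' * ch (G c') x ∂(Pn P4 n)‖ ≤ ‖c c'‖ * δ := by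
      intro c' _
      rw [integral_const_mul, integral_const_mul]
      have e : ∀ A B : ℂ, c c' * A - (M.real univ : ℂ) * (c c' * B) =
          c c' * (A - (M.real univ : ℂ) * B) := fun A B => by ring
      rw [e, norm_mul]
      refine mul_le_mul_of_nonneg_left ?_ (norm_nonneg _)
      by_cases h0 : G c' = 0
      · have e1 : ∀ x : Fin n → X4, ch (G c') x = 1 := by
          intro x
          rw [h0]
          simp [ch, ex_zero]
        simp only [e1]
        rw [integral_const (μ := M), integral_const (μ := Pn P4 n), probReal_univ (μ := Pn P4 n)]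
        simp [hδ0]
      · rw [int_ch _ h0, mul_zero, sub_zero]
        exact hδ _ (h1 c') h0
    refine (Finset.sum_le_sum hterm).trans ?_
    rw [← Finset.sum_mul]
    exact mul_le_mul_of_nonneg_right h2 hδ0

theorem compare' (M : Measure ℂ) [IsFiniteMeasure M] (a b δ : ℝ) (l m : Fin n → ℤ)
    (hδ : ∀ G : Fin n → Z4, (∀ i, Bd (2 * n * q₀) (G i)) → G ≠ 0 →
      ‖∫ z, ch G (Ph a b l m z) ∂M‖ ≤ δ)
    (hδ0 : 0 ≤ δ) {G : Fin n → X4 → ℝ} {V : Fin n → ℝ} {T : ℝ} (h : Ind P4 G V T) (hT : 0 ≤ T)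
    (hG : ∀ i, TB n q₀ T fun x => ((G i (x i) : ℝ) : ℂ)) (hn : 0 < n) (hTn : 4 * T ^ 2 ≤ n) :
    ‖(∫ z, Complex.exp ((SS G (Ph a b l m z) : ℝ) * Complex.I) ∂M) -
      (M.real univ : ℂ) * ∫ x, Complex.exp ((SS G x : ℝ) * Complex.I) ∂(Pn P4 n)‖ ≤
      M.real univ * (4 * ((1 / 4) ^ n * Real.exp (4 * T ^ 2))) + 2 * (Real.exp (√n * T) * δ) := by
  have hcP := continuous_Ph a b l m
  have hmS := h.measSS
  have hS := TB_SS hn hG
  have hκ : 0 ≤ √n * T := by positivity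
  -- the Taylor polynomial
  set q : (Fin n → X4) → ℂ := fun x => tay (2 * n) (SS G x) with hq
  have hqmem : TB n (2 * n * q₀) (Real.exp (√n * T)) q := by
    have e : q = fun x => ∑ j ∈ Finset.range (2 * n), (Complex.I ^ j / (j.factorial : ℂ)) *
        ((SS G x : ℝ) : ℂ) ^ j := by
      funext x
      simp only [hq, tay]
      refine Finset.sum_congr rfl fun j _ => ?_
      rw [mul_pow]
      ring
    rw [e]
    have h1 : ∀ j ∈ Finset.range (2 * n), TB n (2 * n * q₀) ((√n * T) ^ j / j.factorial) fun x =>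
        (Complex.I ^ j / (j.factorial : ℂ)) * ((SS G x : ℝ) : ℂ) ^ j := by
      intro j hj
      have h2 := (hS.pow j).smul (Complex.I ^ j / (j.factorial : ℂ))
      refine h2.mono ?_ (le_of_eq ?_)
      · exact Nat.mul_le_mul_right _ (Finset.mem_range.1 hj).le
      · rw [norm_div, norm_pow, Complex.norm_I, one_pow, Complex.norm_natCast]
        ring
    exact (TB.sum _ _ _ h1).mono le_rfl (Real.sum_le_exp_of_nonneg hκ _)
  set r : (Fin n → X4) → ℂ := fun x =>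
    (((SS G x ^ (2 * n) / ((2 * n).factorial : ℝ) : ℝ)) : ℂ) with hr
  have hrmem : TB n (2 * n * q₀) (Real.exp (√n * T)) r := by
    have e : r = fun x => ((1 / ((2 * n).factorial : ℝ) : ℝ) : ℂ) * ((SS G x : ℝ) : ℂ) ^ (2 * n) := by
      funext x
      simp only [hr]
      push_cast
      ring
    rw [e]
    refine ((hS.pow (2 * n)).smul _).mono le_rfl ?_
    rw [Complex.norm_real, Real.norm_eq_abs, abs_of_pos (by positivity)]
    have := Real.pow_div_factorial_le_exp (√n * T) hκ (2 * n)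
    refine le_trans (le_of_eq ?_) this
    ring
  obtain ⟨cq, bq, eq⟩ := transfer' M a b δ l m (2 * n * q₀) hδ hδ0 hqmem
  obtain ⟨cr, br, er⟩ := transfer' M a b δ l m (2 * n * q₀) hδ hδ0 hrmem
  have mE : Measurable fun x => Complex.exp ((SS G x : ℝ) * Complex.I) :=
    Complex.measurable_exp.comp ((Complex.measurable_ofReal.comp hmS).mul measurable_const)
  have bE : ∀ x, ‖Complex.exp ((SS G x : ℝ) * Complex.I)‖ ≤ 1 := fun x => by
    rw [Complex.norm_exp_ofReal_mul_I]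
  have iE1 : Integrable (fun z => Complex.exp ((SS G (Ph a b l m z) : ℝ) * Complex.I)) M :=
    Integrable.of_bound (mE.comp hcP.measurable).aestronglyMeasurable 1 (ae_of_all _ fun z => bE _)
  have iE2 : Integrable (fun x => Complex.exp ((SS G x : ℝ) * Complex.I)) (Pn P4 n) :=
    Integrable.of_bound mE.aestronglyMeasurable 1 (ae_of_all _ bE)
  have iq1 : Integrable (fun z => q (Ph a b l m z)) M :=
    Integrable.of_bound (cq.comp hcP).aestronglyMeasurable _ (ae_of_all _ fun z => bq _)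
  have iq2 : Integrable q (Pn P4 n) :=
    Integrable.of_bound cq.aestronglyMeasurable _ (ae_of_all _ bq)
  have hrr : ∀ x, ‖Complex.exp ((SS G x : ℝ) * Complex.I) - q x‖ ≤
      SS G x ^ (2 * n) / ((2 * n).factorial : ℝ) := by
    intro x
    have := rem_bound (2 * n) (SS G x)
    rwa [pow_mul |SS G x|, sq_abs, ← pow_mul] at this
  have rR : ∀ x, r x = ((SS G x ^ (2 * n) / ((2 * n).factorial : ℝ) : ℝ) : ℂ) := fun x => rfl
  have mR : Measurable fun x => SS G x ^ (2 * n) / ((2 * n).factorial : ℝ) :=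
    (hmS.pow_const _).div_const _
  have bR : ∀ x, ‖SS G x ^ (2 * n) / ((2 * n).factorial : ℝ)‖ ≤ Real.exp (√n * T) := by
    intro x
    have := br x
    rw [rR, Complex.norm_real] at this
    exact this
  have iR1 : Integrable (fun z => SS G (Ph a b l m z) ^ (2 * n) / ((2 * n).factorial : ℝ)) M :=
    Integrable.of_bound (mR.comp hcP.measurable).aestronglyMeasurable _ (ae_of_all _ fun z => bR _)
  have hpow := h.pow_sum hn hTn
  have hMn : 0 ≤ M.real univ := measureReal_nonneg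
  have eR : ∫ z, SS G (Ph a b l m z) ^ (2 * n) / ((2 * n).factorial : ℝ) ∂M ≤
      M.real univ * ((1 / 4) ^ n * (2 * Real.exp (4 * T ^ 2))) + Real.exp (√n * T) * δ := by
    simp only [rR] at er
    rw [integral_complex_ofReal, integral_complex_ofReal, ← Complex.ofReal_mul,
      ← Complex.ofReal_sub, Complex.norm_real, Real.norm_eq_abs] at er
    have := (abs_le.1 er).2
    have h3 := mul_le_mul_of_nonneg_left hpow hMn
    linarith
  -- the remainders
  have h1 : ‖∫ z, (Complex.exp ((SS G (Ph a b l m z) : ℝ) * Complex.I) - q (Ph a b l m z)) ∂M‖ ≤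
      M.real univ * ((1 / 4) ^ n * (2 * Real.exp (4 * T ^ 2))) + Real.exp (√n * T) * δ :=
    (norm_integral_le_of_norm_le iR1 (ae_of_all _ fun z => hrr _)).trans eR
  have iR2 : Integrable (fun x => SS G x ^ (2 * n) / ((2 * n).factorial : ℝ)) (Pn P4 n) :=
    Integrable.of_bound mR.aestronglyMeasurable _ (ae_of_all _ bR)
  have h2 : ‖∫ x, (Complex.exp ((SS G x : ℝ) * Complex.I) - q x) ∂(Pn P4 n)‖ ≤
      (1 / 4) ^ n * (2 * Real.exp (4 * T ^ 2)) :=
    (norm_integral_le_of_norm_le iR2 (ae_of_all _ hrr)).trans hpow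
  rw [integral_sub iE1 iq1] at h1
  rw [integral_sub iE2 iq2] at h2
  set E1 := ∫ z, Complex.exp ((SS G (Ph a b l m z) : ℝ) * Complex.I) ∂M
  set E2 := ∫ x, Complex.exp ((SS G x : ℝ) * Complex.I) ∂(Pn P4 n)
  set Q1 := ∫ z, q (Ph a b l m z) ∂M
  set Q2 := ∫ x, q x ∂(Pn P4 n)
  have e3 : E1 - (M.real univ : ℂ) * E2 = (E1 - Q1) + (Q1 - (M.real univ : ℂ) * Q2) -
      (M.real univ : ℂ) * (E2 - Q2) := by ring
  rw [e3]
  have h4 : ‖(M.real univ : ℂ) * (E2 - Q2)‖ ≤ M.real univ * ((1 / 4) ^ n *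
      (2 * Real.exp (4 * T ^ 2))) := by
    rw [norm_mul, Complex.norm_real, Real.norm_eq_abs, abs_of_nonneg hMn]
    exact mul_le_mul_of_nonneg_left h2 hMn
  have h5 := (norm_sub_le ((E1 - Q1) + (Q1 - (M.real univ : ℂ) * Q2))
    ((M.real univ : ℂ) * (E2 - Q2)))
  have h6 := norm_add_le (E1 - Q1) (Q1 - (M.real univ : ℂ) * Q2)
  linarith

/-- the second moment -/
theorem compare_sq' (M : Measure ℂ) [IsFiniteMeasure M] (a b δ : ℝ) (l m : Fin n → ℤ)
    (hδ : ∀ G : Fin n → Z4, (∀ i, Bd (2 * n * q₀) (G i)) → G ≠ 0 →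
      ‖∫ z, ch G (Ph a b l m z) ∂M‖ ≤ δ)
    (hδ0 : 0 ≤ δ) {G : Fin n → X4 → ℝ} {V : Fin n → ℝ} {T : ℝ} (h : Ind P4 G V T)
    (hG : ∀ i, TB n q₀ T fun x => ((G i (x i) : ℝ) : ℂ)) (hn : 0 < n) :
    |∫ z, SS G (Ph a b l m z) ^ 2 ∂M - M.real univ * ((1 / (n : ℝ)) * ∑ i, V i)| ≤
      (√n * T) ^ 2 * δ := by
  have hS := ((TB_SS hn hG).pow 2).mono (show 2 * q₀ ≤ 2 * n * q₀ from
    Nat.mul_le_mul_right _ (by omega)) le_rfl
  obtain ⟨-, -, e⟩ := transfer' M a b δ l m (2 * n * q₀) hδ hδ0 hS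
  have h4 : ∀ x, ((SS G x : ℝ) : ℂ) ^ 2 = ((SS G x ^ 2 : ℝ) : ℂ) := by
    intro x
    push_cast
    rfl
  simp only [h4] at e
  rw [integral_complex_ofReal, integral_complex_ofReal, h.sq_sum hn, ← Complex.ofReal_mul,
      ← Complex.ofReal_sub, Complex.norm_real, Real.norm_eq_abs] at e
  exact e

/-- the error -/
noncomputable def err' (T : ℝ) (n : ℕ) : ℝ :=
  1 * (4 * ((1 / 4) ^ n * Real.exp (4 * T ^ 2))) +
    2 * (Real.exp (√(n : ℝ) * T) * Real.exp (-(n : ℝ))) +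
    1 * (T ^ 3 / √(n : ℝ) + T ^ 4 / (n : ℝ))

theorem win' (a b : ℝ) (l m : Fin n → ℤ) (hn : 0 < n) (M : Measure ℂ) [IsFiniteMeasure M]
    (hV : 0 < M.real univ)
    (hδ : ∀ G : Fin n → Z4, (∀ i, Bd (2 * n * q₀) (G i)) → G ≠ 0 →
      ‖∫ z, ch G (Ph a b l m z) ∂M‖ ≤ M.real univ * Real.exp (-(n : ℝ)))
    {G : Fin n → X4 → ℝ} {V : Fin n → ℝ} {T : ℝ} (hI : Ind P4 G V T) (hT : 0 ≤ T)
    (hTn : 4 * T ^ 2 ≤ (n : ℝ))
    (hG : ∀ i, TB n q₀ T fun x => ((G i (x i) : ℝ) : ℂ)) :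
    ‖((1 / M.real univ : ℝ) : ℂ) * (∫ z, Complex.exp
      ((SS G (Ph a b l m z) : ℝ) * Complex.I) ∂M) -
      ((Real.exp (-((1 / (n : ℝ)) * ∑ i, V i) / 2) : ℝ) : ℂ)‖ ≤ err' T n := by
  set v := M.real univ with hv
  have c1 := compare' M a b (v * Real.exp (-(n : ℝ))) l m hδ
    (by positivity) hI hT hG hn hTn
  have c2 := hI.char_sum hT hn hTn
  rw [← hv] at c1
  set E1 := ∫ z, Complex.exp ((SS G (Ph a b l m z) : ℝ) * Complex.I) ∂M
  set E2 := ∫ x, Complex.exp ((SS G x : ℝ) * Complex.I) ∂(Pn P4 n)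
  set E3 := ((Real.exp (-((1 / (n : ℝ)) * ∑ i, V i) / 2) : ℝ) : ℂ)
  have hvC : (v : ℂ) ≠ 0 := by exact_mod_cast hV.ne'
  have e : ((1 / v : ℝ) : ℂ) * E1 - E3 = ((1 / v : ℝ) : ℂ) * (E1 - (v : ℂ) * E2) + (E2 - E3) := by
    push_cast
    field_simp
    ring
  rw [e]
  refine (norm_add_le _ _).trans ?_
  unfold err'
  refine add_le_add ?_ ?_
  · rw [norm_mul, Complex.norm_real, Real.norm_eq_abs, abs_of_pos (by positivity)]
    calc 1 / v * ‖E1 - (v : ℂ) * E2‖ ≤ 1 / v * (v * (4 * ((1 / 4) ^ n *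
          Real.exp (4 * T ^ 2))) + 2 * (Real.exp (√(n : ℝ) * T) *
          (v * Real.exp (-(n : ℝ))))) := mul_le_mul_of_nonneg_left c1 (by positivity)
      _ = _ := by
          field_simp
  · rw [one_mul]
    exact c2

theorem win_sq' (a b : ℝ) (l m : Fin n → ℤ) (hn : 0 < n) (M : Measure ℂ) [IsFiniteMeasure M]
    (hV : 0 < M.real univ)
    (hδ : ∀ G : Fin n → Z4, (∀ i, Bd (2 * n * q₀) (G i)) → G ≠ 0 →
      ‖∫ z, ch G (Ph a b l m z) ∂M‖ ≤ M.real univ * Real.exp (-(n : ℝ)))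
    {G : Fin n → X4 → ℝ} {V : Fin n → ℝ} {T : ℝ} (hI : Ind P4 G V T)
    (hG : ∀ i, TB n q₀ T fun x => ((G i (x i) : ℝ) : ℂ)) :
    |(1 / M.real univ) * (∫ z, SS G (Ph a b l m z) ^ 2 ∂M) -
      (1 / (n : ℝ)) * ∑ i, V i| ≤
      (√(n : ℝ) * T) ^ 2 * Real.exp (-(n : ℝ)) := by
  set v := M.real univ with hv
  have c1 := compare_sq' M a b (v * Real.exp (-(n : ℝ))) l m hδ
    (by positivity) hI hG hn
  rw [← hv] at c1
  set E1 := ∫ z, SS G (Ph a b l m z) ^ 2 ∂M
  set E2 := (1 / (n : ℝ)) * ∑ i, V i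
  have e : (1 / v) * E1 - E2 = (1 / v) * (E1 - v * E2) := by
    field_simp
  rw [e, abs_mul, abs_of_pos (by positivity)]
  calc 1 / v * |E1 - v * E2| ≤ 1 / v * ((√(n : ℝ) * T) ^ 2 *
        (v * Real.exp (-(n : ℝ)))) := mul_le_mul_of_nonneg_left c1 (by positivity)
    _ = _ := by field_simp

end Pool.Agent.Zk91.KB
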