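import Mathlib

/-!
# Flat orthogonal matrices
-/

set_option autoImplicit false

open Finset

namespace Pool.Agent.Zk91.KB

/-- the Walsh functions -/
def wal {κ : ℕ} (a b : Fin κ → Bool) : ℝ := ∏ s, if a s && b s then (-1 : ℝ) else 1

theorem wal_sq {κ : ℕ} (a b : Fin κ → Bool) : wal a b ^ 2 = 1 := by
  unfold wal
  rw [← prod_pow]
  refine prod_eq_one fun s _ => ?_
  split_ifs <;> norm_num

theorem wal_orth {κ : ℕ} (a a' : Fin κ → Bool) :
    ∑ b, wal a b * wal a' b = if a = a' then (2 : ℝ) ^ κ else 0 := by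
  have h1 : ∀ b : Fin κ → Bool, wal a b * wal a' b =
      ∏ s, (if a s && b s then (-1 : ℝ) else 1) * (if a' s && b s then (-1 : ℝ) else 1) := by
    intro b
    unfold wal
    rw [prod_mul_distrib]
  simp only [h1]
  have h2 := prod_univ_sum (fun _ : Fin κ => (univ : Finset Bool))
    (fun s (x : Bool) => (if a s && x then (-1 : ℝ) else 1) * (if a' s && x then (-1 : ℝ) else 1))
  rw [Fintype.piFinset_univ] at h2
  rw [← h2]
  have h3 : ∀ s, ∑ x ∈ (univ : Finset Bool), (if a s && x then (-1 : ℝ) else 1) *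
      (if a' s && x then (-1 : ℝ) else 1) = if a s = a' s then 2 else 0 := by
    intro s
    rcases ha : a s <;> rcases ha' : a' s <;> norm_num [Fintype.sum_bool]
  simp only [h3]
  by_cases h : a = a'
  · subst h
    simp
  · rw [if_neg h]
    obtain ⟨s, hs⟩ := Function.ne_iff.1 h
    exact prod_eq_zero (mem_univ s) (if_neg hs)

/-- a flat orthogonal matrix, up to the factor `√K` -/
theorem exists_flat (κ : ℕ) : ∃ H : Fin (2 ^ κ) → Fin (2 ^ κ) → ℝ, (∀ i j, H i j ^ 2 = 1) ∧
    ∀ i i', ∑ j, H i j * H i' j = if i = i' then ((2 ^ κ : ℕ) : ℝ) else 0 := by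
  have e : Fin (2 ^ κ) ≃ (Fin κ → Bool) := Fintype.equivOfCardEq (by simp)
  refine ⟨fun i j => wal (e i) (e j), fun i j => wal_sq _ _, fun i i' => ?_⟩
  rw [e.sum_comp (fun b => wal (e i) b * wal (e i') b), wal_orth]
  simp only [e.injective.eq_iff]
  push_cast
  rfl

end Pool.Agent.Zk91.KB
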