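import Mathlib

/-!
# Blocks with one point in each of `K` consecutive arcs
-/

set_option autoImplicit false

open Finset

namespace Pool.Agent.Zk91.KB

/-- a monotone enumeration -/
theorem exists_enum (S : Finset (ℕ × ℕ)) (hS : ∀ p ∈ S, ∀ q ∈ S, p.1 = q.1 → p = q) :
    ∃ f : Fin S.card → ℕ × ℕ, (∀ i, f i ∈ S) ∧ ∀ i j, i < j → (f i).1 < (f j).1 := by
  classical
  have hcard : (S.image Prod.fst).card = S.card :=
    card_image_of_injOn fun p hp q hq h => hS p hp q hq h
  set e := (S.image Prod.fst).orderEmbOfFin hcard with he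
  have h1 : ∀ i, ∃ p ∈ S, p.1 = e i := by
    intro i
    have := (S.image Prod.fst).orderEmbOfFin_mem hcard i
    obtain ⟨p, hp, h⟩ := mem_image.1 this
    exact ⟨p, hp, h⟩
  choose f hf1 hf2 using h1
  refine ⟨f, hf1, fun i j hij => ?_⟩
  rw [hf2, hf2]
  exact e.strictMono hij

theorem quant_one (g : ℝ → ℝ → ℝ) (L : ℝ) (hL : 0 ≤ L)
    (hg : ∀ x y x' y', |g x y - g x' y'| ≤ L * (|x - x'| + |y - y'|)) (X Y : ℕ → ℝ)
    (hX : Monotone X) (hY : Antitone Y) (b i : ℕ) (hb : 0 < b) (c : Fin b) :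
    |g (X (i * b + c)) (Y (i * b + c)) -
      (1 / (b : ℝ)) * ∑ x : Fin b, g (X (i * b + x)) (Y (i * b + x))| ≤
      L * ((X ((i + 1) * b) - X (i * b)) + (Y (i * b) - Y ((i + 1) * b))) := by
  have hb0 : (0 : ℝ) < b := by exact_mod_cast hb
  set D := (X ((i + 1) * b) - X (i * b)) + (Y (i * b) - Y ((i + 1) * b)) with hD
  have e : g (X (i * b + c)) (Y (i * b + c)) -
      (1 / (b : ℝ)) * ∑ x : Fin b, g (X (i * b + x)) (Y (i * b + x)) =
      (1 / (b : ℝ)) * ∑ x : Fin b, (g (X (i * b + c)) (Y (i * b + c)) -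
        g (X (i * b + x)) (Y (i * b + x))) := by
    rw [sum_sub_distrib, sum_const, card_univ, Fintype.card_fin, nsmul_eq_mul]
    field_simp
  rw [e, abs_mul, abs_of_pos (by positivity)]
  calc 1 / (b : ℝ) * |∑ x : Fin b, (g (X (i * b + c)) (Y (i * b + c)) -
        g (X (i * b + x)) (Y (i * b + x)))| ≤ 1 / (b : ℝ) * ∑ _x : Fin b, L * D := by
        refine mul_le_mul_of_nonneg_left ?_ (by positivity)
        refine (abs_sum_le_sum_abs _ _).trans (sum_le_sum fun x _ => ?_)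
        refine (hg _ _ _ _).trans (mul_le_mul_of_nonneg_left ?_ hL)
        have b1 : ∀ c : Fin b, i * b ≤ i * b + c ∧ i * b + (c : ℕ) ≤ (i + 1) * b := by
          intro c
          have := c.isLt
          constructor
          · omega
          · rw [add_mul, one_mul]
            omega
        have x1 := hX (b1 c).1
        have x2 := hX (b1 c).2
        have x3 := hX (b1 x).1
        have x4 := hX (b1 x).2
        have y1 := hY (b1 c).1
        have y2 := hY (b1 c).2
        have y3 := hY (b1 x).1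
        have y4 := hY (b1 x).2
        have z1 : |X (i * b + c) - X (i * b + x)| ≤ X ((i + 1) * b) - X (i * b) := by
          rw [abs_le]
          constructor <;> linarith
        have z2 : |Y (i * b + c) - Y (i * b + x)| ≤ Y (i * b) - Y ((i + 1) * b) := by
          rw [abs_le]
          constructor <;> linarith
        exact add_le_add z1 z2
    _ = L * D := by
        rw [sum_const, card_univ, Fintype.card_fin, nsmul_eq_mul]
        field_simp

theorem quant (g : ℝ → ℝ → ℝ) (L : ℝ) (hL : 0 ≤ L)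
    (hg : ∀ x y x' y', |g x y - g x' y'| ≤ L * (|x - x'| + |y - y'|)) (X Y : ℕ → ℝ)
    (hX : Monotone X) (hY : Antitone Y) (hX1 : ∀ n, 0 ≤ X n ∧ X n ≤ 1)
    (hY1 : ∀ n, 0 ≤ Y n ∧ Y n ≤ 1) (K b : ℕ) (hK : 0 < K) (hb : 0 < b) (c : Fin K → Fin b) :
    |(1 / (K : ℝ)) * ∑ i : Fin K, g (X (i * b + c i)) (Y (i * b + c i)) -
      (1 / ((K * b : ℕ) : ℝ)) * ∑ i : Fin K, ∑ x : Fin b, g (X (i * b + x)) (Y (i * b + x))| ≤
      2 * L / K := by
  have hb0 : (0 : ℝ) < b := by exact_mod_cast hb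
  have hK0 : (0 : ℝ) < K := by exact_mod_cast hK
  have e : (1 / (K : ℝ)) * ∑ i : Fin K, g (X (i * b + c i)) (Y (i * b + c i)) -
      (1 / ((K * b : ℕ) : ℝ)) * ∑ i : Fin K, ∑ x : Fin b, g (X (i * b + x)) (Y (i * b + x)) =
      (1 / (K : ℝ)) * ∑ i : Fin K, (g (X (i * b + c i)) (Y (i * b + c i)) -
        (1 / (b : ℝ)) * ∑ x : Fin b, g (X (i * b + x)) (Y (i * b + x))) := by
    rw [sum_sub_distrib, ← mul_sum]
    push_cast
    field_simp
  rw [e, abs_mul, abs_of_pos (by positivity)]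
  have h1 : |∑ i : Fin K, (g (X (i * b + c i)) (Y (i * b + c i)) -
        (1 / (b : ℝ)) * ∑ x : Fin b, g (X (i * b + x)) (Y (i * b + x)))| ≤ 2 * L := by
    refine (abs_sum_le_sum_abs _ _).trans ?_
    refine (sum_le_sum fun (i : Fin K) _ =>
      quant_one g L hL hg X Y hX hY b (i : ℕ) hb (c i)).trans ?_
    rw [← mul_sum, sum_add_distrib]
    have s1 : ∑ i : Fin K, (X (((i : ℕ) + 1) * b) - X (i * b)) = X (K * b) - X (0 * b) := by
      rw [Fin.sum_univ_eq_sum_range (fun i => X ((i + 1) * b) - X (i * b)) K]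
      exact sum_range_sub (fun i => X (i * b)) K
    have s2 : ∑ i : Fin K, (Y (i * b) - Y (((i : ℕ) + 1) * b)) = Y (0 * b) - Y (K * b) := by
      rw [Fin.sum_univ_eq_sum_range (fun i => Y (i * b) - Y ((i + 1) * b)) K]
      exact sum_range_sub' (fun i => Y (i * b)) K
    rw [s1, s2]
    have a1 := hX1 (K * b)
    have a2 := hX1 (0 * b)
    have a3 := hY1 (K * b)
    have a4 := hY1 (0 * b)
    have : (X (K * b) - X (0 * b)) + (Y (0 * b) - Y (K * b)) ≤ 2 := by linarith
    nlinarith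
  calc 1 / (K : ℝ) * _ ≤ 1 / (K : ℝ) * (2 * L) := mul_le_mul_of_nonneg_left h1 (by positivity)
    _ = _ := by ring

/-- the points which are left over -/
theorem leftover (A B M : ℝ) (N c : ℕ) (hN : 0 < N) (hA : |A| ≤ M * N) (hB : |B| ≤ M * c) :
    |(1 / (N : ℝ)) * A - (1 / ((N + c : ℕ) : ℝ)) * (A + B)| ≤ 2 * M * c / ((N + c : ℕ) : ℝ) := by
  have hN0 : (0 : ℝ) < N := by exact_mod_cast hN
  have hr0 : (0 : ℝ) < ((N + c : ℕ) : ℝ) := by positivity
  have e : (1 / (N : ℝ)) * A - (1 / ((N + c : ℕ) : ℝ)) * (A + B) =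
      (A * (c / N) - B) / ((N + c : ℕ) : ℝ) := by
    push_cast
    field_simp
    ring
  rw [e, abs_div, abs_of_pos hr0]
  refine div_le_div_of_nonneg_right ?_ hr0.le
  refine (abs_sub _ _).trans ?_
  rw [abs_mul, abs_of_nonneg (by positivity : (0 : ℝ) ≤ c / N)]
  have h1 : |A| * (c / N) ≤ M * c := by
    calc |A| * (c / N) ≤ (M * N) * (c / N) := mul_le_mul_of_nonneg_right hA (by positivity)
      _ = M * c := by field_simp
  linarith

end Pool.Agent.Zk91.KB
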