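import Pool.Agent.Zk91.KB.Blk
import Pool.Agent.Zk91.KB.Quant

/-!
# Lattice points on an ellipse
-/

set_option autoImplicit false

open Finset

namespace Pool.Agent.Zk91.KB

/-- `S` is the set of the points with positive integer coordinates on the ellipse -/
def OnE (α β lam : ℝ) (S : Finset (ℕ × ℕ)) : Prop :=
  ∀ p : ℕ × ℕ, p ∈ S ↔ 0 < p.1 ∧ 0 < p.2 ∧ (α * p.1) ^ 2 + (β * p.2) ^ 2 = lam

variable {α β lam : ℝ} {S : Finset (ℕ × ℕ)}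

theorem OnE.inj (hS : OnE α β lam S) (hβ : 0 < β) (p : ℕ × ℕ) (hp : p ∈ S) (q : ℕ × ℕ)
    (hq : q ∈ S) (h : p.1 = q.1) : p = q := by
  have h1 := ((hS p).1 hp).2.2
  have h2 := ((hS q).1 hq).2.2
  rw [h] at h1
  have h3 : (β * p.2) ^ 2 = (β * q.2) ^ 2 := by linarith
  have h4 : β * (p.2 : ℝ) = β * q.2 := by
    rwa [sq_eq_sq₀ (by positivity) (by positivity)] at h3
  have h5 : (p.2 : ℝ) = q.2 := mul_left_cancel₀ hβ.ne' h4
  exact Prod.ext h (by exact_mod_cast h5)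

theorem OnE.anti (hS : OnE α β lam S) (hα : 0 < α) (hβ : 0 < β) (p : ℕ × ℕ) (hp : p ∈ S)
    (q : ℕ × ℕ) (hq : q ∈ S) (h : p.1 ≤ q.1) : q.2 ≤ p.2 := by
  have h1 := ((hS p).1 hp).2.2
  have h2 := ((hS q).1 hq).2.2
  have h3 : (p.1 : ℝ) ≤ q.1 := by exact_mod_cast h
  by_contra h4
  push Not at h4
  have h5 : (p.2 : ℝ) < q.2 := by exact_mod_cast h4
  have h6 : α * (p.1 : ℝ) ≤ α * q.1 := mul_le_mul_of_nonneg_left h3 hα.le
  have h7 : β * (p.2 : ℝ) < β * q.2 := mul_lt_mul_of_pos_left h5 hβ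
  have h8 : 0 ≤ α * (p.1 : ℝ) := by positivity
  have h9 : 0 ≤ β * (p.2 : ℝ) := by positivity
  nlinarith

theorem OnE.two (hS : OnE α β lam S) (hα : 0 < α) (hβ : 0 < β) (g : ℤ × ℤ) (hg : g ≠ 0) (v : ℤ)
    (p q r : ℕ × ℕ) (hp : p ∈ S) (hq : q ∈ S) (hr : r ∈ S) (hpq : p.1 ≠ q.1) (hpr : p.1 ≠ r.1)
    (hqr : q.1 ≠ r.1) (vp : g.1 * (p.1 : ℤ) + g.2 * (p.2 : ℤ) = v)
    (vq : g.1 * (q.1 : ℤ) + g.2 * (q.2 : ℤ) = v) (vr : g.1 * (r.1 : ℤ) + g.2 * (r.2 : ℤ) = v) :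
    False := by
  have key : ∀ p : ℕ × ℕ, p ∈ S → g.1 * (p.1 : ℤ) + g.2 * (p.2 : ℤ) = v →
      (α ^ 2 * (g.2 : ℝ) ^ 2 + β ^ 2 * (g.1 : ℝ) ^ 2) * (p.1 : ℝ) ^ 2 -
        2 * β ^ 2 * v * g.1 * p.1 + (β ^ 2 * (v : ℝ) ^ 2 - lam * (g.2 : ℝ) ^ 2) = 0 := by
    intro p hp hv
    have h1 := ((hS p).1 hp).2.2
    have h2 : (g.1 : ℝ) * p.1 + g.2 * p.2 = v := by exact_mod_cast hv
    have h3 : (g.2 : ℝ) * p.2 = v - g.1 * p.1 := by linarith
    have h4 : (β * ((g.2 : ℝ) * p.2)) ^ 2 = (β * (v - g.1 * p.1)) ^ 2 := by rw [h3]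
    linear_combination (g.2 : ℝ) ^ 2 * h1 - h4
  have kp := key p hp vp
  have kq := key q hq vq
  have kr := key r hr vr
  set A := α ^ 2 * (g.2 : ℝ) ^ 2 + β ^ 2 * (g.1 : ℝ) ^ 2 with hA
  have hA0 : 0 < A := by
    have hg' : (g.1 : ℝ) ≠ 0 ∨ (g.2 : ℝ) ≠ 0 := by
      by_contra h
      push Not at h
      exact hg (Prod.ext (by exact_mod_cast h.1) (by exact_mod_cast h.2))
    rcases hg' with h | h
    · have : 0 < β ^ 2 * (g.1 : ℝ) ^ 2 := by positivity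
      have h2 : 0 ≤ α ^ 2 * (g.2 : ℝ) ^ 2 := by positivity
      linarith
    · have : 0 < α ^ 2 * (g.2 : ℝ) ^ 2 := by positivity
      have h2 : 0 ≤ β ^ 2 * (g.1 : ℝ) ^ 2 := by positivity
      linarith
  have e1 : ((p.1 : ℝ) - q.1) * (A * ((p.1 : ℝ) + q.1) - 2 * β ^ 2 * v * g.1) = 0 := by
    linear_combination kp - kq
  have e2 : ((p.1 : ℝ) - r.1) * (A * ((p.1 : ℝ) + r.1) - 2 * β ^ 2 * v * g.1) = 0 := by
    linear_combination kp - kr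
  have n1 : (p.1 : ℝ) - q.1 ≠ 0 := by
    intro h
    have : (p.1 : ℝ) = q.1 := by linarith
    exact hpq (by exact_mod_cast this)
  have n2 : (p.1 : ℝ) - r.1 ≠ 0 := by
    intro h
    have : (p.1 : ℝ) = r.1 := by linarith
    exact hpr (by exact_mod_cast this)
  have f1 := (mul_eq_zero.1 e1).resolve_left n1
  have f2 := (mul_eq_zero.1 e2).resolve_left n2
  have f3 : A * ((q.1 : ℝ) - r.1) = 0 := by linear_combination f1 - f2
  have f4 := (mul_eq_zero.1 f3).resolve_left hA0.ne'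
  have : (q.1 : ℝ) = r.1 := by linarith
  exact hqr (by exact_mod_cast this)

/-- the enumeration -/
theorem OnE.enum (hS : OnE α β lam S) (hβ : 0 < β) (r : ℕ) (hr : S.card = r) :
    ∃ f : Fin r → ℕ × ℕ, (∀ i, f i ∈ S) ∧ ∀ i j, i < j → (f i).1 < (f j).1 := by
  subst hr
  exact exists_enum S fun p hp q hq h => hS.inj hβ p hp q hq h

/-- the points `ξ i x` -/
theorem OnE.blockTwo (hS : OnE α β lam S) (hα : 0 < α) (hβ : 0 < β) {r : ℕ} (f : Fin r → ℕ × ℕ)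
    (hf : ∀ i, f i ∈ S) (hmono : ∀ i j, i < j → (f i).1 < (f j).1) {K b : ℕ}
    (e : Fin K → Fin b → Fin r) (he : ∀ i, Function.Injective (e i)) :
    Two fun (i : Fin K) (x : Fin b) => (((f (e i x)).1 : ℤ), ((f (e i x)).2 : ℤ)) := by
  classical
  intro i g v hg
  by_contra hlt
  push Not at hlt
  obtain ⟨x, hx, y, hy, z, hz, hxy, hxz, hyz⟩ := two_lt_card.1 hlt
  have hinj : ∀ u v : Fin r, u ≠ v → (f u).1 ≠ (f v).1 := by
    intro u v huv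
    rcases lt_or_gt_of_ne huv with h | h
    · exact (hmono u v h).ne
    · exact (hmono v u h).ne'
  have hne : ∀ x y : Fin b, x ≠ y → (f (e i x)).1 ≠ (f (e i y)).1 := fun x y h =>
    hinj _ _ fun h' => h (he i h')
  exact hS.two hα hβ g hg v _ _ _ (hf _) (hf _) (hf _) (hne x y hxy) (hne x z hxz) (hne y z hyz)
    (mem_filter.1 hx).2 (mem_filter.1 hy).2 (mem_filter.1 hz).2

end Pool.Agent.Zk91.KB
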