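import Mathlib

/-!
# The orthogonal matrix of the blocks
-/

set_option autoImplicit false

open Finset

namespace Pool.Agent.Zk91.KB

variable {K b c : ℕ} [NeZero b]

/-- the matrix of the blocks -/
noncomputable def MM (H : Fin K → Fin K → ℝ) (s : Fin K → Fin b) :
    ((Fin K × Fin b) ⊕ Fin c) → ((Fin K × Fin b) ⊕ Fin c) → ℝ
  | Sum.inl a, Sum.inl n => if n.2 = a.2 + s n.1 then H a.1 n.1 / √(K : ℝ) else 0
  | Sum.inl _, Sum.inr _ => 0
  | Sum.inr _, Sum.inl _ => 0
  | Sum.inr a, Sum.inr n => if a = n then 1 else 0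

theorem MM_inl (H : Fin K → Fin K → ℝ) (s : Fin K → Fin b) (a : Fin K × Fin b)
    (F : ((Fin K × Fin b) ⊕ Fin c) → ℝ) :
    ∑ n, MM (c := c) H s (Sum.inl a) n * F n =
      ∑ i, H a.1 i / √(K : ℝ) * F (Sum.inl (i, a.2 + s i)) := by
  rw [Fintype.sum_sum_type, Fintype.sum_prod_type]
  simp only [MM, zero_mul, sum_const_zero, add_zero]
  refine sum_congr rfl fun i _ => ?_
  rw [sum_eq_single (a.2 + s i)]
  · rw [if_pos rfl]
  · intro x _ hx
    rw [if_neg hx, zero_mul]
  · intro h
    exact absurd (mem_univ _) h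

theorem MM_inr (H : Fin K → Fin K → ℝ) (s : Fin K → Fin b) (a : Fin c)
    (F : ((Fin K × Fin b) ⊕ Fin c) → ℝ) :
    ∑ n, MM (c := c) H s (Sum.inr a) n * F n = F (Sum.inr a) := by
  rw [Fintype.sum_sum_type]
  simp only [MM, zero_mul, sum_const_zero, zero_add]
  rw [sum_eq_single a]
  · rw [if_pos rfl, one_mul]
  · intro x _ hx
    rw [if_neg (Ne.symm hx), zero_mul]
  · intro h
    exact absurd (mem_univ _) h

theorem MM_orth (hK : 0 < K) (H : Fin K → Fin K → ℝ)
    (hH : ∀ i i', ∑ j, H i j * H i' j = if i = i' then (K : ℝ) else 0) (s : Fin K → Fin b)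
    (a a' : (Fin K × Fin b) ⊕ Fin c) :
    ∑ n, MM (c := c) H s a n * MM H s a' n = if a = a' then 1 else 0 := by
  have hK0 : (0 : ℝ) < K := by exact_mod_cast hK
  have hs : √(K : ℝ) * √(K : ℝ) = K := Real.mul_self_sqrt hK0.le
  rcases a with a | a
  · rw [MM_inl]
    rcases a' with a' | a'
    · simp only [MM]
      by_cases h2 : a.2 = a'.2
      · have e : ∀ i, H a.1 i / √(K : ℝ) * (if a.2 + s i = a'.2 + s i then
            H a'.1 i / √(K : ℝ) else 0) = (H a.1 i * H a'.1 i) / K := by
          intro i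
          rw [if_pos (by rw [h2]), div_mul_div_comm, hs]
        simp only [e]
        rw [← sum_div, hH]
        by_cases h1 : a.1 = a'.1
        · rw [if_pos h1, if_pos (by rw [Prod.ext h1 h2]), div_self hK0.ne']
        · rw [if_neg h1, zero_div, if_neg]
          intro h
          exact h1 (by rw [Sum.inl.inj h])
      · have e : ∀ i, H a.1 i / √(K : ℝ) * (if a.2 + s i = a'.2 + s i then
            H a'.1 i / √(K : ℝ) else 0) = 0 := by
          intro i
          rw [if_neg (fun h => h2 (add_right_cancel h)), mul_zero]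
        simp only [e, sum_const_zero]
        rw [if_neg]
        intro h
        exact h2 (by rw [Sum.inl.inj h])
    · simp only [MM, mul_zero, sum_const_zero]
      rw [if_neg (by simp)]
  · rw [MM_inr]
    rcases a' with a' | a'
    · simp only [MM]
      rw [if_neg (by simp)]
    · simp only [MM]
      by_cases h : a = a'
      · subst h
        simp
      · rw [if_neg (fun h' => h h'.symm), if_neg (fun h' => h (Sum.inr.inj h'))]

/-- transport of an orthogonal matrix to a finite set -/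
theorem transport {ι X : Type*} [Fintype ι] [DecidableEq ι] [DecidableEq X] (S : Finset X)
    (e : ι ≃ {p // p ∈ S}) (M : ι → ι → ℝ)
    (hM : ∀ a a', ∑ n, M a n * M a' n = if a = a' then 1 else 0) :
    ∃ O : X → X → ℝ, (∀ p ∈ S, ∀ p' ∈ S, ∑ q ∈ S, O p q * O p' q = if p = p' then 1 else 0) ∧
      ∀ (a : ι) (F : X → ℝ), ∑ q ∈ S, O (e a) q * F q = ∑ n, M a n * F (e n) := by
  set O : X → X → ℝ := fun p q => if h : p ∈ S ∧ q ∈ S then
    M (e.symm ⟨p, h.1⟩) (e.symm ⟨q, h.2⟩) else 0 with hO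
  have hval : ∀ a n : ι, O (e a) (e n) = M a n := by
    intro a n
    simp only [hO]
    rw [dif_pos ⟨(e a).2, (e n).2⟩]
    simp
  have hsum : ∀ G : X → ℝ, ∑ q ∈ S, G q = ∑ n, G (e n) := by
    intro G
    rw [← sum_coe_sort, ← e.sum_comp]
  refine ⟨O, fun p hp p' hp' => ?_, fun a F => ?_⟩
  · obtain ⟨a, ha⟩ := e.surjective ⟨p, hp⟩
    obtain ⟨a', ha'⟩ := e.surjective ⟨p', hp'⟩
    have e1 : p = e a := by rw [ha]
    have e2 : p' = e a' := by rw [ha']
    rw [hsum, e1, e2]
    simp only [hval]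
    rw [hM]
    by_cases h : a = a'
    · subst h
      simp
    · rw [if_neg h, if_neg]
      intro h'
      exact h (e.injective (Subtype.ext h'))
  · rw [hsum]
    simp only [hval]

end Pool.Agent.Zk91.KB
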