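import Pool.Agent.Zk91.KB.Sqr

/-!
# The law at a mirror
-/

set_option autoImplicit false

open Filter Topology Real MeasureTheory Set ProbabilityTheory
open scoped ContDiff

namespace Pool.Agent.Zk91.KB

open Pool.Agent.Zk60.BW (TT TT_nonneg GG)
open Pool.Agent.N661.BR (J0)

variable {ν k n : ℕ}

theorem int_sqr_real (f : ℝ → ℝ) (h y0 : ℝ) (hh : 0 < h) :
    ∫ z in Sqr h y0, f z.im = h * ∫ y in y0..(y0 + h), f y := by
  have h1 := int_sqr (fun y => ((f y : ℝ) : ℂ)) h y0 hh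
  rw [integral_complex_ofReal, intervalIntegral.integral_ofReal] at h1
  exact_mod_cast h1

/-- the frozen phases -/
noncomputable def Kal.fz (K : Kal ν) (d : Num K.D (K.B + K.B) n) (R : ℕ) (x0 : ℝ)
    (i : Fin (n + 1)) : ℝ × ℝ := (K.a * R * d.l i * x0, K.a * R * d.m i * x0)

theorem Kal.frozen_comb (K : Kal ν) (d : Num K.D (K.B + K.B) n) (R : ℕ) (hR : 0 < R) (φ : ℝ)
    (w : Fin k → ℂ) (t : Fin k → ℝ) (x0 : ℝ) (z : ℂ) :
    SS (K.GM d w t φ (K.fz d R x0)) (Ph (K.a * R) (K.b * R) d.l d.m z) =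
      ∑ j, t j * K.u d R φ ((x0 : ℂ) + (z.im : ℂ) * Complex.I + w j / ((√(K.lam d R) : ℝ) : ℂ)) := by
  rw [K.comb d R hR φ w t]
  unfold SS Kal.GM
  congr 1
  refine Finset.sum_congr rfl fun i _ => ?_
  congr 1
  unfold Ph Kal.fz
  simp

theorem Kal.fz_pi (K : Kal ν) (d : Num K.D (K.B + K.B) n) (R : ℕ) (s : ℝ) (hs : K.a * s = π)
    (j : ℤ) (i : Fin (n + 1)) (ρ : Fin ν) :
    ∃ N : ℤ, ln (K.g ρ) (K.fz d R (j * s) i) = N * π := by
  refine ⟨R * ((K.g ρ).1 * d.l i + (K.g ρ).2 * d.m i) * j, ?_⟩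
  unfold ln Kal.fz
  rw [← hs]
  push_cast
  ring

theorem tendsto_errsq (T : ℝ) : Tendsto (fun n : ℕ => (√((n + 1 : ℕ) : ℝ) * T) ^ 2 *
    Real.exp (-((n + 1 : ℕ) : ℝ))) atTop (𝓝 0) := by
  have h0 : Tendsto (fun n : ℕ => (2 * T ^ 2) * (Real.exp (√((n + 1 : ℕ) : ℝ) * 1) *
      Real.exp (-((n + 1 : ℕ) : ℝ)))) atTop (𝓝 0) := by
    simpa using (tendsto_exp_sqrt 1).const_mul (2 * T ^ 2)
  refine squeeze_zero (fun n => by positivity) (fun n => ?_) h0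
  have h5 := Real.pow_div_factorial_le_exp (√((n + 1 : ℕ) : ℝ)) (Real.sqrt_nonneg _) 2
  have h6 : ((2 : ℕ).factorial : ℝ) = 2 := by norm_num [Nat.factorial]
  rw [h6] at h5
  have h7 := Real.exp_pos (-((n + 1 : ℕ) : ℝ))
  have e : (√((n + 1 : ℕ) : ℝ) * T) ^ 2 * Real.exp (-((n + 1 : ℕ) : ℝ)) =
      (2 * T ^ 2) * ((√((n + 1 : ℕ) : ℝ) ^ 2 / 2) * Real.exp (-((n + 1 : ℕ) : ℝ))) := by ring
  rw [e, mul_one]
  exact mul_le_mul_of_nonneg_left (mul_le_mul_of_nonneg_right h5 h7.le) (by positivity)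

theorem tendsto_const_div_succ' (C : ℝ) :
    Tendsto (fun n : ℕ => C / ((n + 1 : ℕ) : ℝ)) atTop (𝓝 0) := by
  have := tendsto_inv_succ.const_mul C
  rw [mul_zero] at this
  exact this.congr fun n => by ring

theorem TT_le' (t : Fin k → ℝ) (ρ : ℝ) (ht : ∀ j, |t j| ≤ ρ) : TT t ≤ k * |ρ| := by
  unfold TT
  calc ∑ j, |t j| ≤ ∑ _j : Fin k, |ρ| := Finset.sum_le_sum fun j _ => (ht j).trans (le_abs_self ρ)
    _ = k * |ρ| := by simp

theorem bnd (ν k : ℕ) (ρ ε : ℝ) (hε : 0 < ε) : ∀ᶠ n : ℕ in atTop, ∀ (K : Kal ν) (_ : Vec' K.g')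
    (d : Num K.D (K.B + K.B) n) (R : ℕ), 0 < R → ∀ P : ℝ,
    8 * (K.c * d.N / K.a) * Real.exp ((n + 1 : ℕ) : ℝ) ≤ P →
    8 * (K.c * d.N / K.b) * Real.exp ((n + 1 : ℕ) : ℝ) ≤ P →
    ∀ φ, sin (2 * φ) = 0 → ∀ s, K.a * s = π → ∀ (j : ℤ) (y0 h : ℝ), 0 < h →
    P ≤ √(K.lam d R) * h →
    ∀ (w : Fin k → ℂ) (t : Fin k → ℝ), (∀ i, ‖w i‖ ≤ ρ) → (∀ i, |t i| ≤ ρ) →
      |1 / h * (∫ y in y0..(y0 + h), (∑ i, t i * K.u d R φ (((j * s : ℝ) : ℂ) + (y : ℂ) * Complex.I +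
        w i / ((√(K.lam d R) : ℝ) : ℂ))) ^ 2) - QB w t (cos (2 * φ))| ≤ ε ∧
      ‖((1 / h : ℝ) : ℂ) * (∫ y in y0..(y0 + h), Complex.exp (((∑ i, t i *
        K.u d R φ (((j * s : ℝ) : ℂ) + (y : ℂ) * Complex.I +
        w i / ((√(K.lam d R) : ℝ) : ℂ)) : ℝ) : ℂ) * Complex.I)) -
        ((Real.exp (-(QB w t (cos (2 * φ))) / 2) : ℝ) : ℂ)‖ ≤ ε := by
  set T : ℝ := 2 * √ν * (k * |ρ|) with hT
  have hT0 : 0 ≤ T := by positivity
  set C0 : ℝ := (k : ℝ) ^ 2 * (ρ ^ 2 * (8 * ρ * (2 + π))) with hC0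
  have hlim : Tendsto (fun n : ℕ => err T n + C0 / ((n + 1 : ℕ) : ℝ) / 2) atTop (𝓝 0) := by
    simpa using (tendsto_err1 T).add ((tendsto_const_div_succ' C0).div_const 2)
  have hlim2 : Tendsto (fun n : ℕ => (√((n + 1 : ℕ) : ℝ) * T) ^ 2 *
      Real.exp (-((n + 1 : ℕ) : ℝ)) + C0 / ((n + 1 : ℕ) : ℝ)) atTop (𝓝 0) := by
    simpa using (tendsto_errsq T).add (tendsto_const_div_succ' C0)
  obtain ⟨n0, hn0⟩ := exists_nat_ge (4 * T ^ 2)
  filter_upwards [eventually_ge_atTop n0, hlim.eventually (ge_mem_nhds hε),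
    hlim2.eventually (ge_mem_nhds hε)] with n hn hsmall hsmall2
  intro K hv d R hR P biga bigb φ hφ s hs j y0 h hh hP w t hw ht
  have hTn : 4 * T ^ 2 ≤ ((n + 1 : ℕ) : ℝ) := by
    refine hn0.trans ?_
    exact_mod_cast (by omega : n0 ≤ n + 1)
  have hTle : 2 * √ν * TT t ≤ T := mul_le_mul_of_nonneg_left (TT_le' t ρ ht) (by positivity)
  have hfin : IsFiniteMeasure (volume.restrict (Sqr h y0)) :=
    fin_restrict (sqr_bdd h y0).measure_lt_top.ne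
  have hvol := vol_sqr h y0 hh
  have hmr : (volume.restrict (Sqr h y0)).real univ = h * h := by
    rw [measureReal_restrict_apply_univ, hvol]
  have ha := K.ha
  have hb := K.hb
  have hc := K.hc
  have hN := d.N_pos
  have hP0 : 0 ≤ P := le_trans (by positivity) biga
  have hδ : ∀ A B : ℤ, ¬ (A = 0 ∧ B = 0) →
      ‖∫ z in Sqr h y0, Complex.exp ((((K.a * R) * A * z.re + (K.b * R) * B * z.im : ℝ) : ℂ) *
        Complex.I)‖ ≤ (volume.restrict (Sqr h y0)).real univ * Real.exp (-((n + 1 : ℕ) : ℝ)) := by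
    intro A B hAB
    rw [hmr, ← hvol]
    refine osc_window K d R hR (P / 2) (by linarith) (by linarith) _ (sqr_convex h y0)
      (sqr_bdd h y0) ?_ (sqr_meas h y0) A B hAB
    rw [hvol]
    calc P / 2 * Metric.diam (Sqr h y0) ≤ P / 2 * (2 * h) :=
          mul_le_mul_of_nonneg_left (sqr_diam h y0 hh) (by positivity)
      _ = P * h := by ring
      _ ≤ (√(K.lam d R) * h) * h := mul_le_mul_of_nonneg_right hP hh.le
      _ = _ := by ring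
  have hI := (K.indM hv d w t φ hφ (K.fz d R (j * s)) (K.fz_pi d R s hs j)).weaken hTle
  have hG := fun i => (K.tbM d w t φ (K.fz d R (j * s)) i).mono le_rfl hTle
  have hVpos : 0 < (volume.restrict (Sqr h y0)).real univ := by
    rw [hmr]
    positivity
  have c1 := win d R (volume.restrict (Sqr h y0)) hVpos hδ hI hT0 hTn hG
  have c1' := win_sq d R (volume.restrict (Sqr h y0)) hVpos hδ hI hG
  simp only [K.frozen_comb d R hR φ w t] at c1 c1'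
  have c2 := K.ave_VB d w t (cos (2 * φ)) (abs_cos_two_le φ) ρ hw ht
  have c4 := exp_sub_le _ _ (K.VB_nonneg hv d w t φ hφ) (K.QB_nonneg hv w t φ hφ)
  set W := (1 / ((n + 1 : ℕ) : ℝ)) * ∑ i, (1 / (ν : ℝ)) *
    ∑ σ, VB w t (cos (2 * φ)) (K.X d i σ) (K.Y d i σ) with hW
  constructor
  · rw [int_sqr_real (fun y => (∑ i, t i * K.u d R φ (((j * s : ℝ) : ℂ) + (y : ℂ) * Complex.I +
        w i / ((√(K.lam d R) : ℝ) : ℂ))) ^ 2) h y0 hh, hmr] at c1'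
    set E1 := ∫ y in y0..(y0 + h), (∑ i, t i * K.u d R φ (((j * s : ℝ) : ℂ) +
      (y : ℂ) * Complex.I + w i / ((√(K.lam d R) : ℝ) : ℂ))) ^ 2
    have e1 : 1 / (h * h) * (h * E1) = 1 / h * E1 := by
      field_simp
    rw [e1] at c1'
    have h3 := abs_sub_le (1 / h * E1) W (QB w t (cos (2 * φ)))
    exact h3.trans ((add_le_add c1' c2).trans hsmall2)
  · rw [int_sqr (fun y => Complex.exp (((∑ i, t i *
        K.u d R φ (((j * s : ℝ) : ℂ) + (y : ℂ) * Complex.I +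
        w i / ((√(K.lam d R) : ℝ) : ℂ)) : ℝ) : ℂ) * Complex.I)) h y0 hh, hmr] at c1
    set E1 := ∫ y in y0..(y0 + h), Complex.exp (((∑ i, t i *
        K.u d R φ (((j * s : ℝ) : ℂ) + (y : ℂ) * Complex.I +
        w i / ((√(K.lam d R) : ℝ) : ℂ)) : ℝ) : ℂ) * Complex.I)
    have hhC : (h : ℂ) ≠ 0 := by exact_mod_cast hh.ne'
    have e1 : ((1 / (h * h) : ℝ) : ℂ) * ((h : ℂ) * E1) = ((1 / h : ℝ) : ℂ) * E1 := by
      push_cast
      field_simp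
    rw [e1] at c1
    have e : ((1 / h : ℝ) : ℂ) * E1 - ((Real.exp (-(QB w t (cos (2 * φ))) / 2) : ℝ) : ℂ) =
        (((1 / h : ℝ) : ℂ) * E1 - ((Real.exp (-W / 2) : ℝ) : ℂ)) + (((Real.exp (-W / 2) : ℝ) : ℂ) -
          ((Real.exp (-(QB w t (cos (2 * φ))) / 2) : ℝ) : ℂ)) := by ring
    rw [e]
    refine (norm_add_le _ _).trans ((add_le_add c1 c4).trans ?_)
    exact le_trans (add_le_add le_rfl (div_le_div_of_nonneg_right c2 (by norm_num))) hsmall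

end Pool.Agent.Zk91.KB
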