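import Pool.Agent.Zk91.KB.Win

/-!
# The law of the eigenfunctions in small windows
-/

set_option autoImplicit false

open Filter Topology Real MeasureTheory Set ProbabilityTheory
open scoped ContDiff

namespace Pool.Agent.Zk91.KB

open Pool.Agent.Zk60.BW (TT TT_nonneg VV VV_le QQ QQ_nonneg)
open Pool.Agent.N661.BR (J0)

variable {ν : ℕ} {K : Kal ν} {k : ℕ} {ψ : ℝ → ℝ}

theorem TT_le (t : Fin k → ℝ) (ρ : ℝ) (ht : ∀ j, |t j| ≤ ρ) : TT t ≤ k * |ρ| := by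
  unfold TT
  calc ∑ j, |t j| ≤ ∑ _j : Fin k, |ρ| := Finset.sum_le_sum fun j _ => (ht j).trans (le_abs_self ρ)
    _ = k * |ρ| := by simp

theorem VV_ave_nonneg {n : ℕ} (d : Num K.D (K.B + K.B) n) (w : Fin k → ℂ) (t : Fin k → ℝ) :
    0 ≤ (1 / ((n + 1 : ℕ) : ℝ)) * ∑ i, (1 / (ν : ℝ)) * ∑ ρ, VV w t (K.X d i ρ) (K.Y d i ρ) :=
  mul_nonneg (by positivity) (Finset.sum_nonneg fun i _ => mul_nonneg (by positivity)
    (Finset.sum_nonneg fun ρ _ => (VV_le w t _ _).1))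

theorem Sc.psi_nonneg (s : Sc K ψ) (n : ℕ) : 0 ≤ ψ (K.lam (s.d n) (s.R n)) := by
  have hN := (s.d n).N_pos
  have ha := K.ha
  have hc := K.hc
  exact le_trans (by positivity) (s.biga n)

theorem tendsto_const_div_succ (C : ℝ) :
    Tendsto (fun n : ℕ => C / ((n + 1 : ℕ) : ℝ)) atTop (𝓝 0) := by
  have := tendsto_inv_succ.const_mul C
  rw [mul_zero] at this
  exact this.congr fun n => by ring

theorem Sc.char_meas (s : Sc K ψ) (φ : ℝ) (k : ℕ) (ρ ε : ℝ) (hε : 0 < ε) :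
    ∀ᶠ n in atTop, ∀ (w : Fin k → ℂ) (t : Fin k → ℝ), (∀ j, ‖w j‖ ≤ ρ) → (∀ j, |t j| ≤ ρ) →
      ∀ C : Set ℂ, MeasurableSet C → Window ψ (K.lam (s.d n) (s.R n)) C →
        ‖((1 / volume.real C : ℝ) : ℂ) * (∫ z in C, Complex.exp (((∑ j, t j *
          K.u (s.d n) (s.R n) φ (z + w j / ((√(K.lam (s.d n) (s.R n)) : ℝ) : ℂ)) : ℝ) : ℂ) *
          Complex.I)) - ((Real.exp (-(QQ w t) / 2) : ℝ) : ℂ)‖ ≤ ε := by
  set T : ℝ := 2 * √ν * (k * |ρ|) with hT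
  have hT0 : 0 ≤ T := by positivity
  set C0 : ℝ := (k : ℝ) ^ 2 * (ρ ^ 2 * (4 * ρ * (2 + π))) with hC0
  have hlim : Tendsto (fun n : ℕ => err T n + C0 / ((n + 1 : ℕ) : ℝ) / 2) atTop (𝓝 0) := by
    simpa using (tendsto_err1 T).add ((tendsto_const_div_succ C0).div_const 2)
  obtain ⟨n0, hn0⟩ := exists_nat_ge (4 * T ^ 2)
  filter_upwards [eventually_ge_atTop n0, hlim.eventually (ge_mem_nhds hε)] with n hn hsmall
  intro w t hw ht C hm hC
  have hTn : 4 * T ^ 2 ≤ ((n + 1 : ℕ) : ℝ) := by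
    refine hn0.trans ?_
    exact_mod_cast (by omega : n0 ≤ n + 1)
  have hTle : 2 * √ν * TT t ≤ T := mul_le_mul_of_nonneg_left (TT_le t ρ ht) (by positivity)
  have hfin : IsFiniteMeasure (volume.restrict C) := fin_restrict hC.2.1.measure_lt_top.ne
  have hmr : (volume.restrict C).real univ = volume.real C := by
    rw [measureReal_restrict_apply_univ]
  have hI := (K.ind (s.d n) w t φ).weaken hTle
  have c1 := win (s.d n) (s.R n) (volume.restrict C) (by rw [hmr]; exact hC.2.2.1)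
    (fun A B hAB => by rw [hmr]; exact s.osc n C hC hm A B hAB) hI hT0 hTn
    (fun i => (K.tb (s.d n) w t φ i).mono le_rfl hTle)
  rw [hmr] at c1
  have c2 := K.ave' w t n (s.d n)
  have c3 : aveC w t / ((n + 1 : ℕ) : ℝ) ≤ C0 / ((n + 1 : ℕ) : ℝ) :=
    div_le_div_of_nonneg_right (aveC_le w t ρ hw ht) (by positivity)
  have c4 := exp_sub_le _ _ (VV_ave_nonneg (s.d n) w t) (QQ_nonneg w t)
  simp only [K.comb (s.d n) (s.R n) (s.pos n) φ w t]
  set A1 := ((1 / volume.real C : ℝ) : ℂ) * ∫ z in C, Complex.exp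
      ((SS (K.G (s.d n) w t φ) (Ph (K.a * s.R n) (K.b * s.R n) (s.d n).l (s.d n).m z) : ℝ) *
        Complex.I)
  set A2 := ((Real.exp (-((1 / ((n + 1 : ℕ) : ℝ)) * ∑ i, (1 / (ν : ℝ)) *
      ∑ ρ, VV w t (K.X (s.d n) i ρ) (K.Y (s.d n) i ρ)) / 2) : ℝ) : ℂ)
  have e : A1 - ((Real.exp (-(QQ w t) / 2) : ℝ) : ℂ) =
      (A1 - A2) + (A2 - ((Real.exp (-(QQ w t) / 2) : ℝ) : ℂ)) := by ring
  rw [e]
  refine (norm_add_le _ _).trans ((add_le_add c1 c4).trans ?_)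
  refine le_trans (add_le_add le_rfl (div_le_div_of_nonneg_right (c2.trans c3) (by norm_num)))
    hsmall

theorem Sc.sq_meas (s : Sc K ψ) (φ : ℝ) (ε : ℝ) (hε : 0 < ε) :
    ∀ᶠ n in atTop, ∀ C : Set ℂ, MeasurableSet C → Window ψ (K.lam (s.d n) (s.R n)) C →
      |(1 / volume.real C) * (∫ z in C, K.u (s.d n) (s.R n) φ z ^ 2) - 1| ≤ ε := by
  have hlim : Tendsto (fun n : ℕ => (4 * (2 * √(ν : ℝ)) ^ 2) * (Real.exp (√((n + 1 : ℕ) : ℝ) * 1) *
      Real.exp (-((n + 1 : ℕ) : ℝ)))) atTop (𝓝 0) := by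
    simpa using (tendsto_exp_sqrt 1).const_mul (4 * (2 * √(ν : ℝ)) ^ 2)
  filter_upwards [hlim.eventually (ge_mem_nhds hε)] with n hsmall
  intro C hm hC
  have hfin : IsFiniteMeasure (volume.restrict C) := fin_restrict hC.2.1.measure_lt_top.ne
  have hmr : (volume.restrict C).real univ = volume.real C := by
    rw [measureReal_restrict_apply_univ]
  have hI := K.ind (s.d n) (fun _ : Fin 1 => (0 : ℂ)) (fun _ => 1) φ
  have hG := fun i => K.tb (s.d n) (fun _ : Fin 1 => (0 : ℂ)) (fun _ => 1) φ i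
  rw [TT_one, mul_one] at hI
  simp only [TT_one, mul_one] at hG
  have c1 := win_sq (s.d n) (s.R n) (volume.restrict C) (by rw [hmr]; exact hC.2.2.1)
    (fun A B hAB => by rw [hmr]; exact s.osc n C hC hm A B hAB) hI hG
  have hν : (0 : ℝ) < ν := by exact_mod_cast K.hν
  have e1 : (1 / ((n + 1 : ℕ) : ℝ)) * ∑ i, (1 / (ν : ℝ)) * ∑ ρ, VV (fun _ : Fin 1 => (0 : ℂ))
      (fun _ => 1) (K.X (s.d n) i ρ) (K.Y (s.d n) i ρ) = 1 := by
    simp only [VV_one, Finset.sum_const, Finset.card_univ, Fintype.card_fin, nsmul_eq_mul, mul_one]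
    have : ((n + 1 : ℕ) : ℝ) ≠ 0 := by positivity
    field_simp
  rw [e1, hmr] at c1
  have e2 : ∀ z, K.u (s.d n) (s.R n) φ z = SS (K.G (s.d n) (fun _ : Fin 1 => (0 : ℂ)) (fun _ => 1) φ)
      (Ph (K.a * s.R n) (K.b * s.R n) (s.d n).l (s.d n).m z) := by
    intro z
    have h := K.comb (s.d n) (s.R n) (s.pos n) φ (fun _ : Fin 1 => (0 : ℂ)) (fun _ => 1) z
    simp only [Finset.univ_unique, Finset.sum_singleton, one_mul, zero_div, add_zero] at h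
    exact h
  simp only [e2]
  refine c1.trans (le_trans ?_ hsmall)
  have e : (√((n + 1 : ℕ) : ℝ) * (2 * √ν)) ^ 2 * Real.exp (-((n + 1 : ℕ) : ℝ)) =
      (2 * √ν) ^ 2 * (√((n + 1 : ℕ) : ℝ) ^ 2 * Real.exp (-((n + 1 : ℕ) : ℝ))) := by ring
  have e' : 4 * (2 * √ν) ^ 2 * (Real.exp (√((n + 1 : ℕ) : ℝ) * 1) *
      Real.exp (-((n + 1 : ℕ) : ℝ))) = (2 * √ν) ^ 2 * ((4 * Real.exp (√((n + 1 : ℕ) : ℝ))) *
      Real.exp (-((n + 1 : ℕ) : ℝ))) := by
    rw [mul_one]; ring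
  rw [e, e']
  refine mul_le_mul_of_nonneg_left (mul_le_mul_of_nonneg_right ?_ (Real.exp_pos _).le)
    (by positivity)
  have h5 := Real.pow_div_factorial_le_exp (√((n + 1 : ℕ) : ℝ)) (Real.sqrt_nonneg _) 2
  have h6 : ((2 : ℕ).factorial : ℝ) = 2 := by norm_num [Nat.factorial]
  rw [h6] at h5
  have := Real.exp_pos (√((n + 1 : ℕ) : ℝ))
  linarith

theorem window_interior {lam : ℝ} (h0 : 0 ≤ ψ lam) {C : Set ℂ} (hC : Window ψ lam C) :
    Window ψ lam (interior C) ∧ MeasurableSet (interior C) ∧ interior C =ᵐ[volume] C := by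
  obtain ⟨h1, h2, h3, h4⟩ := hC
  have hae : interior C =ᵐ[volume] C :=
    interior_ae_eq_of_null_frontier (Convex.addHaar_frontier volume h1)
  have hv : volume.real (interior C) = volume.real C := measureReal_congr hae
  refine ⟨⟨h1.interior, h2.subset interior_subset, by rw [hv]; exact h3, ?_⟩,
    isOpen_interior.measurableSet, hae⟩
  rw [hv]
  exact (mul_le_mul_of_nonneg_left (Metric.diam_mono interior_subset h2) h0).trans h4

theorem Sc.char (s : Sc K ψ) (φ : ℝ) (k : ℕ) (ρ ε : ℝ) (hε : 0 < ε) :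
    ∀ᶠ n in atTop, ∀ (w : Fin k → ℂ) (t : Fin k → ℝ), (∀ j, ‖w j‖ ≤ ρ) → (∀ j, |t j| ≤ ρ) →
      ∀ C : Set ℂ, Window ψ (K.lam (s.d n) (s.R n)) C →
        ‖((1 / volume.real C : ℝ) : ℂ) * (∫ z in C, Complex.exp (Complex.I * ((∑ j, t j *
          K.u (s.d n) (s.R n) φ (z + w j / ((√(K.lam (s.d n) (s.R n)) : ℝ) : ℂ)) : ℝ) : ℂ))) -
          ((Real.exp (-(QQ w t) / 2) : ℝ) : ℂ)‖ ≤ ε := by
  filter_upwards [s.char_meas φ k ρ ε hε] with n hn
  intro w t hw ht C hC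
  obtain ⟨h1, h2, h3⟩ := window_interior (s.psi_nonneg n) hC
  have h4 := hn w t hw ht (interior C) h2 h1
  rw [measureReal_congr h3, setIntegral_congr_set h3] at h4
  simp only [mul_comm Complex.I]
  exact h4

theorem Sc.sq (s : Sc K ψ) (φ : ℝ) (ε : ℝ) (hε : 0 < ε) :
    ∀ᶠ n in atTop, ∀ C : Set ℂ, Window ψ (K.lam (s.d n) (s.R n)) C →
      |(1 / volume.real C) * (∫ z in C, K.u (s.d n) (s.R n) φ z ^ 2) - 1| ≤ ε := by
  filter_upwards [s.sq_meas φ ε hε] with n hn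
  intro C hC
  obtain ⟨h1, h2, h3⟩ := window_interior (s.psi_nonneg n) hC
  have h4 := hn (interior C) h2 h1
  rw [measureReal_congr h3, setIntegral_congr_set h3] at h4
  exact h4

end Pool.Agent.Zk91.KB
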