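import Pool.Agent.Zk91.KB.Mode
import Pool.Agent.Zk91.KB.Lat
import Pool.Agent.Zk91.KB.Mat
import Pool.Agent.Zk91.KB.Had
import Pool.Agent.Zk91.KB.MirLaw
import Pool.Agent.Zk91.KB.Scale

/-!
# The orthonormal basis of one eigenspace, for a given precision
-/

set_option autoImplicit false

open Filter Topology Real MeasureTheory Set ProbabilityTheory

namespace Pool.Agent.Zk91.KB

open Pool.Agent.Zk60.BW (TT TT_nonneg VV VV_le GG GG_sub)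

variable {k : ℕ}

theorem VV_lip (w : Fin k → ℂ) (t : Fin k → ℝ) (L : ℕ) (hk : k ≤ L) (hw : ∀ j, ‖w j‖ ≤ L)
    (ht : ∀ j, |t j| ≤ L) (x y x' y' : ℝ) :
    |VV w t x y - VV w t x' y'| ≤ 2 * (L : ℝ) ^ 5 * (|x - x'| + |y - y'|) := by
  have hL : (0 : ℝ) ≤ L := by positivity
  have hkL : (k : ℝ) ≤ L := by exact_mod_cast hk
  have e : VV w t x y - VV w t x' y' = ∑ i, ∑ j, t i * t j *
      (GG (w i - w j) x y - GG (w i - w j) x' y') := by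
    unfold VV GG
    rw [← Finset.sum_sub_distrib]
    refine Finset.sum_congr rfl fun i _ => ?_
    rw [← Finset.sum_sub_distrib]
    exact Finset.sum_congr rfl fun j _ => by ring
  rw [e]
  have h1 : ∀ i j, |t i * t j * (GG (w i - w j) x y - GG (w i - w j) x' y')| ≤
      (L : ℝ) ^ 2 * (2 * L * (|x - x'| + |y - y'|)) := by
    intro i j
    rw [abs_mul]
    have b3 : |t i * t j| ≤ (L : ℝ) ^ 2 := by
      rw [abs_mul, sq]
      exact mul_le_mul (ht i) (ht j) (abs_nonneg _) hL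
    have hz : ‖w i - w j‖ ≤ L + L := (norm_sub_le _ _).trans (add_le_add (hw i) (hw j))
    have h3 := (Complex.abs_re_le_norm (w i - w j)).trans hz
    have h4 := (Complex.abs_im_le_norm (w i - w j)).trans hz
    have b4 : |GG (w i - w j) x y - GG (w i - w j) x' y'| ≤ 2 * L * (|x - x'| + |y - y'|) := by
      refine (GG_sub _ _ _ _ _).trans ?_
      have c1 : |(w i - w j).re| * |x - x'| ≤ 2 * L * |x - x'| :=
        mul_le_mul_of_nonneg_right (by linarith) (abs_nonneg _)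
      have c2 : |(w i - w j).im| * |y - y'| ≤ 2 * L * |y - y'| :=
        mul_le_mul_of_nonneg_right (by linarith) (abs_nonneg _)
      linarith
    exact mul_le_mul b3 b4 (abs_nonneg _) (by positivity)
  calc |∑ i, ∑ j, t i * t j * (GG (w i - w j) x y - GG (w i - w j) x' y')|
      ≤ ∑ _i : Fin k, ∑ _j : Fin k, (L : ℝ) ^ 2 * (2 * L * (|x - x'| + |y - y'|)) :=
        (Finset.abs_sum_le_sum_abs _ _).trans (Finset.sum_le_sum fun i _ =>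
          (Finset.abs_sum_le_sum_abs _ _).trans (Finset.sum_le_sum fun j _ => h1 i j))
    _ = (k : ℝ) ^ 2 * ((L : ℝ) ^ 2 * (2 * L * (|x - x'| + |y - y'|))) := by
        simp only [Finset.sum_const, Finset.card_univ, Fintype.card_fin, nsmul_eq_mul]
        ring
    _ ≤ (L : ℝ) ^ 2 * ((L : ℝ) ^ 2 * (2 * L * (|x - x'| + |y - y'|))) := by
        refine mul_le_mul_of_nonneg_right ?_ (by positivity)
        exact pow_le_pow_left₀ (by positivity) hkL 2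
    _ = _ := by ring

theorem TT_L (t : Fin k → ℝ) (L : ℕ) (hk : k ≤ L) (ht : ∀ j, |t j| ≤ L) : TT t ≤ (L : ℝ) ^ 2 := by
  have h := TT_le' t L ht
  have hkL : (k : ℝ) ≤ L := by exact_mod_cast hk
  rw [abs_of_nonneg (by positivity)] at h
  nlinarith

theorem VV_bd (w : Fin k → ℂ) (t : Fin k → ℝ) (L : ℕ) (hk : k ≤ L) (ht : ∀ j, |t j| ≤ L)
    (x y : ℝ) : |VV w t x y| ≤ 4 * (L : ℝ) ^ 4 := by
  obtain ⟨h1, h2⟩ := VV_le w t x y
  rw [abs_of_nonneg h1]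
  have h3 := TT_L t L hk ht
  have h4 := TT_nonneg t
  refine h2.trans ?_
  have : TT t ^ 2 ≤ ((L : ℝ) ^ 2) ^ 2 := pow_le_pow_left₀ h4 h3 2
  calc 4 * TT t ^ 2 ≤ 4 * ((L : ℝ) ^ 2) ^ 2 := by linarith
    _ = _ := by ring

/-- the covariance form of the lattice points -/
noncomputable def cov (α β lam : ℝ) (S : Finset (ℕ × ℕ)) (w : Fin k → ℂ) (t : Fin k → ℝ) : ℝ :=
  (1 / (S.card : ℝ)) * ∑ p ∈ S, VV w t (α * p.1 / √lam) (β * p.2 / √lam)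

theorem cov_nonneg (α β lam : ℝ) (S : Finset (ℕ × ℕ)) (w : Fin k → ℂ) (t : Fin k → ℝ) :
    0 ≤ cov α β lam S w t :=
  mul_nonneg (by positivity) (Finset.sum_nonneg fun p _ => (VV_le w t _ _).1)

/-- the law of `u` up to the precision `1 / (L + 1)` -/
def LawL (α β lam : ℝ) (S : Finset (ℕ × ℕ)) (L : ℕ) (u : ℂ → ℝ) : Prop :=
  ∀ k : ℕ, k ≤ L → ∀ (w : Fin k → ℂ) (t : Fin k → ℝ), (∀ j, ‖w j‖ ≤ L) → (∀ j, |t j| ≤ L) →
    ∀ C : Set ℂ, Convex ℝ C → Bornology.IsBounded C → 0 < volume.real C →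
      Metric.diam C ≤ L * volume.real C →
      |1 / volume.real C * (∫ z in C, (∑ j, t j * u (z + w j / ((√lam : ℝ) : ℂ))) ^ 2) -
        cov α β lam S w t| ≤ 1 / ((L : ℝ) + 1) ∧
      ‖((1 / volume.real C : ℝ) : ℂ) * (∫ z in C, Complex.exp
        (Complex.I * ((∑ j, t j * u (z + w j / ((√lam : ℝ) : ℂ)) : ℝ) : ℂ))) -
        ((Real.exp (-(cov α β lam S w t) / 2) : ℝ) : ℂ)‖ ≤ 1 / ((L : ℝ) + 1)

theorem tendsto_err' (T : ℝ) : Tendsto (err' T) atTop (𝓝 0) := by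
  have h := tendsto_err1 T
  rw [← tendsto_add_atTop_iff_nat 1]
  exact h

theorem tendsto_errsq' (T : ℝ) : Tendsto (fun n : ℕ => (√(n : ℝ) * T) ^ 2 *
    Real.exp (-(n : ℝ))) atTop (𝓝 0) := by
  have h := tendsto_errsq T
  rw [← tendsto_add_atTop_iff_nat 1]
  exact h

theorem exists_K (L : ℕ) : ∃ κ : ℕ, 4 * (2 * (L : ℝ) ^ 2) ^ 2 ≤ ((2 ^ κ : ℕ) : ℝ) ∧
    err' (2 * (L : ℝ) ^ 2) (2 ^ κ) + (2 * (2 * (L : ℝ) ^ 5) / ((2 ^ κ : ℕ) : ℝ) +
      1 / ((2 ^ κ : ℕ) : ℝ)) / 2 ≤ 1 / ((L : ℝ) + 1) ∧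
    (√((2 ^ κ : ℕ) : ℝ) * (2 * (L : ℝ) ^ 2)) ^ 2 * Real.exp (-((2 ^ κ : ℕ) : ℝ)) +
      (2 * (2 * (L : ℝ) ^ 5) / ((2 ^ κ : ℕ) : ℝ) + 1 / ((2 ^ κ : ℕ) : ℝ)) ≤ 1 / ((L : ℝ) + 1) := by
  have hc : ∀ C : ℝ, Tendsto (fun n : ℕ => C / (n : ℝ)) atTop (𝓝 0) := fun C =>
    tendsto_const_div_atTop_nhds_zero_nat C
  have h1 : Tendsto (fun n : ℕ => err' (2 * (L : ℝ) ^ 2) n +
      (2 * (2 * (L : ℝ) ^ 5) / (n : ℝ) + 1 / (n : ℝ)) / 2) atTop (𝓝 0) := by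
    simpa using (tendsto_err' (2 * (L : ℝ) ^ 2)).add (((hc _).add (hc 1)).div_const 2)
  have h2 : Tendsto (fun n : ℕ => (√(n : ℝ) * (2 * (L : ℝ) ^ 2)) ^ 2 * Real.exp (-(n : ℝ)) +
      (2 * (2 * (L : ℝ) ^ 5) / (n : ℝ) + 1 / (n : ℝ))) atTop (𝓝 0) := by
    simpa using (tendsto_errsq' (2 * (L : ℝ) ^ 2)).add ((hc _).add (hc 1))
  have hδ : (0 : ℝ) < 1 / ((L : ℝ) + 1) := by positivity
  have h3 : Tendsto (fun κ : ℕ => 2 ^ κ) atTop (atTop : Filter ℕ) :=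
    tendsto_pow_atTop_atTop_of_one_lt (by norm_num)
  have h4 : Tendsto (fun n : ℕ => (n : ℝ)) atTop atTop := tendsto_natCast_atTop_atTop
  have h5 := ((h4.eventually_ge_atTop (4 * (2 * (L : ℝ) ^ 2) ^ 2)).and
    ((h1.eventually (ge_mem_nhds hδ)).and (h2.eventually (ge_mem_nhds hδ))))
  obtain ⟨κ, hκ⟩ := (h3.eventually h5).exists
  exact ⟨κ, hκ⟩

end Pool.Agent.Zk91.KB
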