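import Pool.Agent.Zk91.KB.Enu

/-!
# One eigenspace, one precision
-/

set_option autoImplicit false

open Filter Topology Real MeasureTheory Set ProbabilityTheory

namespace Pool.Agent.Zk91.KB

open Pool.Agent.Zk60.BW (TT TT_nonneg VV VV_le GG GG_sub)

variable {k : ℕ} {α β lam : ℝ} {S : Finset (ℕ × ℕ)} {K b c : ℕ}

/-- the law of one block function, for general convex windows -/
theorem block_lawL (hS : OnE α β lam S) (hα : 0 < α) (hβ : 0 < β) (hlam : 0 < lam)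
    (hK : 0 < K) (hb : 0 < b) (hcard : S.card = K * b + c) (f : Fin (K * b + c) → ℕ × ℕ)
    (P : ((Fin K × Fin b) ⊕ Fin c) ≃ {p // p ∈ S}) (hf : ∀ i, f i ∈ S)
    (hmono : ∀ i j, i < j → (f i).1 < (f j).1)
    (hP : ∀ n, ((P n : {p // p ∈ S}) : ℕ × ℕ) = f (EE K b c n)) (s : Fin K → Fin b)
    (φ : ℝ) (L : ℕ) (hbig : 2 * (4 * (L : ℝ) ^ 4) * c * K ≤ S.card)
    (H : Fin K → ℝ) (hH : ∀ i, H i ^ 2 = 1) (T : ℕ) (hT : 0 < T)
    (hd : Diss (2 * K * 2) T (fun i => ((f (EE K b c (Sum.inl (i, s i)))).1 : ℤ))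
      (fun i => ((f (EE K b c (Sum.inl (i, s i)))).2 : ℤ)))
    (hK1 : 4 * (2 * (L : ℝ) ^ 2) ^ 2 ≤ K)
    (hK2 : err' (2 * (L : ℝ) ^ 2) K + (2 * (2 * (L : ℝ) ^ 5) / K + 1 / K) / 2 ≤
      1 / ((L : ℝ) + 1))
    (hK3 : (√(K : ℝ) * (2 * (L : ℝ) ^ 2)) ^ 2 * Real.exp (-(K : ℝ)) +
      (2 * (2 * (L : ℝ) ^ 5) / K + 1 / K) ≤ 1 / ((L : ℝ) + 1))
    (hTα : 4 * (L : ℝ) ≤ Real.exp (-(K : ℝ)) * (α * T))
    (hTβ : 4 * (L : ℝ) ≤ Real.exp (-(K : ℝ)) * (β * T)) :
    LawL α β lam S L (Ub φ α β H fun i => f (EE K b c (Sum.inl (i, s i)))) := by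
  intro k hk w t hw ht C hC1 hC2 hC3 hC4
  have hae : interior C =ᵐ[volume] C :=
    interior_ae_eq_of_null_frontier (Convex.addHaar_frontier volume hC1)
  have hv : volume.real (interior C) = volume.real C := measureReal_congr hae
  have hdiam : Metric.diam (interior C) ≤ Metric.diam C := Metric.diam_mono interior_subset hC2
  have hd4 : ∀ x : ℝ, 4 * (L : ℝ) ≤ Real.exp (-(K : ℝ)) * x →
      4 * Metric.diam (interior C) ≤ volume.real (interior C) * Real.exp (-(K : ℝ)) * x := by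
    intro x hx
    rw [hv]
    calc 4 * Metric.diam (interior C) ≤ 4 * (L * volume.real C) := by linarith
      _ = volume.real C * (4 * L) := by ring
      _ ≤ volume.real C * (Real.exp (-(K : ℝ)) * x) := mul_le_mul_of_nonneg_left hx hC3.le
      _ = _ := by ring
  have hTt : 2 * TT t ≤ 2 * (L : ℝ) ^ 2 := by
    have := TT_L t L hk ht
    linarith
  obtain ⟨c1, c2⟩ := blk_law φ α β lam hα hβ hlam hK H hH
    (fun i => f (EE K b c (Sum.inl (i, s i)))) T hT hd w t (2 * (L : ℝ) ^ 2) (by positivity) hTt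
    hK1 (interior C) hC1.interior (hC2.subset interior_subset) isOpen_interior.measurableSet
    (by rw [hv]; exact hC3) (hd4 _ hTα) (hd4 _ hTβ)
  rw [hv, setIntegral_congr_set hae] at c1 c2
  have hcov := block_cov hS hα hβ hlam hK hb hcard f P hf hmono hP s w t L hk hw ht hbig
  have hV0 : 0 ≤ (1 / (K : ℝ)) * ∑ i, VV w t (α * (f (EE K b c (Sum.inl (i, s i)))).1 / √lam)
        (β * (f (EE K b c (Sum.inl (i, s i)))).2 / √lam) :=
    mul_nonneg (by positivity) (Finset.sum_nonneg fun i _ => (VV_le w t _ _).1)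
  refine ⟨?_, ?_⟩
  · refine (abs_sub_le _ _ _).trans ((add_le_add c1 hcov).trans hK3)
  · refine (norm_sub_le_norm_sub_add_norm_sub _ _ _).trans ((add_le_add ?_
      ((exp_sub_le _ _ hV0 (cov_nonneg α β lam S w t)).trans
        (div_le_div_of_nonneg_right hcov (by norm_num)))).trans hK2)
    simp only [mul_comm Complex.I]
    exact c2

end Pool.Agent.Zk91.KB
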