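import Pool.Agent.Zk91.KB.Lev2

/-!
# One eigenspace, one precision: the basis
-/

set_option autoImplicit false

open Filter Topology Real MeasureTheory Set ProbabilityTheory

namespace Pool.Agent.Zk91.KB

open Pool.Agent.Zk60.BW (TT TT_nonneg VV VV_le GG GG_sub)

variable {k : ℕ} {α β lam : ℝ} {S : Finset (ℕ × ℕ)} {K b c : ℕ}

/-- `O` is orthogonal on `S` -/
def Orth (S : Finset (ℕ × ℕ)) (O : ℕ × ℕ → ℕ × ℕ → ℝ) : Prop :=
  ∀ p ∈ S, ∀ p' ∈ S, ∑ q ∈ S, O p q * O p' q = if p = p' then 1 else 0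

theorem lam_pos (hS : OnE α β lam S) (hα : 0 < α) (p : ℕ × ℕ) (hp : p ∈ S) : 0 < lam := by
  obtain ⟨h1, h2, h3⟩ := (hS p).1 hp
  have h4 : (0 : ℝ) < p.1 := by exact_mod_cast h1
  have : 0 < (α * (p.1 : ℝ)) ^ 2 := by positivity
  nlinarith [sq_nonneg (β * (p.2 : ℝ))]

theorem exists_T (L K : ℕ) (α β : ℝ) (hα : 0 < α) (hβ : 0 < β) : ∃ T : ℕ, 0 < T ∧
    4 * (L : ℝ) ≤ Real.exp (-(K : ℝ)) * (α * T) ∧ 4 * (L : ℝ) ≤ Real.exp (-(K : ℝ)) * (β * T) := by
  have he : 0 < Real.exp (-(K : ℝ)) := Real.exp_pos _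
  obtain ⟨T1, h1⟩ := exists_nat_ge (4 * (L : ℝ) / (Real.exp (-(K : ℝ)) * α))
  obtain ⟨T2, h2⟩ := exists_nat_ge (4 * (L : ℝ) / (Real.exp (-(K : ℝ)) * β))
  rw [div_le_iff₀ (by positivity)] at h1 h2
  refine ⟨T1 + T2 + 1, by omega, ?_, ?_⟩
  · push_cast
    have : 0 ≤ Real.exp (-(K : ℝ)) * α * (T2 + 1) := by positivity
    nlinarith
  · push_cast
    have : 0 ≤ Real.exp (-(K : ℝ)) * β * (T1 + 1) := by positivity
    nlinarith

theorem level (α β : ℝ) (hα : 0 < α) (hβ : 0 < β) (L : ℕ) : ∃ R0 : ℕ, ∀ (lam : ℝ)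
    (S : Finset (ℕ × ℕ)), OnE α β lam S → R0 ≤ S.card →
    ∃ (O : ℕ × ℕ → ℕ × ℕ → ℝ) (Good : Finset (ℕ × ℕ)), Good ⊆ S ∧ Orth S O ∧
      (L + 1) * (S \ Good).card ≤ S.card ∧
      ∀ p ∈ Good, ∀ φ : ℝ, LawL α β lam S L fun z => ∑ q ∈ S, O p q * mode φ α β q z := by
  classical
  obtain ⟨κ, hK1, hK2, hK3⟩ := exists_K L
  set K : ℕ := 2 ^ κ with hKdef
  have hK : 0 < K := by positivity
  obtain ⟨T, hT, hTα, hTβ⟩ := exists_T L K α β hα hβ
  have hflat := exists_flat κ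
  rw [← hKdef] at hflat
  obtain ⟨H, hH1, hH2⟩ := hflat
  set P0 : ℕ := (Pat K (2 * K * 2)).card * (2 * (2 * T + 1)) with hP0
  set N1 : ℕ := ⌈2 * (4 * (L : ℝ) ^ 4) * K * K⌉₊ with hN1
  refine ⟨K + (L + 1) * (K * P0 + K) + N1, fun lam S hS hcard => ?_⟩
  set b : ℕ := S.card / K with hb
  set c : ℕ := S.card % K with hc
  have hr : S.card = K * b + c := (Nat.div_add_mod S.card K).symm
  have hcK : c < K := Nat.mod_lt _ hK
  have hb0 : 0 < b := Nat.div_pos (by omega) hK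
  have : NeZero b := ⟨hb0.ne'⟩
  obtain ⟨f, P, hf, hmono, hP⟩ := exists_points (K := K) (b := b) (c := c) hS hβ hr
  have hSne : S.Nonempty := Finset.card_pos.1 (by omega)
  obtain ⟨p0, hp0⟩ := hSne
  have hlam : 0 < lam := lam_pos hS hα p0 hp0
  set ξ : Fin K → Fin b → ℤ × ℤ := fun i x =>
    (((f (EE K b c (Sum.inl (i, x)))).1 : ℤ), ((f (EE K b c (Sum.inl (i, x)))).2 : ℤ)) with hξ
  have h2 : Two ξ := hS.blockTwo hα hβ f hf hmono (fun i x => EE K b c (Sum.inl (i, x)))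
    (fun i x y h => by
      have := (EE K b c).injective h
      exact (Prod.mk.inj (Sum.inl.inj this)).2)
  obtain ⟨s, hs⟩ := exists_shift ξ h2 hK (2 * K * 2) T
  obtain ⟨O, hO1, hO2⟩ := transport S P (MM (c := c) H s) (MM_orth hK H hH2 s)
  set GI : Finset ((Fin K × Fin b) ⊕ Fin c) :=
    ((Finset.univ : Finset (Fin K)) ×ˢ (Finset.univ \ bad ξ (2 * K * 2) T s)).map
      Function.Embedding.inl with hGI
  set Good : Finset (ℕ × ℕ) := GI.map (P.toEmbedding.trans (Function.Embedding.subtype _)) with hG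
  have hGS : Good ⊆ S := by
    intro p hp
    rw [hG, Finset.mem_map] at hp
    obtain ⟨n, _, rfl⟩ := hp
    exact (P n).2
  have hGc : Good.card + K * (bad ξ (2 * K * 2) T s).card = K * b := by
    rw [hG, Finset.card_map, hGI, Finset.card_map, Finset.card_product, Finset.card_univ,
      Fintype.card_fin, ← mul_add,
      Finset.card_sdiff_add_card_eq_card (Finset.subset_univ _), Finset.card_univ,
      Fintype.card_fin]
  refine ⟨O, Good, hGS, hO1, ?_, ?_⟩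
  · have e1 := Finset.card_sdiff_add_card_eq_card hGS
    have e2 : (S \ Good).card ≤ K * P0 + K := by
      have : K * (bad ξ (2 * K * 2) T s).card ≤ K * P0 := Nat.mul_le_mul_left K hs
      omega
    have e3 : (L + 1) * (S \ Good).card ≤ (L + 1) * (K * P0 + K) := Nat.mul_le_mul_left _ e2
    omega
  · intro p hp φ
    rw [hG, Finset.mem_map] at hp
    obtain ⟨n, hn, rfl⟩ := hp
    rw [hGI, Finset.mem_map] at hn
    obtain ⟨⟨i, x⟩, hx, rfl⟩ := hn
    have hx' : x ∉ bad ξ (2 * K * 2) T s := by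
      have := (Finset.mem_product.1 hx).2
      exact (Finset.mem_sdiff.1 this).2
    have efun : (fun z => ∑ q ∈ S, O ((P.toEmbedding.trans (Function.Embedding.subtype _))
        (Function.Embedding.inl (i, x))) q * mode φ α β q z) =
        Ub φ α β (H i) fun i' => f (EE K b c (Sum.inl (i', x + s i'))) := by
      funext z
      have h := hO2 (Sum.inl (i, x)) (fun q => mode φ α β q z)
      refine h.trans ?_
      rw [MM_inl]
      unfold Ub
      rw [Finset.mul_sum]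
      refine Finset.sum_congr rfl fun i' _ => ?_
      rw [hP]
      ring
    rw [efun]
    refine block_lawL hS hα hβ hlam hK hb0 hr f P hf hmono hP (fun i' => x + s i') φ L ?_ (H i)
      (hH1 i) T hT ?_ hK1 hK2 hK3 hTα hTβ
    · have h3 : (N1 : ℝ) ≤ S.card := by
        have : N1 ≤ S.card := by omega
        exact_mod_cast this
      have h4 : 2 * (4 * (L : ℝ) ^ 4) * K * K ≤ N1 := Nat.le_ceil _
      have h5 : (c : ℝ) ≤ K := by exact_mod_cast hcK.le
      have h6 : 2 * (4 * (L : ℝ) ^ 4) * c * K ≤ 2 * (4 * (L : ℝ) ^ 4) * K * K := by gcongr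
      linarith
    · intro g hg hg0
      by_contra hcon
      push Not at hcon
      exact hx' (Finset.mem_filter.2 ⟨Finset.mem_univ _, g, hg, hg0, hcon⟩)

end Pool.Agent.Zk91.KB
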