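import Pool.Agent.Zk60.BW.NT

/-!
# Many points on an ellipse without short relations between all coordinates
-/

set_option autoImplicit false

open Filter Topology Real

namespace Pool.Agent.Zk91.KB

open Pool.Agent.Zk60.BW (chain)

/-- points `(m i, l i)` of the ellipse `m ^ 2 + D * l ^ 2 = N ^ 2` in nearly prescribed directions such
that there is no short integer relation between all the numbers `m i`, `l i` -/
theorem joint_nt (D : ℕ) (hD : 1 ≤ D) (n K : ℕ) (θ : ℕ → ℝ)
    (hθ : ∀ i, 0 ≤ θ i) (hθ' : ∀ i, θ i < π) (ε : ℝ) (hε : 0 < ε) :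
    ∃ (m l : Fin n → ℤ) (N : ℕ), 2 ^ n ≤ N ∧
      (∀ i, m i ^ 2 + D * l i ^ 2 = (N : ℤ) ^ 2) ∧
      (∀ i, |(m i : ℝ) / N - cos (θ i)| < ε) ∧
      (∀ i, |√D * l i / N - sin (θ i)| < ε) ∧
      (∀ g h : Fin n → ℤ, (∀ i, |g i| ≤ K) → (∀ i, |h i| ≤ K) →
        ∑ i, (g i * m i + h i * l i) = 0 → ∀ i, g i = 0 ∧ h i = 0) := by
  classical
  obtain ⟨s, t, hst⟩ := chain D hD (2 * D) (by omega) ⟨2, by ring⟩ (K ^ 2 * (1 + D) + 1) θ hθ hθ' ε hε
  set q : ℕ → ℤ := fun i => s i ^ 2 + D * t i ^ 2 with hq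
  have hq2 : ∀ i, (K : ℤ) ^ 2 * (1 + D) + 1 < q i := fun i => by
    have := (hst i).1
    push_cast at this
    exact this
  have hKD : (0 : ℤ) ≤ (K : ℤ) ^ 2 * (1 + D) := by positivity
  have hqpos : ∀ i, 0 < q i := fun i => by have := hq2 i; omega
  have hB : ∀ i, IsCoprime (q i) (2 * D : ℤ) := fun i => by
    have := (hst i).2.1
    push_cast at this
    exact this
  have h2 : ∀ i, IsCoprime (q i) 2 := fun i =>
    IsCoprime.of_isCoprime_of_dvd_right (hB i) ⟨D, by ring⟩
  have hcD : ∀ i, IsCoprime (q i) D := fun i =>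
    IsCoprime.of_isCoprime_of_dvd_right (hB i) ⟨2, by ring⟩
  have hpair : ∀ i j, i ≠ j → IsCoprime (q i) (q j) := by
    intro i j hij
    rcases lt_or_gt_of_ne hij with h | h
    · exact ((hst j).2.2.1 i h).symm
    · exact (hst i).2.2.1 j h
  have hct : ∀ i, IsCoprime (q i) (t i) := fun i => (hst i).2.2.2.2.1
  -- the products
  set P : Fin n → ℤ := fun i => ∏ j ∈ Finset.univ.erase i, q (j : ℕ) with hP
  have hPi : ∀ i : Fin n, IsCoprime (q (i : ℕ)) (P i) := by
    intro i
    refine IsCoprime.prod_right fun j hj => ?_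
    refine hpair _ _ fun h => ?_
    exact (Finset.ne_of_mem_erase hj) (Fin.ext h.symm)
  have hPj : ∀ i j : Fin n, j ≠ i → q (i : ℕ) ∣ P j := by
    intro i j hij
    exact Finset.dvd_prod_of_mem (fun j : Fin n => q (j : ℕ))
      (Finset.mem_erase.2 ⟨fun h => hij h.symm, Finset.mem_univ _⟩)
  have hPq : ∀ i : Fin n, q (i : ℕ) * P i = ∏ j : Fin n, q (j : ℕ) := by
    intro i
    exact Finset.mul_prod_erase Finset.univ (fun j : Fin n => q (j : ℕ)) (Finset.mem_univ i)
  have hprodpos : 0 < ∏ j : Fin n, q (j : ℕ) := Finset.prod_pos fun j _ => hqpos j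
  obtain ⟨N0, hN0⟩ := Int.eq_ofNat_of_zero_le hprodpos.le
  have eN : ∀ i : Fin n, (N0 : ℤ) = q i * P i := fun i => by rw [hPq i, hN0]
  have eNr : ∀ i : Fin n, (N0 : ℝ) = (q i : ℝ) * P i := fun i => by exact_mod_cast eN i
  have hP0 : ∀ i : Fin n, (P i : ℝ) ≠ 0 := by
    intro i h0
    have h3 : P i = 0 := by exact_mod_cast h0
    have h4 := hPq i
    rw [h3, mul_zero] at h4
    linarith
  have hq0 : ∀ i : ℕ, ((s i : ℝ) ^ 2 + D * t i ^ 2) ≠ 0 := by
    intro i
    have := hqpos i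
    have h3 : (0 : ℝ) < ((q i : ℤ) : ℝ) := by exact_mod_cast this
    simp only [hq] at h3
    push_cast at h3
    exact h3.ne'
  refine ⟨fun i => (s i ^ 2 - D * t i ^ 2) * P i, fun i => (2 * (s i * t i)) * P i, N0,
    ?_, ?_, ?_, ?_, ?_⟩
  · have h1 : (2 : ℤ) ^ n ≤ ∏ j : Fin n, q (j : ℕ) := by
      have : (2 : ℤ) ^ n = ∏ _j : Fin n, (2 : ℤ) := by simp
      rw [this]
      refine Finset.prod_le_prod (fun _ _ => by norm_num) fun j _ => ?_
      have := hq2 j
      omega
    rw [hN0] at h1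
    exact_mod_cast h1
  · intro i
    rw [eN i]
    simp only [hq]
    ring
  · intro i
    have h1 := (hst i).2.2.2.2.2.1
    convert h1 using 3
    rw [eNr i]
    simp only [hq]
    have := hP0 i
    have := hq0 i
    push_cast
    field_simp
  · intro i
    have h1 := (hst i).2.2.2.2.2.2
    convert h1 using 3
    rw [eNr i]
    simp only [hq]
    have := hP0 i
    have := hq0 i
    push_cast
    field_simp
  · intro g h hg hh hsum i
    have d1 : q (i : ℕ) ∣ (g i * (s i ^ 2 - D * t i ^ 2) + h i * (2 * (s i * t i))) * P i := by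
      rw [← Finset.add_sum_erase Finset.univ _ (Finset.mem_univ i)] at hsum
      have h3 : q (i : ℕ) ∣ ∑ x ∈ Finset.univ.erase i,
          (g x * ((s x ^ 2 - D * t x ^ 2) * P x) + h x * ((2 * (s x * t x)) * P x)) := by
        refine Finset.dvd_sum fun j hj => ?_
        have := hPj i j (Finset.ne_of_mem_erase hj)
        exact dvd_add ((this.mul_left _).mul_left _) ((this.mul_left _).mul_left _)
      have h4 : (g i * (s i ^ 2 - D * t i ^ 2) + h i * (2 * (s i * t i))) * P i =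
          -∑ x ∈ Finset.univ.erase i,
          (g x * ((s x ^ 2 - D * t x ^ 2) * P x) + h x * ((2 * (s x * t x)) * P x)) := by
        linarith
      rw [h4]
      exact h3.neg_right
    have d2 : q (i : ℕ) ∣ g i * (s i ^ 2 - D * t i ^ 2) + h i * (2 * (s i * t i)) :=
      (hPi i).dvd_of_dvd_mul_right d1
    have d3 : q (i : ℕ) ∣ (2 * t i) * (s i * h i - D * t i * g i) := by
      have e : (2 * t i) * (s i * h i - D * t i * g i) =
          (g i * (s i ^ 2 - D * t i ^ 2) + h i * (2 * (s i * t i))) - q i * g i := by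
        simp only [hq]
        ring
      rw [e]
      exact dvd_sub d2 (dvd_mul_right _ _)
    have d4 : q (i : ℕ) ∣ s i * h i - D * t i * g i :=
      ((h2 i).mul_right (hct i)).dvd_of_dvd_mul_left d3
    have d5 : q (i : ℕ) ∣ (D * t i ^ 2) * (h i ^ 2 + D * g i ^ 2) := by
      have e : (D * t i ^ 2) * (h i ^ 2 + D * g i ^ 2) =
          q i * h i ^ 2 - (s i * h i - D * t i * g i) * (s i * h i + D * t i * g i) := by
        simp only [hq]
        ring
      rw [e]
      exact dvd_sub (dvd_mul_right _ _) (d4.mul_right _)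
    have d6 : q (i : ℕ) ∣ h i ^ 2 + D * g i ^ 2 :=
      ((hcD i).mul_right (hct i).pow_right).dvd_of_dvd_mul_left d5
    have hD' : (1 : ℤ) ≤ D := by exact_mod_cast hD
    have b1 : g i ^ 2 ≤ (K : ℤ) ^ 2 := by
      rw [← sq_abs]; exact pow_le_pow_left₀ (abs_nonneg _) (hg i) 2
    have b2 : h i ^ 2 ≤ (K : ℤ) ^ 2 := by
      rw [← sq_abs]; exact pow_le_pow_left₀ (abs_nonneg _) (hh i) 2
    have b3 : h i ^ 2 + D * g i ^ 2 < q i := by
      have := hq2 i
      nlinarith
    have b4 : 0 ≤ h i ^ 2 + D * g i ^ 2 := by positivity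
    have z := Int.eq_zero_of_dvd_of_nonneg_of_lt b4 b3 d6
    have z1 : h i ^ 2 = 0 := by nlinarith [sq_nonneg (h i), sq_nonneg (g i)]
    have z2 : g i ^ 2 = 0 := by nlinarith [sq_nonneg (h i), sq_nonneg (g i)]
    exact ⟨by simpa using z2, by simpa using z1⟩

end Pool.Agent.Zk91.KB
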