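import Pool.Agent.Zk60.BW.Wave
import Pool.Agent.Zk91.KB.Cmp
import Pool.Agent.Zk91.KB.NT
import Pool.Agent.Zk91.KB.Ave

/-!
# The eigenfunctions
-/

set_option autoImplicit false

open Filter Topology Real MeasureTheory Set
open scoped ContDiff

namespace Pool.Agent.Zk91.KB

open Pool.Agent.W745.RW (lap dx dy)
open Pool.Agent.Zk60.BW (TT TT_nonneg VV VV_le dx_sum dy_sum dx_mode dy_mode dxx_mode dyy_mode
  contDiff_mode contDiff_dx_mode contDiff_dy_mode)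

/-- the integer points -/
structure Num (D q n : ℕ) where
  m : Fin (n + 1) → ℤ
  l : Fin (n + 1) → ℤ
  N : ℕ
  big : 2 ^ (n + 1) ≤ N
  ell : ∀ i, m i ^ 2 + D * l i ^ 2 = (N : ℤ) ^ 2
  dirY : ∀ i : Fin (n + 1), |(m i : ℝ) / N - cos (π * i / (n + 1 : ℕ))| ≤ 1 / (n + 1 : ℕ)
  dirX : ∀ i : Fin (n + 1), |√D * l i / N - sin (π * i / (n + 1 : ℕ))| ≤ 1 / (n + 1 : ℕ)
  rel : ∀ g h : Fin (n + 1) → ℤ, (∀ i, |g i| ≤ (2 * (n + 1) * q : ℕ)) →
    (∀ i, |h i| ≤ (2 * (n + 1) * q : ℕ)) → ∑ i, (g i * l i + h i * m i) = 0 → ∀ i, g i = 0 ∧ h i = 0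

theorem exists_num (D : ℕ) (hD : 1 ≤ D) (q n : ℕ) : Nonempty (Num D q n) := by
  have hn : (0 : ℝ) < ((n + 1 : ℕ) : ℝ) := by positivity
  set θ : ℕ → ℝ := fun i => π * ((min i n : ℕ) : ℝ) / ((n + 1 : ℕ) : ℝ) with hθ
  have h0 : ∀ i, 0 ≤ θ i := fun i => by positivity
  have h1 : ∀ i, θ i < π := by
    intro i
    simp only [hθ]
    rw [div_lt_iff₀ hn]
    have : ((min i n : ℕ) : ℝ) < ((n + 1 : ℕ) : ℝ) := by
      exact_mod_cast (show min i n < n + 1 by omega)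
    exact mul_lt_mul_of_pos_left this pi_pos
  obtain ⟨m, l, N, hN, hell, hX, hY, hrel⟩ := joint_nt D hD (n + 1) (2 * (n + 1) * q) θ h0 h1
    (1 / ((n + 1 : ℕ) : ℝ)) (by positivity)
  have hθi : ∀ i : Fin (n + 1), θ i = π * i / (n + 1 : ℕ) := by
    intro i
    simp only [hθ]
    have : min (i : ℕ) n = i := by
      have := i.isLt
      omega
    rw [this]
  refine ⟨⟨m, l, N, hN, hell, fun i => ?_, fun i => ?_, fun g h hg hh hs i => ?_⟩⟩
  · have := hX i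
    rw [hθi i] at this
    exact this.le
  · have := hY i
    rw [hθi i] at this
    exact this.le
  · have := hrel h g hh hg (by rw [← hs]; exact Finset.sum_congr rfl fun i _ => add_comm _ _) i
    exact ⟨this.2, this.1⟩

theorem Num.N_pos {D q n : ℕ} (d : Num D q n) : (0 : ℝ) < d.N := by
  have h1 : 0 < 2 ^ (n + 1) := by positivity
  exact_mod_cast h1.trans_le d.big

/-- the data of a kaleidoscope: `ν` rotations with angles `τ ρ` and the integer matrices of the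
rotations in the coordinates of the lattice of frequencies -/
structure Kal (ν : ℕ) where
  D : ℕ
  B : ℕ
  g : Fin ν → ℤ × ℤ
  g' : Fin ν → ℤ × ℤ
  τ : Fin ν → ℝ
  a : ℝ
  b : ℝ
  c : ℝ
  hν : 0 < ν
  hD : 1 ≤ D
  vec : Vec g g'
  bd : ∀ ρ, Bd B (g ρ, g' ρ)
  ha : 0 < a
  hb : 0 < b
  hc : 0 < c
  rotX : ∀ ρ (l m : ℝ), a * ((g ρ).1 * l + (g ρ).2 * m) =
    c * (cos (τ ρ) * (√D * l) - sin (τ ρ) * m)
  rotY : ∀ ρ (l m : ℝ), b * ((g' ρ).1 * l + (g' ρ).2 * m) =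
    c * (sin (τ ρ) * (√D * l) + cos (τ ρ) * m)

variable {ν n k : ℕ} (K : Kal ν) (d : Num K.D (K.B + K.B) n)

/-- the frequencies -/
noncomputable def Kal.al (R : ℕ) (i : Fin (n + 1)) (ρ : Fin ν) : ℝ :=
  K.a * R * ((K.g ρ).1 * d.l i + (K.g ρ).2 * d.m i)

/-- the frequencies -/
noncomputable def Kal.be (R : ℕ) (i : Fin (n + 1)) (ρ : Fin ν) : ℝ :=
  K.b * R * ((K.g' ρ).1 * d.l i + (K.g' ρ).2 * d.m i)

/-- the directions -/
noncomputable def Kal.X (i : Fin (n + 1)) (ρ : Fin ν) : ℝ :=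
  cos (K.τ ρ) * (√K.D * d.l i / d.N) - sin (K.τ ρ) * (d.m i / d.N)

/-- the directions -/
noncomputable def Kal.Y (i : Fin (n + 1)) (ρ : Fin ν) : ℝ :=
  sin (K.τ ρ) * (√K.D * d.l i / d.N) + cos (K.τ ρ) * (d.m i / d.N)

/-- the eigenvalue -/
noncomputable def Kal.lam (R : ℕ) : ℝ := (K.c * R * d.N) ^ 2

/-- the eigenfunction; `φ = 0` (Dirichlet) or `φ = π / 2` (Neumann) -/
noncomputable def Kal.u (R : ℕ) (φ : ℝ) (z : ℂ) : ℝ :=
  (2 / √ν * (1 / √((n + 1 : ℕ) : ℝ))) * ∑ q : Fin (n + 1) × Fin ν,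
    sin (K.al d R q.1 q.2 * z.re + φ) * sin (K.be d R q.1 q.2 * z.im + φ)

theorem Kal.al_eq (R : ℕ) (i : Fin (n + 1)) (ρ : Fin ν) :
    K.al d R i ρ = K.c * R * d.N * K.X d i ρ := by
  have hN := d.N_pos
  have h := K.rotX ρ (d.l i) (d.m i)
  unfold Kal.al Kal.X
  have e : K.a * R * ((K.g ρ).1 * d.l i + (K.g ρ).2 * d.m i) =
      R * (K.a * ((K.g ρ).1 * d.l i + (K.g ρ).2 * d.m i)) := by ring
  rw [e, h]
  field_simp

theorem Kal.be_eq (R : ℕ) (i : Fin (n + 1)) (ρ : Fin ν) :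
    K.be d R i ρ = K.c * R * d.N * K.Y d i ρ := by
  have hN := d.N_pos
  have h := K.rotY ρ (d.l i) (d.m i)
  unfold Kal.be Kal.Y
  have e : K.b * R * ((K.g' ρ).1 * d.l i + (K.g' ρ).2 * d.m i) =
      R * (K.b * ((K.g' ρ).1 * d.l i + (K.g' ρ).2 * d.m i)) := by ring
  rw [e, h]
  field_simp

theorem Kal.XY (i : Fin (n + 1)) (ρ : Fin ν) : K.X d i ρ ^ 2 + K.Y d i ρ ^ 2 = 1 := by
  have hN := d.N_pos
  have h := d.ell i
  have hr : (d.m i : ℝ) ^ 2 + K.D * (d.l i : ℝ) ^ 2 = (d.N : ℝ) ^ 2 := by exact_mod_cast h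
  have hD : √(K.D : ℝ) ^ 2 = K.D := Real.sq_sqrt (by positivity)
  have h1 := sin_sq_add_cos_sq (K.τ ρ)
  unfold Kal.X Kal.Y
  have e : (cos (K.τ ρ) * (√K.D * d.l i / d.N) - sin (K.τ ρ) * (d.m i / d.N)) ^ 2 +
      (sin (K.τ ρ) * (√K.D * d.l i / d.N) + cos (K.τ ρ) * (d.m i / d.N)) ^ 2 =
      (sin (K.τ ρ) ^ 2 + cos (K.τ ρ) ^ 2) *
        ((d.m i : ℝ) ^ 2 + √K.D ^ 2 * (d.l i : ℝ) ^ 2) / d.N ^ 2 := by
    field_simp
    ring
  rw [e, h1, hD, hr, one_mul, div_self (by positivity)]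

theorem Kal.freq (R : ℕ) (i : Fin (n + 1)) (ρ : Fin ν) :
    K.al d R i ρ ^ 2 + K.be d R i ρ ^ 2 = K.lam d R := by
  rw [K.al_eq, K.be_eq]
  unfold Kal.lam
  have := K.XY d i ρ
  linear_combination (K.c * R * d.N) ^ 2 * this

theorem Kal.sqrt_lam (R : ℕ) : √(K.lam d R) = K.c * R * d.N := by
  unfold Kal.lam
  have := d.N_pos
  have := K.hc
  rw [Real.sqrt_sq (by positivity)]

theorem Kal.contDiff (R : ℕ) (φ : ℝ) : ContDiff ℝ ∞ (K.u d R φ) := by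
  unfold Kal.u
  exact contDiff_const.mul (ContDiff.sum fun q _ => contDiff_mode _ _ φ)

theorem Kal.helmholtz (R : ℕ) (φ : ℝ) (z : ℂ) :
    lap (K.u d R φ) z + K.lam d R * K.u d R φ z = 0 := by
  have e : K.u d R φ = fun z => (2 / √ν * (1 / √((n + 1 : ℕ) : ℝ))) *
      ∑ q ∈ (Finset.univ : Finset (Fin (n + 1) × Fin ν)),
      (fun z : ℂ => sin (K.al d R q.1 q.2 * z.re + φ) * sin (K.be d R q.1 q.2 * z.im + φ)) z := rfl
  have h1 : dx (K.u d R φ) = fun z => (2 / √ν * (1 / √((n + 1 : ℕ) : ℝ))) *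
      ∑ q ∈ (Finset.univ : Finset (Fin (n + 1) × Fin ν)),
      dx (fun z : ℂ => sin (K.al d R q.1 q.2 * z.re + φ) *
        sin (K.be d R q.1 q.2 * z.im + φ)) z := by
    rw [e, dx_sum _ _ _ fun i => contDiff_mode _ _ φ]
  have h2 : dy (K.u d R φ) = fun z => (2 / √ν * (1 / √((n + 1 : ℕ) : ℝ))) *
      ∑ q ∈ (Finset.univ : Finset (Fin (n + 1) × Fin ν)),
      dy (fun z : ℂ => sin (K.al d R q.1 q.2 * z.re + φ) *
        sin (K.be d R q.1 q.2 * z.im + φ)) z := by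
    rw [e, dy_sum _ _ _ fun i => contDiff_mode _ _ φ]
  unfold lap
  rw [h1, h2, dx_sum _ _ _ fun i => contDiff_dx_mode _ _ φ,
    dy_sum _ _ _ fun i => contDiff_dy_mode _ _ φ]
  simp only [dxx_mode, dyy_mode]
  unfold Kal.u
  rw [← mul_add, ← Finset.sum_add_distrib, mul_left_comm, ← mul_add, Finset.mul_sum,
    ← Finset.sum_add_distrib]
  rw [mul_eq_zero]
  right
  refine Finset.sum_eq_zero fun q _ => ?_
  rw [← K.freq d R q.1 q.2]
  ring

/-- the summands of the local combinations -/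
noncomputable def Kal.G (w : Fin k → ℂ) (t : Fin k → ℝ) (φ : ℝ) (i : Fin (n + 1)) (x : X4) : ℝ :=
  (2 / √ν) * KF K.g K.g' w t φ (K.X d i) (K.Y d i) x

/-- the local combination is the sum of the model -/
theorem Kal.comb (R : ℕ) (hR : 0 < R) (φ : ℝ) (w : Fin k → ℂ) (t : Fin k → ℝ) (z : ℂ) :
    ∑ j, t j * K.u d R φ (z + w j / ((√(K.lam d R) : ℝ) : ℂ)) =
      SS (K.G d w t φ) (Ph (K.a * R) (K.b * R) d.l d.m z) := by
  have hN := d.N_pos
  have hR0 : (0 : ℝ) < R := by exact_mod_cast hR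
  have hc := K.hc
  have hre : ∀ v : ℂ, (z + v / ((√(K.lam d R) : ℝ) : ℂ)).re = z.re + v.re / (K.c * R * d.N) := by
    intro v
    rw [Complex.add_re, Complex.div_ofReal_re, K.sqrt_lam]
  have him : ∀ v : ℂ, (z + v / ((√(K.lam d R) : ℝ) : ℂ)).im = z.im + v.im / (K.c * R * d.N) := by
    intro v
    rw [Complex.add_im, Complex.div_ofReal_im, K.sqrt_lam]
  have e1 : ∀ i ρ j, K.al d R i ρ * (z.re + (w j).re / (K.c * R * d.N)) + φ =
      ln (K.g ρ) (Ph (K.a * R) (K.b * R) d.l d.m z i).1 + (K.X d i ρ * (w j).re + φ) := by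
    intro i ρ j
    have h1 : K.al d R i ρ * ((w j).re / (K.c * R * d.N)) = K.X d i ρ * (w j).re := by
      rw [K.al_eq]
      field_simp
    have h2 : K.al d R i ρ * z.re = ln (K.g ρ) (Ph (K.a * R) (K.b * R) d.l d.m z i).1 := by
      unfold Kal.al ln Ph
      ring
    rw [mul_add, h1, h2]
    ring
  have e2 : ∀ i ρ j, K.be d R i ρ * (z.im + (w j).im / (K.c * R * d.N)) + φ =
      ln (K.g' ρ) (Ph (K.a * R) (K.b * R) d.l d.m z i).2 + (K.Y d i ρ * (w j).im + φ) := by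
    intro i ρ j
    have h1 : K.be d R i ρ * ((w j).im / (K.c * R * d.N)) = K.Y d i ρ * (w j).im := by
      rw [K.be_eq]
      field_simp
    have h2 : K.be d R i ρ * z.im = ln (K.g' ρ) (Ph (K.a * R) (K.b * R) d.l d.m z i).2 := by
      unfold Kal.be ln Ph
      ring
    rw [mul_add, h1, h2]
    ring
  unfold SS Kal.G Kal.u KF
  simp only [hre, him, e1, e2]
  simp only [Fintype.sum_prod_type, Finset.mul_sum]
  rw [Finset.sum_comm]
  refine Finset.sum_congr rfl fun i _ => ?_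
  rw [Finset.sum_comm]
  refine Finset.sum_congr rfl fun ρ _ => ?_
  refine Finset.sum_congr rfl fun j _ => ?_
  ring

theorem Kal.ind (w : Fin k → ℂ) (t : Fin k → ℝ) (φ : ℝ) :
    Ind P4 (K.G d w t φ) (fun i => (1 / (ν : ℝ)) * ∑ ρ, VV w t (K.X d i ρ) (K.Y d i ρ))
      (2 * √ν * TT t) where
  meas i := by
    unfold Kal.G
    exact (continuous_const.mul (continuous_KF K.g K.g' w t φ _ _)).measurable
  bdd i x := by
    unfold Kal.G
    have hν : (0 : ℝ) < ν := by exact_mod_cast K.hν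
    have hs : √(ν : ℝ) ^ 2 = ν := Real.sq_sqrt hν.le
    have hs0 : 0 < √(ν : ℝ) := Real.sqrt_pos.2 hν
    rw [abs_mul, abs_of_pos (by positivity : 0 < 2 / √(ν : ℝ))]
    have h1 := abs_KF_le K.g K.g' w t φ (K.X d i) (K.Y d i) x
    calc 2 / √(ν : ℝ) * |KF K.g K.g' w t φ (K.X d i) (K.Y d i) x| ≤ 2 / √(ν : ℝ) * (ν * TT t) :=
          mul_le_mul_of_nonneg_left h1 (by positivity)
      _ = 2 * √ν * TT t := by
          rw [← hs]
          field_simp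
          rw [Real.sqrt_sq hs0.le]
  mean i := by
    unfold Kal.G
    rw [integral_const_mul, int_KF K.vec, mul_zero]
  var i := by
    unfold Kal.G
    simp only [mul_pow]
    rw [integral_const_mul, int_KF_sq K.vec, div_pow, Real.sq_sqrt (by positivity)]
    ring

theorem Kal.tb (w : Fin k → ℂ) (t : Fin k → ℝ) (φ : ℝ) (i : Fin (n + 1)) :
    TB (n + 1) (K.B + K.B) (2 * √ν * TT t) fun x => ((K.G d w t φ i (x i) : ℝ) : ℂ) := by
  have h := (TB_KF (n := n + 1) K.g K.g' K.B K.bd w t φ (K.X d i) (K.Y d i) i).smul ((2 / √ν : ℝ) : ℂ)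
  have hν : (0 : ℝ) < ν := by exact_mod_cast K.hν
  have hs : √(ν : ℝ) ^ 2 = ν := Real.sq_sqrt hν.le
  have hs0 : 0 < √(ν : ℝ) := Real.sqrt_pos.2 hν
  have e : ‖((2 / √ν : ℝ) : ℂ)‖ * (ν * TT t) = 2 * √ν * TT t := by
    rw [Complex.norm_real, Real.norm_eq_abs, abs_of_pos (by positivity)]
    rw [← hs]
    field_simp
    rw [Real.sqrt_sq hs0.le]
  rw [e] at h
  unfold Kal.G
  simp only [Complex.ofReal_mul]
  exact h

/-- the average of the variances -/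
theorem Kal.ave' {k : ℕ} (w : Fin k → ℂ) (t : Fin k → ℝ) :
    ∀ (n : ℕ) (d : Num K.D (K.B + K.B) n),
      |(1 / ((n + 1 : ℕ) : ℝ)) * ∑ i, (1 / (ν : ℝ)) * ∑ ρ, VV w t (K.X d i ρ) (K.Y d i ρ) -
        ∑ i, ∑ j, t i * t j * Pool.Agent.N661.BR.J0 ‖w i - w j‖| ≤ aveC w t / (n + 1 : ℕ) := by
  set C := aveC w t with hCdef
  have hC := ave_shift' w t
  rw [← hCdef] at hC
  intro n d
  set Q := ∑ i, ∑ j, t i * t j * Pool.Agent.N661.BR.J0 ‖w i - w j‖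
  have hn : (0 : ℝ) < ((n + 1 : ℕ) : ℝ) := by positivity
  have hν : (0 : ℝ) < ν := by exact_mod_cast K.hν
  have h1 : ∀ ρ, |(1 / ((n + 1 : ℕ) : ℝ)) * ∑ i, VV w t (K.X d i ρ) (K.Y d i ρ) - Q| ≤
      C / (n + 1 : ℕ) := by
    intro ρ
    refine hC (n + 1) (Nat.succ_pos n) (K.τ ρ) (fun i => K.X d i ρ) (fun i => K.Y d i ρ)
      (fun i => ?_) fun i => ?_
    · have a1 := d.dirX i
      have a2 := d.dirY i
      rw [sin_sub]
      unfold Kal.X
      have e : cos (K.τ ρ) * (√K.D * d.l i / d.N) - sin (K.τ ρ) * (d.m i / d.N) -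
          (sin (π * i / ((n + 1 : ℕ) : ℝ)) * cos (K.τ ρ) -
            cos (π * i / ((n + 1 : ℕ) : ℝ)) * sin (K.τ ρ)) =
          cos (K.τ ρ) * (√K.D * d.l i / d.N - sin (π * i / ((n + 1 : ℕ) : ℝ))) -
          sin (K.τ ρ) * (d.m i / d.N - cos (π * i / ((n + 1 : ℕ) : ℝ))) := by ring
      rw [e]
      refine (abs_sub _ _).trans ?_
      rw [abs_mul, abs_mul]
      have b1 := mul_le_mul (abs_cos_le_one (K.τ ρ)) a1 (abs_nonneg _) zero_le_one
      have b2 := mul_le_mul (abs_sin_le_one (K.τ ρ)) a2 (abs_nonneg _) zero_le_one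
      refine (add_le_add b1 b2).trans (le_of_eq ?_)
      ring
    · have a1 := d.dirX i
      have a2 := d.dirY i
      rw [cos_sub]
      unfold Kal.Y
      have e : sin (K.τ ρ) * (√K.D * d.l i / d.N) + cos (K.τ ρ) * (d.m i / d.N) -
          (cos (π * i / ((n + 1 : ℕ) : ℝ)) * cos (K.τ ρ) +
            sin (π * i / ((n + 1 : ℕ) : ℝ)) * sin (K.τ ρ)) =
          sin (K.τ ρ) * (√K.D * d.l i / d.N - sin (π * i / ((n + 1 : ℕ) : ℝ))) +
          cos (K.τ ρ) * (d.m i / d.N - cos (π * i / ((n + 1 : ℕ) : ℝ))) := by ring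
      rw [e]
      refine (abs_add_le _ _).trans ?_
      rw [abs_mul, abs_mul]
      have b1 := mul_le_mul (abs_sin_le_one (K.τ ρ)) a1 (abs_nonneg _) zero_le_one
      have b2 := mul_le_mul (abs_cos_le_one (K.τ ρ)) a2 (abs_nonneg _) zero_le_one
      refine (add_le_add b1 b2).trans (le_of_eq ?_)
      ring
  have e : (1 / ((n + 1 : ℕ) : ℝ)) * ∑ i, (1 / (ν : ℝ)) * ∑ ρ, VV w t (K.X d i ρ) (K.Y d i ρ) - Q =
      (1 / (ν : ℝ)) * ∑ ρ, ((1 / ((n + 1 : ℕ) : ℝ)) * ∑ i, VV w t (K.X d i ρ) (K.Y d i ρ) - Q) := by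
    rw [Finset.sum_sub_distrib, Finset.sum_const, Finset.card_univ, Fintype.card_fin, nsmul_eq_mul,
      ← Finset.mul_sum, ← Finset.mul_sum, Finset.sum_comm]
    field_simp
  rw [e, abs_mul, abs_of_pos (by positivity)]
  calc 1 / (ν : ℝ) * |∑ ρ, ((1 / ((n + 1 : ℕ) : ℝ)) * ∑ i, VV w t (K.X d i ρ) (K.Y d i ρ) - Q)|
      ≤ 1 / (ν : ℝ) * ∑ _ρ : Fin ν, C / ((n + 1 : ℕ) : ℝ) := by
        refine mul_le_mul_of_nonneg_left ?_ (by positivity)
        exact (Finset.abs_sum_le_sum_abs _ _).trans (Finset.sum_le_sum fun ρ _ => h1 ρ)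
    _ = C / (n + 1 : ℕ) := by
        rw [Finset.sum_const, Finset.card_univ, Fintype.card_fin, nsmul_eq_mul]
        field_simp

/-- the average of the variances -/
theorem Kal.ave {k : ℕ} (w : Fin k → ℂ) (t : Fin k → ℝ) :
    ∃ C : ℝ, ∀ (n : ℕ) (d : Num K.D (K.B + K.B) n),
      |(1 / ((n + 1 : ℕ) : ℝ)) * ∑ i, (1 / (ν : ℝ)) * ∑ ρ, VV w t (K.X d i ρ) (K.Y d i ρ) -
        ∑ i, ∑ j, t i * t j * Pool.Agent.N661.BR.J0 ‖w i - w j‖| ≤ C / (n + 1 : ℕ) :=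
  ⟨_, K.ave' w t⟩

end Pool.Agent.Zk91.KB
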