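import Pool.Agent.Zk60.BW.Fin
import Pool.Agent.Zk91.KB.Wave
import Pool.Agent.Zk91.KB.Fam

/-!
# The limit of the characteristic functions and of the second moments
-/

set_option autoImplicit false

open Filter Topology Real MeasureTheory Set ProbabilityTheory
open scoped ContDiff symmDiff

namespace Pool.Agent.Zk91.KB

open Pool.Agent.W745.RW (lap dx dy)
open Pool.Agent.Zk60.BW (TT TT_nonneg VV VV_le QQ)

variable {ν : ℕ} {K : Kal ν} {F : ℕ → Set ℂ} {k : ℕ}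

/-- the integer points and the scales -/
structure Sq (K : Kal ν) (F : ℕ → Set ℂ) where
  d : ∀ n, Num K.D (K.B + K.B) n
  R : ℕ → ℕ
  pos : ∀ n, 0 < R n
  osc : ∀ n, ∀ j ≤ n, ∀ A B : ℤ, ¬ (A = 0 ∧ B = 0) →
    ‖∫ z in F j, Complex.exp ((((K.a * R n) * A * z.re + (K.b * R n) * B * z.im : ℝ) : ℂ) *
      Complex.I)‖ ≤ Real.exp (-((n + 1 : ℕ) : ℝ))

theorem exists_sq (K : Kal ν) (F : ℕ → Set ℂ) (hF : ∀ j, MeasurableSet (F j)) :
    Nonempty (Sq K F) := by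
  choose R hR0 hR using fun n : ℕ => exists_scales F hF K.a K.b K.ha K.hb n
    (Real.exp (-((n + 1 : ℕ) : ℝ))) (Real.exp_pos _)
  exact ⟨⟨fun n => (exists_num K.D K.hD (K.B + K.B) n).some, R, hR0, hR⟩⟩

/-- the eigenfunctions -/
noncomputable def Sq.u (s : Sq K F) (φ : ℝ) (n : ℕ) : ℂ → ℝ := K.u (s.d n) (s.R n) φ

/-- the eigenvalues -/
noncomputable def Sq.lam (s : Sq K F) (n : ℕ) : ℝ := K.lam (s.d n) (s.R n)

theorem Sq.tendsto_lam (s : Sq K F) : Tendsto s.lam atTop atTop := by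
  have hc := K.hc
  have h1 : Tendsto (fun n : ℕ => K.c ^ 2 * (2 : ℝ) ^ n) atTop atTop :=
    (tendsto_pow_atTop_atTop_of_one_lt (by norm_num : (1 : ℝ) < 2)).const_mul_atTop (by positivity)
  refine tendsto_atTop_mono (fun n => ?_) h1
  have h2 : (2 : ℝ) ^ n ≤ (s.d n).N := by
    have h3 : 2 ^ n ≤ (s.d n).N :=
      (Nat.pow_le_pow_right (by norm_num) (Nat.le_succ n)).trans (s.d n).big
    exact_mod_cast h3
  have h4 : (1 : ℝ) ≤ (2 : ℝ) ^ n := one_le_pow₀ (by norm_num)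
  have h5 : (1 : ℝ) ≤ s.R n := by exact_mod_cast s.pos n
  unfold Sq.lam Kal.lam
  have h6 : (2 : ℝ) ^ n ≤ s.R n * (s.d n).N := by nlinarith
  have e : (K.c * s.R n * (s.d n).N) ^ 2 = K.c ^ 2 * (s.R n * (s.d n).N) ^ 2 := by ring
  rw [e]
  refine mul_le_mul_of_nonneg_left ?_ (by positivity)
  nlinarith

theorem Ind.weaken {X : Type*} [MeasurableSpace X] {P : Measure X} {n : ℕ} {G : Fin n → X → ℝ}
    {V : Fin n → ℝ} {T T' : ℝ} (h : Ind P G V T) (hT : T ≤ T') : Ind P G V T' :=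
  ⟨h.meas, fun i x => (h.bdd i x).trans hT, h.mean, h.var⟩

theorem TT_smul (t : Fin k → ℝ) (c : ℝ) : TT (fun j => c * t j) = |c| * TT t := by
  unfold TT
  rw [Finset.mul_sum]
  exact Finset.sum_congr rfl fun j _ => abs_mul _ _

theorem VV_smul (w : Fin k → ℂ) (t : Fin k → ℝ) (c X Y : ℝ) :
    VV w (fun j => c * t j) X Y = c ^ 2 * VV w t X Y := by
  unfold VV
  rw [Finset.mul_sum]
  refine Finset.sum_congr rfl fun i _ => ?_
  rw [Finset.mul_sum]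
  refine Finset.sum_congr rfl fun j _ => ?_
  ring

theorem tendsto_inv_succ : Tendsto (fun n : ℕ => 1 / ((n + 1 : ℕ) : ℝ)) atTop (𝓝 0) := by
  have := tendsto_one_div_add_atTop_nhds_zero_nat (𝕜 := ℝ)
  refine this.congr fun n => ?_
  push_cast
  rfl

theorem tendsto_sqrt_succ : Tendsto (fun n : ℕ => √((n + 1 : ℕ) : ℝ)) atTop atTop := by
  refine Real.tendsto_sqrt_atTop.comp ?_
  exact tendsto_natCast_atTop_atTop.comp (tendsto_add_atTop_nat 1)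

theorem tendsto_exp_sqrt (T : ℝ) : Tendsto (fun n : ℕ => Real.exp (√((n + 1 : ℕ) : ℝ) * T) *
    Real.exp (-((n + 1 : ℕ) : ℝ))) atTop (𝓝 0) := by
  have h1 : Tendsto (fun y : ℝ => y * (y - T)) atTop atTop :=
    tendsto_id.atTop_mul_atTop₀ (tendsto_atTop_add_const_right atTop (-T) tendsto_id)
  have h2 := Real.tendsto_exp_neg_atTop_nhds_zero.comp (h1.comp tendsto_sqrt_succ)
  refine h2.congr fun n => ?_
  simp only [Function.comp]
  rw [← Real.exp_add]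
  congr 1
  have : √((n + 1 : ℕ) : ℝ) ^ 2 = ((n + 1 : ℕ) : ℝ) := Real.sq_sqrt (by positivity)
  linear_combination -this

theorem tendsto_err (v T : ℝ) : Tendsto (fun n : ℕ =>
    v * (4 * ((1 / 4) ^ (n + 1) * Real.exp (4 * T ^ 2))) +
      2 * (Real.exp (√((n + 1 : ℕ) : ℝ) * T) * Real.exp (-((n + 1 : ℕ) : ℝ))) +
      v * (T ^ 3 / √((n + 1 : ℕ) : ℝ) + T ^ 4 / ((n + 1 : ℕ) : ℝ))) atTop (𝓝 0) := by
  have e1 : Tendsto (fun n : ℕ => (1 / 4 : ℝ) ^ (n + 1)) atTop (𝓝 0) :=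
    (tendsto_pow_atTop_nhds_zero_of_lt_one (by norm_num) (by norm_num)).comp
      (tendsto_add_atTop_nat 1)
  have e2 : Tendsto (fun n : ℕ => (√((n + 1 : ℕ) : ℝ))⁻¹) atTop (𝓝 0) :=
    tendsto_inv_atTop_zero.comp tendsto_sqrt_succ
  have e3 : Tendsto (fun n : ℕ => v * (4 * ((1 / 4 : ℝ) ^ (n + 1) *
      Real.exp (4 * T ^ 2)))) atTop (𝓝 (v * (4 * (0 * Real.exp (4 * T ^ 2))))) :=
    ((e1.mul_const _).const_mul _).const_mul _
  have e4 : Tendsto (fun n : ℕ => v * (T ^ 3 * (√((n + 1 : ℕ) : ℝ))⁻¹ +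
      T ^ 4 * (1 / ((n + 1 : ℕ) : ℝ)))) atTop (𝓝 (v * (T ^ 3 * 0 + T ^ 4 * 0))) :=
    ((e2.const_mul _).add (tendsto_inv_succ.const_mul _)).const_mul _
  have e5 := (e3.add ((tendsto_exp_sqrt T).const_mul 2)).add e4
  simp only [zero_mul, mul_zero, add_zero] at e5
  refine e5.congr fun n => ?_
  simp only [div_eq_mul_inv, one_mul]

/-- the local combinations -/
theorem Sq.comb (s : Sq K F) (φ : ℝ) (w : Fin k → ℂ) (t : Fin k → ℝ) (c : ℝ) (n : ℕ) (z : ℂ) :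
    ∑ j, t j * (c * s.u φ n (z + w j / ((√(s.lam n) : ℝ) : ℂ))) =
      SS (K.G (s.d n) w (fun j => c * t j) φ)
        (Ph (K.a * s.R n) (K.b * s.R n) (s.d n).l (s.d n).m z) := by
  unfold Sq.u Sq.lam
  rw [← K.comb (s.d n) (s.R n) (s.pos n) φ w (fun j => c * t j) z]
  exact Finset.sum_congr rfl fun j _ => by ring

theorem fin_restrict {S : Set ℂ} (h : volume S ≠ ⊤) : IsFiniteMeasure (volume.restrict S) :=
  ⟨by rw [Measure.restrict_apply_univ]; exact lt_top_iff_ne_top.2 h⟩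

theorem Sq.char_F (s : Sq K F) (φ : ℝ) (w : Fin k → ℂ) (t : Fin k → ℝ) (c : ℕ → ℝ)
    (hc : Tendsto c atTop (𝓝 1)) (j : ℕ) (hFj : volume (F j) ≠ ⊤) :
    Tendsto (fun n => ∫ z in F j, Complex.exp (((∑ i, t i * (c n * s.u φ n
      (z + w i / ((√(s.lam n) : ℝ) : ℂ))) : ℝ) : ℂ) * Complex.I)) atTop
      (𝓝 (volume.real (F j) • ((Real.exp (-(QQ w t) / 2) : ℝ) : ℂ))) := by
  have := fin_restrict hFj
  obtain ⟨C, hC⟩ := K.ave w t
  set T : ℝ := 2 * (2 * √ν * TT t) with hT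
  have hT0 : 0 ≤ T := by
    have := TT_nonneg t
    positivity
  set av : ℕ → ℝ := fun n => (1 / ((n + 1 : ℕ) : ℝ)) * ∑ i, (1 / (ν : ℝ)) *
    ∑ ρ, VV w t (K.X (s.d n) i ρ) (K.Y (s.d n) i ρ) with hav
  have h1 : Tendsto av atTop (𝓝 (QQ w t)) := by
    rw [tendsto_iff_dist_tendsto_zero]
    refine squeeze_zero (fun _ => dist_nonneg) (g := fun n : ℕ => C * (1 / ((n + 1 : ℕ) : ℝ)))
      (fun n => ?_) (by simpa using tendsto_inv_succ.const_mul C)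
    rw [Real.dist_eq]
    exact (hC n (s.d n)).trans (le_of_eq (by ring))
  have h1' : Tendsto (fun n => c n ^ 2 * av n) atTop (𝓝 (QQ w t)) := by
    have := (hc.pow 2).mul h1
    simpa using this
  have h2 : Tendsto (fun n => ((Real.exp (-(c n ^ 2 * av n) / 2) : ℝ) : ℂ)) atTop
      (𝓝 ((Real.exp (-(QQ w t) / 2) : ℝ) : ℂ)) := by
    refine (Complex.continuous_ofReal.tendsto _).comp ?_
    refine (Real.continuous_exp.tendsto _).comp ?_
    exact (h1'.neg).div_const 2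
  have h3 : Tendsto (fun n => volume.real (F j) • ((Real.exp (-(c n ^ 2 * av n) / 2) : ℝ) : ℂ))
      atTop (𝓝 (volume.real (F j) • ((Real.exp (-(QQ w t) / 2) : ℝ) : ℂ))) := h2.const_smul _
  refine tendsto_of_tendsto_of_dist h3 ?_
  refine squeeze_zero' (Eventually.of_forall fun _ => dist_nonneg) ?_
    (tendsto_err (volume.real (F j)) T)
  obtain ⟨n0, hn0⟩ := exists_nat_ge (4 * T ^ 2)
  have hc2 : ∀ᶠ n in atTop, |c n| ≤ 2 := by
    have := hc.abs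
    rw [abs_one] at this
    exact this.eventually (ge_mem_nhds (by norm_num))
  filter_upwards [eventually_ge_atTop n0, eventually_ge_atTop j, hc2] with n hn hnj hcn
  have hTn : 4 * T ^ 2 ≤ ((n + 1 : ℕ) : ℝ) := by
    refine hn0.trans ?_
    exact_mod_cast (by omega : n0 ≤ n + 1)
  have hTle : 2 * √ν * TT (fun j => c n * t j) ≤ T := by
    rw [TT_smul, hT]
    have := TT_nonneg t
    have h5 : |c n| * TT t ≤ 2 * TT t := mul_le_mul_of_nonneg_right hcn this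
    calc 2 * √ν * (|c n| * TT t) ≤ 2 * √ν * (2 * TT t) :=
          mul_le_mul_of_nonneg_left h5 (by positivity)
      _ = _ := by ring
  have hI := (K.ind (s.d n) w (fun j => c n * t j) φ).weaken hTle
  have hmr : (volume.restrict (F j)).real univ = volume.real (F j) := by
    rw [measureReal_restrict_apply_univ]
  have c1 := compare (volume.restrict (F j)) (K.a * s.R n) (K.b * s.R n)
    (Real.exp (-((n + 1 : ℕ) : ℝ))) (s.d n).l (s.d n).m (s.d n).rel (s.osc n j hnj)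
    (Real.exp_pos _).le hI hT0
    (fun i => (K.tb (s.d n) w (fun j => c n * t j) φ i).mono le_rfl hTle) (Nat.succ_pos n) hTn
  have c2 := hI.char_sum hT0 (Nat.succ_pos n) hTn
  have e : (1 / ((n + 1 : ℕ) : ℝ)) * ∑ i, (1 / (ν : ℝ)) *
      ∑ ρ, VV w (fun j => c n * t j) (K.X (s.d n) i ρ) (K.Y (s.d n) i ρ) = c n ^ 2 * av n := by
    simp only [VV_smul, hav, ← Finset.mul_sum]
    ring
  rw [e] at c2
  rw [hmr] at c1
  rw [dist_comm, dist_eq_norm]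
  simp only [s.comb φ w t]
  have hv : 0 ≤ volume.real (F j) := measureReal_nonneg
  have c3 : ∀ A B C' : ℂ, ‖A - C'‖ ≤ ‖A - B‖ + ‖B - C'‖ := fun A B C' => by
    have : A - C' = (A - B) + (B - C') := by ring
    rw [this]
    exact norm_add_le _ _
  refine (c3 _ _ _).trans (add_le_add c1 ?_)
  rw [Complex.real_smul, ← mul_sub, norm_mul, Complex.norm_real, Real.norm_eq_abs, abs_of_nonneg hv]
  exact mul_le_mul_of_nonneg_left c2 hv

/-! ### moments -/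

/-- the eigenfunction as the sum of the model -/
noncomputable def Sq.S (s : Sq K F) (φ : ℝ) (n : ℕ) : (Fin (n + 1) → X4) → ℝ :=
  SS (K.G (s.d n) (fun _ : Fin 1 => (0 : ℂ)) (fun _ => 1) φ)

theorem Sq.u_eq (s : Sq K F) (φ : ℝ) (n : ℕ) (z : ℂ) : s.u φ n z =
    s.S φ n (Ph (K.a * s.R n) (K.b * s.R n) (s.d n).l (s.d n).m z) := by
  have h := s.comb φ (fun _ : Fin 1 => (0 : ℂ)) (fun _ => 1) 1 n z
  simp only [Finset.univ_unique, Finset.sum_singleton, one_mul, zero_div, add_zero] at h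
  exact h

theorem TT_one : TT (fun _ : Fin 1 => (1 : ℝ)) = 1 := by simp [TT]

theorem VV_one (X Y : ℝ) : VV (fun _ : Fin 1 => (0 : ℂ)) (fun _ => 1) X Y = 1 := by simp [VV]

theorem Sq.ind (s : Sq K F) (φ : ℝ) (n : ℕ) :
    Ind P4 (K.G (s.d n) (fun _ : Fin 1 => (0 : ℂ)) (fun _ => 1) φ)
      (fun i => (1 / (ν : ℝ)) * ∑ ρ, VV (fun _ : Fin 1 => (0 : ℂ)) (fun _ => 1)
        (K.X (s.d n) i ρ) (K.Y (s.d n) i ρ)) (2 * √ν) := by
  have h := K.ind (s.d n) (fun _ : Fin 1 => (0 : ℂ)) (fun _ => 1) φ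
  rwa [TT_one, mul_one] at h

theorem Sq.tb (s : Sq K F) (φ : ℝ) (n : ℕ) (i : Fin (n + 1)) : TB (n + 1) (K.B + K.B) (2 * √ν)
    fun x => ((K.G (s.d n) (fun _ : Fin 1 => (0 : ℂ)) (fun _ => 1) φ i (x i) : ℝ) : ℂ) := by
  have h := K.tb (s.d n) (fun _ : Fin 1 => (0 : ℂ)) (fun _ => 1) φ i
  rwa [TT_one, mul_one] at h

theorem Sq.ave_one (s : Sq K F) (n : ℕ) : (1 / ((n + 1 : ℕ) : ℝ)) * ∑ i, (1 / (ν : ℝ)) *
    ∑ ρ, VV (fun _ : Fin 1 => (0 : ℂ)) (fun _ => 1) (K.X (s.d n) i ρ) (K.Y (s.d n) i ρ) = 1 := by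
  have hν : (0 : ℝ) < ν := by exact_mod_cast K.hν
  simp only [VV_one, Finset.sum_const, Finset.card_univ, Fintype.card_fin, nsmul_eq_mul, mul_one]
  have : ((n + 1 : ℕ) : ℝ) ≠ 0 := by positivity
  field_simp

theorem Sq.cont (s : Sq K F) (φ : ℝ) (n : ℕ) : Continuous (s.u φ n) :=
  (K.contDiff (s.d n) (s.R n) φ).continuous

theorem Sq.bdd (s : Sq K F) (φ : ℝ) (n : ℕ) : ∃ C, ∀ z, |s.u φ n z| ≤ C :=
  ⟨_, fun z => by rw [s.u_eq]; exact (s.ind φ n).absSS _⟩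

theorem Sq.intOn (s : Sq K F) (φ : ℝ) (n r : ℕ) (S : Set ℂ) (hS : volume S ≠ ⊤) :
    IntegrableOn (fun z => s.u φ n z ^ r) S := by
  have := fin_restrict hS
  obtain ⟨C, hC⟩ := s.bdd φ n
  exact Integrable.of_bound ((s.cont φ n).pow r).aestronglyMeasurable (C ^ r)
    (ae_of_all _ fun x => by
      rw [norm_pow, Real.norm_eq_abs]; exact pow_le_pow_left₀ (abs_nonneg _) (hC x) r)

theorem Sq.sq_F (s : Sq K F) (φ : ℝ) (j : ℕ) (hFj : volume (F j) ≠ ⊤) :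
    Tendsto (fun n => ∫ z in F j, s.u φ n z ^ 2) atTop (𝓝 (volume.real (F j) • (1 : ℝ))) := by
  have := fin_restrict hFj
  rw [tendsto_iff_dist_tendsto_zero]
  have h0 : Tendsto (fun n : ℕ => (4 * (2 * √(ν : ℝ)) ^ 2) * (Real.exp (√((n + 1 : ℕ) : ℝ) * 1) *
      Real.exp (-((n + 1 : ℕ) : ℝ)))) atTop (𝓝 0) := by
    simpa using (tendsto_exp_sqrt 1).const_mul (4 * (2 * √(ν : ℝ)) ^ 2)
  refine squeeze_zero' (Eventually.of_forall fun _ => dist_nonneg) ?_ h0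
  filter_upwards [eventually_ge_atTop j] with n hnj
  have c1 := compare_sq (volume.restrict (F j)) (K.a * s.R n) (K.b * s.R n)
    (Real.exp (-((n + 1 : ℕ) : ℝ))) (s.d n).l (s.d n).m (s.d n).rel (s.osc n j hnj)
    (Real.exp_pos _).le (s.ind φ n) (s.tb φ n) (Nat.succ_pos n)
  rw [s.ave_one, mul_one, measureReal_restrict_apply_univ] at c1
  simp only [s.u_eq]
  rw [Real.dist_eq, smul_eq_mul, mul_one]
  refine c1.trans ?_
  have e : (√((n + 1 : ℕ) : ℝ) * (2 * √ν)) ^ 2 * Real.exp (-((n + 1 : ℕ) : ℝ)) =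
      (2 * √ν) ^ 2 * (√((n + 1 : ℕ) : ℝ) ^ 2 * Real.exp (-((n + 1 : ℕ) : ℝ))) := by ring
  have e' : 4 * (2 * √ν) ^ 2 * (Real.exp (√((n + 1 : ℕ) : ℝ) * 1) *
      Real.exp (-((n + 1 : ℕ) : ℝ))) = (2 * √ν) ^ 2 * ((4 * Real.exp (√((n + 1 : ℕ) : ℝ))) *
      Real.exp (-((n + 1 : ℕ) : ℝ))) := by
    rw [mul_one]; ring
  rw [e, e']
  refine mul_le_mul_of_nonneg_left (mul_le_mul_of_nonneg_right ?_ (Real.exp_pos _).le)
    (by positivity)
  have h5 := Real.pow_div_factorial_le_exp (√((n + 1 : ℕ) : ℝ)) (Real.sqrt_nonneg _) 2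
  have h6 : ((2 : ℕ).factorial : ℝ) = 2 := by norm_num [Nat.factorial]
  rw [h6] at h5
  have := Real.exp_pos (√((n + 1 : ℕ) : ℝ))
  linarith

end Pool.Agent.Zk91.KB
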