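import Pool.Agent.Zk91.KB.Wave

/-!
# The mirrors and the boundary conditions
-/

set_option autoImplicit false

open Filter Topology Real MeasureTheory Set
open scoped ContDiff

namespace Pool.Agent.Zk91.KB

open Pool.Agent.W745.RW (lap dx dy)
open Pool.Agent.Zk60.BW (dx_sum dy_sum dx_mode dy_mode contDiff_mode)

/-- the mirrors of the `k`-th direction in the kaleidoscope with `2 r` mirrors meeting in `0`: the
lines `Re (e^{iπk/r} z) ∈ s ℤ` for even `k` and `Re (e^{iπk/r} z) ∈ 2 cos (π/r) s ℤ` for odd `k` -/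
def Mirror (r : ℕ) (s : ℝ) (k : ℕ) : Set ℂ :=
  {z | ∃ j : ℤ, (Complex.exp (Complex.I * ((π * k / r : ℝ) : ℂ)) * z).re =
    j * (if Even k then s else 2 * cos (π / r) * s)}

theorem exp_even (r i : ℕ) : Complex.exp (Complex.I * ((π * (2 * i : ℕ) / r : ℝ) : ℂ)) =
    Complex.exp (Complex.I * ((2 * π / r : ℝ) : ℂ)) ^ i := by
  rw [← Complex.exp_nat_mul]
  congr 1
  push_cast
  ring

theorem exp_odd (r i : ℕ) :
    Complex.exp (Complex.I * ((π * (2 * i + 1 : ℕ) / r : ℝ) : ℂ)) =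
    Complex.exp (Complex.I * ((2 * π / r : ℝ) : ℂ)) ^ i *
      Complex.exp (Complex.I * ((π / r : ℝ) : ℂ)) := by
  rw [← Complex.exp_nat_mul, ← Complex.exp_add]
  congr 1
  push_cast
  ring

section general

variable {r : ℕ} {s : ℝ} {u : ℂ → ℝ}

theorem rot_pow {o : ℂ} (hrot : ∀ z, u (o * z) = u z) (i : ℕ) (z : ℂ) : u (o ^ i * z) = u z := by
  induction i with
  | zero => simp
  | succ i ih => rw [pow_succ', mul_assoc, hrot, ih]

theorem fderiv_rot {o : ℂ} (hu : Differentiable ℝ u) (hrot : ∀ z, u (o * z) = u z) (z v : ℂ) :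
    fderiv ℝ u z v = fderiv ℝ u (o * z) (o * v) := by
  have h1 : HasFDerivAt (fun z => u (o * z))
      ((fderiv ℝ u (o * z)).comp (ContinuousLinearMap.mul ℝ ℂ o)) z :=
    (hu (o * z)).hasFDerivAt.comp z (ContinuousLinearMap.mul ℝ ℂ o).hasFDerivAt
  have h2 : (fun z => u (o * z)) = u := funext hrot
  rw [h2] at h1
  rw [h1.fderiv]
  rfl

theorem dirichlet_of
    (hrot : ∀ z, u (Complex.exp (Complex.I * ((2 * π / r : ℝ) : ℂ)) * z) = u z)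
    (h0 : ∀ z : ℂ, (∃ j : ℤ, z.re = j * s) → u z = 0)
    (h1 : ∀ z : ℂ, (∃ j : ℤ, (Complex.exp (Complex.I * ((π / r : ℝ) : ℂ)) * z).re =
      j * (2 * cos (π / r) * s)) → u z = 0) (k : ℕ) (z : ℂ) (hz : z ∈ Mirror r s k) : u z = 0 := by
  obtain ⟨j, hj⟩ := hz
  obtain ⟨i, hi | hi⟩ := Nat.even_or_odd' k
  · subst hi
    rw [exp_even r i, if_pos ⟨i, by ring⟩] at hj
    rw [← rot_pow hrot i z]
    exact h0 _ ⟨j, hj⟩
  · subst hi
    rw [exp_odd r i, if_neg (Nat.not_even_iff_odd.2 ⟨i, rfl⟩)] at hj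
    rw [← rot_pow hrot i z]
    refine h1 _ ⟨j, ?_⟩
    rw [← hj]
    congr 1
    ring

theorem neumann_of (hu : Differentiable ℝ u)
    (hrot : ∀ z, u (Complex.exp (Complex.I * ((2 * π / r : ℝ) : ℂ)) * z) = u z)
    (h0 : ∀ z : ℂ, (∃ j : ℤ, z.re = j * s) → fderiv ℝ u z 1 = 0)
    (h1 : ∀ z : ℂ, (∃ j : ℤ, (Complex.exp (Complex.I * ((π / r : ℝ) : ℂ)) * z).re =
      j * (2 * cos (π / r) * s)) →
      fderiv ℝ u z (Complex.exp (-(Complex.I * ((π / r : ℝ) : ℂ)))) = 0)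
    (k : ℕ) (z : ℂ) (hz : z ∈ Mirror r s k) :
    fderiv ℝ u z (Complex.exp (-(Complex.I * ((π * k / r : ℝ) : ℂ)))) = 0 := by
  obtain ⟨j, hj⟩ := hz
  obtain ⟨i, hi | hi⟩ := Nat.even_or_odd' k
  · subst hi
    rw [Complex.exp_neg]
    rw [exp_even r i] at hj ⊢
    rw [if_pos ⟨i, by ring⟩] at hj
    rw [fderiv_rot hu (rot_pow hrot i) z, mul_inv_cancel₀ (pow_ne_zero _ (Complex.exp_ne_zero _))]
    exact h0 _ ⟨j, hj⟩
  · subst hi
    rw [Complex.exp_neg]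
    rw [exp_odd r i] at hj ⊢
    rw [if_neg (Nat.not_even_iff_odd.2 ⟨i, rfl⟩)] at hj
    have h2 := h1 (Complex.exp (Complex.I * ((2 * π / r : ℝ) : ℂ)) ^ i * z) ⟨j, by
      rw [← hj]
      congr 1
      ring⟩
    rw [fderiv_rot hu (rot_pow hrot i) z, mul_inv,
      mul_inv_cancel_left₀ (pow_ne_zero _ (Complex.exp_ne_zero _)), ← Complex.exp_neg]
    exact h2

end general

/-! ### products of sines -/

theorem mode_eq (φ : ℝ) (hφ : sin (2 * φ) = 0) (x y : ℝ) :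
    sin (x + φ) * sin (y + φ) = (cos (x - y) - cos (2 * φ) * cos (x + y)) / 2 := by
  have h1 : cos (x - y) = cos ((x + φ) - (y + φ)) := by congr 1; ring
  have h2 : cos ((x + φ) + (y + φ)) = cos (x + y) * cos (2 * φ) - sin (x + y) * sin (2 * φ) := by
    rw [← cos_add]; congr 1; ring
  rw [cos_sub (x + φ) (y + φ)] at h1
  rw [cos_add (x + φ) (y + φ), hφ] at h2
  linarith

variable {ν n : ℕ} (K : Kal ν) (d : Num K.D (K.B + K.B) n)

theorem Kal.u_eq_sum (R : ℕ) (φ : ℝ) (z : ℂ) : K.u d R φ z =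
    (2 / √ν * (1 / √((n + 1 : ℕ) : ℝ))) * ∑ i, ∑ ρ,
      sin (K.al d R i ρ * z.re + φ) * sin (K.be d R i ρ * z.im + φ) := by
  unfold Kal.u
  rw [Fintype.sum_prod_type]

theorem Kal.sin_re (s : ℝ) (hs : K.a * s = π) (R : ℕ) (i : Fin (n + 1)) (ρ : Fin ν) (j : ℤ) :
    sin (K.al d R i ρ * (j * s)) = 0 := by
  unfold Kal.al
  have e : K.a * R * ((K.g ρ).1 * d.l i + (K.g ρ).2 * d.m i) * (j * s) =
      ((R * ((K.g ρ).1 * d.l i + (K.g ρ).2 * d.m i) * j : ℤ) : ℝ) * (K.a * s) := by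
    push_cast
    ring
  rw [e, hs, Real.sin_int_mul_pi]

theorem Kal.sin_im (s : ℝ) (hs : K.b * s = π) (R : ℕ) (i : Fin (n + 1)) (ρ : Fin ν) (j : ℤ) :
    sin (K.be d R i ρ * (j * s)) = 0 := by
  unfold Kal.be
  have e : K.b * R * ((K.g' ρ).1 * d.l i + (K.g' ρ).2 * d.m i) * (j * s) =
      ((R * ((K.g' ρ).1 * d.l i + (K.g' ρ).2 * d.m i) * j : ℤ) : ℝ) * (K.b * s) := by
    push_cast
    ring
  rw [e, hs, Real.sin_int_mul_pi]

theorem Kal.dir_re (s : ℝ) (hs : K.a * s = π) (R : ℕ) (z : ℂ) (hz : ∃ j : ℤ, z.re = j * s) :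
    K.u d R 0 z = 0 := by
  obtain ⟨j, hj⟩ := hz
  unfold Kal.u
  rw [mul_eq_zero]
  right
  refine Finset.sum_eq_zero fun q _ => ?_
  rw [hj, add_zero, K.sin_re d s hs, zero_mul]

theorem Kal.dir_im (s : ℝ) (hs : K.b * s = π) (R : ℕ) (z : ℂ) (hz : ∃ j : ℤ, z.im = j * s) :
    K.u d R 0 z = 0 := by
  obtain ⟨j, hj⟩ := hz
  unfold Kal.u
  rw [mul_eq_zero]
  right
  refine Finset.sum_eq_zero fun q _ => ?_
  rw [hj, add_zero (K.be d R q.1 q.2 * (j * s)), K.sin_im d s hs, mul_zero]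

theorem Kal.dx_u (R : ℕ) (φ : ℝ) (z : ℂ) : fderiv ℝ (K.u d R φ) z 1 =
    (2 / √ν * (1 / √((n + 1 : ℕ) : ℝ))) * ∑ q : Fin (n + 1) × Fin ν,
      K.al d R q.1 q.2 * cos (K.al d R q.1 q.2 * z.re + φ) * sin (K.be d R q.1 q.2 * z.im + φ) := by
  have e : K.u d R φ = fun z => (2 / √ν * (1 / √((n + 1 : ℕ) : ℝ))) *
      ∑ q ∈ (Finset.univ : Finset (Fin (n + 1) × Fin ν)),
      (fun z : ℂ => sin (K.al d R q.1 q.2 * z.re + φ) * sin (K.be d R q.1 q.2 * z.im + φ)) z := rfl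
  have h := dx_sum (Finset.univ : Finset (Fin (n + 1) × Fin ν))
    (2 / √ν * (1 / √((n + 1 : ℕ) : ℝ))) _
    (fun q => contDiff_mode (K.al d R q.1 q.2) (K.be d R q.1 q.2) φ)
  rw [← e] at h
  have h2 := congrFun h z
  simp only [dx_mode] at h2
  exact h2

theorem Kal.dy_u (R : ℕ) (φ : ℝ) (z : ℂ) : fderiv ℝ (K.u d R φ) z Complex.I =
    (2 / √ν * (1 / √((n + 1 : ℕ) : ℝ))) * ∑ q : Fin (n + 1) × Fin ν,
      sin (K.al d R q.1 q.2 * z.re + φ) *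
        (K.be d R q.1 q.2 * cos (K.be d R q.1 q.2 * z.im + φ)) := by
  have e : K.u d R φ = fun z => (2 / √ν * (1 / √((n + 1 : ℕ) : ℝ))) *
      ∑ q ∈ (Finset.univ : Finset (Fin (n + 1) × Fin ν)),
      (fun z : ℂ => sin (K.al d R q.1 q.2 * z.re + φ) * sin (K.be d R q.1 q.2 * z.im + φ)) z := rfl
  have h := dy_sum (Finset.univ : Finset (Fin (n + 1) × Fin ν))
    (2 / √ν * (1 / √((n + 1 : ℕ) : ℝ))) _
    (fun q => contDiff_mode (K.al d R q.1 q.2) (K.be d R q.1 q.2) φ)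
  rw [← e] at h
  have h2 := congrFun h z
  simp only [dy_mode] at h2
  exact h2

theorem Kal.neu_re (s : ℝ) (hs : K.a * s = π) (R : ℕ) (z : ℂ) (hz : ∃ j : ℤ, z.re = j * s) :
    fderiv ℝ (K.u d R (π / 2)) z 1 = 0 := by
  obtain ⟨j, hj⟩ := hz
  rw [K.dx_u, mul_eq_zero]
  right
  refine Finset.sum_eq_zero fun q _ => ?_
  rw [hj, cos_add_pi_div_two, K.sin_re d s hs]
  simp

theorem Kal.neu_im (s : ℝ) (hs : K.b * s = π) (R : ℕ) (z : ℂ) (hz : ∃ j : ℤ, z.im = j * s) :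
    fderiv ℝ (K.u d R (π / 2)) z Complex.I = 0 := by
  obtain ⟨j, hj⟩ := hz
  rw [K.dy_u, mul_eq_zero]
  right
  refine Finset.sum_eq_zero fun q _ => ?_
  rw [hj, cos_add_pi_div_two (K.be d R q.1 q.2 * (j * s)), K.sin_im d s hs]
  simp

end Pool.Agent.Zk91.KB
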