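import Pool.Agent.Zk91.KB.Gen
import Pool.Agent.Zk91.KB.Blk

/-!
# The law of one block function
-/

set_option autoImplicit false

open Filter Topology Real MeasureTheory Set ProbabilityTheory

namespace Pool.Agent.Zk91.KB

open Pool.Agent.Zk60.BW (TT TT_nonneg VV VV_le)

variable {K k : ℕ}

/-- the product sine functions with mean square one and phase `φ` (`0`: Dirichlet, `π/2`:
Neumann) -/
noncomputable def mode (φ α β : ℝ) (p : ℕ × ℕ) (z : ℂ) : ℝ :=
  2 * (sin (α * p.1 * z.re + φ) * sin (β * p.2 * z.im + φ))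

/-- the block functions -/
noncomputable def Ub (φ α β : ℝ) (H : Fin K → ℝ) (pts : Fin K → ℕ × ℕ) (z : ℂ) : ℝ :=
  (1 / √(K : ℝ)) * ∑ i, H i * mode φ α β (pts i) z

/-- the summands of the model -/
noncomputable def Gb (φ α β lam : ℝ) (H : Fin K → ℝ) (pts : Fin K → ℕ × ℕ) (w : Fin k → ℂ)
    (t : Fin k → ℝ) (i : Fin K) (x : X4) : ℝ :=
  (H i * 2) * KF (ν := 1) (fun _ => (1, 0)) (fun _ => (0, 1)) w t φ
    (fun _ => α * (pts i).1 / √lam) (fun _ => β * (pts i).2 / √lam) x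

theorem vec1 : Vec (fun _ : Fin 1 => ((1 : ℤ), (0 : ℤ))) (fun _ => (0, 1)) where
  ne := by decide
  inj := by decide
  neg := by decide
  neg' := by decide

theorem comb_b (φ α β lam : ℝ) (hlam : 0 < lam) (H : Fin K → ℝ) (pts : Fin K → ℕ × ℕ)
    (w : Fin k → ℂ) (t : Fin k → ℝ) (z : ℂ) :
    ∑ j, t j * Ub φ α β H pts (z + w j / ((√lam : ℝ) : ℂ)) =
      SS (Gb φ α β lam H pts w t) (Ph α β (fun i => ((pts i).1 : ℤ)) (fun i => ((pts i).2 : ℤ)) z) := by
  have hs : 0 < √lam := Real.sqrt_pos.2 hlam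
  unfold Ub SS Gb mode KF ln Ph
  simp only [Fintype.sum_prod_type, Finset.univ_unique, Finset.sum_singleton, Complex.add_re,
    Complex.add_im, Complex.div_ofReal_re, Complex.div_ofReal_im, Finset.mul_sum]
  rw [Finset.sum_comm]
  refine Finset.sum_congr rfl fun i _ => ?_
  refine Finset.sum_congr rfl fun j _ => ?_
  have e1 : α * (pts i).1 * (z.re + (w j).re / √lam) + φ =
      ((1 : ℤ) : ℝ) * (α * (((pts i).1 : ℤ) : ℝ) * z.re) +
        ((0 : ℤ) : ℝ) * (α * (((pts i).2 : ℤ) : ℝ) * z.re) +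
        (α * (pts i).1 / √lam * (w j).re + φ) := by
    push_cast
    field_simp
    ring
  have e2 : β * (pts i).2 * (z.im + (w j).im / √lam) + φ =
      ((0 : ℤ) : ℝ) * (β * (((pts i).1 : ℤ) : ℝ) * z.im) +
        ((1 : ℤ) : ℝ) * (β * (((pts i).2 : ℤ) : ℝ) * z.im) +
        (β * (pts i).2 / √lam * (w j).im + φ) := by
    push_cast
    field_simp
    ring
  rw [e1, e2]
  ring

theorem ind_b (φ α β lam : ℝ) (H : Fin K → ℝ) (hH : ∀ i, H i ^ 2 = 1) (pts : Fin K → ℕ × ℕ)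
    (w : Fin k → ℂ) (t : Fin k → ℝ) :
    Ind P4 (Gb φ α β lam H pts w t)
      (fun i => VV w t (α * (pts i).1 / √lam) (β * (pts i).2 / √lam)) (2 * TT t) where
  meas i := by
    unfold Gb
    exact (continuous_const.mul (continuous_KF _ _ w t φ _ _)).measurable
  bdd i x := by
    unfold Gb
    have h0 : |H i| = 1 := by
      have := hH i
      rw [← sq_abs] at this
      nlinarith [abs_nonneg (H i)]
    rw [abs_mul, abs_mul, h0, one_mul, abs_two]
    have h1 := abs_KF_le (ν := 1) (fun _ => (1, 0)) (fun _ => (0, 1)) w t φ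
      (fun _ => α * (pts i).1 / √lam) (fun _ => β * (pts i).2 / √lam) x
    rw [Nat.cast_one, one_mul] at h1
    linarith
  mean i := by
    unfold Gb
    rw [integral_const_mul, int_KF vec1, mul_zero]
  var i := by
    unfold Gb
    simp only [mul_pow]
    rw [integral_const_mul, int_KF_sq vec1, hH i]
    simp only [Finset.univ_unique, Finset.sum_singleton]
    ring

theorem tb_b (φ α β lam : ℝ) (H : Fin K → ℝ) (hH : ∀ i, H i ^ 2 = 1) (pts : Fin K → ℕ × ℕ)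
    (w : Fin k → ℂ) (t : Fin k → ℝ) (i : Fin K) :
    TB K 2 (2 * TT t) fun x => ((Gb φ α β lam H pts w t i (x i) : ℝ) : ℂ) := by
  have h0 : |H i| = 1 := by
    have := hH i
    rw [← sq_abs] at this
    nlinarith [abs_nonneg (H i)]
  have h := (TB_KF (n := K) (ν := 1) (fun _ => (1, 0)) (fun _ => (0, 1)) 1
    (fun _ => ⟨by simp, by simp, by simp, by simp⟩) w t φ
    (fun _ => α * (pts i).1 / √lam) (fun _ => β * (pts i).2 / √lam) i).smul ((H i * 2 : ℝ) : ℂ)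
  have e : ‖((H i * 2 : ℝ) : ℂ)‖ * (((1 : ℕ) : ℝ) * TT t) = 2 * TT t := by
    rw [Complex.norm_real, Real.norm_eq_abs, abs_mul, h0, one_mul, abs_two, Nat.cast_one, one_mul]
  rw [e] at h
  unfold Gb
  simp only [Complex.ofReal_mul] at h ⊢
  exact h

/-- no short relations -/
def Diss (Q T : ℕ) (l m : Fin K → ℤ) : Prop := ∀ p ∈ Pat K Q, p ≠ 0 →
  (T : ℤ) < |∑ i, ((p i).1 * l i + (p i).2 * m i)|

theorem mem_Pat {Q : ℕ} (p : Fin K → ℤ × ℤ) : p ∈ Pat K Q ↔ ∀ i, |(p i).1| ≤ Q ∧ |(p i).2| ≤ Q := by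
  unfold Pat
  rw [Fintype.mem_piFinset]
  refine forall_congr' fun i => ?_
  rw [Finset.mem_product, Finset.mem_Icc, Finset.mem_Icc, abs_le, abs_le]

theorem osc_b (α β : ℝ) (hα : 0 < α) (hβ : 0 < β) (Q T : ℕ) (hT : 0 < T) (l m : Fin K → ℤ)
    (hd : Diss Q T l m) (C : Set ℂ) (h1 : Convex ℝ C) (h2 : Bornology.IsBounded C)
    (hm : MeasurableSet C)
    (h4a : 4 * Metric.diam C ≤ volume.real C * Real.exp (-(K : ℝ)) * (α * T))
    (h4b : 4 * Metric.diam C ≤ volume.real C * Real.exp (-(K : ℝ)) * (β * T))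
    (G : Fin K → Z4) (hG : ∀ i, Bd Q (G i)) (hG0 : G ≠ 0) :
    ‖∫ z in C, ch G (Ph α β l m z)‖ ≤ volume.real C * Real.exp (-(K : ℝ)) := by
  simp only [ch_Ph]
  set A : ℤ := ∑ i, ((G i).1.1 * l i + (G i).1.2 * m i) with hA
  set B : ℤ := ∑ i, ((G i).2.1 * l i + (G i).2.2 * m i) with hB
  have hT0 : (0 : ℝ) < T := by exact_mod_cast hT
  have hv : 0 ≤ volume.real C * Real.exp (-(K : ℝ)) := by positivity
  have fin : ∀ a : ℝ, 0 < a → ∀ A : ℤ, (T : ℤ) < |A| →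
      4 * Metric.diam C ≤ volume.real C * Real.exp (-(K : ℝ)) * (a * T) →
      4 * Metric.diam C / |a * A| ≤ volume.real C * Real.exp (-(K : ℝ)) := by
    intro a ha' A hA hbig
    have h5 : (T : ℝ) ≤ |(A : ℝ)| := by
      have h6 : (T : ℤ) ≤ |A| := hA.le
      exact_mod_cast h6
    have h6 : a * T ≤ |a * A| := by
      rw [abs_mul, abs_of_pos ha']
      exact mul_le_mul_of_nonneg_left h5 ha'.le
    rw [div_le_iff₀ (lt_of_lt_of_le (by positivity) h6)]
    exact hbig.trans (mul_le_mul_of_nonneg_left h6 hv)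
  obtain ⟨o1, o2⟩ := osc_convex C h1 hm h2 (α * A) (β * B)
  have nz : ∀ A : ℤ, (T : ℤ) < |A| → (A : ℝ) ≠ 0 := by
    intro A hA
    have : A ≠ 0 := by
      rintro rfl
      simp at hA
      omega
    exact_mod_cast this
  by_cases hp : (fun i => (G i).1) = (0 : Fin K → ℤ × ℤ)
  · have hp2 : (fun i => (G i).2) ≠ (0 : Fin K → ℤ × ℤ) := by
      intro hp2
      exact hG0 (funext fun i => Prod.ext (congrFun hp i) (congrFun hp2 i))
    have h := hd _ ((mem_Pat _).2 fun i => ⟨(hG i).2.2.1, (hG i).2.2.2⟩) hp2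
    exact (o2 (mul_ne_zero hβ.ne' (nz B h))).trans (fin β hβ B h h4b)
  · have h := hd _ ((mem_Pat _).2 fun i => ⟨(hG i).1, (hG i).2.1⟩) hp
    exact (o1 (mul_ne_zero hα.ne' (nz A h))).trans (fin α hα A h h4a)

theorem blk_law (φ α β lam : ℝ) (hα : 0 < α) (hβ : 0 < β) (hlam : 0 < lam) (hK : 0 < K)
    (H : Fin K → ℝ) (hH : ∀ i, H i ^ 2 = 1) (pts : Fin K → ℕ × ℕ) (T : ℕ) (hT : 0 < T)
    (hd : Diss (2 * K * 2) T (fun i => ((pts i).1 : ℤ)) (fun i => ((pts i).2 : ℤ)))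
    (w : Fin k → ℂ) (t : Fin k → ℝ) (T0 : ℝ) (hT0 : 0 ≤ T0) (hTt : 2 * TT t ≤ T0)
    (hTK : 4 * T0 ^ 2 ≤ K) (C : Set ℂ) (h1 : Convex ℝ C) (h2 : Bornology.IsBounded C)
    (hm : MeasurableSet C) (hvol : 0 < volume.real C)
    (h4a : 4 * Metric.diam C ≤ volume.real C * Real.exp (-(K : ℝ)) * (α * T))
    (h4b : 4 * Metric.diam C ≤ volume.real C * Real.exp (-(K : ℝ)) * (β * T)) :
    |1 / volume.real C * (∫ z in C, (∑ j, t j * Ub φ α β H pts (z + w j / ((√lam : ℝ) : ℂ))) ^ 2) -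
      (1 / (K : ℝ)) * ∑ i, VV w t (α * (pts i).1 / √lam) (β * (pts i).2 / √lam)| ≤
      (√(K : ℝ) * T0) ^ 2 * Real.exp (-(K : ℝ)) ∧
    ‖((1 / volume.real C : ℝ) : ℂ) * (∫ z in C, Complex.exp
      (((∑ j, t j * Ub φ α β H pts (z + w j / ((√lam : ℝ) : ℂ)) : ℝ) : ℂ) * Complex.I)) -
      ((Real.exp (-((1 / (K : ℝ)) * ∑ i, VV w t (α * (pts i).1 / √lam) (β * (pts i).2 / √lam)) / 2) :
        ℝ) : ℂ)‖ ≤ err' T0 K := by
  have hfin : IsFiniteMeasure (volume.restrict C) := fin_restrict h2.measure_lt_top.ne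
  have hmr : (volume.restrict C).real univ = volume.real C := by
    rw [measureReal_restrict_apply_univ]
  have hI := (ind_b φ α β lam H hH pts w t).weaken hTt
  have hG := fun i => (tb_b φ α β lam H hH pts w t i).mono le_rfl hTt
  have hδ : ∀ G : Fin K → Z4, (∀ i, Bd (2 * K * 2) (G i)) → G ≠ 0 →
      ‖∫ z in C, ch G (Ph α β (fun i => ((pts i).1 : ℤ)) (fun i => ((pts i).2 : ℤ)) z)‖ ≤
      (volume.restrict C).real univ * Real.exp (-(K : ℝ)) := by
    intro G hG1 hG2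
    rw [hmr]
    exact osc_b α β hα hβ _ T hT _ _ hd C h1 h2 hm h4a h4b G hG1 hG2
  have hV : 0 < (volume.restrict C).real univ := by rw [hmr]; exact hvol
  have c1 := win' α β _ _ hK (volume.restrict C) hV hδ hI hT0 hTK hG
  have c2 := win_sq' α β _ _ hK (volume.restrict C) hV hδ hI hG
  rw [hmr] at c1 c2
  simp only [← comb_b φ α β lam hlam H pts w t] at c1 c2
  exact ⟨c2, c1⟩

end Pool.Agent.Zk91.KB
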