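import Pool.Agent.Zk91.KB.Lim
import Pool.Agent.Zk91.KB.Cut

/-!
# Fourth moments and the passage to all domains
-/

set_option autoImplicit false

open Filter Topology Real MeasureTheory Set ProbabilityTheory
open scoped ContDiff symmDiff

namespace Pool.Agent.Zk91.KB

open Pool.Agent.Zk60.BW (TT TT_nonneg VV VV_le QQ)

variable {ν : ℕ} {K : Kal ν} {F : ℕ → Set ℂ} {k : ℕ}

theorem four_le (y : ℝ) : y ^ 4 ≤ 24 * (Real.exp (2 * y) + Real.exp (-2 * y)) := by
  have h1 := Real.pow_div_factorial_le_exp (2 * |y|) (by positivity) 4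
  have h2 : Real.exp (2 * |y|) ≤ Real.exp (2 * y) + Real.exp (-2 * y) := by
    rcases abs_choice y with h | h <;> rw [h]
    · have := Real.exp_pos (-2 * y); linarith
    · have := Real.exp_pos (2 * y)
      have e : 2 * -y = -2 * y := by ring
      rw [e]; linarith
  have h3 : (2 * |y|) ^ 4 = 16 * y ^ 4 := by
    rw [mul_pow, show |y| ^ 4 = (|y| ^ 2) ^ 2 by ring, sq_abs]
    ring
  have h4 : ((4 : ℕ).factorial : ℝ) = 24 := by norm_num [Nat.factorial]
  rw [h3, h4] at h1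
  have h5 : 0 ≤ y ^ 4 := by positivity
  linarith

/-- the constant of the fourth moments -/
noncomputable def C4 (ν : ℕ) : ℝ := 48 * Real.exp (4 * (2 * √ν) ^ 2)

theorem C4_pos (ν : ℕ) : 0 < C4 ν := by unfold C4; positivity

theorem Sq.four_model (s : Sq K F) (φ : ℝ) (n : ℕ) (hn : 4 * (2 * √ν) ^ 2 ≤ ((n + 1 : ℕ) : ℝ)) :
    ∫ x, s.S φ n x ^ 4 ∂(Pn P4 (n + 1)) ≤ C4 ν := by
  have hI := s.ind φ n
  have hm := hI.measSS
  have hint : ∀ c : ℝ, Integrable (fun x => Real.exp (c * s.S φ n x)) (Pn P4 (n + 1)) := by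
    intro c
    refine Integrable.of_bound
      (Real.measurable_exp.comp (measurable_const.mul hm)).aestronglyMeasurable
      (Real.exp (|c| * ((1 / √((n + 1 : ℕ) : ℝ)) * ((n + 1 : ℕ) * (2 * √ν))))) (ae_of_all _ fun x => ?_)
    rw [Real.norm_eq_abs, abs_of_pos (Real.exp_pos _)]
    refine Real.exp_le_exp.2 ((le_abs_self _).trans ?_)
    rw [abs_mul]
    exact mul_le_mul_of_nonneg_left (hI.absSS x) (abs_nonneg _)
  calc ∫ x, s.S φ n x ^ 4 ∂(Pn P4 (n + 1))
      ≤ ∫ x, 24 * (Real.exp (2 * s.S φ n x) + Real.exp (-2 * s.S φ n x)) ∂(Pn P4 (n + 1)) :=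
        integral_mono (int_pow (Pn P4 (n + 1)) _ hm _ hI.absSS 4)
          (((hint 2).add (hint (-2))).const_mul _) fun x => four_le _
    _ = 24 * (∫ x, Real.exp (2 * s.S φ n x) ∂(Pn P4 (n + 1)) +
          ∫ x, Real.exp (-2 * s.S φ n x) ∂(Pn P4 (n + 1))) := by
        rw [integral_const_mul, integral_add (hint 2) (hint (-2))]
    _ ≤ C4 ν := by
        have h1 := hI.exp_sum 2 (Nat.succ_pos n) (by norm_num) hn
        have h2 := hI.exp_sum (-2) (Nat.succ_pos n) (by norm_num) hn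
        unfold C4
        have e : ∀ x, s.S φ n x = SS (K.G (s.d n) (fun _ : Fin 1 => (0 : ℂ)) (fun _ => 1) φ) x :=
          fun x => rfl
        simp only [e]
        linarith

theorem Sq.four_F (s : Sq K F) (φ : ℝ) (j : ℕ) (hFj : volume (F j) ≠ ⊤) :
    ∀ᶠ n in atTop, ∫ z in F j, s.u φ n z ^ 4 ≤ C4 ν * volume.real (F j) + 1 := by
  have := fin_restrict hFj
  have h0 : Tendsto (fun n : ℕ => (24 * (2 * √(ν : ℝ)) ^ 4) * (Real.exp (√((n + 1 : ℕ) : ℝ) * 1) *
      Real.exp (-((n + 1 : ℕ) : ℝ)))) atTop (𝓝 0) := by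
    simpa using (tendsto_exp_sqrt 1).const_mul (24 * (2 * √(ν : ℝ)) ^ 4)
  obtain ⟨n0, hn0⟩ := exists_nat_ge (4 * (2 * √(ν : ℝ)) ^ 2)
  filter_upwards [eventually_ge_atTop j, eventually_ge_atTop 1, eventually_ge_atTop n0,
    h0.eventually (ge_mem_nhds (by norm_num : (0 : ℝ) < 1))] with n hnj hn1 hnn he
  have hTn : 4 * (2 * √ν) ^ 2 ≤ ((n + 1 : ℕ) : ℝ) := by
    refine hn0.trans ?_
    exact_mod_cast (by omega : n0 ≤ n + 1)
  have hS := ((TB_SS (Nat.succ_pos n) (s.tb φ n)).pow 4).mono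
    (show 4 * (K.B + K.B) ≤ 2 * (n + 1) * (K.B + K.B) from
      Nat.mul_le_mul_right _ (by omega)) le_rfl
  obtain ⟨-, -, e⟩ := transfer (volume.restrict (F j)) (K.a * s.R n) (K.b * s.R n)
    (Real.exp (-((n + 1 : ℕ) : ℝ))) (s.d n).l (s.d n).m (2 * (n + 1) * (K.B + K.B)) (s.d n).rel
    (s.osc n j hnj) (Real.exp_pos _).le hS
  have h4 : ∀ x, ((SS (K.G (s.d n) (fun _ : Fin 1 => (0 : ℂ)) (fun _ => 1) φ) x : ℝ) : ℂ) ^ 4 =
      ((s.S φ n x ^ 4 : ℝ) : ℂ) := by
    intro x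
    push_cast
    rfl
  simp only [h4] at e
  rw [integral_complex_ofReal, integral_complex_ofReal, ← Complex.ofReal_mul,
      ← Complex.ofReal_sub, Complex.norm_real, Real.norm_eq_abs,
      measureReal_restrict_apply_univ] at e
  simp only [s.u_eq]
  have h5 := (abs_le.1 e).2
  have h6 := mul_le_mul_of_nonneg_left (s.four_model φ n hTn)
    (measureReal_nonneg (μ := (volume : Measure ℂ)) (s := F j))
  have h7 : (√((n + 1 : ℕ) : ℝ) * (2 * √ν)) ^ 4 * Real.exp (-((n + 1 : ℕ) : ℝ)) ≤ 1 := by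
    refine le_trans ?_ he
    have h8 := Real.pow_div_factorial_le_exp (√((n + 1 : ℕ) : ℝ)) (Real.sqrt_nonneg _) 4
    have h9 : ((4 : ℕ).factorial : ℝ) = 24 := by norm_num [Nat.factorial]
    rw [h9] at h8
    have e1 : (√((n + 1 : ℕ) : ℝ) * (2 * √ν)) ^ 4 * Real.exp (-((n + 1 : ℕ) : ℝ)) =
        (2 * √ν) ^ 4 * (√((n + 1 : ℕ) : ℝ) ^ 4 * Real.exp (-((n + 1 : ℕ) : ℝ))) := by ring
    have e2 : 24 * (2 * √ν) ^ 4 * (Real.exp (√((n + 1 : ℕ) : ℝ) * 1) *
        Real.exp (-((n + 1 : ℕ) : ℝ))) = (2 * √ν) ^ 4 * ((24 * Real.exp (√((n + 1 : ℕ) : ℝ))) *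
        Real.exp (-((n + 1 : ℕ) : ℝ))) := by
      rw [mul_one]; ring
    rw [e1, e2]
    refine mul_le_mul_of_nonneg_left (mul_le_mul_of_nonneg_right ?_ (Real.exp_pos _).le)
      (by positivity)
    linarith
  linarith

theorem two_le (η y : ℝ) (hη : 0 < η) : y ^ 2 ≤ η / 2 * y ^ 4 + 1 / (2 * η) := by
  have h : η / 2 * y ^ 4 + 1 / (2 * η) - y ^ 2 = (η * y ^ 2 - 1) ^ 2 / (2 * η) := by
    field_simp
    ring
  have : 0 ≤ (η * y ^ 2 - 1) ^ 2 / (2 * η) := by positivity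
  linarith

theorem Sq.part (s : Sq K F) (φ : ℝ) (n : ℕ) (A B : Set ℂ) (hB : volume B ≠ ⊤)
    (hAB : A ⊆ B) (η : ℝ) (hη : 0 < η) : ∫ z in A, s.u φ n z ^ 2 ≤
      η / 2 * (∫ z in B, s.u φ n z ^ 4) + volume.real A / (2 * η) := by
  have hA' : volume A ≠ ⊤ := measure_ne_top_of_subset hAB hB
  have := fin_restrict hA'
  have i2 := s.intOn φ n 2 A hA'
  have i4 := s.intOn φ n 4 A hA'
  have i4' := s.intOn φ n 4 B hB
  have i5 : IntegrableOn (fun z => η / 2 * s.u φ n z ^ 4 + 1 / (2 * η)) A :=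
    Integrable.add (i4.const_mul (η / 2)) (integrable_const _)
  calc ∫ z in A, s.u φ n z ^ 2 ≤ ∫ z in A, (η / 2 * s.u φ n z ^ 4 + 1 / (2 * η)) :=
        setIntegral_mono i2 i5 fun z => two_le η _ hη
    _ = η / 2 * (∫ z in A, s.u φ n z ^ 4) + volume.real A / (2 * η) := by
        rw [integral_add (i4.const_mul _) (integrable_const _), integral_const_mul,
          integral_const, measureReal_restrict_apply_univ, smul_eq_mul]
        ring
    _ ≤ _ := by
        have h1 : ∫ z in A, s.u φ n z ^ 4 ≤ ∫ z in B, s.u φ n z ^ 4 :=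
          setIntegral_mono_set i4' (ae_of_all _ fun z => by positivity)
            (LE.le.eventuallyLE hAB)
        have := mul_le_mul_of_nonneg_left h1 (by positivity : 0 ≤ η / 2)
        linarith

/-- the second moments on all bounded measurable sets -/
theorem Sq.sq_all (s : Sq K F) (φ : ℝ) (hF : ∀ j, MeasurableSet (F j)) (hFf : ∀ j, volume (F j) ≠ ⊤)
    (hdense : ∀ s : Set ℂ, MeasurableSet s → volume s ≠ ⊤ → ∀ ε : ℝ, 0 < ε →
      ∃ j, volume (s ∆ F j) < ENNReal.ofReal ε)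
    (hball : ∀ s : Set ℂ, Bornology.IsBounded s → ∃ j, s ⊆ F j) (S : Set ℂ) (hS : MeasurableSet S)
    (hSb : Bornology.IsBounded S) :
    Tendsto (fun n => ∫ z in S, s.u φ n z ^ 2) atTop (𝓝 (volume.real S)) := by
  have hSf : volume S ≠ ⊤ := hSb.measure_lt_top.ne
  have key := dense_lim F hF hFf hdense (fun n z => s.u φ n z ^ 2) (1 : ℝ) S hS hSf
    (fun j => s.sq_F φ j (hFf j)) ?_
  · simpa using key
  intro ε hε
  obtain ⟨b, hb⟩ := hball S hSb
  have hC := C4_pos ν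
  have hv1 : 0 ≤ volume.real (F b) := measureReal_nonneg
  have hv2 : 0 ≤ volume.real S := measureReal_nonneg
  set C' : ℝ := C4 ν * (volume.real (F b) + volume.real S + 1) + 2 with hC'
  have hC'0 : 0 < C' := by positivity
  set η : ℝ := ε / C' with hη
  have hη0 : 0 < η := by positivity
  refine ⟨min 1 (η * ε / 2), lt_min one_pos (by positivity), fun j hj => ?_⟩
  have d1 : volume.real (S ∆ F j) ≤ min 1 (η * ε / 2) := by
    rw [measureReal_def]
    exact ENNReal.toReal_le_of_le_ofReal (le_min zero_le_one (by positivity)) hj.le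
  have d2 : volume.real (F j) ≤ volume.real S + 1 := by
    have := (abs_measureReal_sub_le_measureReal_symmDiff' hS.nullMeasurableSet
      (hF j).nullMeasurableSet hSf (hFf j))
    have h3 := (abs_le.1 (this.trans (d1.trans (min_le_left _ _)))).1
    linarith
  have hsd : volume (S ∆ F j) ≠ ⊤ := (hj.trans ENNReal.ofReal_lt_top).ne
  have d3 : volume.real (S \ F j) ≤ η * ε / 2 :=
    (measureReal_mono (fun z hz => Or.inl hz) hsd).trans (d1.trans (min_le_right _ _))
  have d4 : volume.real (F j \ S) ≤ η * ε / 2 :=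
    (measureReal_mono (fun z hz => Or.inr hz) hsd).trans (d1.trans (min_le_right _ _))
  filter_upwards [s.four_F φ b (hFf b), s.four_F φ j (hFf j)] with n hn1 hn2
  rw [diff_int _ S (F j) hS (hF j) (s.intOn φ n 2 S hSf) (s.intOn φ n 2 _ (hFf j)),
    Real.norm_eq_abs]
  have p1 := s.part φ n (S \ F j) (F b) (hFf b)
    (fun z hz => hb hz.1) η hη0
  have p2 := s.part φ n (F j \ S) (F j) (hFf j)
    (fun z hz => hz.1) η hη0
  have q1 : 0 ≤ ∫ z in S \ F j, s.u φ n z ^ 2 := integral_nonneg fun z => sq_nonneg _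
  have q2 : 0 ≤ ∫ z in F j \ S, s.u φ n z ^ 2 := integral_nonneg fun z => sq_nonneg _
  have q3 : volume.real (S \ F j) / (2 * η) ≤ ε / 4 := by
    rw [div_le_iff₀ (by positivity)]
    linarith
  have q4 : volume.real (F j \ S) / (2 * η) ≤ ε / 4 := by
    rw [div_le_iff₀ (by positivity)]
    linarith
  have q5 : η / 2 * (∫ z in F b, s.u φ n z ^ 4) + η / 2 * (∫ z in F j, s.u φ n z ^ 4) ≤ ε / 2 := by
    rw [← mul_add]
    have h5 : (∫ z in F b, s.u φ n z ^ 4) + (∫ z in F j, s.u φ n z ^ 4) ≤ C' := by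
      have h6 := mul_le_mul_of_nonneg_left d2 hC.le
      rw [hC']
      linarith
    have h7 := mul_le_mul_of_nonneg_left h5 (by positivity : 0 ≤ η / 2)
    have h8 : η / 2 * C' = ε / 2 := by rw [hη]; field_simp
    linarith
  rw [abs_le]
  constructor <;> linarith

/-- the characteristic functions on all sets of finite measure -/
theorem Sq.char_all (s : Sq K F) (φ : ℝ) (hF : ∀ j, MeasurableSet (F j))
    (hFf : ∀ j, volume (F j) ≠ ⊤)
    (hdense : ∀ s : Set ℂ, MeasurableSet s → volume s ≠ ⊤ → ∀ ε : ℝ, 0 < ε →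
      ∃ j, volume (s ∆ F j) < ENNReal.ofReal ε) (S : Set ℂ) (hS : MeasurableSet S)
    (hSf : volume S ≠ ⊤) (w : Fin k → ℂ) (t : Fin k → ℝ) (c : ℕ → ℝ)
    (hc : Tendsto c atTop (𝓝 1)) :
    Tendsto (fun n => ∫ z in S, Complex.exp (((∑ i, t i * (c n * s.u φ n
      (z + w i / ((√(s.lam n) : ℝ) : ℂ))) : ℝ) : ℂ) * Complex.I)) atTop
      (𝓝 (volume.real S • ((Real.exp (-(QQ w t) / 2) : ℝ) : ℂ))) := by
  set f : ℕ → ℂ → ℂ := fun n z => Complex.exp (((∑ i, t i * (c n * s.u φ n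
      (z + w i / ((√(s.lam n) : ℝ) : ℂ))) : ℝ) : ℂ) * Complex.I) with hf
  have hfc : ∀ n, Continuous (f n) := by
    intro n
    have := s.cont φ n
    simp only [hf]
    refine Complex.continuous_exp.comp ((Complex.continuous_ofReal.comp ?_).mul continuous_const)
    refine continuous_finsetSum _ fun j _ => continuous_const.mul (continuous_const.mul
      (this.comp ?_))
    exact continuous_id.add continuous_const
  have hfn : ∀ n z, ‖f n z‖ ≤ 1 := by
    intro n z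
    simp only [hf]
    rw [Complex.norm_exp_ofReal_mul_I]
  have hfi : ∀ n (A : Set ℂ), volume A ≠ ⊤ → IntegrableOn (f n) A := by
    intro n A hA
    have := fin_restrict hA
    exact Integrable.of_bound (hfc n).aestronglyMeasurable 1 (ae_of_all _ (hfn n))
  refine dense_lim F hF hFf hdense f _ S hS hSf (fun j => s.char_F φ w t c hc j (hFf j)) ?_
  intro ε hε
  refine ⟨ε / 2, by positivity, fun j hj => ?_⟩
  have hsd : volume (S ∆ F j) ≠ ⊤ := (hj.trans ENNReal.ofReal_lt_top).ne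
  have d1 : volume.real (S ∆ F j) ≤ ε / 2 := by
    rw [measureReal_def]
    exact ENNReal.toReal_le_of_le_ofReal (by positivity) hj.le
  have d3 : volume.real (S \ F j) ≤ ε / 2 :=
    (measureReal_mono (fun z hz => Or.inl hz) hsd).trans d1
  have d4 : volume.real (F j \ S) ≤ ε / 2 :=
    (measureReal_mono (fun z hz => Or.inr hz) hsd).trans d1
  refine Eventually.of_forall fun n => ?_
  rw [diff_int _ S (F j) hS (hF j) (hfi n S hSf) (hfi n _ (hFf j))]
  have b1 : ∀ A : Set ℂ, volume A ≠ ⊤ → ‖∫ z in A, f n z‖ ≤ volume.real A := by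
    intro A hA
    have := norm_setIntegral_le_of_norm_le_const (lt_top_iff_ne_top.2 hA)
      (fun z _ => hfn n z) (f := f n) (μ := volume)
    rwa [one_mul] at this
  have b2 := b1 (S \ F j) (measure_ne_top_of_subset (fun z hz => hz.1) hSf)
  have b3 := b1 (F j \ S) (measure_ne_top_of_subset (fun z hz => hz.1) (hFf j))
  refine (norm_sub_le _ _).trans ?_
  linarith

end Pool.Agent.Zk91.KB
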