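import Pool.Agent.Zk91.KB.Bnd

/-!
# Windows on the mirrors
-/

set_option autoImplicit false

open Filter Topology Real MeasureTheory Set ProbabilityTheory
open scoped ContDiff

namespace Pool.Agent.Zk91.KB

open Pool.Agent.Zk60.BW (TT TT_nonneg GG)
open Pool.Agent.N661.BR (J0)

variable {ν k n : ℕ}

theorem osc_window (K : Kal ν) (d : Num K.D (K.B + K.B) n) (R : ℕ) (hR0 : 0 < R) (P : ℝ)
    (biga : 4 * (K.c * d.N / K.a) * Real.exp ((n + 1 : ℕ) : ℝ) ≤ P)
    (bigb : 4 * (K.c * d.N / K.b) * Real.exp ((n + 1 : ℕ) : ℝ) ≤ P)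
    (C : Set ℂ) (h1 : Convex ℝ C) (h2 : Bornology.IsBounded C)
    (h4 : P * Metric.diam C ≤ √(K.lam d R) * volume.real C)
    (hm : MeasurableSet C) (A B : ℤ) (hAB : ¬ (A = 0 ∧ B = 0)) :
    ‖∫ z in C, Complex.exp ((((K.a * R) * A * z.re + (K.b * R) * B * z.im : ℝ) : ℂ) *
      Complex.I)‖ ≤ volume.real C * Real.exp (-((n + 1 : ℕ) : ℝ)) := by
  have hN := d.N_pos
  have hR : (0 : ℝ) < R := by exact_mod_cast hR0
  have ha := K.ha
  have hb := K.hb
  have hc := K.hc
  rw [K.sqrt_lam] at h4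
  have hdiam : 0 ≤ Metric.diam C := Metric.diam_nonneg
  have hE : 0 < Real.exp ((n + 1 : ℕ) : ℝ) := Real.exp_pos _
  have key : ∀ a : ℝ, 0 < a →
      4 * (K.c * d.N / a) * Real.exp ((n + 1 : ℕ) : ℝ) ≤ P →
      4 * Metric.diam C ≤ volume.real C * Real.exp (-((n + 1 : ℕ) : ℝ)) * (a * R) := by
    intro a ha' hbig
    have h5 := (mul_le_mul_of_nonneg_right hbig hdiam).trans h4
    have h6 : 4 * Metric.diam C * (K.c * d.N * Real.exp ((n + 1 : ℕ) : ℝ)) ≤
        (volume.real C * (a * R)) * (K.c * d.N) := by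
      have e1 : 4 * Metric.diam C * (K.c * d.N * Real.exp ((n + 1 : ℕ) : ℝ)) =
          a * (4 * (K.c * d.N / a) * Real.exp ((n + 1 : ℕ) : ℝ) * Metric.diam C) := by
        field_simp
      have e2 : (volume.real C * (a * R)) * (K.c * d.N) =
          a * (K.c * R * d.N * volume.real C) := by ring
      rw [e1, e2]
      exact mul_le_mul_of_nonneg_left h5 ha'.le
    have h7 : 0 < K.c * d.N := by positivity
    have h8 : 4 * Metric.diam C * Real.exp ((n + 1 : ℕ) : ℝ) ≤ volume.real C * (a * R) := by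
      refine le_of_mul_le_mul_right ?_ h7
      linarith
    rw [Real.exp_neg]
    calc 4 * Metric.diam C = (4 * Metric.diam C * Real.exp ((n + 1 : ℕ) : ℝ)) *
          (Real.exp ((n + 1 : ℕ) : ℝ))⁻¹ := by field_simp
      _ ≤ (volume.real C * (a * R)) * (Real.exp ((n + 1 : ℕ) : ℝ))⁻¹ :=
          mul_le_mul_of_nonneg_right h8 (by positivity)
      _ = _ := by ring
  have fin : ∀ a : ℝ, 0 < a → ∀ A : ℤ, A ≠ 0 →
      4 * (K.c * d.N / a) * Real.exp ((n + 1 : ℕ) : ℝ) ≤ P →
      4 * Metric.diam C / |a * R * A| ≤ volume.real C * Real.exp (-((n + 1 : ℕ) : ℝ)) := by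
    intro a ha' A hA hbig
    have h5 : (1 : ℝ) ≤ |(A : ℝ)| := by
      have := Int.one_le_abs hA
      exact_mod_cast this
    have h6 : a * R ≤ |a * R * A| := by
      rw [abs_mul, abs_of_pos (by positivity)]
      exact le_mul_of_one_le_right (by positivity) h5
    rw [div_le_iff₀ (lt_of_lt_of_le (by positivity) h6)]
    exact (key a ha' hbig).trans (mul_le_mul_of_nonneg_left h6 (by positivity))
  obtain ⟨o1, o2⟩ := osc_convex C h1 hm h2 (K.a * R * A) (K.b * R * B)
  by_cases hA : A = 0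
  · have hB : B ≠ 0 := fun hB => hAB ⟨hA, hB⟩
    have hB' : (B : ℝ) ≠ 0 := by exact_mod_cast hB
    exact (o2 (mul_ne_zero (mul_ne_zero hb.ne' hR.ne') hB')).trans (fin K.b hb B hB bigb)
  · have hA' : (A : ℝ) ≠ 0 := by exact_mod_cast hA
    exact (o1 (mul_ne_zero (mul_ne_zero ha.ne' hR.ne') hA')).trans (fin K.a ha A hA biga)

/-! ### squares -/

/-- a square with sides parallel to the axes -/
def Sqr (h y0 : ℝ) : Set ℂ := Icc 0 h ×ℂ Icc y0 (y0 + h)

theorem sqr_convex (h y0 : ℝ) : Convex ℝ (Sqr h y0) :=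
  ((convex_Icc (0 : ℝ) h).is_linear_preimage Complex.reLm.isLinear).inter
    ((convex_Icc y0 (y0 + h)).is_linear_preimage Complex.imLm.isLinear)

theorem sqr_bdd (h y0 : ℝ) : Bornology.IsBounded (Sqr h y0) :=
  (Metric.isBounded_Icc _ _).reProdIm (Metric.isBounded_Icc _ _)

theorem sqr_meas (h y0 : ℝ) : MeasurableSet (Sqr h y0) :=
  (isClosed_Icc.reProdIm isClosed_Icc).measurableSet

theorem sqr_diam (h y0 : ℝ) (hh : 0 < h) : Metric.diam (Sqr h y0) ≤ 2 * h := by
  refine Metric.diam_le_of_forall_dist_le (by positivity) fun x hx y hy => ?_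
  obtain ⟨⟨a1, a2⟩, b1, b2⟩ := hx
  obtain ⟨⟨c1, c2⟩, d1, d2⟩ := hy
  rw [Complex.dist_eq]
  refine (Complex.norm_le_abs_re_add_abs_im _).trans ?_
  have h1 : |(x - y).re| ≤ h := by
    rw [Complex.sub_re, abs_le]
    constructor <;> linarith
  have h2 : |(x - y).im| ≤ h := by
    rw [Complex.sub_im, abs_le]
    constructor <;> linarith
  linarith

theorem int_sqr (F : ℝ → ℂ) (h y0 : ℝ) (hh : 0 < h) :
    ∫ z in Sqr h y0, F z.im = (h : ℂ) * ∫ y in y0..(y0 + h), F y := by
  have mp := Complex.volume_preserving_equiv_real_prod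
  have emb := Complex.measurableEquivRealProd.measurableEmbedding
  have h1 := mp.setIntegral_preimage_emb emb (fun p : ℝ × ℝ => F p.2)
    (Icc 0 h ×ˢ Icc y0 (y0 + h))
  have e1 : Complex.measurableEquivRealProd ⁻¹' (Icc 0 h ×ˢ Icc y0 (y0 + h)) = Sqr h y0 := by
    ext z
    simp only [Sqr, Complex.mem_reProdIm, mem_preimage, mem_prod,
      Complex.measurableEquivRealProd_apply]
  rw [e1] at h1
  have e2 : ∀ z : ℂ, F (Complex.measurableEquivRealProd z).2 = F z.im := fun z => by simp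
  simp only [e2] at h1
  rw [h1, Measure.volume_eq_prod]
  have h2 := setIntegral_prod_mul (μ := (volume : Measure ℝ)) (ν := (volume : Measure ℝ))
    (fun _ : ℝ => (1 : ℂ)) F (Icc 0 h) (Icc y0 (y0 + h))
  simp only [one_mul] at h2
  rw [h2, setIntegral_const, measureReal_def, Real.volume_Icc, sub_zero,
    ENNReal.toReal_ofReal hh.le, intervalIntegral.integral_of_le (by linarith),
    integral_Icc_eq_integral_Ioc]
  congr 1
  simp

theorem vol_sqr (h y0 : ℝ) (hh : 0 < h) : volume.real (Sqr h y0) = h * h := by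
  have h1 := int_sqr (fun _ => (1 : ℂ)) h y0 hh
  rw [setIntegral_const, intervalIntegral.integral_const] at h1
  have h2 : ((volume.real (Sqr h y0) : ℝ) : ℂ) = ((h * h : ℝ) : ℂ) := by
    have e : (y0 + h - y0) = h := by ring
    rw [e] at h1
    push_cast
    simpa using h1
  exact_mod_cast h2

end Pool.Agent.Zk91.KB
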