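import Pool.Agent.Zk60.BW.Ind
import Pool.Agent.Zk91.KB.Abs

/-!
# The modes as functions of four independent phases
-/

set_option autoImplicit false

open Filter Topology Real MeasureTheory Set ProbabilityTheory

namespace Pool.Agent.Zk91.KB

open Pool.Agent.Zk60.BW (unif osc osc_two_pi int_osc_unif TT TT_nonneg VV)

/-- the law of two independent phases -/
noncomputable def P2 : Measure (ℝ × ℝ) := unif.prod unif

instance : IsProbabilityMeasure P2 := by unfold P2; infer_instance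

/-- an integer combination of two phases -/
noncomputable def ln (g : ℤ × ℤ) (x : ℝ × ℝ) : ℝ := g.1 * x.1 + g.2 * x.2

theorem continuous_ln (g : ℤ × ℤ) : Continuous (ln g) := by
  unfold ln
  fun_prop

theorem ln_add (g h : ℤ × ℤ) (x : ℝ × ℝ) : ln (g + h) x = ln g x + ln h x := by
  unfold ln
  simp only [Prod.fst_add, Prod.snd_add]
  push_cast
  ring

theorem ln_sub (g h : ℤ × ℤ) (x : ℝ × ℝ) : ln (g - h) x = ln g x - ln h x := by
  unfold ln
  simp only [Prod.fst_sub, Prod.snd_sub]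
  push_cast
  ring

/-- the character -/
noncomputable def e2 (g : ℤ × ℤ) (x : ℝ × ℝ) : ℂ := Complex.exp ((ln g x : ℝ) * Complex.I)

theorem continuous_e2 (g : ℤ × ℤ) : Continuous (e2 g) := by
  unfold e2
  have := continuous_ln g
  fun_prop

theorem norm_e2 (g : ℤ × ℤ) (x : ℝ × ℝ) : ‖e2 g x‖ = 1 := by
  unfold e2
  rw [Complex.norm_exp_ofReal_mul_I]

theorem integrable_e2 (g : ℤ × ℤ) : Integrable (e2 g) P2 :=
  Integrable.of_bound (continuous_e2 g).aestronglyMeasurable 1 (ae_of_all _ fun x => (norm_e2 g x).le)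

theorem int_e2 (g : ℤ × ℤ) : ∫ x, e2 g x ∂P2 = if g = 0 then 1 else 0 := by
  have h : ∀ x : ℝ × ℝ, e2 g x = osc (2 * π) g.1 x.1 * osc (2 * π) g.2 x.2 := by
    intro x
    unfold e2 ln
    rw [osc_two_pi, osc_two_pi, ← Complex.exp_add]
    congr 1
    push_cast
    ring
  simp only [h]
  unfold P2
  rw [integral_prod_mul (μ := unif) (ν := unif) (osc (2 * π) g.1) (osc (2 * π) g.2),
    int_osc_unif, int_osc_unif]
  by_cases h1 : g.1 = 0 <;> by_cases h2 : g.2 = 0 <;> simp [Prod.ext_iff, h1, h2]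

theorem int_cos2 (g : ℤ × ℤ) (A : ℝ) : ∫ x, cos (ln g x + A) ∂P2 = if g = 0 then cos A else 0 := by
  have h : ∀ x, cos (ln g x + A) = RCLike.re (Complex.exp ((A : ℝ) * Complex.I) * e2 g x) := by
    intro x
    unfold e2
    rw [← Complex.exp_add, ← add_mul, ← Complex.ofReal_add]
    show _ = (Complex.exp (((A + ln g x : ℝ) : ℂ) * Complex.I)).re
    rw [Complex.exp_ofReal_mul_I_re, add_comm]
  simp only [h]
  rw [integral_re ((integrable_e2 g).const_mul _), integral_const_mul, int_e2]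
  split_ifs with h0
  · rw [mul_one]
    exact Complex.exp_ofReal_mul_I_re A
  · simp

theorem int_sin2 (g : ℤ × ℤ) (hg : g ≠ 0) (A : ℝ) : ∫ x, sin (ln g x + A) ∂P2 = 0 := by
  have h := int_cos2 g (A - π / 2)
  rw [if_neg hg] at h
  rw [← h]
  refine integral_congr_ae (ae_of_all _ fun x => ?_)
  show sin (ln g x + A) = cos (ln g x + (A - π / 2))
  rw [← add_sub_assoc, cos_sub_pi_div_two]

theorem integrable_cos2 (g : ℤ × ℤ) (A : ℝ) : Integrable (fun x => cos (ln g x + A)) P2 := by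
  have := continuous_ln g
  exact Integrable.of_bound (by fun_prop) 1 (ae_of_all _ fun x => by
    rw [Real.norm_eq_abs]; exact abs_cos_le_one _)

theorem int_sin_sin2 (g h : ℤ × ℤ) (A B : ℝ) :
    ∫ x, sin (ln g x + A) * sin (ln h x + B) ∂P2 =
      ((if g = h then cos (A - B) else 0) - (if g = -h then cos (A + B) else 0)) / 2 := by
  have e : ∀ x, sin (ln g x + A) * sin (ln h x + B) =
      (cos (ln (g - h) x + (A - B)) - cos (ln (g + h) x + (A + B))) / 2 := by
    intro x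
    have e1 : ln (g - h) x + (A - B) = (ln g x + A) - (ln h x + B) := by
      rw [ln_sub]; ring
    have e2 : ln (g + h) x + (A + B) = (ln g x + A) + (ln h x + B) := by
      rw [ln_add]; ring
    rw [e1, e2, cos_sub (ln g x + A) (ln h x + B), cos_add (ln g x + A) (ln h x + B)]
    ring
  simp only [e]
  rw [integral_div, integral_sub (integrable_cos2 _ _) (integrable_cos2 _ _), int_cos2, int_cos2]
  simp only [sub_eq_zero, add_eq_zero_iff_eq_neg]

/-- four phases -/
abbrev X4 : Type := (ℝ × ℝ) × (ℝ × ℝ)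

/-- the law of four independent phases -/
noncomputable def P4 : Measure X4 := P2.prod P2

instance : IsProbabilityMeasure P4 := by unfold P4; infer_instance

theorem int_sq_sum {Q : Type*} [Fintype Q] (c : Q → ℝ) (f f' : Q → ℝ × ℝ → ℝ)
    (hf : ∀ q, Continuous (f q)) (hf' : ∀ q, Continuous (f' q)) (bf : ∀ q x, |f q x| ≤ 1)
    (bf' : ∀ q x, |f' q x| ≤ 1) :
    ∫ x : X4, (∑ q, c q * (f q x.1 * f' q x.2)) ^ 2 ∂P4 =
      ∑ q, ∑ r, (c q * c r) * ((∫ x, f q x * f r x ∂P2) * (∫ x, f' q x * f' r x ∂P2)) := by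
  have e : ∀ x : X4, (∑ q, c q * (f q x.1 * f' q x.2)) ^ 2 =
      ∑ q, ∑ r, (c q * c r) * ((f q x.1 * f r x.1) * (f' q x.2 * f' r x.2)) := by
    intro x
    rw [pow_two, Finset.sum_mul_sum]
    exact Finset.sum_congr rfl fun q _ => Finset.sum_congr rfl fun r _ => by ring
  have hi : ∀ q r, Integrable (fun x : X4 =>
      (c q * c r) * ((f q x.1 * f r x.1) * (f' q x.2 * f' r x.2))) P4 := by
    intro q r
    have c1 := hf q
    have c2 := hf r
    have c3 := hf' q
    have c4 := hf' r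
    refine Integrable.of_bound (by fun_prop) (|c q * c r|) (ae_of_all _ fun x => ?_)
    rw [Real.norm_eq_abs, abs_mul (c q * c r)]
    refine mul_le_of_le_one_right (abs_nonneg _) ?_
    rw [abs_mul, abs_mul, abs_mul]
    exact mul_le_one₀ (mul_le_one₀ (bf _ _) (abs_nonneg _) (bf _ _)) (by positivity)
      (mul_le_one₀ (bf' _ _) (abs_nonneg _) (bf' _ _))
  simp only [e]
  rw [integral_finsetSum _ fun q _ => integrable_finsetSum _ fun r _ => hi q r]
  refine Finset.sum_congr rfl fun q _ => ?_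
  rw [integral_finsetSum _ fun r _ => hi q r]
  refine Finset.sum_congr rfl fun r _ => ?_
  rw [integral_const_mul]
  unfold P4
  rw [integral_prod_mul (μ := P2) (ν := P2) (fun x => f q x * f r x) (fun x => f' q x * f' r x)]

variable {ν k : ℕ}

/-- conditions on the integer vectors of the mode -/
structure Vec (g g' : Fin ν → ℤ × ℤ) : Prop where
  ne : ∀ ρ, g ρ ≠ 0
  inj : ∀ ρ σ, g ρ = g σ → ρ = σ
  neg : ∀ ρ σ, g ρ ≠ -g σ
  neg' : ∀ ρ, g' ρ ≠ -g' ρ

/-- the combination of the values of one mode -/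
noncomputable def KF (g g' : Fin ν → ℤ × ℤ) (w : Fin k → ℂ) (t : Fin k → ℝ) (φ : ℝ)
    (X Y : Fin ν → ℝ) (x : X4) : ℝ :=
  ∑ q : Fin ν × Fin k, t q.2 * (sin (ln (g q.1) x.1 + (X q.1 * (w q.2).re + φ)) *
    sin (ln (g' q.1) x.2 + (Y q.1 * (w q.2).im + φ)))

theorem continuous_KF (g g' : Fin ν → ℤ × ℤ) (w : Fin k → ℂ) (t : Fin k → ℝ) (φ : ℝ)
    (X Y : Fin ν → ℝ) : Continuous (KF g g' w t φ X Y) := by
  unfold KF
  refine continuous_finsetSum _ fun q _ => ?_
  have h1 := continuous_ln (g q.1)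
  have h2 := continuous_ln (g' q.1)
  fun_prop

theorem abs_KF_le (g g' : Fin ν → ℤ × ℤ) (w : Fin k → ℂ) (t : Fin k → ℝ) (φ : ℝ)
    (X Y : Fin ν → ℝ) (x : X4) : |KF g g' w t φ X Y x| ≤ ν * TT t := by
  unfold KF
  have h1 : ∑ q : Fin ν × Fin k, |t q.2| = ν * TT t := by
    rw [Fintype.sum_prod_type]
    simp [TT]
  rw [← h1]
  refine (Finset.abs_sum_le_sum_abs _ _).trans (Finset.sum_le_sum fun q _ => ?_)
  rw [abs_mul, abs_mul]
  exact mul_le_of_le_one_right (abs_nonneg _)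
    (mul_le_one₀ (abs_sin_le_one _) (abs_nonneg _) (abs_sin_le_one _))

theorem int_KF {g g' : Fin ν → ℤ × ℤ} (hv : Vec g g') (w : Fin k → ℂ) (t : Fin k → ℝ) (φ : ℝ)
    (X Y : Fin ν → ℝ) : ∫ x, KF g g' w t φ X Y x ∂P4 = 0 := by
  unfold KF
  rw [integral_finsetSum]
  · refine Finset.sum_eq_zero fun q _ => ?_
    rw [integral_const_mul]
    unfold P4
    rw [integral_prod_mul (μ := P2) (ν := P2)
      (fun x => sin (ln (g q.1) x + (X q.1 * (w q.2).re + φ)))
      (fun x => sin (ln (g' q.1) x + (Y q.1 * (w q.2).im + φ))),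
      int_sin2 _ (hv.ne q.1), zero_mul, mul_zero]
  · intro q _
    have h1 := continuous_ln (g q.1)
    have h2 := continuous_ln (g' q.1)
    refine Integrable.of_bound (by fun_prop) (|t q.2|) (ae_of_all _ fun p => ?_)
    rw [Real.norm_eq_abs, abs_mul, abs_mul]
    exact mul_le_of_le_one_right (abs_nonneg _)
      (mul_le_one₀ (abs_sin_le_one _) (abs_nonneg _) (abs_sin_le_one _))

theorem int_KF_sq {g g' : Fin ν → ℤ × ℤ} (hv : Vec g g') (w : Fin k → ℂ) (t : Fin k → ℝ) (φ : ℝ)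
    (X Y : Fin ν → ℝ) : ∫ x, KF g g' w t φ X Y x ^ 2 ∂P4 = (∑ ρ, VV w t (X ρ) (Y ρ)) / 4 := by
  unfold KF
  rw [int_sq_sum (fun q : Fin ν × Fin k => t q.2)
    (fun q x => sin (ln (g q.1) x + (X q.1 * (w q.2).re + φ)))
    (fun q x => sin (ln (g' q.1) x + (Y q.1 * (w q.2).im + φ)))
    (fun q => by have := continuous_ln (g q.1); fun_prop)
    (fun q => by have := continuous_ln (g' q.1); fun_prop)
    (fun q x => abs_sin_le_one _) (fun q x => abs_sin_le_one _)]
  have key : ∀ q r : Fin ν × Fin k, (t q.2 * t r.2) *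
      ((∫ x, sin (ln (g q.1) x + (X q.1 * (w q.2).re + φ)) *
        sin (ln (g r.1) x + (X r.1 * (w r.2).re + φ)) ∂P2) *
      (∫ x, sin (ln (g' q.1) x + (Y q.1 * (w q.2).im + φ)) *
        sin (ln (g' r.1) x + (Y r.1 * (w r.2).im + φ)) ∂P2)) =
      if q.1 = r.1 then (t q.2 * t r.2) * (cos (X q.1 * (w q.2 - w r.2).re) *
        cos (Y q.1 * (w q.2 - w r.2).im)) / 4 else 0 := by
    intro q r
    rw [int_sin_sin2, int_sin_sin2]
    by_cases h : q.1 = r.1
    · have h1 : X q.1 * (w q.2).re + φ - (X q.1 * (w r.2).re + φ) = X q.1 * (w q.2 - w r.2).re := by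
        rw [Complex.sub_re]; ring
      have h2 : Y q.1 * (w q.2).im + φ - (Y q.1 * (w r.2).im + φ) = Y q.1 * (w q.2 - w r.2).im := by
        rw [Complex.sub_im]; ring
      rw [← h, if_pos rfl, if_pos rfl, if_neg (hv.neg _ _), if_neg (hv.neg' _), if_pos rfl, h1, h2]
      ring
    · rw [if_neg (fun h0 => h (hv.inj _ _ h0)), if_neg (hv.neg _ _), if_neg h]
      ring
  simp only [key]
  simp only [Fintype.sum_prod_type]
  unfold VV
  rw [Finset.sum_div]
  refine Finset.sum_congr rfl fun ρ _ => ?_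
  rw [Finset.sum_div]
  refine Finset.sum_congr rfl fun i _ => ?_
  rw [Finset.sum_div, Finset.sum_comm]
  refine Finset.sum_congr rfl fun j _ => ?_
  simp

end Pool.Agent.Zk91.KB
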