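import Pool.Agent.Zk91.KB.Mir

/-!
# The two kaleidoscopes
-/

set_option autoImplicit false

open Filter Topology Real MeasureTheory Set
open scoped ContDiff

namespace Pool.Agent.Zk91.KB

theorem exp_mul_re (θ : ℝ) (z : ℂ) :
    (Complex.exp (Complex.I * (θ : ℂ)) * z).re = cos θ * z.re - sin θ * z.im := by
  rw [mul_comm Complex.I, Complex.mul_re, Complex.exp_ofReal_mul_I_re, Complex.exp_ofReal_mul_I_im]

theorem exp_mul_im (θ : ℝ) (z : ℂ) :
    (Complex.exp (Complex.I * (θ : ℂ)) * z).im = sin θ * z.re + cos θ * z.im := by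
  rw [mul_comm Complex.I, Complex.mul_im, Complex.exp_ofReal_mul_I_re, Complex.exp_ofReal_mul_I_im]
  ring

/-! ### four mirrors -/

theorem vec4 : Vec (![(1, 0), (0, -1)] : Fin 2 → ℤ × ℤ) ![(0, 1), (1, 0)] where
  ne := by decide
  inj := by decide
  neg := by decide
  neg' := by decide

/-- the square kaleidoscope -/
noncomputable def K4 (s : ℝ) (hs : 0 < s) : Kal 2 where
  D := 1
  B := 3
  g := ![(1, 0), (0, -1)]
  g' := ![(0, 1), (1, 0)]
  τ := ![0, π / 2]
  a := π / s
  b := π / s
  c := π / s
  hν := by norm_num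
  hD := le_rfl
  vec := vec4
  bd := by
    intro ρ
    fin_cases ρ <;> simp [Bd]
  ha := by positivity
  hb := by positivity
  hc := by positivity
  rotX := by
    intro ρ l m
    fin_cases ρ <;> simp
  rotY := by
    intro ρ l m
    fin_cases ρ <;> simp

theorem vec6 : Vec (![(2, 0), (1, -1), (-1, -1)] : Fin 3 → ℤ × ℤ) ![(0, 2), (3, 1), (3, -1)] where
  ne := by decide
  inj := by decide
  neg := by decide
  neg' := by decide

/-- the triangular kaleidoscope -/
noncomputable def K6 (s : ℝ) (hs : 0 < s) : Kal 3 where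
  D := 3
  B := 3
  g := ![(2, 0), (1, -1), (-1, -1)]
  g' := ![(0, 2), (3, 1), (3, -1)]
  τ := ![0, π / 3, π - π / 3]
  a := π / s
  b := π / (√3 * s)
  c := 2 * π / (√3 * s)
  hν := by norm_num
  hD := by norm_num
  vec := vec6
  bd := by
    intro ρ
    fin_cases ρ <;> simp [Bd]
  ha := by positivity
  hb := by positivity
  hc := by positivity
  rotX := by
    intro ρ l m
    have h3 : √(3 : ℝ) ^ 2 = 3 := Real.sq_sqrt (by norm_num)
    have h30 : 0 < √(3 : ℝ) := Real.sqrt_pos.2 (by norm_num)
    have hp := pi_pos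
    fin_cases ρ
    · simp
      field_simp
    · simp
      field_simp
      ring
    · simp
      field_simp
      ring
  rotY := by
    intro ρ l m
    have h3 : √(3 : ℝ) ^ 2 = 3 := Real.sq_sqrt (by norm_num)
    have h30 : 0 < √(3 : ℝ) := Real.sqrt_pos.2 (by norm_num)
    have hp := pi_pos
    fin_cases ρ
    · simp
      field_simp
    · simp
      field_simp
      linear_combination (-l) * h3
    · simp
      field_simp
      linear_combination (-l) * h3

theorem vec2 (p : ℕ) (hp : 0 < p) : Vec (![((p : ℤ), 0)] : Fin 1 → ℤ × ℤ) ![(0, 1)] where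
  ne := by
    intro ρ
    fin_cases ρ
    simp
    omega
  inj := fun ρ σ _ => Subsingleton.elim _ _
  neg := by
    intro ρ σ
    fin_cases ρ
    fin_cases σ
    simp
    omega
  neg' := by decide

/-- the rectangular kaleidoscope -/
noncomputable def K2 (a b : ℝ) (ha : 0 < a) (hb : 0 < b) (p q : ℕ) (hp : 0 < p) (hq : 0 < q)
    (hab : (q : ℝ) * a ^ 2 = p * b ^ 2) : Kal 1 where
  D := p * q
  B := p
  g := ![((p : ℤ), 0)]
  g' := ![(0, 1)]
  τ := ![0]
  a := π / a
  b := π / b
  c := π / b
  hν := by norm_num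
  hD := Nat.mul_pos hp hq
  vec := vec2 p hp
  bd := by
    intro ρ
    fin_cases ρ
    simp [Bd]
    omega
  ha := by positivity
  hb := by positivity
  hc := by positivity
  rotX := by
    intro ρ l m
    have hpr : (0 : ℝ) < p := by exact_mod_cast hp
    have hroot : √((p * q : ℕ) : ℝ) = p * b / a := by
      rw [show ((p * q : ℕ) : ℝ) = (p * b / a) ^ 2 by
        rw [div_pow, mul_pow, eq_div_iff (by positivity)]
        push_cast
        linear_combination (p : ℝ) * hab, Real.sqrt_sq (by positivity)]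
    rw [hroot]
    fin_cases ρ
    simp
    field_simp
  rotY := by
    intro ρ l m
    fin_cases ρ
    simp

end Pool.Agent.Zk91.KB
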