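import Pool.Agent.Zk91.KB.Lim
import Pool.Agent.Zk91.KB.Conv

/-!
# Averages over small windows
-/

set_option autoImplicit false

open Filter Topology Real MeasureTheory Set ProbabilityTheory
open scoped ContDiff

namespace Pool.Agent.Zk91.KB

open Pool.Agent.Zk60.BW (TT TT_nonneg VV VV_le QQ QQ_nonneg)
open Pool.Agent.N661.BR (J0)

variable {ν : ℕ} {K : Kal ν} {k : ℕ}

/-- the error -/
noncomputable def err (T : ℝ) (n : ℕ) : ℝ :=
  1 * (4 * ((1 / 4) ^ (n + 1) * Real.exp (4 * T ^ 2))) +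
    2 * (Real.exp (√((n + 1 : ℕ) : ℝ) * T) * Real.exp (-((n + 1 : ℕ) : ℝ))) +
    1 * (T ^ 3 / √((n + 1 : ℕ) : ℝ) + T ^ 4 / ((n + 1 : ℕ) : ℝ))

theorem tendsto_err1 (T : ℝ) : Tendsto (err T) atTop (𝓝 0) := tendsto_err 1 T

theorem win {n : ℕ} (d : Num K.D (K.B + K.B) n) (R : ℕ) (M : Measure ℂ) [IsFiniteMeasure M]
    (hV : 0 < M.real univ)
    (hδ : ∀ A B : ℤ, ¬ (A = 0 ∧ B = 0) →
      ‖∫ z, Complex.exp ((((K.a * R) * A * z.re + (K.b * R) * B * z.im : ℝ) : ℂ) *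
        Complex.I) ∂M‖ ≤ M.real univ * Real.exp (-((n + 1 : ℕ) : ℝ)))
    {G : Fin (n + 1) → X4 → ℝ} {V : Fin (n + 1) → ℝ} {T : ℝ} (hI : Ind P4 G V T) (hT : 0 ≤ T)
    (hTn : 4 * T ^ 2 ≤ ((n + 1 : ℕ) : ℝ))
    (hG : ∀ i, TB (n + 1) (K.B + K.B) T fun x => ((G i (x i) : ℝ) : ℂ)) :
    ‖((1 / M.real univ : ℝ) : ℂ) * (∫ z, Complex.exp
      ((SS G (Ph (K.a * R) (K.b * R) d.l d.m z) : ℝ) * Complex.I) ∂M) -
      ((Real.exp (-((1 / ((n + 1 : ℕ) : ℝ)) * ∑ i, V i) / 2) : ℝ) : ℂ)‖ ≤ err T n := by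
  set v := M.real univ with hv
  have c1 := compare M (K.a * R) (K.b * R) (v * Real.exp (-((n + 1 : ℕ) : ℝ))) d.l d.m d.rel hδ
    (by positivity) hI hT hG (Nat.succ_pos n) hTn
  have c2 := hI.char_sum hT (Nat.succ_pos n) hTn
  rw [← hv] at c1
  set E1 := ∫ z, Complex.exp ((SS G (Ph (K.a * R) (K.b * R) d.l d.m z) : ℝ) * Complex.I) ∂M
  set E2 := ∫ x, Complex.exp ((SS G x : ℝ) * Complex.I) ∂(Pn P4 (n + 1))
  set E3 := ((Real.exp (-((1 / ((n + 1 : ℕ) : ℝ)) * ∑ i, V i) / 2) : ℝ) : ℂ)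
  have hvC : (v : ℂ) ≠ 0 := by exact_mod_cast hV.ne'
  have e : ((1 / v : ℝ) : ℂ) * E1 - E3 = ((1 / v : ℝ) : ℂ) * (E1 - (v : ℂ) * E2) + (E2 - E3) := by
    push_cast
    field_simp
    ring
  rw [e]
  refine (norm_add_le _ _).trans ?_
  unfold err
  refine add_le_add ?_ ?_
  · rw [norm_mul, Complex.norm_real, Real.norm_eq_abs, abs_of_pos (by positivity)]
    calc 1 / v * ‖E1 - (v : ℂ) * E2‖ ≤ 1 / v * (v * (4 * ((1 / 4) ^ (n + 1) *
          Real.exp (4 * T ^ 2))) + 2 * (Real.exp (√((n + 1 : ℕ) : ℝ) * T) *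
          (v * Real.exp (-((n + 1 : ℕ) : ℝ))))) := mul_le_mul_of_nonneg_left c1 (by positivity)
      _ = _ := by
          field_simp
  · rw [one_mul]
    exact c2

theorem win_sq {n : ℕ} (d : Num K.D (K.B + K.B) n) (R : ℕ) (M : Measure ℂ) [IsFiniteMeasure M]
    (hV : 0 < M.real univ)
    (hδ : ∀ A B : ℤ, ¬ (A = 0 ∧ B = 0) →
      ‖∫ z, Complex.exp ((((K.a * R) * A * z.re + (K.b * R) * B * z.im : ℝ) : ℂ) *
        Complex.I) ∂M‖ ≤ M.real univ * Real.exp (-((n + 1 : ℕ) : ℝ)))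
    {G : Fin (n + 1) → X4 → ℝ} {V : Fin (n + 1) → ℝ} {T : ℝ} (hI : Ind P4 G V T)
    (hG : ∀ i, TB (n + 1) (K.B + K.B) T fun x => ((G i (x i) : ℝ) : ℂ)) :
    |(1 / M.real univ) * (∫ z, SS G (Ph (K.a * R) (K.b * R) d.l d.m z) ^ 2 ∂M) -
      (1 / ((n + 1 : ℕ) : ℝ)) * ∑ i, V i| ≤
      (√((n + 1 : ℕ) : ℝ) * T) ^ 2 * Real.exp (-((n + 1 : ℕ) : ℝ)) := by
  set v := M.real univ with hv
  have c1 := compare_sq M (K.a * R) (K.b * R) (v * Real.exp (-((n + 1 : ℕ) : ℝ))) d.l d.m d.rel hδ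
    (by positivity) hI hG (Nat.succ_pos n)
  rw [← hv] at c1
  set E1 := ∫ z, SS G (Ph (K.a * R) (K.b * R) d.l d.m z) ^ 2 ∂M
  set E2 := (1 / ((n + 1 : ℕ) : ℝ)) * ∑ i, V i
  have e : (1 / v) * E1 - E2 = (1 / v) * (E1 - v * E2) := by
    field_simp
  rw [e, abs_mul, abs_of_pos (by positivity)]
  calc 1 / v * |E1 - v * E2| ≤ 1 / v * ((√((n + 1 : ℕ) : ℝ) * T) ^ 2 *
        (v * Real.exp (-((n + 1 : ℕ) : ℝ)))) := mul_le_mul_of_nonneg_left c1 (by positivity)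
    _ = _ := by field_simp

theorem exp_sub_le (x y : ℝ) (hx : 0 ≤ x) (hy : 0 ≤ y) :
    ‖((Real.exp (-x / 2) : ℝ) : ℂ) - ((Real.exp (-y / 2) : ℝ) : ℂ)‖ ≤ |x - y| / 2 := by
  rw [← Complex.ofReal_sub, Complex.norm_real, Real.norm_eq_abs]
  have key : ∀ a b : ℝ, 0 ≤ a → a ≤ b → Real.exp (-a / 2) - Real.exp (-b / 2) ≤ (b - a) / 2 := by
    intro a b ha hab
    have h1 : Real.exp (-b / 2) = Real.exp (-a / 2) * Real.exp (-(b - a) / 2) := by
      rw [← Real.exp_add]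
      congr 1
      ring
    have h2 := Real.add_one_le_exp (-(b - a) / 2)
    have h3 : Real.exp (-a / 2) ≤ 1 := Real.exp_le_one_iff.2 (by linarith)
    have h4 := Real.exp_pos (-a / 2)
    have h5 : 0 ≤ 1 - Real.exp (-(b - a) / 2) := by
      have : Real.exp (-(b - a) / 2) ≤ 1 := Real.exp_le_one_iff.2 (by linarith)
      linarith
    rw [h1]
    nlinarith
  rcases le_total x y with h | h
  · have h1 : Real.exp (-y / 2) ≤ Real.exp (-x / 2) := Real.exp_le_exp.2 (by linarith)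
    rw [abs_of_nonneg (by linarith), abs_of_nonpos (by linarith)]
    have := key x y hx h
    linarith
  · have h1 : Real.exp (-x / 2) ≤ Real.exp (-y / 2) := Real.exp_le_exp.2 (by linarith)
    rw [abs_of_nonpos (by linarith), abs_of_nonneg (by linarith)]
    have := key y x hy h
    linarith

/-! ### the choice of the scales -/

/-- the integer points and the scales -/
structure Sc (K : Kal ν) (ψ : ℝ → ℝ) where
  d : ∀ n, Num K.D (K.B + K.B) n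
  R : ℕ → ℕ
  pos : ∀ n, 0 < R n
  biga : ∀ n, 4 * (K.c * (d n).N / K.a) * Real.exp ((n + 1 : ℕ) : ℝ) ≤ ψ (K.lam (d n) (R n))
  bigb : ∀ n, 4 * (K.c * (d n).N / K.b) * Real.exp ((n + 1 : ℕ) : ℝ) ≤ ψ (K.lam (d n) (R n))

theorem tendsto_lam_R {n : ℕ} (d : Num K.D (K.B + K.B) n) :
    Tendsto (fun R : ℕ => K.lam d R) atTop atTop := by
  have hc := K.hc
  have hN := d.N_pos
  have h1 : Tendsto (fun R : ℕ => K.c * d.N * (R : ℝ)) atTop atTop :=
    tendsto_natCast_atTop_atTop.const_mul_atTop (by positivity)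
  have h2 := (tendsto_pow_atTop (two_ne_zero)).comp h1
  refine h2.congr fun R => ?_
  unfold Kal.lam
  simp only [Function.comp]
  ring

theorem exists_sc (K : Kal ν) (ψ : ℝ → ℝ) (hψ : Tendsto ψ atTop atTop) : Nonempty (Sc K ψ) := by
  have h : ∀ n : ℕ, ∃ (R : ℕ), 0 < R ∧
      4 * (K.c * ((exists_num K.D K.hD (K.B + K.B) n).some).N / K.a) *
        Real.exp ((n + 1 : ℕ) : ℝ) ≤ ψ (K.lam ((exists_num K.D K.hD (K.B + K.B) n).some) R) ∧
      4 * (K.c * ((exists_num K.D K.hD (K.B + K.B) n).some).N / K.b) *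
        Real.exp ((n + 1 : ℕ) : ℝ) ≤ ψ (K.lam ((exists_num K.D K.hD (K.B + K.B) n).some) R) := by
    intro n
    have h1 := hψ.comp (tendsto_lam_R (K := K) ((exists_num K.D K.hD (K.B + K.B) n).some))
    have h2 := ((eventually_gt_atTop 0).and (h1.eventually_ge_atTop
      (4 * (K.c * ((exists_num K.D K.hD (K.B + K.B) n).some).N / K.a) *
        Real.exp ((n + 1 : ℕ) : ℝ)))).and (h1.eventually_ge_atTop
      (4 * (K.c * ((exists_num K.D K.hD (K.B + K.B) n).some).N / K.b) *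
        Real.exp ((n + 1 : ℕ) : ℝ)))
    obtain ⟨R, ⟨hR, hR1⟩, hR2⟩ := h2.exists
    exact ⟨R, hR, hR1, hR2⟩
  choose R hR0 hR1 hR2 using h
  exact ⟨⟨fun n => (exists_num K.D K.hD (K.B + K.B) n).some, R, hR0, hR1, hR2⟩⟩

theorem tendsto_lam' (d : ∀ n, Num K.D (K.B + K.B) n) (R : ℕ → ℕ) (pos : ∀ n, 0 < R n) :
    Tendsto (fun n => K.lam (d n) (R n)) atTop atTop := by
  have hc := K.hc
  have h1 : Tendsto (fun n : ℕ => K.c ^ 2 * (2 : ℝ) ^ n) atTop atTop :=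
    (tendsto_pow_atTop_atTop_of_one_lt (by norm_num : (1 : ℝ) < 2)).const_mul_atTop (by positivity)
  refine tendsto_atTop_mono (fun n => ?_) h1
  have h2 : (2 : ℝ) ^ n ≤ (d n).N := by
    have h3 : 2 ^ n ≤ (d n).N :=
      (Nat.pow_le_pow_right (by norm_num) (Nat.le_succ n)).trans (d n).big
    exact_mod_cast h3
  have h4 : (1 : ℝ) ≤ (2 : ℝ) ^ n := one_le_pow₀ (by norm_num)
  have h5 : (1 : ℝ) ≤ R n := by exact_mod_cast pos n
  unfold Kal.lam
  have h6 : (2 : ℝ) ^ n ≤ R n * (d n).N := by nlinarith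
  have e : (K.c * R n * (d n).N) ^ 2 = K.c ^ 2 * (R n * (d n).N) ^ 2 := by ring
  rw [e]
  refine mul_le_mul_of_nonneg_left ?_ (by positivity)
  nlinarith

variable {ψ : ℝ → ℝ}

/-- the windows -/
def Window (ψ : ℝ → ℝ) (lam : ℝ) (C : Set ℂ) : Prop :=
  Convex ℝ C ∧ Bornology.IsBounded C ∧ 0 < volume.real C ∧
    ψ lam * Metric.diam C ≤ √lam * volume.real C

theorem Sc.osc (s : Sc K ψ) (n : ℕ) (C : Set ℂ) (hC : Window ψ (K.lam (s.d n) (s.R n)) C)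
    (hm : MeasurableSet C) (A B : ℤ) (hAB : ¬ (A = 0 ∧ B = 0)) :
    ‖∫ z in C, Complex.exp ((((K.a * s.R n) * A * z.re + (K.b * s.R n) * B * z.im : ℝ) : ℂ) *
      Complex.I)‖ ≤ volume.real C * Real.exp (-((n + 1 : ℕ) : ℝ)) := by
  obtain ⟨h1, h2, h3, h4⟩ := hC
  have hN := (s.d n).N_pos
  have hR : (0 : ℝ) < s.R n := by exact_mod_cast s.pos n
  have ha := K.ha
  have hb := K.hb
  have hc := K.hc
  rw [K.sqrt_lam] at h4
  have hdiam : 0 ≤ Metric.diam C := Metric.diam_nonneg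
  have hE : 0 < Real.exp ((n + 1 : ℕ) : ℝ) := Real.exp_pos _
  have key : ∀ a : ℝ, 0 < a →
      4 * (K.c * (s.d n).N / a) * Real.exp ((n + 1 : ℕ) : ℝ) ≤ ψ (K.lam (s.d n) (s.R n)) →
      4 * Metric.diam C ≤ volume.real C * Real.exp (-((n + 1 : ℕ) : ℝ)) * (a * s.R n) := by
    intro a ha' hbig
    have h5 := (mul_le_mul_of_nonneg_right hbig hdiam).trans h4
    have h6 : 4 * Metric.diam C * (K.c * (s.d n).N * Real.exp ((n + 1 : ℕ) : ℝ)) ≤
        (volume.real C * (a * s.R n)) * (K.c * (s.d n).N) := by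
      have e1 : 4 * Metric.diam C * (K.c * (s.d n).N * Real.exp ((n + 1 : ℕ) : ℝ)) =
          a * (4 * (K.c * (s.d n).N / a) * Real.exp ((n + 1 : ℕ) : ℝ) * Metric.diam C) := by
        field_simp
      have e2 : (volume.real C * (a * s.R n)) * (K.c * (s.d n).N) =
          a * (K.c * (s.R n) * (s.d n).N * volume.real C) := by ring
      rw [e1, e2]
      exact mul_le_mul_of_nonneg_left h5 ha'.le
    have h7 : 0 < K.c * (s.d n).N := by positivity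
    have h8 : 4 * Metric.diam C * Real.exp ((n + 1 : ℕ) : ℝ) ≤ volume.real C * (a * s.R n) := by
      refine le_of_mul_le_mul_right ?_ h7
      linarith
    rw [Real.exp_neg]
    calc 4 * Metric.diam C = (4 * Metric.diam C * Real.exp ((n + 1 : ℕ) : ℝ)) *
          (Real.exp ((n + 1 : ℕ) : ℝ))⁻¹ := by field_simp
      _ ≤ (volume.real C * (a * s.R n)) * (Real.exp ((n + 1 : ℕ) : ℝ))⁻¹ :=
          mul_le_mul_of_nonneg_right h8 (by positivity)
      _ = _ := by ring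
  have fin : ∀ a : ℝ, 0 < a → ∀ A : ℤ, A ≠ 0 →
      4 * (K.c * (s.d n).N / a) * Real.exp ((n + 1 : ℕ) : ℝ) ≤ ψ (K.lam (s.d n) (s.R n)) →
      4 * Metric.diam C / |a * s.R n * A| ≤ volume.real C * Real.exp (-((n + 1 : ℕ) : ℝ)) := by
    intro a ha' A hA hbig
    have h5 : (1 : ℝ) ≤ |(A : ℝ)| := by
      have := Int.one_le_abs hA
      exact_mod_cast this
    have h6 : a * s.R n ≤ |a * s.R n * A| := by
      rw [abs_mul, abs_of_pos (by positivity)]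
      exact le_mul_of_one_le_right (by positivity) h5
    rw [div_le_iff₀ (lt_of_lt_of_le (by positivity) h6)]
    exact (key a ha' hbig).trans (mul_le_mul_of_nonneg_left h6 (by positivity))
  obtain ⟨o1, o2⟩ := osc_convex C h1 hm h2 (K.a * s.R n * A) (K.b * s.R n * B)
  by_cases hA : A = 0
  · have hB : B ≠ 0 := fun hB => hAB ⟨hA, hB⟩
    have hB' : (B : ℝ) ≠ 0 := by exact_mod_cast hB
    exact (o2 (mul_ne_zero (mul_ne_zero hb.ne' hR.ne') hB')).trans (fin K.b hb B hB (s.bigb n))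
  · have hA' : (A : ℝ) ≠ 0 := by exact_mod_cast hA
    exact (o1 (mul_ne_zero (mul_ne_zero ha.ne' hR.ne') hA')).trans (fin K.a ha A hA (s.biga n))

end Pool.Agent.Zk91.KB
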